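import Pool.Agent.Work.MP_cd0fff_al.Dedekind

/-!
Finite `2`-groups all of whose subgroups are normal: the structure theorem.
-/

set_option linter.unusedSimpArgs false
set_option linter.unusedSectionVars false

universe u

namespace Pool.Agent.Work.MP_cd0fff_al

open Subgroup Module

variable {G : Type u} [Group G]

/-- the centraliser of `x` and `y` in `S` -/
def CQ (S : Subgroup G) (x y : G) : Subgroup G where
  carrier := {c | c ∈ S ∧ c * x = x * c ∧ c * y = y * c}
  one_mem' := ⟨S.one_mem, by group, by group⟩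
  mul_mem' := by
    rintro c d ⟨hc, h1, h2⟩ ⟨hd, h3, h4⟩
    exact ⟨mul_mem hc hd, by rw [mul_assoc, h3, ← mul_assoc, h1, mul_assoc],
      by rw [mul_assoc, h4, ← mul_assoc, h2, mul_assoc]⟩
  inv_mem' := by
    rintro c ⟨hc, h1, h2⟩
    refine ⟨inv_mem hc, ?_, ?_⟩
    · calc c⁻¹ * x = c⁻¹ * (x * c) * c⁻¹ := by group
        _ = x * c⁻¹ := by rw [← h1]; group
    · calc c⁻¹ * y = c⁻¹ * (y * c) * c⁻¹ := by group
        _ = y * c⁻¹ := by rw [← h2]; group

theorem mem_CQ {S : Subgroup G} {x y c : G} :
    c ∈ CQ S x y ↔ c ∈ S ∧ c * x = x * c ∧ c * y = y * c := Iff.rfl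

section

variable {S : Subgroup G} {x y t : G}

theorem ded_t (hD : IsDedekindSubgroup S) (htS : t ∈ S) (htt : t * t = 1) {s : G} (hs : s ∈ S) :
    s * t = t * s := by
  obtain ⟨i, hi⟩ := ded_conj hD htS hs
  rcases zpow_invol htt i with h | h
  · rw [h] at hi
    have : t = 1 := by
      calc t = s⁻¹ * (s * t * s⁻¹) * s := by group
        _ = 1 := by rw [hi]; group
    rw [this]; group
  · rw [h] at hi
    calc s * t = (s * t * s⁻¹) * s := by group
      _ = t * s := by rw [hi]

theorem ded_x (hD : IsDedekindSubgroup S) (hx : x ∈ S) (hxx : x * x = t) (htt : t * t = 1)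
    (ht : t ≠ 1) {s : G} (hs : s ∈ S) : s * x = x * s ∨ s * x = t * (x * s) := by
  have htS : t ∈ S := by rw [← hxx]; exact mul_mem hx hx
  have hst := ded_t hD htS htt hs
  obtain ⟨i, hi⟩ := ded_conj hD hx hs
  have hsq : (s * x * s⁻¹) * (s * x * s⁻¹) = t := by
    calc (s * x * s⁻¹) * (s * x * s⁻¹) = s * (x * x) * s⁻¹ := by group
      _ = t := by rw [hxx, hst]; group
  have hi' : x ^ i ∈ zpowers x := zpow_mem (mem_zpowers x) i
  rw [← hi] at hi'
  rcases mem_zpowers_four htt hxx hi' with h | h | h | h
  · rw [h, one_mul] at hsq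
    exact absurd hsq.symm ht
  · rw [h, htt] at hsq
    exact absurd hsq.symm ht
  · left
    calc s * x = (s * x * s⁻¹) * s := by group
      _ = x * s := by rw [h]
  · right
    calc s * x = (s * x * s⁻¹) * s := by group
      _ = t * (x * s) := by rw [h, mul_assoc]

theorem ded_decomp (hD : IsDedekindSubgroup S) (hx : x ∈ S) (hy : y ∈ S) (hxx : x * x = t)
    (hyy : y * y = t) (htt : t * t = 1) (ht : t ≠ 1) (hxy : x * y = t * (y * x)) {s : G}
    (hs : s ∈ S) : ∃ p, (p = 1 ∨ p = x ∨ p = y ∨ p = x * y) ∧ p * s ∈ CQ S x y := by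
  have htS : t ∈ S := by rw [← hxx]; exact mul_mem hx hx
  have hst := ded_t hD htS htt hs
  have hxt := ded_t hD htS htt hx
  have hyt := ded_t hD htS htt hy
  have hyx : y * x = t * (x * y) := by rw [hxy, ← mul_assoc, htt, one_mul]
  rcases ded_x hD hx hxx htt ht hs with h | h <;> rcases ded_x hD hy hyy htt ht hs with h' | h'
  · exact ⟨1, Or.inl rfl, by rw [one_mul]; exact ⟨hs, h, h'⟩⟩
  · refine ⟨x, Or.inr (Or.inl rfl), mul_mem hx hs, ?_, ?_⟩
    · simp only [mul_assoc, h]
    · simp only [mul_assoc, h', asc hxt, asc hyx, asc htt, one_mul]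
  · refine ⟨y, Or.inr (Or.inr (Or.inl rfl)), mul_mem hy hs, ?_, ?_⟩
    · simp only [mul_assoc, h, asc hyt, asc hyx, asc htt, one_mul]
    · simp only [mul_assoc, h']
  · refine ⟨x * y, Or.inr (Or.inr (Or.inr rfl)), mul_mem (mul_mem hx hy) hs, ?_, ?_⟩
    · simp only [mul_assoc, h, asc hyt, asc hyx, asc htt, one_mul, asc hxt]
    · simp only [mul_assoc, h', asc hyt, asc hyx, asc htt, one_mul, asc hxt]

theorem ded_C (hD : IsDedekindSubgroup S) (hS : IsPGroup 2 S) (hx : x ∈ S) (hy : y ∈ S)
    (hxx : x * x = t) (htt : t * t = 1) (ht : t ≠ 1) (hxy : x * y = t * (y * x)) {c : G}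
    (hc : c ∈ CQ S x y) : c * c = 1 := by
  have htS : t ∈ S := by rw [← hxx]; exact mul_mem hx hx
  have hxt := ded_t hD htS htt hx
  have hyt := ded_t hD htS htt hy
  have hyx : y * x = t * (x * y) := by rw [hxy, ← mul_assoc, htt, one_mul]
  have hne : x * y ≠ y * x := by
    intro h
    rw [h] at hxy
    exact ht (mul_eq_right.1 hxy.symm)
  obtain ⟨hcS, hcx, hcy⟩ := hc
  have hct := ded_t hD htS htt hcS
  obtain ⟨i, hi⟩ := ded_conj hD (mul_mem hcS hx) hy
  have h1 : y * (c * x) * y⁻¹ = t * (c * x) := by
    have : y * (c * x) = t * (c * x) * y := by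
      simp only [mul_assoc, asc hcy.symm, hyx, asc hct]
    rw [this]; group
  have hww : (c * x) * (c * x) = (c * c) * t := by
    calc (c * x) * (c * x) = c * (x * c) * x := by group
      _ = (c * c) * (x * x) := by rw [← hcx]; group
      _ = (c * c) * t := by rw [hxx]
  rw [hi] at h1
  set w := c * x with hw
  have h2 : w ^ (i - 1) = t := by rw [zpow_sub_one, h1]; group
  have hcyy : Commute (c * c) y := (show Commute c y from hcy).mul_left hcy
  have hty : Commute t y := hyt.symm
  rcases Int.even_or_odd' (i - 1) with ⟨l, hl | hl⟩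
  · have h3 : (c * c) ^ l * t ^ l = t := by
      have hcct : Commute (c * c) t := (show Commute c t from hct).mul_left hct
      rw [← hcct.mul_zpow, ← hww, ← pow_two w, ← zpow_natCast w 2, ← zpow_mul]
      rw [hl] at h2
      push_cast
      exact h2
    rcases Int.even_or_odd' l with ⟨r, hr | hr⟩
    · exfalso
      have h4 : t ^ l = 1 := by rw [hr, zpow_mul, zpow_ofNat, pow_two, htt, one_zpow]
      rw [h4, mul_one] at h3
      have h5 : (c * c) ^ l = (c * c) ^ r * (c * c) ^ r := by
        rw [hr, two_mul, zpow_add]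
      set d := (c * c) ^ r with hd
      rw [h5] at h3
      have hdx : d * x = x * d := by
        have : Commute (c * c) x := (show Commute c x from hcx).mul_left hcx
        exact this.zpow_left r
      have hdy : d * y = y * d := hcyy.zpow_left r
      have hdt : d * t = t * d := by rw [← h3]; group
      have hdS : d ∈ S := zpow_mem (mul_mem hcS hcS) r
      have h6 : (d * x) * (d * x) = 1 := by
        calc (d * x) * (d * x) = d * (x * d) * x := by group
          _ = (d * d) * (x * x) := by rw [← hdx]; group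
          _ = 1 := by rw [h3, hxx, htt]
      have h7 := ded_t hD (mul_mem hdS hx) h6 hy
      apply hne
      have h8 : d * (x * y) = d * (y * x) := by
        calc d * (x * y) = d * x * y := by group
          _ = y * (d * x) := h7.symm
          _ = (y * d) * x := by group
          _ = d * (y * x) := by rw [← hdy]; group
      exact mul_left_cancel h8
    · have h4 : t ^ l = t := by
        rw [hr, zpow_add, zpow_mul, zpow_ofNat, pow_two, htt, one_zpow, one_mul, zpow_one]
      rw [h4] at h3
      have h5 : (c * c) ^ l = 1 := mul_eq_right.1 h3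
      obtain ⟨n, hn⟩ := (isPGroup_iff_pow_pow_eq_one.1 hS) ⟨c * c, mul_mem hcS hcS⟩
      have hn' : (c * c) ^ 2 ^ n = 1 := by
        have := congrArg Subtype.val hn
        simpa using this
      exact eq_one_of_odd hn' ⟨r, hr⟩ h5
  · exfalso
    rw [hl, zpow_add, zpow_one, zpow_mul, zpow_ofNat, pow_two, hww] at h2
    have h3 : w = ((c * c * t) ^ l)⁻¹ * t := eq_inv_mul_iff_mul_eq.2 h2
    have h4 : Commute w y := by
      rw [h3]
      exact ((hcyy.mul_left hty).zpow_left l).inv_left.mul_left hty
    apply hne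
    have h8 : c * (x * y) = c * (y * x) := by
      calc c * (x * y) = w * y := by rw [hw]; group
        _ = y * w := h4
        _ = (y * c) * x := by rw [hw]; group
        _ = c * (y * x) := by rw [← hcy]; group
    exact mul_left_cancel h8

/-- the structure theorem -/
theorem ded_structure [Finite G] (hD : IsDedekindSubgroup S) (hS : IsPGroup 2 S)
    (hx : x ∈ S) (hy : y ∈ S) (hxx : x * x = t) (hyy : y * y = t) (htt : t * t = 1) (ht : t ≠ 1)
    (hxy : x * y = t * (y * x)) :
    ∃ n : ℕ, Nonempty (S ≃* QuaternionGroup 2 × Multiplicative (Fin n → ZMod 2)) := by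
  classical
  have htS : t ∈ S := by rw [← hxx]; exact mul_mem hx hx
  have hxt := ded_t hD htS htt hx
  have hyt := ded_t hD htS htt hy
  have hyx : y * x = t * (x * y) := by rw [hxy, ← mul_assoc, htt, one_mul]
  have hne : x * y ≠ y * x := by
    intro h
    rw [h] at hxy
    exact ht (mul_eq_right.1 hxy.symm)
  have htC : t ∈ CQ S x y := ⟨htS, hxt.symm, hyt.symm⟩
  set C := CQ S x y with hC
  have hCsq : ∀ c ∈ C, c * c = 1 := fun c hc => ded_C hD hS hx hy hxx htt ht hxy hc
  -- the quaternion group
  have hx4 : x ^ (2 * 2) = 1 := by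
    rw [pow_mul, pow_two, pow_two, hxx, htt]
  have hyy' : y * y = x ^ 2 := by rw [hyy, pow_two, hxx]
  have hxinv : x⁻¹ = t * x := by
    rw [inv_eq_iff_mul_eq_one, ← mul_assoc, hxt, mul_assoc, hxx, htt]
  have hyx' : y * x = x⁻¹ * y := by rw [hxinv, hyx, mul_assoc]
  set f : QuaternionGroup 2 →* G := homQ hx4 hyy' hyx' with hf
  have hord : orderOf x = 4 := by
    have h1 : ¬ x ^ 2 ^ 1 = 1 := by rw [pow_one, pow_two, hxx]; exact ht
    have h2 : x ^ 2 ^ (1 + 1) = 1 := by
      have : x ^ 2 ^ (1 + 1) = x ^ (2 * 2) := by norm_num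
      rw [this, hx4]
    have h3 := orderOf_eq_prime_pow h1 h2
    rw [h3]; norm_num
  have hynot : ∀ i : ℕ, (y * x ^ i) * x ≠ x * (y * x ^ i) := by
    intro i h
    apply hne
    have h1 : (y * x) * x ^ i = (x * y) * x ^ i := by
      calc (y * x) * x ^ i = y * (x * x ^ i) := by group
        _ = y * x ^ i * x := by rw [← pow_succ', pow_succ]; group
        _ = (x * y) * x ^ i := by rw [h]; group
    exact (mul_right_cancel h1).symm
  have hfinj : Function.Injective f := by
    rw [injective_iff_map_eq_one]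
    rintro (i | i) h
    · have := val_eq_zero_of_pow (m := 2 * 2) hord h
      rw [this]; rfl
    · exfalso
      apply hynot i.val
      have h' : y * x ^ i.val = 1 := h
      rw [h']; group
  have hfx : f (.a 1) = x := by
    show x ^ (1 : ZMod (2 * 2)).val = x
    rw [show (1 : ZMod (2 * 2)).val = 1 from rfl, pow_one]
  have hfy : f (.xa 0) = y := by
    show y * x ^ (0 : ZMod (2 * 2)).val = y
    rw [ZMod.val_zero, pow_zero, mul_one]
  have hfS : ∀ p, f p ∈ S := by
    rintro (i | i)
    · exact pow_mem hx _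
    · exact mul_mem hy (pow_mem hx _)
  have hft : f (.a 2) = t := by
    have : (QuaternionGroup.a 2 : QuaternionGroup 2) = .a 1 * .a 1 := by decide
    rw [this, map_mul, hfx, hxx]
  -- elements of `f` commuting with `x` and `y`
  have hfC : ∀ p, f p ∈ C → f p = 1 ∨ f p = t := by
    rintro (i | i) ⟨-, h1, h2⟩
    · have h3 : f (.a i) ∈ zpowers x := by
        show x ^ i.val ∈ zpowers x
        exact pow_mem (mem_zpowers x) _
      rcases mem_zpowers_four htt hxx h3 with h | h | h | h
      · exact Or.inl h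
      · exact Or.inr h
      · exfalso; rw [h] at h2; exact hne h2
      · exfalso; rw [h] at h2
        apply hne
        have : t * (x * y) = t * (y * x) := by
          rw [← mul_assoc, h2, ← mul_assoc, hyt, mul_assoc]
        exact mul_left_cancel this
    · exact absurd h1 (hynot i.val)
  -- the vector space
  obtain ⟨V, _, _, _, q, hq, _⟩ := exists_quo (A := C) (K := ⊥) bot_le (by
      apply le_normalizer_of
      intro e _ y hy
      rw [mem_bot] at hy ⊢
      rw [hy]; group) (fun a ha => by rw [mem_bot]; exact hCsq a ha)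
  have hqt : q t ≠ 0 := by
    intro h
    exact ht (mem_bot.1 ((hq.ker t htC).1 h))
  obtain ⟨φ, hφ⟩ : ∃ φ : V →ₗ[ZMod 2] ZMod 2, φ (q t) = 1 := by
    by_contra hcon
    push Not at hcon
    apply hqt
    apply sep
    intro ψ
    rcases zmod2_cases (ψ (q t)) with h | h
    · exact h
    · exact absurd h (hcon ψ)
  choose r hrC hrq using hq.surj
  have hqinj : ∀ c ∈ C, ∀ d ∈ C, q c = q d → c = d := by
    intro c hc d hd h
    have h1 := mem_bot.1 ((hq.eq_iff hc hd).1 h)
    exact mul_inv_eq_one.1 h1
  have hradd : ∀ v w, r (v + w) = r v * r w := by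
    intro v w
    apply hqinj _ (hrC _) _ (mul_mem (hrC v) (hrC w))
    rw [hrq, hq.add _ (hrC v) _ (hrC w), hrq, hrq]
  set W := LinearMap.ker φ with hW
  set n := finrank (ZMod 2) W with hn
  have e : W ≃ₗ[ZMod 2] (Fin n → ZMod 2) := (Module.finBasis (ZMod 2) W).equivFun
  set g : Multiplicative (Fin n → ZMod 2) →* G :=
    { toFun := fun v => r (e.symm (Multiplicative.toAdd v) : V)
      map_one' := by
        show r (e.symm (0 : Fin n → ZMod 2) : V) = 1
        rw [map_zero]
        apply hqinj _ (hrC _) _ (one_mem _)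
        rw [hrq, hq.one]; rfl
      map_mul' := by
        intro v w
        show r (e.symm (Multiplicative.toAdd v + Multiplicative.toAdd w) : V) = _
        rw [map_add, ← hradd]; rfl } with hg
  have hgC : ∀ v, g v ∈ C := fun v => hrC _
  have hgφ : ∀ v, φ (q (g v)) = 0 := by
    intro v
    show φ (q (r (e.symm (Multiplicative.toAdd v) : V))) = 0
    rw [hrq]
    exact (e.symm (Multiplicative.toAdd v)).2
  have hgsurj : ∀ c ∈ C, φ (q c) = 0 → ∃ v, g v = c := by
    intro c hc h
    refine ⟨Multiplicative.ofAdd (e ⟨q c, h⟩), ?_⟩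
    show r (e.symm (e ⟨q c, h⟩) : V) = c
    apply hqinj _ (hrC _) _ hc
    rw [hrq, LinearEquiv.symm_apply_apply]
  have hcomm : ∀ p v, Commute (f p) (g v) := by
    intro p v
    have h1 := hgC v
    obtain ⟨-, h2, h3⟩ := h1
    have hcx : Commute x (g v) := h2.symm
    have hcy : Commute y (g v) := h3.symm
    rcases p with i | i
    · exact hcx.pow_left _
    · exact hcy.mul_left (hcx.pow_left _)
  refine ⟨n, nonempty_equiv (MonoidHom.noncommCoprod f g hcomm) ?_ ?_⟩
  · rw [injective_iff_map_eq_one]
    rintro ⟨p, v⟩ h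
    rw [MonoidHom.noncommCoprod_apply] at h
    have h' : f p * g v = 1 := h
    have h1 : f p = (g v)⁻¹ := eq_inv_of_mul_eq_one_left h'
    have h2 : f p ∈ C := by rw [h1]; exact inv_mem (hgC v)
    rcases hfC p h2 with h3 | h3
    · have hp : p = 1 := hfinj (by rw [h3, map_one])
      rw [h3, one_mul] at h'
      have h4 : q (g v) = 0 := by rw [h', hq.one]
      have h5 : q (g v) = (e.symm (Multiplicative.toAdd v) : V) := hrq _
      rw [h5] at h4
      have h6 : e.symm (Multiplicative.toAdd v) = 0 := Subtype.ext h4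
      have h7 : Multiplicative.toAdd v = 0 := by
        rw [← e.apply_symm_apply (Multiplicative.toAdd v), h6, map_zero]
      have h8 : v = 1 := h7
      rw [hp, h8]; rfl
    · exfalso
      rw [h3] at h'
      have h4 : g v = t := by
        have h5 := eq_inv_of_mul_eq_one_right h'
        rw [h5, inv_eq_iff_mul_eq_one]; exact htt
      have h5 := hgφ v
      rw [h4, hφ] at h5
      exact one_ne_zero h5
  · apply le_antisymm
    · rintro _ ⟨⟨p, v⟩, rfl⟩
      rw [MonoidHom.noncommCoprod_apply]
      exact mul_mem (hfS p) (hgC v).1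
    · intro s hs
      have hfr : ∀ p, f p ∈ (MonoidHom.noncommCoprod f g hcomm).range := fun p =>
        ⟨(p, 1), by rw [MonoidHom.noncommCoprod_apply, map_one, mul_one]⟩
      have hgr : ∀ v, g v ∈ (MonoidHom.noncommCoprod f g hcomm).range := fun v =>
        ⟨(1, v), by rw [MonoidHom.noncommCoprod_apply, map_one, one_mul]⟩
      have hxr := hfr (.a 1)
      have hyr := hfr (.xa 0)
      have htr := hfr (.a 2)
      rw [hfx] at hxr
      rw [hfy] at hyr
      rw [hft] at htr
      have hCr : ∀ c ∈ C, c ∈ (MonoidHom.noncommCoprod f g hcomm).range := by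
        intro c hc
        rcases zmod2_cases (φ (q c)) with h | h
        · obtain ⟨v, hv⟩ := hgsurj c hc h
          rw [← hv]; exact hgr v
        · obtain ⟨v, hv⟩ := hgsurj (t * c) (mul_mem htC hc) (by
            rw [hq.add t htC c hc, map_add, hφ, h]; decide)
          have : c = t * g v := by
            rw [hv, ← mul_assoc, htt, one_mul]
          rw [this]
          exact mul_mem htr (hgr v)
      obtain ⟨p, hp, hps⟩ := ded_decomp hD hx hy hxx hyy htt ht hxy hs
      have h1 := hCr _ hps
      have hpr : p ∈ (MonoidHom.noncommCoprod f g hcomm).range := by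
        rcases hp with h | h | h | h <;> rw [h]
        · exact one_mem _
        · exact hxr
        · exact hyr
        · exact mul_mem hxr hyr
      exact (Subgroup.mul_mem_cancel_left _ hpr).1 h1

end

theorem quat_conj : ∀ p q : QuaternionGroup 2, p * q * p⁻¹ = q ∨ p * q * p⁻¹ = q⁻¹ := by decide

/-- Dedekind `2`-groups. -/
theorem dedekind_iff [Finite G] {S : Subgroup G} (hS : IsPGroup 2 S) :
    IsDedekindSubgroup S ↔ (∀ s t : S, s * t = t * s) ∨
      ∃ n : ℕ, Nonempty (S ≃* QuaternionGroup 2 × Multiplicative (Fin n → ZMod 2)) := by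
  constructor
  · intro hD
    by_cases h : ∀ s t : S, s * t = t * s
    · exact Or.inl h
    · right
      push Not at h
      obtain ⟨s, t, hst⟩ := h
      obtain ⟨x, hx, y, hy, t, h1, h2, h3, h4, h5⟩ := exists_Q hD hS
        ⟨s, s.2, t, t.2, fun h => hst (Subtype.ext h)⟩
      exact ded_structure hD hS hx hy h1 h2 h3 h4 h5
  · rintro (h | ⟨n, ⟨e⟩⟩)
    · intro H hH
      apply le_normalizer_of
      intro s hs y hy
      have h1 : s * y = y * s := congrArg Subtype.val (h ⟨s, hs⟩ ⟨y, hH hy⟩)
      have : s * y * s⁻¹ = y := by rw [h1]; group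
      rw [this]; exact hy
    · intro H hH
      apply le_normalizer_of
      intro s hs y hy
      have key : (⟨s, hs⟩ : S) * ⟨y, hH hy⟩ * ⟨s, hs⟩⁻¹ = ⟨y, hH hy⟩ ∨
          (⟨s, hs⟩ : S) * ⟨y, hH hy⟩ * ⟨s, hs⟩⁻¹ = ⟨y, hH hy⟩⁻¹ := by
        have hv : ∀ v w : Multiplicative (Fin n → ZMod 2), v * w * v⁻¹ = w ∧ w⁻¹ = w := by
          intro v w
          refine ⟨by rw [mul_comm v w]; group, ?_⟩
          show Multiplicative.ofAdd (-(Multiplicative.toAdd w)) = w
          rw [show -(Multiplicative.toAdd w) = Multiplicative.toAdd w from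
            funext fun i => ZMod.neg_eq_self_mod_two _]
          rfl
        rcases quat_conj (e ⟨s, hs⟩).1 (e ⟨y, hH hy⟩).1 with h | h
        · left
          apply e.injective
          rw [map_mul, map_mul, map_inv]
          exact Prod.ext h (hv _ _).1
        · right
          apply e.injective
          rw [map_mul, map_mul, map_inv, map_inv]
          exact Prod.ext h ((hv _ _).1.trans (hv (e ⟨s, hs⟩).2 _).2.symm)
      rcases key with h | h
      · have h1 : s * y * s⁻¹ = y := congrArg Subtype.val h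
        rw [h1]; exact hy
      · have h1 : s * y * s⁻¹ = y⁻¹ := congrArg Subtype.val h
        rw [h1]; exact inv_mem hy

end Pool.Agent.Work.MP_cd0fff_al
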