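import Mathlib

/-!
Linear algebra over the field with two elements: sets of involutions in which any two
have a product of odd order.
-/

set_option linter.unusedSimpArgs false
set_option linter.unusedTactic false

namespace Pool.Agent.Work.MP_cd0fff_al

variable {V : Type*} [AddCommGroup V] [Module (ZMod 2) V]

theorem dbl (v : V) : v + v = 0 := ZModModule.add_self v

theorem c2_of {a b : V} (h : a + b = 0) : a = b := by
  have : a + b + b = b := by rw [h, zero_add]
  rwa [add_assoc, dbl, add_zero] at this

theorem smeven (v : V) (n : ℤ) (h : n % 2 = 0) : n • v = 0 := by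
  have : n = (n / 2) * 2 := by omega
  rw [this, mul_smul, two_smul, dbl, smul_zero]

/-- A set of involutory (or trivial) linear maps, closed under conjugation, in which any two
have a product of odd order. -/
structure InvSet (T : Set (Module.End (ZMod 2) V)) : Prop where
  sq : ∀ t ∈ T, ∀ v, t (t v) = v
  conj : ∀ t ∈ T, ∀ r ∈ T, t * r * t ∈ T
  odd : ∀ t ∈ T, ∀ r ∈ T, ∃ n : ℕ, Odd n ∧ (t * r) ^ n = 1

theorem end_inj {t : Module.End (ZMod 2) V} (ht : ∀ v, t (t v) = v) {x y : V} (h : t x = t y) :
    x = y := by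
  rw [← ht x, h, ht]

theorem pow_fix {g : Module.End (ZMod 2) V} {x : V} (h : g x = x) (k : ℕ) : (g ^ k) x = x := by
  induction k with
  | zero => simp
  | succ k ih => rw [pow_succ', Module.End.mul_apply, ih, h]

theorem odd_fix {g : Module.End (ZMod 2) V} {n : ℕ} (hn : Odd n) (hg : g ^ n = 1) {x : V}
    (h4 : (g ^ 4) x = x) : g x = x := by
  obtain ⟨m, rfl⟩ := hn
  have h1 : g ^ ((2 * m + 1) * (2 * m + 1)) = 1 := by rw [pow_mul, hg, one_pow]
  have h2 : (2 * m + 1) * (2 * m + 1) = 4 * (m * m + m) + 1 := by ring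
  rw [h2, pow_succ', pow_mul] at h1
  have h3 := congrArg (fun f => f x) h1
  simp only [Module.End.mul_apply, Module.End.one_apply] at h3
  rwa [pow_fix h4] at h3

/-- If `g` has odd order and `g^3` moves `x` by a `g^3`-fixed vector, this vector is zero. -/
theorem odd_cube {g : Module.End (ZMod 2) V} {n : ℕ} (hn : Odd n) (hg : g ^ n = 1) {x d : V}
    (h3 : (g ^ 3) x = x + d) (hd : (g ^ 3) d = d) : d = 0 := by
  have key : ∀ k : ℕ, ((g ^ 3) ^ (2 * k + 1)) x = x + d := by
    intro k
    induction k with
    | zero => simpa using h3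
    | succ k ih =>
      have e : (g ^ 3) ^ (2 * (k + 1) + 1) = g ^ 3 * (g ^ 3 * (g ^ 3) ^ (2 * k + 1)) := by
        rw [← pow_succ', ← pow_succ']
        congr 1
      rw [e, Module.End.mul_apply, Module.End.mul_apply, ih, map_add, h3,
        hd, map_add, map_add, h3, hd]
      (apply c2_of; (try abel_nf); (try simp (disch := norm_num) only [smeven, add_zero, zero_add]))
  obtain ⟨m, rfl⟩ := hn
  have h1 := key m
  rw [← pow_mul, mul_comm 3, pow_mul, hg, one_pow, Module.End.one_apply] at h1
  simpa using h1.symm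

/-- Two members of an `InvSet` are conjugate. -/
theorem InvSet.exists_conj {T : Set (Module.End (ZMod 2) V)} (hT : InvSet T)
    {s t : Module.End (ZMod 2) V} (hs : s ∈ T) (ht : t ∈ T) :
    ∃ m : ℕ, ∀ v, ((t * s) ^ m) (((s * t) ^ m) v) = v ∧
      ((s * t) ^ m) (((t * s) ^ m) v) = v ∧ t v = ((s * t) ^ m) (s (((t * s) ^ m) v)) := by
  have hst : (s * t) * (t * s) = 1 := by
    ext v
    simp only [Module.End.mul_apply, Module.End.one_apply]
    rw [hT.sq t ht, hT.sq s hs]
  have hts : (t * s) * (s * t) = 1 := by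
    ext v
    simp only [Module.End.mul_apply, Module.End.one_apply]
    rw [hT.sq s hs, hT.sq t ht]
  have hcomm : Commute (s * t) (t * s) := by
    rw [Commute, SemiconjBy, hst, hts]
  obtain ⟨n, ⟨m, rfl⟩, hn⟩ := hT.odd s hs t ht
  have h1 : (s * t) ^ m * (t * s) ^ m = 1 := by rw [← hcomm.mul_pow, hst, one_pow]
  have h2 : (t * s) ^ m * (s * t) ^ m = 1 := by rw [← hcomm.symm.mul_pow, hts, one_pow]
  have h3 : ∀ k : ℕ, s * (t * s) ^ k = (s * t) ^ k * s := by
    intro k
    induction k with
    | zero => simp
    | succ k ih => rw [pow_succ', pow_succ, ← mul_assoc s, ← mul_assoc, mul_assoc (s * t), ih,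
        ← mul_assoc (s * t), ← pow_succ', pow_succ, mul_assoc, mul_assoc]
  refine ⟨m, fun v => ⟨?_, ?_, ?_⟩⟩
  · rw [← Module.End.mul_apply, h2, Module.End.one_apply]
  · rw [← Module.End.mul_apply, h1, Module.End.one_apply]
  · have e : (s * t) ^ m * (s * (t * s) ^ m) = t := by
      rw [h3, ← mul_assoc, ← pow_add]
      have : (s * t) ^ (m + m) * s = (s * t) ^ (m + m) * (s * t) * t := by
        rw [mul_assoc, mul_assoc s t t]
        have htt : t * t = 1 := by
          ext v
          exact hT.sq t ht v
        rw [htt, mul_one]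
      rw [this, ← pow_succ, ← two_mul, hn, one_mul]
    conv_lhs => rw [← e]
    rfl

/-- The pair lemma. -/
theorem pair_lemma {s t : Module.End (ZMod 2) V} (hs : ∀ v, s (s v) = v)
    (ht : ∀ v, t (t v) = v) {n : ℕ} (hn : Odd n) (hg : (s * t) ^ n = 1)
    (S : Submodule (ZMod 2) V) {c w : V} (hc : c ∈ S) (hw : w ∈ S)
    (h1 : ∀ x ∈ S, s x = x ∨ s x = x + c) (h2 : ∀ x ∈ S, t x = x ∨ t x = x + w)
    {y : V} (hy : y ∈ S) (hne : s y ≠ t y) :
    s w = w + c ∧ t c = c + w := by
  have hcc := dbl c
  have hww := dbl w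
  have sc : s c = c := by
    rcases h1 c hc with h | h
    · exact h
    · rw [hcc] at h
      have : c = 0 := by rw [← hs c, h, map_zero]
      rw [this, map_zero]
  have tw : t w = w := by
    rcases h2 w hw with h | h
    · exact h
    · rw [hww] at h
      have : w = 0 := by rw [← ht w, h, map_zero]
      rw [this, map_zero]
  have key : ¬ ∀ x ∈ S, ((s * t) ^ 4) x = x := by
    intro h
    have h3 := odd_fix hn hg (h y hy)
    rw [Module.End.mul_apply] at h3
    apply hne
    have := congrArg s h3
    rw [hs] at this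
    exact this.symm
  rcases h1 w hw with a | a <;> rcases h2 c hc with b | b
  · exfalso
    apply key
    intro x hx
    have e : (s * t) ^ 4 = (s * t) * ((s * t) * ((s * t) * (s * t))) := by
      simp only [pow_succ, pow_zero, one_mul, mul_assoc]
    rw [e]
    simp only [Module.End.mul_apply]
    rcases h1 x hx with p | p <;> rcases h2 x hx with q | q <;>
      simp only [p, q, a, b, sc, tw, map_add] <;> (apply c2_of; (try abel_nf); (try simp (disch := norm_num) only [smeven, add_zero, zero_add]))
  · exfalso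
    apply key
    intro x hx
    have e : (s * t) ^ 4 = (s * t) * ((s * t) * ((s * t) * (s * t))) := by
      simp only [pow_succ, pow_zero, one_mul, mul_assoc]
    rw [e]
    simp only [Module.End.mul_apply]
    rcases h1 x hx with p | p <;> rcases h2 x hx with q | q <;>
      simp only [p, q, a, b, sc, tw, map_add] <;> (apply c2_of; (try abel_nf); (try simp (disch := norm_num) only [smeven, add_zero, zero_add]))
  · exfalso
    apply key
    intro x hx
    have e : (s * t) ^ 4 = (s * t) * ((s * t) * ((s * t) * (s * t))) := by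
      simp only [pow_succ, pow_zero, one_mul, mul_assoc]
    rw [e]
    simp only [Module.End.mul_apply]
    rcases h1 x hx with p | p <;> rcases h2 x hx with q | q <;>
      simp only [p, q, a, b, sc, tw, map_add] <;> (apply c2_of; (try abel_nf); (try simp (disch := norm_num) only [smeven, add_zero, zero_add]))
  · exact ⟨a, b⟩

theorem zmod2_cases (r : ZMod 2) : r = 0 ∨ r = 1 := by
  revert r; decide

/-- the subspace `{0, c, w, c + w}` -/
def quad (c w : V) : Submodule (ZMod 2) V where
  carrier := {z | z = 0 ∨ z = c ∨ z = w ∨ z = c + w}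
  zero_mem' := Or.inl rfl
  add_mem' := by
    rintro a b (rfl | rfl | rfl | rfl) (rfl | rfl | rfl | rfl) <;>
      change _ = (0 : V) ∨ _ = _ ∨ _ = _ ∨ _ = _ <;>
      first
        | (left; (apply c2_of; (try abel_nf); (try simp (disch := norm_num) only [smeven, add_zero, zero_add])); done)
        | (right; left; (apply c2_of; (try abel_nf); (try simp (disch := norm_num) only [smeven, add_zero, zero_add])); done)
        | (right; right; left; (apply c2_of; (try abel_nf); (try simp (disch := norm_num) only [smeven, add_zero, zero_add])); done)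
        | (right; right; right; (apply c2_of; (try abel_nf); (try simp (disch := norm_num) only [smeven, add_zero, zero_add])); done)
  smul_mem' := by
    intro r x hx
    rcases zmod2_cases r with rfl | rfl
    · left; simp
    · simpa using hx

theorem mem_quad {c w x : V} : x ∈ quad c w ↔ x = 0 ∨ x = c ∨ x = w ∨ x = c + w := Iff.rfl

/-- vectors moved by a multiple of `c` -/
def Sig (s : Module.End (ZMod 2) V) (c : V) : Submodule (ZMod 2) V where
  carrier := {x | s x = x ∨ s x = x + c}
  zero_mem' := by left; simp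
  add_mem' := by
    rintro a b (ha | ha) (hb | hb)
    · left; simp only [map_add, ha, hb]
    · right; simp only [map_add, ha, hb]; (apply c2_of; (try abel_nf); (try simp (disch := norm_num) only [smeven, add_zero, zero_add]))
    · right; simp only [map_add, ha, hb]; (apply c2_of; (try abel_nf); (try simp (disch := norm_num) only [smeven, add_zero, zero_add]))
    · left; simp only [map_add, ha, hb]; (apply c2_of; (try abel_nf); (try simp (disch := norm_num) only [smeven, add_zero, zero_add]))
  smul_mem' := by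
    intro r x hx
    have h : r = 0 ∨ r = 1 := zmod2_cases r
    rcases h with rfl | rfl
    · left; simp
    · simpa using hx

theorem mem_Sig {s : Module.End (ZMod 2) V} {c x : V} :
    x ∈ Sig s c ↔ s x = x ∨ s x = x + c := Iff.rfl

theorem transv_on {T : Set (Module.End (ZMod 2) V)} (hT : InvSet T)
    {s t : Module.End (ZMod 2) V} (hs : s ∈ T) (ht : t ∈ T) {c : V} (hsc : s c = c)
    (hSig : ∀ x ∈ Sig s c, t x ∈ Sig s c) {y : V} (hy : y ∈ Sig s c) (hne : s y ≠ t y) :
    ∃ w ∈ Sig s c, (∀ x ∈ Sig s c, t x = x ∨ t x = x + w) ∧ s w = w + c ∧ t c = c + w ∧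
      t w = w ∧ ∀ v, s (t v) = v ∨ s (t v) = v + c ∨ s (t v) = v + w ∨ s (t v) = v + c + w := by
  obtain ⟨n, hn, hgn⟩ := hT.odd s hs t ht
  obtain ⟨m, hm⟩ := hT.exists_conj hs ht
  have hsS : ∀ x ∈ Sig s c, s x ∈ Sig s c := by
    intro x hx
    rcases hx with h | h
    · rw [h]; left; exact h
    · right; rw [h, map_add, hsc, h]
  have hP : ∀ k : ℕ, ∀ x ∈ Sig s c, ((s * t) ^ k) x ∈ Sig s c := by
    intro k
    induction k with
    | zero => intro x hx; simpa using hx
    | succ k ih =>
      intro x hx
      rw [pow_succ', Module.End.mul_apply, Module.End.mul_apply]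
      exact hsS _ (hSig _ (ih x hx))
  have hQ : ∀ k : ℕ, ∀ x ∈ Sig s c, ((t * s) ^ k) x ∈ Sig s c := by
    intro k
    induction k with
    | zero => intro x hx; simpa using hx
    | succ k ih =>
      intro x hx
      rw [pow_succ', Module.End.mul_apply, Module.End.mul_apply]
      exact hSig _ (hsS _ (ih x hx))
  have hcS : c ∈ Sig s c := Or.inl hsc
  set w := ((s * t) ^ m) c with hw
  have hwS : w ∈ Sig s c := hP m c hcS
  have htw : ∀ x ∈ Sig s c, t x = x ∨ t x = x + w := by
    intro x hx
    obtain ⟨h1, h2, h3⟩ := hm x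
    rcases hQ m x hx with h | h
    · left; rw [h3, h, h2]
    · right; rw [h3, h, map_add, h2]
  obtain ⟨h1, h2⟩ := pair_lemma (hT.sq s hs) (hT.sq t ht) hn hgn (Sig s c) hcS hwS
    (fun x hx => hx) htw hy hne
  have tw : t w = w := by
    rcases htw w hwS with h | h
    · exact h
    · rw [dbl] at h
      have : w = 0 := by rw [← hT.sq t ht w, h, map_zero]
      rw [this, map_zero]
  refine ⟨w, hwS, htw, h1, h2, tw, ?_⟩
  -- the global statement
  have fs : ∀ v, s v + v ∈ Sig s c := by
    intro v
    left
    rw [map_add, hT.sq s hs]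
    abel
  have ft : ∀ v, t v + v ∈ Sig s c := by
    intro v
    obtain ⟨_, h2, h3⟩ := hm v
    have : t v + v = ((s * t) ^ m) (s (((t * s) ^ m) v) + ((t * s) ^ m) v) := by
      rw [map_add, h2, ← h3]
    rw [this]
    exact hP m _ (fs _)
  let W : Submodule (ZMod 2) V := quad c w
  have hWadd : ∀ a b : V, a ∈ W → b ∈ W → a + b ∈ W := fun a b ha hb => W.add_mem ha hb
  have hWg : ∀ a ∈ W, s (t a) ∈ W := by
    rintro a (rfl | rfl | rfl | rfl)
    · left; simp
    · right; right; left; rw [h2, map_add, hsc, h1]; (apply c2_of; (try abel_nf); (try simp (disch := norm_num) only [smeven, add_zero, zero_add]))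
    · right; right; right; rw [tw, h1]; (apply c2_of; (try abel_nf); (try simp (disch := norm_num) only [smeven, add_zero, zero_add]))
    · right; left; rw [map_add, h2, tw, map_add, map_add, hsc, h1]; (apply c2_of; (try abel_nf); (try simp (disch := norm_num) only [smeven, add_zero, zero_add]))
  have hWS : ∀ z ∈ Sig s c, s (t z) + z ∈ W := by
    intro z hz
    rcases htw z hz with q | q <;> rcases (hz : s z = z ∨ s z = z + c) with p | p <;>
      simp only [q, p, h1, map_add]
    · left; (apply c2_of; (try abel_nf); (try simp (disch := norm_num) only [smeven, add_zero, zero_add]))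
    · right; left; (apply c2_of; (try abel_nf); (try simp (disch := norm_num) only [smeven, add_zero, zero_add]))
    · right; right; right; (apply c2_of; (try abel_nf); (try simp (disch := norm_num) only [smeven, add_zero, zero_add]))
    · right; right; left; (apply c2_of; (try abel_nf); (try simp (disch := norm_num) only [smeven, add_zero, zero_add]))
  have h3 : ∀ v, s (t (s (t v))) + v ∈ W := by
    intro v
    set z := s (t v) + v with hz
    have hzS : z ∈ Sig s c := by
      have : z = (s (t v) + t v) + (t v + v) := by rw [hz]; (apply c2_of; (try abel_nf); (try simp (disch := norm_num) only [smeven, add_zero, zero_add]))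
      rw [this]
      exact Submodule.add_mem _ (fs _) (ft _)
    have e : s (t v) = v + z := by rw [hz]; (apply c2_of; (try abel_nf); (try simp (disch := norm_num) only [smeven, add_zero, zero_add]))
    have e2 : s (t (s (t v))) + v = s (t z) + z := by
      rw [e, map_add, map_add, e]; (apply c2_of; (try abel_nf); (try simp (disch := norm_num) only [smeven, add_zero, zero_add]))
    rw [e2]
    exact hWS z hzS
  obtain ⟨k, rfl⟩ := hn
  have h4 : ∀ k : ℕ, ∀ v, ((s * t) ^ (2 * k)) v + v ∈ W := by
    intro k
    induction k with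
    | zero => intro v; left; simp [dbl]
    | succ k ih =>
      intro v
      have e : (s * t) ^ (2 * (k + 1)) = (s * t) ^ (2 * k) * ((s * t) * (s * t)) := by
        rw [mul_add, mul_one, pow_add, pow_two]
      rw [e]
      simp only [Module.End.mul_apply]
      have : ((s * t) ^ (2 * k)) (s (t (s (t v)))) + v =
          (((s * t) ^ (2 * k)) (s (t (s (t v)))) + s (t (s (t v)))) + (s (t (s (t v))) + v) := by
        (apply c2_of; (try abel_nf); (try simp (disch := norm_num) only [smeven, add_zero, zero_add]))
      rw [this]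
      exact hWadd _ _ (ih _) (h3 v)
  intro v
  have h5 := h4 k v
  have h6 : s (t (((s * t) ^ (2 * k)) v)) = v := by
    have := congrArg (fun f => f v) hgn
    simpa only [pow_succ', Module.End.mul_apply, Module.End.one_apply] using this
  have h7 := hWg _ h5
  rw [map_add, map_add, h6] at h7
  rcases h7 with h | h | h | h
  · left; exact (c2_of h).symm
  · right; left
    rw [← h]; (apply c2_of; (try abel_nf); (try simp (disch := norm_num) only [smeven, add_zero, zero_add]))
  · right; right; left
    rw [← h]; (apply c2_of; (try abel_nf); (try simp (disch := norm_num) only [smeven, add_zero, zero_add]))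
  · right; right; right
    rw [add_assoc, ← h]; (apply c2_of; (try abel_nf); (try simp (disch := norm_num) only [smeven, add_zero, zero_add]))

theorem core_false {T : Set (Module.End (ZMod 2) V)} (hT : InvSet T)
    {s t t' : Module.End (ZMod 2) V} (hs : s ∈ T) (ht : t ∈ T) (ht' : t' ∈ T) {c c' w w' : V}
    (sc : s c = c) (sc' : s c' = c') (hc : c ≠ 0) (hc' : c' ≠ 0)
    (sw : s w = w + c) (tc : t c = c + w) (tw : t w = w) (tc' : t c' = c')
    (sw' : s w' = w' + c') (t'c' : t' c' = c' + w') (t'w' : t' w' = w')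
    (t'cc : t' (c + c') = c + c')
    (hG : ∀ v, s (t v) = v ∨ s (t v) = v + c ∨ s (t v) = v + w ∨ s (t v) = v + c + w)
    (hG' : ∀ v, s (t' v) = v ∨ s (t' v) = v + c' ∨ s (t' v) = v + w' ∨
      s (t' v) = v + c' + w') : False := by
  have hw : w ≠ 0 := by
    rintro rfl
    apply hc
    simpa using sw.symm
  have hw' : w' ≠ 0 := by
    rintro rfl
    apply hc'
    simpa using sw'.symm
  have t'c : t' c = c + w' := by
    rw [map_add, t'c'] at t'cc
    have : t' c = (t' c + (c' + w')) + (c' + w') := by (apply c2_of; (try abel_nf); (try simp (disch := norm_num) only [smeven, add_zero, zero_add]))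
    rw [this, t'cc]
    (apply c2_of; (try abel_nf); (try simp (disch := norm_num) only [smeven, add_zero, zero_add]))
  have hsq := hT.sq s hs
  have htq := hT.sq t ht
  have htq' := hT.sq t' ht'
  -- the action of `t` on `w'`
  have h1 : t w' = w' + c' ∨ t w' = w' + c' + w := by
    rcases hG w' with h | h | h | h
    · left
      rw [← hsq (t w'), h, sw']
    · exfalso
      have e : t w' = w' + c' + c := by rw [← hsq (t w'), h, map_add, sw', sc]
      have e2 := htq w'
      rw [e, map_add, map_add, e, tc', tc] at e2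
      apply hw
      have : w = (w' + c' + c + c' + (c + w)) + w' := by (apply c2_of; (try abel_nf); (try simp (disch := norm_num) only [smeven, add_zero, zero_add]))
      rw [this, e2, dbl]
    · exfalso
      have e : t w' = w' + c' + (w + c) := by rw [← hsq (t w'), h, map_add, sw', sw]
      have e2 := htq w'
      rw [e, map_add, map_add, e, tc', map_add, tc, tw] at e2
      apply hw
      have : w = (w' + c' + (w + c) + c' + (w + (c + w))) + w' := by (apply c2_of; (try abel_nf); (try simp (disch := norm_num) only [smeven, add_zero, zero_add]))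
      rw [this, e2, dbl]
    · right
      rw [← hsq (t w'), h, map_add, map_add, sw', sc, sw]
      (apply c2_of; (try abel_nf); (try simp (disch := norm_num) only [smeven, add_zero, zero_add]))
  -- the action of `t'` on `w`
  have h2 : t' w = w + c + c' ∨ t' w = w + c + (w' + c') := by
    rcases hG' w with h | h | h | h
    · exfalso
      have e : t' w = w + c := by rw [← hsq (t' w), h, sw]
      have e2 := htq' w
      rw [e, map_add, e, t'c] at e2
      apply hw'
      have : w' = (w + c + (c + w')) + w := by (apply c2_of; (try abel_nf); (try simp (disch := norm_num) only [smeven, add_zero, zero_add]))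
      rw [this, e2, dbl]
    · left
      rw [← hsq (t' w), h, map_add, sw, sc']
    · right
      rw [← hsq (t' w), h, map_add, sw, sw']
    · exfalso
      have e : t' w = w + c + w' := by
        rw [← hsq (t' w), h, map_add, map_add, sw, sc', sw']; (apply c2_of; (try abel_nf); (try simp (disch := norm_num) only [smeven, add_zero, zero_add]))
      have e2 := htq' w
      rw [e, map_add, map_add, e, t'c, t'w'] at e2
      apply hw'
      have : w' = (w + c + w' + (c + w') + w') + w := by (apply c2_of; (try abel_nf); (try simp (disch := norm_num) only [smeven, add_zero, zero_add]))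
      rw [this, e2, dbl]
  have hd := hT.conj s hs t ht
  rcases h1 with tw' | tw' <;> rcases h2 with t'w | t'w
  · obtain ⟨n, hn, hgn⟩ := hT.odd _ hd t' ht'
    apply hw'
    refine odd_cube hn hgn (x := c) (d := w') ?_ ?_
    · simp only [pow_succ, pow_zero, one_mul, Module.End.mul_apply, map_add, sc, sc', sw, sw', tc,
        tw, tc', tw', t'c, t'c', t'w, t'w']
      (apply c2_of; (try abel_nf); (try simp (disch := norm_num) only [smeven, add_zero, zero_add]))
    · simp only [pow_succ, pow_zero, one_mul, Module.End.mul_apply, map_add, sc, sc', sw, sw', tc,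
        tw, tc', tw', t'c, t'c', t'w, t'w']
      (apply c2_of; (try abel_nf); (try simp (disch := norm_num) only [smeven, add_zero, zero_add]))
  · obtain ⟨n, hn, hgn⟩ := hT.odd _ ht t' ht'
    apply hw'
    refine odd_cube hn hgn (x := c) (d := w') ?_ ?_
    · simp only [pow_succ, pow_zero, one_mul, Module.End.mul_apply, map_add, sc, sc', sw, sw', tc,
        tw, tc', tw', t'c, t'c', t'w, t'w']
      (apply c2_of; (try abel_nf); (try simp (disch := norm_num) only [smeven, add_zero, zero_add]))
    · simp only [pow_succ, pow_zero, one_mul, Module.End.mul_apply, map_add, sc, sc', sw, sw', tc,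
        tw, tc', tw', t'c, t'c', t'w, t'w']
      (apply c2_of; (try abel_nf); (try simp (disch := norm_num) only [smeven, add_zero, zero_add]))
  · obtain ⟨n, hn, hgn⟩ := hT.odd _ ht t' ht'
    apply hw
    refine odd_cube hn hgn (x := c) (d := w) ?_ ?_
    · simp only [pow_succ, pow_zero, one_mul, Module.End.mul_apply, map_add, sc, sc', sw, sw', tc,
        tw, tc', tw', t'c, t'c', t'w, t'w']
      (apply c2_of; (try abel_nf); (try simp (disch := norm_num) only [smeven, add_zero, zero_add]))
    · simp only [pow_succ, pow_zero, one_mul, Module.End.mul_apply, map_add, sc, sc', sw, sw', tc,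
        tw, tc', tw', t'c, t'c', t'w, t'w']
      (apply c2_of; (try abel_nf); (try simp (disch := norm_num) only [smeven, add_zero, zero_add]))
  · have hd' := hT.conj s hs t' ht'
    obtain ⟨n, hn, hgn⟩ := hT.odd _ ht _ hd'
    apply hw
    refine odd_cube hn hgn (x := c) (d := w) ?_ ?_
    · simp only [pow_succ, pow_zero, one_mul, Module.End.mul_apply, map_add, sc, sc', sw, sw', tc,
        tw, tc', tw', t'c, t'c', t'w, t'w']
      (apply c2_of; (try abel_nf); (try simp (disch := norm_num) only [smeven, add_zero, zero_add]))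
    · simp only [pow_succ, pow_zero, one_mul, Module.End.mul_apply, map_add, sc, sc', sw, sw', tc,
        tw, tc', tw', t'c, t'c', t'w, t'w']
      (apply c2_of; (try abel_nf); (try simp (disch := norm_num) only [smeven, add_zero, zero_add]))

theorem exists_dual_two {f c : V} (hf : f ≠ 0) (hc : c ≠ 0) :
    ∃ ψ : V →ₗ[ZMod 2] ZMod 2, ψ f = 1 ∧ ψ c = 1 := by
  have key : ∀ v : V, v ≠ 0 → ∃ ψ : V →ₗ[ZMod 2] ZMod 2, ψ v = 1 := by
    intro v hv
    by_contra hcon
    apply hv
    rw [← Module.forall_dual_apply_eq_zero_iff (ZMod 2) v]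
    intro φ
    rcases zmod2_cases (φ v) with h | h
    · exact h
    · exact absurd ⟨φ, h⟩ hcon
  obtain ⟨φ, hφ⟩ := key f hf
  obtain ⟨χ, hχ⟩ := key c hc
  rcases zmod2_cases (φ c) with h | h
  · rcases zmod2_cases (χ f) with h' | h'
    · exact ⟨φ + χ, by simp [hφ, h'], by simp [hχ, h]⟩
    · exact ⟨χ, h', hχ⟩
  · exact ⟨φ, hφ, h⟩

theorem U1_step {T : Set (Module.End (ZMod 2) V)} (hT : InvSet T) {f : V} (hf : f ≠ 0)
    (hTf : ∀ t ∈ T, t f = f)
    (hY : ∀ Y : Submodule (ZMod 2) V, f ∉ Y → ∃ t ∈ T, ∀ y ∈ Y, t y ∈ Y)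
    {s : Module.End (ZMod 2) V} (hs : s ∈ T) {v c : V} (hv : s v = v + c) (hc : c ≠ 0) :
    ∃ t ∈ T, ∃ w, (∀ x ∈ Sig s c, t x = x ∨ t x = x + w) ∧ s w = w + c ∧ t c = c + w ∧
      t w = w ∧ ∀ v, s (t v) = v ∨ s (t v) = v + c ∨ s (t v) = v + w ∨ s (t v) = v + c + w := by
  obtain ⟨ψ, hψf, hψc⟩ := exists_dual_two hf hc
  have hsc : s c = c := by
    have : c = s v + v := by rw [hv]; (apply c2_of; (try abel_nf); (try simp (disch := norm_num) only [smeven, add_zero, zero_add]))
    rw [this, map_add, hT.sq s hs]
    abel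
  have hfS : f ∈ Sig s c := Or.inl (hTf s hs)
  have hvS : v ∈ Sig s c := Or.inr hv
  obtain ⟨t, ht, htY⟩ := hY (Sig s c ⊓ LinearMap.ker ψ) (by
    rintro ⟨_, h⟩
    change ψ f = 0 at h
    rw [hψf] at h
    exact one_ne_zero h)
  have hSig : ∀ x ∈ Sig s c, t x ∈ Sig s c := by
    intro x hx
    rcases zmod2_cases (ψ x) with h | h
    · exact (htY x ⟨hx, h⟩).1
    · have h1 := (htY (x + f) ⟨Submodule.add_mem _ hx hfS, by
        change ψ (x + f) = 0
        rw [map_add, h, hψf]; decide⟩).1
      rw [map_add, hTf t ht] at h1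
      have : t x = (t x + f) + f := by (apply c2_of; (try abel_nf); (try simp (disch := norm_num) only [smeven, add_zero, zero_add]))
      rw [this]
      exact Submodule.add_mem _ h1 hfS
  have hy : ∃ y, y ∈ Sig s c ∧ ψ y = 0 ∧ s y = y + c := by
    rcases zmod2_cases (ψ v) with h | h
    · exact ⟨v, hvS, h, hv⟩
    · refine ⟨v + f, Submodule.add_mem _ hvS hfS, ?_, ?_⟩
      · rw [map_add, h, hψf]; decide
      · rw [map_add, hv, hTf s hs]; abel
  obtain ⟨y, hyS, hψy, hsy⟩ := hy
  have hne : s y ≠ t y := by
    intro h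
    have h1 := (htY y ⟨hyS, hψy⟩).2
    change ψ (t y) = 0 at h1
    rw [← h, hsy, map_add, hψy, hψc] at h1
    revert h1
    decide
  obtain ⟨w, _, h1, h2, h3, h4, h5⟩ := transv_on hT hs ht hsc hSig hyS hne
  exact ⟨t, ht, w, h1, h2, h3, h4, h5⟩

theorem U1_big {T : Set (Module.End (ZMod 2) V)} (hT : InvSet T) {f : V} (hf : f ≠ 0)
    (hTf : ∀ t ∈ T, t f = f)
    (hY : ∀ Y : Submodule (ZMod 2) V, f ∉ Y → ∃ t ∈ T, ∀ y ∈ Y, t y ∈ Y)
    {s : Module.End (ZMod 2) V} (hs : s ∈ T) {v₁ v₂ c₁ c₂ : V} (hv₁ : s v₁ = v₁ + c₁)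
    (hv₂ : s v₂ = v₂ + c₂) (hc₁ : c₁ ≠ 0) (hc₂ : c₂ ≠ 0) (hcc : c₁ ≠ c₂) : False := by
  have hv₃ : s (v₁ + v₂) = (v₁ + v₂) + (c₁ + c₂) := by rw [map_add, hv₁, hv₂]; abel
  have hc₃ : c₁ + c₂ ≠ 0 := fun h => hcc (c2_of h)
  have scf : ∀ v c, s v = v + c → s c = c := by
    intro v c hv
    have : c = s v + v := by rw [hv]; (apply c2_of; (try abel_nf); (try simp (disch := norm_num) only [smeven, add_zero, zero_add]))
    rw [this, map_add, hT.sq s hs]
    abel
  have s1 := scf _ _ hv₁
  have s2 := scf _ _ hv₂
  have s3 := scf _ _ hv₃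
  obtain ⟨t₁, ht₁, w₁, a1, b1, c1, d1, e1⟩ := U1_step hT hf hTf hY hs hv₁ hc₁
  obtain ⟨t₂, ht₂, w₂, a2, b2, c2', d2, e2⟩ := U1_step hT hf hTf hY hs hv₂ hc₂
  obtain ⟨t₃, ht₃, w₃, a3, b3, c3, d3, e3⟩ := U1_step hT hf hTf hY hs hv₃ hc₃
  have x12 : c₁ + (c₁ + c₂) = c₂ := by (apply c2_of; (try abel_nf); (try simp (disch := norm_num) only [smeven, add_zero, zero_add]))
  have x21 : (c₁ + c₂) + c₁ = c₂ := by (apply c2_of; (try abel_nf); (try simp (disch := norm_num) only [smeven, add_zero, zero_add]))
  have x13 : c₂ + (c₁ + c₂) = c₁ := by (apply c2_of; (try abel_nf); (try simp (disch := norm_num) only [smeven, add_zero, zero_add]))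
  have x31 : (c₁ + c₂) + c₂ = c₁ := by (apply c2_of; (try abel_nf); (try simp (disch := norm_num) only [smeven, add_zero, zero_add]))
  -- the fixed one for each
  have f1 : t₁ c₂ = c₂ ∨ t₁ (c₁ + c₂) = c₁ + c₂ := by
    rcases a1 c₂ (Or.inl s2) with h | h
    · exact Or.inl h
    · right; rw [map_add, c1, h]; (apply c2_of; (try abel_nf); (try simp (disch := norm_num) only [smeven, add_zero, zero_add]))
  have f2 : t₂ c₁ = c₁ ∨ t₂ (c₁ + c₂) = c₁ + c₂ := by
    rcases a2 c₁ (Or.inl s1) with h | h
    · exact Or.inl h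
    · right; rw [map_add, c2', h]; (apply c2_of; (try abel_nf); (try simp (disch := norm_num) only [smeven, add_zero, zero_add]))
  have f3 : t₃ c₁ = c₁ ∨ t₃ c₂ = c₂ := by
    rcases a3 c₁ (Or.inl s1) with h | h
    · exact Or.inl h
    · right
      have : c₂ = (c₁ + c₂) + c₁ := x21.symm
      calc t₃ c₂ = t₃ ((c₁ + c₂) + c₁) := by rw [← this]
        _ = (c₁ + c₂ + w₃) + (c₁ + w₃) := by rw [map_add, c3, h]
        _ = c₂ := by (apply c2_of; (try abel_nf); (try simp (disch := norm_num) only [smeven, add_zero, zero_add]))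
  have n12 : c₁ ≠ c₁ + c₂ := by
    intro h
    apply hc₂
    rw [← x12, ← h, dbl]
  have n21 : c₂ ≠ c₁ + c₂ := by
    intro h
    apply hc₁
    rw [← x13, ← h, dbl]
  rcases f1 with f1 | f1
  · rcases f2 with f2 | f2
    · rcases f3 with f3 | f3
      · -- (3,1)
        refine core_false hT hs ht₃ ht₁ (c := c₁ + c₂) (c' := c₁) s3 s1 hc₃ hc₁ b3 c3 d3 f3
          b1 c1 d1 ?_ e3 e1
        rw [x21]; exact f1
      · -- (3,2)
        refine core_false hT hs ht₃ ht₂ (c := c₁ + c₂) (c' := c₂) s3 s2 hc₃ hc₂ b3 c3 d3 f3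
          b2 c2' d2 ?_ e3 e2
        rw [x31]; exact f2
    · -- (1,2)
      exact core_false hT hs ht₁ ht₂ (c := c₁) (c' := c₂) s1 s2 hc₁ hc₂ b1 c1 d1 f1
          b2 c2' d2 f2 e1 e2
  · rcases f3 with f3 | f3
    · rcases f2 with f2 | f2
      · -- (2,1)
        refine core_false hT hs ht₂ ht₁ (c := c₂) (c' := c₁) s2 s1 hc₂ hc₁ b2 c2' d2 f2
          b1 c1 d1 ?_ e2 e1
        rw [add_comm]; exact f1
      · -- (2,3)
        refine core_false hT hs ht₂ ht₃ (c := c₂) (c' := c₁ + c₂) s2 s3 hc₂ hc₃ b2 c2' d2 f2
          b3 c3 d3 ?_ e2 e3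
        rw [x13]; exact f3
    · -- (1,3)
      refine core_false hT hs ht₁ ht₃ (c := c₁) (c' := c₁ + c₂) s1 s3 hc₁ hc₃ b1 c1 d1 f1
          b3 c3 d3 ?_ e1 e3
      rw [x12]; exact f3

theorem T_three {T : Set (Module.End (ZMod 2) V)} (hT : InvSet T)
    {s t : Module.End (ZMod 2) V} (hs : s ∈ T) (ht : t ∈ T) {c w : V} (hc : c ≠ 0)
    (hsv : ∀ v, s v = v ∨ s v = v + c) (htv : ∀ v, t v = v ∨ t v = v + w)
    (sw : s w = w + c) (tc : t c = c + w) {r : Module.End (ZMod 2) V} (hr : r ∈ T) :
    r = s ∨ r = t ∨ r = s * t * s := by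
  by_contra hcon
  push Not at hcon
  obtain ⟨h1, h2, h3⟩ := hcon
  have scc : s c = c := by
    rcases hsv c with h | h
    · exact h
    · rw [dbl] at h
      exact absurd (by rw [← hT.sq s hs c, h, map_zero]) hc
  have hq := hT.conj s hs t ht
  have ne : ∀ a : Module.End (ZMod 2) V, r ≠ a → ∃ y, a y ≠ r y := by
    intro a ha
    by_contra hcon
    push Not at hcon
    exact ha (LinearMap.ext fun y => (hcon y).symm)
  obtain ⟨y1, hy1⟩ := ne s h1
  have hall : ∀ x, x ∈ Sig s c := hsv
  obtain ⟨d, _, hrv, sd, rc, _⟩ := transv_on hT hs hr scc (fun x _ => hall _) (hall y1) hy1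
  have hrv' : ∀ x, r x = x ∨ r x = x + d := fun x => hrv x (hall x)
  obtain ⟨y2, hy2⟩ := ne t h2
  obtain ⟨n, hn, hgn⟩ := hT.odd t ht r hr
  obtain ⟨td, rw'⟩ := pair_lemma (hT.sq t ht) (hT.sq r hr) hn hgn ⊤ (c := w) (w := d) trivial
    trivial (fun x _ => htv x) (fun x _ => hrv' x) (y := y2) trivial hy2
  obtain ⟨y3, hy3⟩ := ne _ h3
  obtain ⟨n, hn, hgn⟩ := hT.odd _ hq r hr
  have hqv : ∀ x, (s * t * s) x = x ∨ (s * t * s) x = x + (c + w) := by
    intro x
    simp only [Module.End.mul_apply]
    rcases hsv x with h | h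
    · rw [h]
      rcases htv x with h' | h'
      · left; rw [h', h]
      · right; rw [h', map_add, h, sw]; abel
    · rw [h, map_add, tc]
      rcases htv x with h' | h'
      · right; rw [h', map_add, map_add, h, scc, sw]; (apply c2_of; (try abel_nf); (try simp (disch := norm_num) only [smeven, add_zero, zero_add]))
      · left; rw [h', map_add, map_add, map_add, h, scc, sw]; (apply c2_of; (try abel_nf); (try simp (disch := norm_num) only [smeven, add_zero, zero_add]))
  obtain ⟨_, hh⟩ := pair_lemma (hT.sq _ hq) (hT.sq r hr) hn hgn ⊤ (c := c + w) (w := d) trivial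
    trivial (fun x _ => hqv x) (fun x _ => hrv' x) (y := y3) trivial hy3
  rw [map_add, rc, rw'] at hh
  have hd : d = 0 := by
    have : d = (c + w + d) + (c + d + (w + d)) := by (apply c2_of; (try abel_nf); (try simp (disch := norm_num) only [smeven, add_zero, zero_add]))
    rw [this, hh, dbl]
  rw [hd, map_zero, zero_add] at sd
  exact hc sd.symm

/-- No member of `T` preserves `{0, c + f₁, w + f₂, c + w + f₁ + f₂}`. -/
theorem no_pres {T : Set (Module.End (ZMod 2) V)} (hT : InvSet T)
    {s t : Module.End (ZMod 2) V} (hs : s ∈ T) (ht : t ∈ T) {c w : V} (hc : c ≠ 0)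
    (hsv : ∀ v, s v = v ∨ s v = v + c) (htv : ∀ v, t v = v ∨ t v = v + w)
    (sw : s w = w + c) (tc : t c = c + w) {f₁ f₂ : V} (sf1 : s f₁ = f₁) (tf1 : t f₁ = f₁)
    (sf2 : s f₂ = f₂) (tf2 : t f₂ = f₂) (h1 : f₁ ≠ 0) (h2 : f₂ ≠ 0) (h12 : f₁ ≠ f₂)
    {r : Module.End (ZMod 2) V} (hr : r ∈ T) :
    ¬ ∀ y ∈ quad (c + f₁) (w + f₂), r y ∈ quad (c + f₁) (w + f₂) := by
  intro hpres
  have scc : s c = c := by
    rcases hsv c with h | h
    · exact h
    · rw [dbl] at h
      exact absurd (by rw [← hT.sq s hs c, h, map_zero]) hc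
  have hw : w ≠ 0 := by
    rintro rfl
    apply hc
    simpa using sw.symm
  have m1 : c + f₁ ∈ quad (c + f₁) (w + f₂) := Or.inr (Or.inl rfl)
  have m2 : w + f₂ ∈ quad (c + f₁) (w + f₂) := Or.inr (Or.inr (Or.inl rfl))
  -- a linear relation `a = b` with `s a = s b`
  rcases T_three hT hs ht hc hsv htv sw tc hr with rfl | rfl | rfl
  · have h3 := hpres _ m2
    rw [map_add, sw, sf2] at h3
    rcases h3 with h | h | h | h
    · have h' := congrArg r h
      rw [map_add, map_add, sw, scc, sf2, map_zero] at h'
      apply hc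
      have : c = (w + c + f₂) + (w + c + c + f₂) := by (apply c2_of; (try abel_nf); (try simp (disch := norm_num) only [smeven, add_zero, zero_add]))
      rw [this, h, h', add_zero]
    · have e : w + f₂ = f₁ := by
        have : w + f₂ = (w + c + f₂) + c := by (apply c2_of; (try abel_nf); (try simp (disch := norm_num) only [smeven, add_zero, zero_add]))
        rw [this, h]; (apply c2_of; (try abel_nf); (try simp (disch := norm_num) only [smeven, add_zero, zero_add]))
      have h' := congrArg r e
      rw [map_add, sw, sf2, sf1, ← e] at h'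
      apply hc
      have : c = (w + c + f₂) + (w + f₂) := by (apply c2_of; (try abel_nf); (try simp (disch := norm_num) only [smeven, add_zero, zero_add]))
      rw [this, h', dbl]
    · apply hc
      have : c = (w + c + f₂) + (w + f₂) := by (apply c2_of; (try abel_nf); (try simp (disch := norm_num) only [smeven, add_zero, zero_add]))
      rw [this, h, dbl]
    · apply h1
      have : f₁ = (w + c + f₂) + (c + f₁ + (w + f₂)) := by (apply c2_of; (try abel_nf); (try simp (disch := norm_num) only [smeven, add_zero, zero_add]))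
      rw [this, h, dbl]
  · have h3 := hpres _ m1
    rw [map_add, tc, tf1] at h3
    have tw : r w = w := by
      rcases htv w with h | h
      · exact h
      · rw [dbl] at h
        exact absurd (by rw [← hT.sq r hr w, h, map_zero]) hw
    rcases h3 with h | h | h | h
    · have h' := congrArg r h
      rw [map_add, map_add, tc, tw, tf1, map_zero] at h'
      apply hw
      have : w = (c + w + f₁) + (c + w + w + f₁) := by (apply c2_of; (try abel_nf); (try simp (disch := norm_num) only [smeven, add_zero, zero_add]))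
      rw [this, h, h', add_zero]
    · apply hw
      have : w = (c + w + f₁) + (c + f₁) := by (apply c2_of; (try abel_nf); (try simp (disch := norm_num) only [smeven, add_zero, zero_add]))
      rw [this, h, dbl]
    · have e : c + f₁ = f₂ := by
        have : c + f₁ = (c + w + f₁) + w := by (apply c2_of; (try abel_nf); (try simp (disch := norm_num) only [smeven, add_zero, zero_add]))
        rw [this, h]; (apply c2_of; (try abel_nf); (try simp (disch := norm_num) only [smeven, add_zero, zero_add]))
      have h' := congrArg r e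
      rw [map_add, tc, tf2, tf1, ← e] at h'
      apply hw
      have : w = (c + w + f₁) + (c + f₁) := by (apply c2_of; (try abel_nf); (try simp (disch := norm_num) only [smeven, add_zero, zero_add]))
      rw [this, h', dbl]
    · apply h2
      have : f₂ = (c + w + f₁) + (c + f₁ + (w + f₂)) := by (apply c2_of; (try abel_nf); (try simp (disch := norm_num) only [smeven, add_zero, zero_add]))
      rw [this, h, dbl]
  · have h3 := hpres _ m1
    have e : (s * t * s) (c + f₁) = w + f₁ := by
      simp only [Module.End.mul_apply, map_add, scc, sf1, tc, tf1, sw]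
      (apply c2_of; (try abel_nf); (try simp (disch := norm_num) only [smeven, add_zero, zero_add]))
    rw [e] at h3
    rcases h3 with h | h | h | h
    · have h' := congrArg s h
      rw [map_add, sw, sf1, map_zero] at h'
      apply hc
      have : c = (w + f₁) + (w + c + f₁) := by (apply c2_of; (try abel_nf); (try simp (disch := norm_num) only [smeven, add_zero, zero_add]))
      rw [this, h, h', add_zero]
    · have e : w = c := by
        have : w = (w + f₁) + f₁ := by (apply c2_of; (try abel_nf); (try simp (disch := norm_num) only [smeven, add_zero, zero_add]))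
        rw [this, h]; (apply c2_of; (try abel_nf); (try simp (disch := norm_num) only [smeven, add_zero, zero_add]))
      rw [e, scc] at sw
      apply hc
      have : c = c + (c + c) := by (apply c2_of; (try abel_nf); (try simp (disch := norm_num) only [smeven, add_zero, zero_add]))
      rw [this, ← sw, dbl]
    · apply h12
      have : f₁ = (w + f₁) + w := by (apply c2_of; (try abel_nf); (try simp (disch := norm_num) only [smeven, add_zero, zero_add]))
      rw [this, h]; (apply c2_of; (try abel_nf); (try simp (disch := norm_num) only [smeven, add_zero, zero_add]))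
    · have e : c = f₂ := by
        have : c = (c + f₁ + (w + f₂)) + (w + f₁) + f₂ := by (apply c2_of; (try abel_nf); (try simp (disch := norm_num) only [smeven, add_zero, zero_add]))
        rw [this, h]; (apply c2_of; (try abel_nf); (try simp (disch := norm_num) only [smeven, add_zero, zero_add]))
      rw [e, tf2] at tc
      apply hw
      have : w = f₂ + (f₂ + w) := by (apply c2_of; (try abel_nf); (try simp (disch := norm_num) only [smeven, add_zero, zero_add]))
      rw [this, ← tc, dbl]

/-- decomposition for two transvections generating `S_3` -/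
theorem decomp {s t : Module.End (ZMod 2) V} {c w : V} (scc : s c = c) (tw : t w = w)
    (hsv : ∀ v, s v = v ∨ s v = v + c) (htv : ∀ v, t v = v ∨ t v = v + w)
    (sw : s w = w + c) (tc : t c = c + w) (v : V) :
    ∃ x, s x = x ∧ t x = x ∧ (v = x ∨ v = c + x ∨ v = w + x ∨ v = c + w + x) := by
  rcases hsv v with h | h <;> rcases htv v with h' | h'
  · exact ⟨v, h, h', Or.inl rfl⟩
  · refine ⟨v + c, by rw [map_add, h, scc], by rw [map_add, h', tc]; (apply c2_of; (try abel_nf); (try simp (disch := norm_num) only [smeven, add_zero, zero_add])), ?_⟩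
    right; left; (apply c2_of; (try abel_nf); (try simp (disch := norm_num) only [smeven, add_zero, zero_add]))
  · refine ⟨v + w, by rw [map_add, h, sw]; (apply c2_of; (try abel_nf); (try simp (disch := norm_num) only [smeven, add_zero, zero_add])), by rw [map_add, h', tw], ?_⟩
    right; right; left; (apply c2_of; (try abel_nf); (try simp (disch := norm_num) only [smeven, add_zero, zero_add]))
  · refine ⟨v + c + w, by rw [map_add, map_add, h, scc, sw]; (apply c2_of; (try abel_nf); (try simp (disch := norm_num) only [smeven, add_zero, zero_add])),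
      by rw [map_add, map_add, h', tw, tc]; (apply c2_of; (try abel_nf); (try simp (disch := norm_num) only [smeven, add_zero, zero_add])), ?_⟩
    right; right; right; (apply c2_of; (try abel_nf); (try simp (disch := norm_num) only [smeven, add_zero, zero_add]))

/-- the three-dimensional model -/
def model (c w f : V) : (ZMod 2 × ZMod 2 × ZMod 2) →ₗ[ZMod 2] V :=
  (LinearMap.toSpanSingleton (ZMod 2) V c).coprod
    ((LinearMap.toSpanSingleton (ZMod 2) V w).coprod (LinearMap.toSpanSingleton (ZMod 2) V f))

theorem model_apply (c w f : V) (i j k : ZMod 2) :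
    model c w f (i, j, k) = i • c + (j • w + k • f) := by
  simp [model]

theorem card_le_of_model {c w f : V}
    (h : ∀ v : V, ∃ x, (x = 0 ∨ x = f) ∧ (v = x ∨ v = c + x ∨ v = w + x ∨ v = c + w + x)) :
    Nat.card V ≤ 8 := by
  have hsurj : Function.Surjective (model c w f) := by
    intro v
    obtain ⟨x, (rfl | rfl), (rfl | rfl | rfl | rfl)⟩ := h v
    · exact ⟨(0, 0, 0), by simp [model_apply]⟩
    · exact ⟨(1, 0, 0), by simp [model_apply]⟩
    · exact ⟨(0, 1, 0), by simp [model_apply]⟩
    · exact ⟨(1, 1, 0), by simp [model_apply]⟩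
    · exact ⟨(0, 0, 1), by simp [model_apply]⟩
    · exact ⟨(1, 0, 1), by simp [model_apply]⟩
    · exact ⟨(0, 1, 1), by simp [model_apply]⟩
    · exact ⟨(1, 1, 1), by simp [model_apply, add_assoc]⟩
  have h1 := Nat.card_le_card_of_surjective _ hsurj
  have h2 : Nat.card (ZMod 2 × ZMod 2 × ZMod 2) = 8 := by
    simp [Nat.card_eq_fintype_card]
  rwa [h2] at h1

theorem card_eq_of_model {c w f : V}
    (h : ∀ v : V, ∃ x, (x = 0 ∨ x = f) ∧ (v = x ∨ v = c + x ∨ v = w + x ∨ v = c + w + x))
    {s t : Module.End (ZMod 2) V} (scc : s c = c) (tw : t w = w)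
    (sw : s w = w + c) (tc : t c = c + w) (hc : c ≠ 0) (hf : f ≠ 0) (sf : s f = f)
    (tf : t f = f) : Nat.card V = 8 := by
  have hw : w ≠ 0 := by
    rintro rfl
    apply hc
    simpa using sw.symm
  have hsurj : Function.Surjective (model c w f) := by
    intro v
    obtain ⟨x, (rfl | rfl), (rfl | rfl | rfl | rfl)⟩ := h v
    · exact ⟨(0, 0, 0), by simp [model_apply]⟩
    · exact ⟨(1, 0, 0), by simp [model_apply]⟩
    · exact ⟨(0, 1, 0), by simp [model_apply]⟩
    · exact ⟨(1, 1, 0), by simp [model_apply]⟩
    · exact ⟨(0, 0, 1), by simp [model_apply]⟩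
    · exact ⟨(1, 0, 1), by simp [model_apply]⟩
    · exact ⟨(0, 1, 1), by simp [model_apply]⟩
    · exact ⟨(1, 1, 1), by simp [model_apply, add_assoc]⟩
  have hinj : Function.Injective (model c w f) := by
    rw [injective_iff_map_eq_zero]
    rintro ⟨i, j, k⟩ hijk
    rw [model_apply] at hijk
    have h1 : j = 0 := by
      have h2 := congrArg s hijk
      simp only [map_add, map_smul, scc, sw, sf, map_zero, smul_add] at h2
      rcases zmod2_cases j with rfl | rfl
      · rfl
      · exfalso
        apply hc
        simp only [one_smul] at h2 hijk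
        have : c = (i • c + (w + k • f)) + (i • c + (w + c + k • f)) := by (apply c2_of; (try abel_nf); (try simp (disch := norm_num) only [smeven, add_zero, zero_add]))
        rw [this, hijk, h2, add_zero]
    have h1' : i = 0 := by
      have h2 := congrArg t hijk
      simp only [map_add, map_smul, tc, tw, tf, map_zero, smul_add] at h2
      rcases zmod2_cases i with rfl | rfl
      · rfl
      · exfalso
        apply hw
        simp only [one_smul] at h2 hijk
        have : w = (c + (j • w + k • f)) + (c + w + (j • w + k • f)) := by (apply c2_of; (try abel_nf); (try simp (disch := norm_num) only [smeven, add_zero, zero_add]))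
        rw [this, hijk, h2, add_zero]
    subst h1 h1'
    rcases zmod2_cases k with rfl | rfl
    · rfl
    · exfalso
      apply hf
      simpa using hijk
  have h2 : Nat.card (ZMod 2 × ZMod 2 × ZMod 2) = 8 := by
    simp [Nat.card_eq_fintype_card]
  rw [← h2]
  exact (Nat.card_congr (Equiv.ofBijective _ ⟨hinj, hsurj⟩)).symm

theorem lemma_U1 {T : Set (Module.End (ZMod 2) V)} (hT : InvSet T) {f : V} (hf : f ≠ 0)
    (hTf : ∀ t ∈ T, t f = f)
    (hY : ∀ Y : Submodule (ZMod 2) V, f ∉ Y → ∃ t ∈ T, ∀ y ∈ Y, t y ∈ Y) :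
    (∀ t ∈ T, ∀ v, t v = v) ∨ Nat.card V = 8 := by
  by_cases h0 : ∀ t ∈ T, ∀ v, t v = v
  · exact Or.inl h0
  right
  push Not at h0
  obtain ⟨s, hs, v, hv⟩ := h0
  set c := s v + v with hcdef
  have hv' : s v = v + c := by rw [hcdef]; (apply c2_of; (try abel_nf); (try simp (disch := norm_num) only [smeven, add_zero, zero_add]))
  have hc : c ≠ 0 := fun h => hv (c2_of h)
  have hsv : ∀ x, s x = x ∨ s x = x + c := by
    intro x
    by_contra hcon
    push Not at hcon
    refine U1_big hT hf hTf hY hs hv' (v₂ := x) (c₂ := s x + x) (by (apply c2_of; (try abel_nf); (try simp (disch := norm_num) only [smeven, add_zero, zero_add]))) hc ?_ ?_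
    · intro h
      exact hcon.1 (c2_of h)
    · intro h
      apply hcon.2
      rw [h]; (apply c2_of; (try abel_nf); (try simp (disch := norm_num) only [smeven, add_zero, zero_add]))
  obtain ⟨t, ht, w, a1, sw, tc, tw, _⟩ := U1_step hT hf hTf hY hs hv' hc
  have htv : ∀ x, t x = x ∨ t x = x + w := fun x => a1 x (hsv x)
  have scc : s c = c := by
    rcases hsv c with h | h
    · exact h
    · rw [dbl] at h
      exact absurd (by rw [← hT.sq s hs c, h, map_zero]) hc
  have key : ∀ f', s f' = f' → t f' = f' → f' = 0 ∨ f' = f := by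
    intro f' sf' tf'
    by_contra hcon
    push Not at hcon
    have sf := hTf s hs
    have tf := hTf t ht
    have hff : f' + f ≠ 0 := fun h => hcon.2 (c2_of h)
    obtain ⟨r, hr, hrY⟩ := hY (quad (c + f') (w + (f' + f))) (by
      rintro (h | h | h | h)
      · exact hf h
      · have e : c = f + f' := by rw [h]; (apply c2_of; (try abel_nf); (try simp (disch := norm_num) only [smeven, add_zero, zero_add]))
        apply hc
        rw [e, map_add, tf, tf'] at tc
        have hw : w = 0 := by
          have : w = (f + f') + (f + f' + w) := by (apply c2_of; (try abel_nf); (try simp (disch := norm_num) only [smeven, add_zero, zero_add]))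
          rw [this, ← tc, dbl]
        rw [hw, map_zero] at sw
        simpa using sw.symm
      · have e : w = f' := by
          have : w = (w + (f' + f)) + (f' + f) := by (apply c2_of; (try abel_nf); (try simp (disch := norm_num) only [smeven, add_zero, zero_add]))
          rw [this, ← h]; (apply c2_of; (try abel_nf); (try simp (disch := norm_num) only [smeven, add_zero, zero_add]))
        apply hc
        rw [e, sf'] at sw
        have : c = f' + (f' + c) := by (apply c2_of; (try abel_nf); (try simp (disch := norm_num) only [smeven, add_zero, zero_add]))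
        rw [this, ← sw, dbl]
      · have e : w = c := by
          have : w = (c + f' + (w + (f' + f))) + c + f := by (apply c2_of; (try abel_nf); (try simp (disch := norm_num) only [smeven, add_zero, zero_add]))
          rw [this, ← h]; (apply c2_of; (try abel_nf); (try simp (disch := norm_num) only [smeven, add_zero, zero_add]))
        rw [e, scc] at sw
        apply hc
        have : c = c + (c + c) := by (apply c2_of; (try abel_nf); (try simp (disch := norm_num) only [smeven, add_zero, zero_add]))
        rw [this, ← sw, dbl])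
    exact no_pres hT hs ht hc hsv htv sw tc sf' tf' (f₂ := f' + f) (by rw [map_add, sf', sf])
      (by rw [map_add, tf', tf]) hcon.1 hff (by
        intro h
        apply hf
        have : f = f' + (f' + f) := by (apply c2_of; (try abel_nf); (try simp (disch := norm_num) only [smeven, add_zero, zero_add]))
        rw [this, ← h, dbl]) hr hrY
  refine card_eq_of_model (c := c) (w := w) (f := f) ?_ scc tw sw tc hc hf (hTf s hs) (hTf t ht)
  intro x
  obtain ⟨y, h1, h2, h3⟩ := decomp scc tw hsv htv sw tc x
  exact ⟨y, key y h1 h2, h3⟩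

/-- Lemma A -/
theorem lemma_A {T : Set (Module.End (ZMod 2) V)} (hT : InvSet T)
    (hY : ∀ Y : Submodule (ZMod 2) V, ∃ t ∈ T, ∀ y ∈ Y, t y ∈ Y)
    {s : Module.End (ZMod 2) V} (hs : s ∈ T) {c : V} (hc : c ≠ 0)
    (hsv : ∀ v, s v = v ∨ s v = v + c) (hne : ∃ v, s v ≠ v) :
    ∃ t ∈ T, ∃ w f, s c = c ∧ t w = w ∧ (∀ v, t v = v ∨ t v = v + w) ∧ s w = w + c ∧
      t c = c + w ∧ s f = f ∧ t f = f ∧ (∀ r ∈ T, r = s ∨ r = t ∨ r = s * t * s) ∧
      ∀ v : V, ∃ x, (x = 0 ∨ x = f) ∧ (v = x ∨ v = c + x ∨ v = w + x ∨ v = c + w + x) := by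
  have scc : s c = c := by
    rcases hsv c with h | h
    · exact h
    · rw [dbl] at h
      exact absurd (by rw [← hT.sq s hs c, h, map_zero]) hc
  obtain ⟨v, hv⟩ := hne
  obtain ⟨t, ht, htY⟩ := hY (Submodule.span (ZMod 2) {v})
  have hv0 : v ≠ 0 := by
    rintro rfl
    exact hv (map_zero _)
  have htv' : t v = v := by
    have h1 := htY v (Submodule.mem_span_singleton_self v)
    rw [Submodule.mem_span_singleton] at h1
    obtain ⟨a, ha⟩ := h1
    rcases zmod2_cases a with rfl | rfl
    · rw [zero_smul] at ha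
      exact absurd (by rw [← hT.sq t ht v, ← ha, map_zero]) hv0
    · rw [one_smul] at ha
      exact ha.symm
  have hne : s v ≠ t v := by rwa [htv']
  obtain ⟨w, _, a1, sw, tc, tw, _⟩ := transv_on hT hs ht scc (fun x _ => hsv _) (hsv v) hne
  have htv : ∀ x, t x = x ∨ t x = x + w := fun x => a1 x (hsv x)
  have hpair : ∀ f₁ f₂, s f₁ = f₁ → t f₁ = f₁ → s f₂ = f₂ → t f₂ = f₂ → f₁ ≠ 0 → f₂ ≠ 0 →
      f₁ = f₂ := by
    intro f₁ f₂ b1 b2 b3 b4 b5 b6
    by_contra h12
    obtain ⟨r, hr, hrY⟩ := hY (quad (c + f₁) (w + f₂))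
    exact no_pres hT hs ht hc hsv htv sw tc b1 b2 b3 b4 b5 b6 h12 hr hrY
  have hf : ∃ f, s f = f ∧ t f = f ∧ ∀ x, s x = x → t x = x → x = 0 ∨ x = f := by
    by_cases h : ∃ f, s f = f ∧ t f = f ∧ f ≠ 0
    · obtain ⟨f, b1, b2, b3⟩ := h
      refine ⟨f, b1, b2, fun x h1 h2 => ?_⟩
      by_cases hx : x = 0
      · exact Or.inl hx
      · exact Or.inr (hpair x f h1 h2 b1 b2 hx b3)
    · push Not at h
      exact ⟨0, map_zero _, map_zero _, fun x h1 h2 => Or.inl (h x h1 h2)⟩
  obtain ⟨f, sf, tf, hall⟩ := hf
  refine ⟨t, ht, w, f, scc, tw, htv, sw, tc, sf, tf,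
    fun r hr => T_three hT hs ht hc hsv htv sw tc hr, ?_⟩
  intro x
  obtain ⟨y, h1, h2, h3⟩ := decomp scc tw hsv htv sw tc x
  exact ⟨y, hall y h1 h2, h3⟩

end Pool.Agent.Work.MP_cd0fff_al
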