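import Pool.Agent.Work.MP_cd0fff_al.Half
import Pool.Agent.Work.MP_cd0fff_al.Lin

/-!
Functions with values in the field of two elements, additive on a subgroup; elementary
abelian sections as vector spaces.
-/

universe u

namespace Pool.Agent.Work.MP_cd0fff_al

open Subgroup

section

variable {G : Type*} [Group G]

/-- `φ` is additive on the subgroup `E`. -/
def AddOn (E : Subgroup G) (φ : G → ZMod 2) : Prop :=
  ∀ x ∈ E, ∀ y ∈ E, φ (x * y) = φ x + φ y

theorem zdbl (a : ZMod 2) : a + a = 0 := by revert a; decide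

theorem AddOn.one {E : Subgroup G} {φ : G → ZMod 2} (h : AddOn E φ) : φ 1 = 0 := by
  have := h 1 E.one_mem 1 E.one_mem
  rw [mul_one, zdbl] at this
  exact this

theorem AddOn.inv {E : Subgroup G} {φ : G → ZMod 2} (h : AddOn E φ) {x : G} (hx : x ∈ E) :
    φ x⁻¹ = φ x := by
  have := h x hx x⁻¹ (E.inv_mem hx)
  rw [mul_inv_cancel, h.one] at this
  generalize φ x⁻¹ = a at *
  generalize φ x = b at *
  revert a b; decide

theorem AddOn.sq {E : Subgroup G} {φ : G → ZMod 2} (h : AddOn E φ) {x : G} (hx : x ∈ E) :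
    φ (x * x) = 0 := by rw [h x hx x hx, zdbl]

theorem AddOn.conj {E : Subgroup G} {φ : G → ZMod 2} (h : AddOn E φ) {x y : G} (hx : x ∈ E)
    (hy : y ∈ E) : φ (x * y * x⁻¹) = φ y := by
  rw [h _ (E.mul_mem hx hy) _ (E.inv_mem hx), h x hx y hy, h.inv hx]
  generalize φ y = a
  generalize φ x = b
  revert a b; decide

theorem AddOn.comp_conj {E : Subgroup G} {φ : G → ZMod 2} (h : AddOn E φ) {k : G}
    (hk : k ∈ normalizer (E : Set G)) : AddOn E (fun e => φ (k * e * k⁻¹)) := by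
  intro x hx y hy
  simp only
  rw [← h _ (norm_conj hk hx) _ (norm_conj hk hy)]
  congr 1
  group

theorem AddOn.mono {E E' : Subgroup G} {φ : G → ZMod 2} (h : AddOn E φ) (hle : E' ≤ E) :
    AddOn E' φ := fun x hx y hy => h x (hle hx) y (hle hy)

theorem AddOn.add {E : Subgroup G} {φ ψ : G → ZMod 2} (h : AddOn E φ) (h' : AddOn E ψ) :
    AddOn E (φ + ψ) := by
  intro x hx y hy
  simp only [Pi.add_apply]
  rw [h x hx y hy, h' x hx y hy]
  ring

theorem AddOn.zero (E : Subgroup G) : AddOn E (0 : G → ZMod 2) := by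
  intro x _ y _; simp

/-- the kernel of an additive function -/
def kr (S : Subgroup G) (l : G → ZMod 2) (h : AddOn S l) : Subgroup G where
  carrier := {x | x ∈ S ∧ l x = 0}
  one_mem' := ⟨S.one_mem, h.one⟩
  mul_mem' := by
    rintro x y ⟨hx, hx'⟩ ⟨hy, hy'⟩
    exact ⟨S.mul_mem hx hy, by rw [h x hx y hy, hx', hy', add_zero]⟩
  inv_mem' := by
    rintro x ⟨hx, hx'⟩
    exact ⟨S.inv_mem hx, by rw [h.inv hx, hx']⟩

theorem mem_kr {S : Subgroup G} {l : G → ZMod 2} {h : AddOn S l} {x : G} :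
    x ∈ kr S l h ↔ x ∈ S ∧ l x = 0 := Iff.rfl

theorem kr_le {S : Subgroup G} {l : G → ZMod 2} {h : AddOn S l} : kr S l h ≤ S :=
  fun _ hx => hx.1

theorem zne {a : ZMod 2} (h : a ≠ 0) : a = 1 := by
  rcases zmod2_cases a with h' | h'
  · exact absurd h' h
  · exact h'

theorem not_mem_kr {S : Subgroup G} {l : G → ZMod 2} {h : AddOn S l} {x : G} (hx : x ∈ S) :
    x ∉ kr S l h ↔ l x = 1 := by
  rw [mem_kr]
  constructor
  · intro h1
    exact zne fun h2 => h1 ⟨hx, h2⟩
  · rintro h1 ⟨_, h2⟩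
    rw [h1] at h2
    exact one_ne_zero h2

theorem half_kr {S : Subgroup G} {l : G → ZMod 2} {h : AddOn S l} {a : G} (ha : a ∈ S)
    (ha' : l a = 1) : Half (kr S l h) S := by
  refine half_of_mul kr_le ha ((not_mem_kr ha).2 ha') ?_
  intro b hb hb'
  rw [not_mem_kr hb] at hb'
  exact ⟨S.mul_mem hb ha, by rw [h b hb a ha, hb', ha']; decide⟩

open Classical in
/-- the indicator function of the complement of `E` in `S` -/
noncomputable def ind (E S : Subgroup G) : G → ZMod 2 := fun x => if x ∈ E then 0 else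
  if x ∈ S then 1 else 0

theorem ind_mem {E S : Subgroup G} {x : G} (hx : x ∈ E) : ind E S x = 0 := by
  simp [ind, hx]

theorem ind_not_mem {E S : Subgroup G} {x : G} (hx : x ∈ S) (hx' : x ∉ E) : ind E S x = 1 := by
  simp [ind, hx, hx']

theorem ind_zero {E S : Subgroup G} {x : G} (hE : E ≤ S) (hx : x ∉ S) : ind E S x = 0 := by
  have : x ∉ E := fun h => hx (hE h)
  simp [ind, hx, this]

theorem ind_eq_zero {E S : Subgroup G} {x : G} (hx : x ∈ S) : ind E S x = 0 ↔ x ∈ E := by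
  by_cases h : x ∈ E
  · simp [ind_mem h, h]
  · simp [ind_not_mem hx h, h]

theorem Half.addOn_ind {E S : Subgroup G} (h : Half E S) : AddOn S (ind E S) := by
  intro x hx y hy
  by_cases h1 : x ∈ E <;> by_cases h2 : y ∈ E
  · rw [ind_mem h1, ind_mem h2, ind_mem (E.mul_mem h1 h2), add_zero]
  · rw [ind_mem h1, ind_not_mem hy h2, ind_not_mem (S.mul_mem hx hy), zero_add]
    rw [h.mul_mem_iff hx hy]; tauto
  · rw [ind_not_mem hx h1, ind_mem h2, ind_not_mem (S.mul_mem hx hy), add_zero]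
    rw [h.mul_mem_iff hx hy]; tauto
  · rw [ind_not_mem hx h1, ind_not_mem hy h2, ind_mem (h.mul_mem hx hy h1 h2)]; decide

theorem Half.kr_ind {E S : Subgroup G} (h : Half E S) : kr S (ind E S) h.addOn_ind = E := by
  ext x
  rw [mem_kr]
  constructor
  · rintro ⟨h1, h2⟩
    exact (ind_eq_zero h1).1 h2
  · intro hx
    exact ⟨h.le hx, ind_mem hx⟩

/-- the common kernel of all additive functions on `E` -/
def Ph (E : Subgroup G) : Subgroup G where
  carrier := {x | x ∈ E ∧ ∀ φ, AddOn E φ → φ x = 0}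
  one_mem' := ⟨E.one_mem, fun _ h => h.one⟩
  mul_mem' := by
    rintro x y ⟨hx, hx'⟩ ⟨hy, hy'⟩
    exact ⟨E.mul_mem hx hy, fun φ h => by rw [h x hx y hy, hx' φ h, hy' φ h, add_zero]⟩
  inv_mem' := by
    rintro x ⟨hx, hx'⟩
    exact ⟨E.inv_mem hx, fun φ h => by rw [h.inv hx, hx' φ h]⟩

theorem mem_Ph {E : Subgroup G} {x : G} : x ∈ Ph E ↔ x ∈ E ∧ ∀ φ, AddOn E φ → φ x = 0 := Iff.rfl

theorem Ph_le (E : Subgroup G) : Ph E ≤ E := fun _ hx => hx.1

theorem sq_mem_Ph {E : Subgroup G} {x : G} (hx : x ∈ E) : x * x ∈ Ph E :=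
  ⟨E.mul_mem hx hx, fun _ h => h.sq hx⟩

theorem Ph_norm {E : Subgroup G} {k : G} (hk : k ∈ normalizer (E : Set G)) :
    k ∈ normalizer (Ph E : Set G) := by
  have key : ∀ k ∈ normalizer (E : Set G), ∀ y ∈ Ph E, k * y * k⁻¹ ∈ Ph E := by
    rintro k hk y ⟨hy, hy'⟩
    refine ⟨norm_conj hk hy, fun φ h => ?_⟩
    exact hy' _ (h.comp_conj hk)
  apply mem_normalizer_of (key k hk)
  intro y hy
  simpa using key k⁻¹ (inv_mem hk) y hy

theorem normalizer_le_Ph (E : Subgroup G) : normalizer (E : Set G) ≤ normalizer (Ph E : Set G) :=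
  fun _ hk => Ph_norm hk

theorem Ph_mono {E S : Subgroup G} (h : E ≤ S) : Ph E ≤ Ph S :=
  fun _ hx => ⟨h hx.1, fun φ hφ => hx.2 φ (hφ.mono h)⟩

/-- `q` exhibits `V` as the quotient `A / K`. -/
structure Quo {V : Type*} [AddCommGroup V] (A K : Subgroup G) (q : G → V) : Prop where
  add : ∀ a ∈ A, ∀ b ∈ A, q (a * b) = q a + q b
  ker : ∀ a ∈ A, (q a = 0 ↔ a ∈ K)
  surj : ∀ v, ∃ a ∈ A, q a = v

end

section

variable {G : Type*} [Group G] {V : Type*} [AddCommGroup V] [Module (ZMod 2) V]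
  {A K : Subgroup G} {q : G → V}

omit [Module (ZMod 2) V] in
theorem Quo.one (h : Quo A K q) : q 1 = 0 := by
  have := h.add 1 A.one_mem 1 A.one_mem
  rw [mul_one] at this
  simpa using this

theorem Quo.inv (h : Quo A K q) {a : G} (ha : a ∈ A) : q a⁻¹ = q a := by
  have := h.add a ha a⁻¹ (A.inv_mem ha)
  rw [mul_inv_cancel, h.one] at this
  exact (c2_of this.symm).symm

theorem Quo.eq_iff (h : Quo A K q) {a b : G} (ha : a ∈ A) (hb : b ∈ A) :
    q a = q b ↔ a * b⁻¹ ∈ K := by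
  rw [← h.ker _ (A.mul_mem ha (A.inv_mem hb)), h.add a ha _ (A.inv_mem hb), h.inv hb]
  constructor
  · intro h'
    rw [h', dbl]
  · exact c2_of

theorem Quo.comp (h : Quo A K q) (ψ : V →ₗ[ZMod 2] ZMod 2) : AddOn A (fun x => ψ (q x)) := by
  intro x hx y hy
  simp only
  rw [h.add x hx y hy, map_add]

theorem Quo.comp_K (h : Quo A K q) (hKA : K ≤ A) (ψ : V →ₗ[ZMod 2] ZMod 2) {x : G} (hx : x ∈ K) :
    ψ (q x) = 0 := by
  rw [(h.ker x (hKA hx)).2 hx, map_zero]

theorem sep {v : V} (h : ∀ ψ : V →ₗ[ZMod 2] ZMod 2, ψ v = 0) : v = 0 :=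
  (Module.forall_dual_apply_eq_zero_iff (ZMod 2) v).1 h

/-- a function factoring through `q` -/
theorem Quo.lift (h : Quo A K q) {W : Type*} [AddCommGroup W] [Module (ZMod 2) W] (φ : G → W)
    (hφ : ∀ x ∈ A, ∀ y ∈ A, φ (x * y) = φ x + φ y) (hK : ∀ x ∈ A, x ∈ K → φ x = 0) :
    ∃ ψ : V →ₗ[ZMod 2] W, ∀ a ∈ A, ψ (q a) = φ a := by
  classical
  choose r hrA hr using h.surj
  have h1 : φ 1 = 0 := by
    have := hφ 1 A.one_mem 1 A.one_mem
    rw [mul_one] at this
    simpa using this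
  have key : ∀ a ∈ A, φ (r (q a)) = φ a := by
    intro a ha
    have h2 : r (q a) * a⁻¹ ∈ K := by rw [← h.eq_iff (hrA _) ha, hr]
    have h3 := hφ (r (q a) * a⁻¹) (A.mul_mem (hrA _) (A.inv_mem ha)) a ha
    rw [hK _ (A.mul_mem (hrA _) (A.inv_mem ha)) h2, inv_mul_cancel_right, zero_add] at h3
    exact h3
  have hadd : ∀ v w : V, φ (r (v + w)) = φ (r v) + φ (r w) := by
    intro v w
    rw [← hφ _ (hrA v) _ (hrA w), ← key _ (A.mul_mem (hrA v) (hrA w)), h.add _ (hrA v) _ (hrA w),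
      hr, hr]
  refine ⟨{ toFun := fun v => φ (r v), map_add' := hadd, map_smul' := ?_ }, key⟩
  intro c v
  simp only [RingHom.id_apply]
  rcases zmod2_cases c with rfl | rfl
  · have h0 : φ (r 0) = 0 := by
      have := hadd 0 0
      rw [add_zero] at this
      simpa using this
    rw [zero_smul, zero_smul, h0]
  · rw [one_smul, one_smul]

theorem Quo.induced (h : Quo A K q) {k : G} (hkA : k ∈ normalizer (A : Set G))
    (hkK : k ∈ normalizer (K : Set G)) :
    ∃ κ : Module.End (ZMod 2) V, ∀ a ∈ A, κ (q a) = q (k * a * k⁻¹) := by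
  refine h.lift (fun a => q (k * a * k⁻¹)) ?_ ?_
  · intro x hx y hy
    rw [← h.add _ (norm_conj hkA hx) _ (norm_conj hkA hy)]
    congr 1
    group
  · intro x hx hxK
    exact (h.ker _ (norm_conj hkA hx)).2 (norm_conj hkK hxK)

end

theorem exists_quo {G : Type u} [Group G] [Finite G] {A K : Subgroup G} (hKA : K ≤ A)
    (hn : A ≤ normalizer (K : Set G)) (hsq : ∀ a ∈ A, a * a ∈ K) :
    ∃ (V : Type u) (_ : AddCommGroup V) (_ : Module (ZMod 2) V) (_ : Finite V) (q : G → V),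
      Quo A K q ∧ Nat.card V * Nat.card K = Nat.card A := by
  classical
  have hN : (K.subgroupOf A).Normal := by
    constructor
    intro n hn' g
    rw [mem_subgroupOf] at hn' ⊢
    exact norm_conj (hn g.2) hn'
  have hone : ∀ x : A ⧸ K.subgroupOf A, x * x = 1 := by
    intro x
    obtain ⟨a, rfl⟩ := QuotientGroup.mk_surjective x
    rw [← QuotientGroup.mk_mul, QuotientGroup.eq_one_iff, mem_subgroupOf]
    exact hsq a a.2
  have hcomm : ∀ x y : A ⧸ K.subgroupOf A, x * y = y * x := by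
    intro x y
    have hx : x⁻¹ = x := inv_eq_of_mul_eq_one_left (hone x)
    have hy : y⁻¹ = y := inv_eq_of_mul_eq_one_left (hone y)
    have hxy : (x * y)⁻¹ = x * y := inv_eq_of_mul_eq_one_left (hone _)
    rw [← hxy, mul_inv_rev, hx, hy]
  let _ : CommGroup (A ⧸ K.subgroupOf A) := { mul_comm := hcomm }
  let _ : Module (ZMod 2) (Additive (A ⧸ K.subgroupOf A)) := AddCommGroup.zmodModule (by
    intro x
    have := hone x.toMul
    rw [two_smul]
    exact this)
  refine ⟨Additive (A ⧸ K.subgroupOf A), inferInstance, inferInstance, inferInstance,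
    fun x => if hx : x ∈ A then Additive.ofMul (QuotientGroup.mk ⟨x, hx⟩) else 0, ⟨?_, ?_, ?_⟩, ?_⟩
  · intro a ha b hb
    simp only [ha, hb, A.mul_mem ha hb, dif_pos]
    rfl
  · intro a ha
    simp only [ha, dif_pos]
    rw [ofMul_eq_zero, QuotientGroup.eq_one_iff, mem_subgroupOf]
  · intro v
    obtain ⟨a, ha⟩ := QuotientGroup.mk_surjective v.toMul
    refine ⟨a, a.2, ?_⟩
    simp only [a.2, dif_pos]
    exact ha
  · have h1 : Nat.card (Additive (A ⧸ K.subgroupOf A)) = (K.subgroupOf A).index := rfl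
    have h2 := Subgroup.card_mul_index (K.subgroupOf A)
    have h3 : Nat.card (K.subgroupOf A) = Nat.card K :=
      Nat.card_congr (Subgroup.subgroupOfEquivOfLe hKA).toEquiv
    rw [h1, ← h3, mul_comm]
    exact h2

end Pool.Agent.Work.MP_cd0fff_al
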