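import Mathlib

/-!
The theorem of Baer and Suzuki, after Alperin and Lyons: if every two elements of a
conjugation-invariant set generate a `p`-group, then the whole set generates a `p`-group.
-/

namespace Pool.Agent.Work.MP_cd0fff_al

open Subgroup

variable {G : Type*} [Group G]

/-- A proper subgroup of a finite `p`-subgroup is properly normalised inside it. -/
theorem exists_mem_normalizer_of_lt [Finite G] {p : ℕ} [Fact p.Prime] {H P : Subgroup G}
    (hP : IsPGroup p P) (hlt : H < P) :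
    ∃ x ∈ P, x ∉ H ∧ ∀ h, h ∈ H ↔ x * h * x⁻¹ ∈ H := by
  have : Group.IsNilpotent P := hP.isNilpotent
  have hnc : NormalizerCondition P := Group.normalizerCondition_of_isNilpotent
  have hne : H.subgroupOf P < ⊤ := by
    rw [lt_top_iff_ne_top]
    intro h
    rw [subgroupOf_eq_top] at h
    exact absurd h (not_le_of_gt hlt)
  have h1 := hnc _ hne
  obtain ⟨y, hy, hy'⟩ := SetLike.exists_of_lt h1
  refine ⟨y, y.2, fun h => hy' (mem_subgroupOf.2 h), fun h => ?_⟩
  rw [mem_normalizer_iff] at hy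
  constructor
  · intro hh
    have := (hy ⟨h, hlt.le hh⟩).1 (mem_subgroupOf.2 hh)
    simpa [mem_subgroupOf] using this
  · intro hh
    have hhP : h ∈ P := by
      have h2 : (y : G)⁻¹ * ((y : G) * h * (y : G)⁻¹) * (y : G) ∈ P :=
        P.mul_mem (P.mul_mem (P.inv_mem y.2) (hlt.le hh)) y.2
      simpa [mul_assoc] using h2
    have := (hy ⟨h, hhP⟩).2 (by simpa [mem_subgroupOf] using hh)
    simpa [mem_subgroupOf] using this

/-- The growth step of the Alperin-Lyons argument. -/
theorem baer_growth [Finite G] {p : ℕ} [Fact p.Prime] {D : Set G}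
    (hD : ∀ g, ∀ d ∈ D, g * d * g⁻¹ ∈ D) {P R : Subgroup G} (hP : IsPGroup p P)
    (hRP : R ≤ P) (hR : R = closure (D ∩ R)) (hne : ¬ (D ∩ P : Set G) ⊆ R) :
    ∃ x ∈ D, x ∈ P ∧ x ∉ R ∧ x ∈ normalizer (R : Set G) := by
  classical
  -- maximal subgroup `H` between with `D ∩ H ⊆ R`
  have hfin : (({H : Subgroup G | R ≤ H ∧ H ≤ P ∧ (D ∩ H : Set G) ⊆ R})).Finite := Set.toFinite _
  have hnon : ({H : Subgroup G | R ≤ H ∧ H ≤ P ∧ (D ∩ H : Set G) ⊆ R}).Nonempty :=
    ⟨R, le_refl _, hRP, fun x hx => hx.2⟩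
  obtain ⟨H, ⟨⟨hRH, hHP, hDH⟩, hmax⟩⟩ := hfin.exists_maximal hnon
  have hlt : H < P := by
    refine lt_of_le_of_ne hHP ?_
    rintro rfl
    exact hne hDH
  obtain ⟨y, hyP, hyH, hy⟩ := exists_mem_normalizer_of_lt hP hlt
  -- consider the normaliser of `H` inside `P`
  set N : Subgroup G := normalizer (H : Set G) ⊓ P with hN
  have hyN : y ∈ N := ⟨mem_normalizer_iff.2 hy, hyP⟩
  have hHN : H ≤ N := le_inf le_normalizer hHP
  have hnot : ¬ (D ∩ N : Set G) ⊆ R := by
    intro h
    have h1 : N ≤ H := hmax ⟨hRH.trans hHN, inf_le_right, h⟩ hHN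
    exact hyH (h1 hyN)
  obtain ⟨x, ⟨hxD, hxN⟩, hxR⟩ := Set.not_subset.1 hnot
  refine ⟨x, hxD, hxN.2, hxR, ?_⟩
  have hxn := mem_normalizer_iff.1 hxN.1
  -- `x` normalises `D ∩ H = D ∩ R`
  have key : ∀ z : G, z ∈ (D ∩ R : Set G) → x * z * x⁻¹ ∈ (D ∩ R : Set G) := by
    rintro z ⟨hzD, hzR⟩
    have h1 : x * z * x⁻¹ ∈ H := (hxn z).1 (hRH hzR)
    have h2 := hD x z hzD
    exact ⟨h2, hDH ⟨h2, h1⟩⟩
  have key' : ∀ z : G, z ∈ (D ∩ R : Set G) → x⁻¹ * z * x ∈ (D ∩ R : Set G) := by
    rintro z ⟨hzD, hzR⟩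
    have h1 : x⁻¹ * z * x ∈ H := by
      have := (hxn (x⁻¹ * z * x)).2 (by simpa [mul_assoc] using hRH hzR)
      exact this
    have h2 : x⁻¹ * z * x ∈ D := by simpa using hD x⁻¹ z hzD
    exact ⟨h2, hDH ⟨h2, h1⟩⟩
  have hmap : ∀ z ∈ R, x * z * x⁻¹ ∈ R := by
    intro z hz
    rw [hR] at hz
    induction hz using closure_induction with
    | mem z hz => exact (key z hz).2
    | one => simp
    | mul a b _ _ ha hb =>
      have : x * (a * b) * x⁻¹ = (x * a * x⁻¹) * (x * b * x⁻¹) := by group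
      rw [this]; exact R.mul_mem ha hb
    | inv a _ ha =>
      have : x * a⁻¹ * x⁻¹ = (x * a * x⁻¹)⁻¹ := by group
      rw [this]; exact R.inv_mem ha
  have hmap' : ∀ z ∈ R, x⁻¹ * z * x ∈ R := by
    intro z hz
    rw [hR] at hz
    induction hz using closure_induction with
    | mem z hz => exact (key' z hz).2
    | one => simp
    | mul a b _ _ ha hb =>
      have : x⁻¹ * (a * b) * x = (x⁻¹ * a * x) * (x⁻¹ * b * x) := by group
      rw [this]; exact R.mul_mem ha hb
    | inv a _ ha =>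
      have : x⁻¹ * a⁻¹ * x = (x⁻¹ * a * x)⁻¹ := by group
      rw [this]; exact R.inv_mem ha
  rw [mem_normalizer_iff]
  intro z
  refine ⟨hmap z, fun h => ?_⟩
  have := hmap' _ h
  simpa [mul_assoc] using this

/-- **Baer-Suzuki.** -/
theorem baer_suzuki [Finite G] {p : ℕ} [Fact p.Prime] {D : Set G}
    (hD : ∀ g, ∀ d ∈ D, g * d * g⁻¹ ∈ D)
    (h : ∀ a ∈ D, ∀ b ∈ D, IsPGroup p (closure {a, b})) :
    IsPGroup p (closure D) := by
  classical
  have hcard : ∀ P Q : Sylow p G, (D ∩ (P : Subgroup G) : Set G).ncard =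
      (D ∩ (Q : Subgroup G) : Set G).ncard := by
    intro P Q
    obtain ⟨g, rfl⟩ := MulAction.exists_smul_eq G P Q
    symm
    have himg : (D ∩ ((g • P : Sylow p G) : Subgroup G) : Set G) =
        (fun z => g * z * g⁻¹) '' (D ∩ (P : Subgroup G) : Set G) := by
      ext z
      constructor
      · rintro ⟨hz1, hz2⟩
        refine ⟨g⁻¹ * z * g, ⟨by simpa using hD g⁻¹ z hz1, ?_⟩, by group⟩
        have : z ∈ ((g • P : Sylow p G) : Subgroup G) := hz2
        rw [Sylow.smul_def] at this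
        rw [Sylow.pointwise_smul_def, Subgroup.mem_pointwise_smul_iff_inv_smul_mem] at this
        have h3 : (MulAut.conj g)⁻¹ • z = g⁻¹ * z * g := by
          rw [← map_inv, MulAut.smul_def, MulAut.conj_apply]
          group
        rw [h3] at this
        exact this
      · rintro ⟨w, ⟨hw1, hw2⟩, rfl⟩
        refine ⟨hD g w hw1, ?_⟩
        change g * w * g⁻¹ ∈ ((g • P : Sylow p G) : Subgroup G)
        rw [Sylow.smul_def, Sylow.pointwise_smul_def,
          Subgroup.mem_pointwise_smul_iff_inv_smul_mem]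
        have : (MulAut.conj g)⁻¹ • (g * w * g⁻¹) = w := by
          rw [← map_inv, MulAut.smul_def, MulAut.conj_apply]
          group
        rw [this]
        exact hw2
    rw [himg, Set.ncard_image_of_injective _ (by
      intro a b hab
      simpa using hab)]
  have hall : ∀ P Q : Sylow p G, (D ∩ (P : Subgroup G) : Set G) = D ∩ (Q : Subgroup G) := by
    by_contra hcon
    push Not at hcon
    -- choose a bad pair with maximal intersection
    set B : Set (Sylow p G × Sylow p G) :=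
      {z | (D ∩ (z.1 : Subgroup G) : Set G) ≠ D ∩ (z.2 : Subgroup G)} with hB
    have hBne : B.Nonempty := by
      obtain ⟨P, Q, hPQ⟩ := hcon
      exact ⟨(P, Q), hPQ⟩
    obtain ⟨⟨P, Q⟩, hPQ, hmax⟩ := Set.exists_max_image B
      (fun z => (D ∩ ((z.1 : Subgroup G) ⊓ (z.2 : Subgroup G) : Subgroup G) : Set G).ncard)
      (Set.toFinite _) hBne
    simp only at hmax
    set A : Set G := D ∩ ((P : Subgroup G) ⊓ (Q : Subgroup G) : Subgroup G) with hA
    set R : Subgroup G := closure A with hR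
    have hRPQ : R ≤ (P : Subgroup G) ⊓ (Q : Subgroup G) := by
      rw [hR, closure_le]
      exact fun z hz => hz.2
    have hAR : (D ∩ R : Set G) = A := by
      apply Set.Subset.antisymm
      · rintro z ⟨hz1, hz2⟩
        exact ⟨hz1, hRPQ hz2⟩
      · rintro z hz
        exact ⟨hz.1, subset_closure hz⟩
    have hR' : R = closure (D ∩ R) := by rw [hAR]
    have hnotPQ : ¬ (D ∩ (P : Subgroup G) : Set G) ⊆ R := by
      intro hsub
      apply hPQ
      have h1 : (D ∩ (P : Subgroup G) : Set G) ⊆ D ∩ (Q : Subgroup G) :=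
        fun z hz => ⟨hz.1, (hRPQ (hsub hz)).2⟩
      exact Set.eq_of_subset_of_ncard_le h1 (hcard Q P).le (Set.toFinite _)
    have hnotQP : ¬ (D ∩ (Q : Subgroup G) : Set G) ⊆ R := by
      intro hsub
      apply hPQ
      have h1 : (D ∩ (Q : Subgroup G) : Set G) ⊆ D ∩ (P : Subgroup G) :=
        fun z hz => ⟨hz.1, (hRPQ (hsub hz)).1⟩
      exact (Set.eq_of_subset_of_ncard_le h1 (hcard P Q).le (Set.toFinite _)).symm
    obtain ⟨x, hxD, hxP, hxR, hxn⟩ := baer_growth hD P.isPGroup'
      (hRPQ.trans inf_le_left) hR' hnotPQ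
    obtain ⟨y, hyD, hyQ, hyR, hyn⟩ := baer_growth hD Q.isPGroup'
      (hRPQ.trans inf_le_right) hR' hnotQP
    have hxy := h x hxD y hyD
    have hle : closure {x, y} ≤ normalizer (R : Set G) := by
      rw [closure_le]
      rintro z (rfl | rfl)
      · exact hxn
      · exact hyn
    have hRp : IsPGroup p R := P.isPGroup'.to_le (hRPQ.trans inf_le_left)
    have hsup : IsPGroup p (closure {x, y} ⊔ R : Subgroup G) :=
      hxy.to_sup_of_normal_right' hRp hle
    obtain ⟨T, hT⟩ := hsup.exists_le_sylow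
    have hxT : x ∈ (T : Subgroup G) := (le_sup_left.trans hT) (subset_closure (by simp))
    have hyT : y ∈ (T : Subgroup G) := (le_sup_left.trans hT) (subset_closure (by simp))
    have hRT : R ≤ (T : Subgroup G) := le_sup_right.trans hT
    have hPT : (D ∩ (P : Subgroup G) : Set G) = D ∩ (T : Subgroup G) := by
      by_contra hne
      have h1 := hmax (P, T) hne
      have hss : A ⊂ D ∩ ((P : Subgroup G) ⊓ (T : Subgroup G) : Subgroup G) := by
        refine ⟨fun z hz => ⟨hz.1, hz.2.1, hRT (subset_closure hz)⟩, fun hsub => ?_⟩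
        have : x ∈ A := hsub ⟨hxD, hxP, hxT⟩
        exact hxR (subset_closure this)
      have h2 := Set.ncard_lt_ncard hss (Set.toFinite _)
      simp only at h1
      omega
    have hQT : (D ∩ (Q : Subgroup G) : Set G) = D ∩ (T : Subgroup G) := by
      by_contra hne
      have h1 := hmax (Q, T) hne
      have hss : A ⊂ D ∩ ((Q : Subgroup G) ⊓ (T : Subgroup G) : Subgroup G) := by
        refine ⟨fun z hz => ⟨hz.1, hz.2.2, hRT (subset_closure hz)⟩, fun hsub => ?_⟩
        have : y ∈ A := hsub ⟨hyD, hyQ, hyT⟩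
        exact hyR (subset_closure this)
      have h2 := Set.ncard_lt_ncard hss (Set.toFinite _)
      simp only at h1
      omega
    exact hPQ (hPT.trans hQT.symm)
  have P0 : Sylow p G := default
  refine P0.isPGroup'.to_le ?_
  rw [closure_le]
  intro d hd
  have h1 : IsPGroup p (closure {d, d}) := h d hd d hd
  obtain ⟨T, hT⟩ := h1.exists_le_sylow
  have hdT : d ∈ (D ∩ (T : Subgroup G) : Set G) := ⟨hd, hT (subset_closure (by simp))⟩
  rw [hall T P0] at hdT
  exact hdT.2

end Pool.Agent.Work.MP_cd0fff_al
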