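import Mathlib

/-!
Definitions for the problem on finite groups whose `2`-local subgroups have odd index.
-/

namespace Pool.Agent.Work.MP_cd0fff_al

open Subgroup

/-- Property (O): the normaliser of every nontrivial `2`-subgroup of `G` has odd index. -/
def PropertyO (G : Type*) [Group G] : Prop :=
  ∀ P : Subgroup G, IsPGroup 2 P → P ≠ ⊥ → Odd (normalizer (P : Set G)).index

/-- A subgroup `S` is Dedekind when all its subgroups are normal in it, that is, `S`
normalises each of its subgroups. -/
def IsDedekindSubgroup {G : Type*} [Group G] (S : Subgroup G) : Prop :=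
  ∀ H : Subgroup G, H ≤ S → S ≤ normalizer (H : Set G)

/-- `G` is `2`-constrained: for some normal subgroup `N` of odd order, `G / N` has a normal
`2`-subgroup containing its own centraliser. -/
def TwoConstrained (G : Type*) [Group G] : Prop :=
  ∃ (N : Subgroup G) (_ : N.Normal), Odd (Nat.card N) ∧
    ∃ Q : Subgroup (G ⧸ N), Q.Normal ∧ IsPGroup 2 Q ∧ centralizer (Q : Set (G ⧸ N)) ≤ Q

end Pool.Agent.Work.MP_cd0fff_al
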