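import Pool.Agent.Work.MP_cd0fff_al.BaerSuzuki
import Pool.Agent.Work.MP_cd0fff_al.Defs

/-!
Property (O): the normaliser of every nontrivial 2-subgroup has odd index.
-/

namespace Pool.Agent.Work.MP_cd0fff_al

open Subgroup

variable {G : Type*} [Group G]

/-- A normal `2`-subgroup of the normaliser is contained in each Sylow subgroup inside it. -/
theorem le_sylow_of_le_normalizer [Finite G] {P : Subgroup G} (hP : IsPGroup 2 P) (T : Sylow 2 G)
    (hT : (T : Subgroup G) ≤ normalizer (P : Set G)) : P ≤ T := by
  have h1 : IsPGroup 2 ((T : Subgroup G) ⊔ P : Subgroup G) :=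
    T.isPGroup'.to_sup_of_normal_right' hP hT
  have h2 := T.is_maximal' h1 le_sup_left
  rw [← h2]
  exact le_sup_right

theorem exists_sylow_le_of_odd_index [Finite G] {N : Subgroup G} (hN : Odd N.index) :
    ∃ T : Sylow 2 G, (T : Subgroup G) ≤ N := by
  classical
  have T0 : Sylow 2 N := default
  have hp : IsPGroup 2 ((T0 : Subgroup N).map N.subtype) := T0.isPGroup'.map _
  have hidx : ((T0 : Subgroup N).map N.subtype).index = (T0 : Subgroup N).index * N.index := by
    rw [Subgroup.index_map]
    simp
  have hodd : ¬ 2 ∣ ((T0 : Subgroup N).map N.subtype).index := by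
    rw [hidx, Nat.Prime.dvd_mul Nat.prime_two]
    rintro (h | h)
    · exact T0.not_dvd_index h
    · exact (Nat.not_even_iff_odd.2 hN) (even_iff_two_dvd.2 h)
  refine ⟨hp.toSylow hodd, ?_⟩
  rw [IsPGroup.toSylow_coe]
  exact map_subtype_le _

theorem odd_index_of_sylow_le [Finite G] {N : Subgroup G} (T : Sylow 2 G)
    (h : (T : Subgroup G) ≤ N) : Odd N.index := by
  rw [← Nat.not_even_iff_odd, even_iff_two_dvd]
  intro h2
  exact T.not_dvd_index (h2.trans (index_dvd_of_le h))

theorem propertyO_iff [Finite G] : PropertyO G ↔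
    ∀ P : Subgroup G, IsPGroup 2 P → ∃ T : Sylow 2 G, P ≤ T ∧
      (T : Subgroup G) ≤ normalizer (P : Set G) := by
  constructor
  · intro h P hP
    by_cases hb : P = ⊥
    · subst hb
      refine ⟨default, bot_le, ?_⟩
      intro x _
      rw [mem_normalizer_iff]
      intro z
      simp
    · obtain ⟨T, hT⟩ := exists_sylow_le_of_odd_index (h P hP hb)
      exact ⟨T, le_sylow_of_le_normalizer hP T hT, hT⟩
  · intro h P hP _
    obtain ⟨T, _, hT⟩ := h P hP
    exact odd_index_of_sylow_le T hT

/-- If the Sylow `2`-subgroups are Dedekind then (O) holds. -/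
theorem propertyO_of_dedekind [Finite G] (h : ∀ S : Sylow 2 G, IsDedekindSubgroup (S : Subgroup G)) :
    PropertyO G := by
  rw [propertyO_iff]
  intro P hP
  obtain ⟨T, hT⟩ := hP.exists_le_sylow
  exact ⟨T, hT, h T P hT⟩

/-- Property (O) passes to quotients. -/
theorem PropertyO.quotient [Finite G] (h : PropertyO G) (N : Subgroup G) [N.Normal] :
    PropertyO (G ⧸ N) := by
  classical
  intro P hP hPne
  -- the preimage and a Sylow subgroup of it
  set H : Subgroup G := P.comap (QuotientGroup.mk' N) with hH
  have S0 : Sylow 2 H := default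
  set Q : Subgroup G := (S0 : Subgroup H).map H.subtype with hQ
  have hQp : IsPGroup 2 Q := S0.isPGroup'.map _
  have hQH : Q ≤ H := map_subtype_le _
  -- image of `Q` is `P`
  have hmapH : H.map (QuotientGroup.mk' N) = P :=
    map_comap_eq_self_of_surjective (QuotientGroup.mk'_surjective N) P
  have hQP : Q.map (QuotientGroup.mk' N) = P := by
    apply le_antisymm
    · rw [← hmapH]
      exact Subgroup.map_mono hQH
    · -- index of the image in `P` is both odd and a power of two
      have hle : Q.map (QuotientGroup.mk' N) ≤ P := by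
        rw [← hmapH]; exact Subgroup.map_mono hQH
      have h1 : (Q.map (QuotientGroup.mk' N)).relIndex P ∣ Q.relIndex H := by
        have hNH : N ≤ H := by
          intro x hx
          rw [hH, mem_comap, QuotientGroup.mk'_apply, (QuotientGroup.eq_one_iff x).2 hx]
          exact P.one_mem
        have h6 : (Q.map (QuotientGroup.mk' N)).relIndex (H.map (QuotientGroup.mk' N)) =
            (Q ⊔ N).relIndex (H ⊔ N) := by
          have := relIndex_map_map (QuotientGroup.mk' N) Q H
          rwa [QuotientGroup.ker_mk'] at this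
        rw [hmapH, sup_eq_left.2 hNH] at h6
        rw [h6]
        exact relIndex_dvd_of_le_left H le_sup_left
      have h2 : Q.relIndex H = (S0 : Subgroup H).index := by
        rw [hQ, relIndex, subgroupOf, comap_map_eq_self_of_injective (subtype_injective H)]
      have h3 : ¬ 2 ∣ (Q.map (QuotientGroup.mk' N)).relIndex P := by
        intro h4
        exact S0.not_dvd_index (h2 ▸ h4.trans h1)
      have h5 : ∃ n, (Q.map (QuotientGroup.mk' N)).relIndex P = 2 ^ n := hP.index _
      obtain ⟨n, hn⟩ := h5
      rw [hn] at h3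
      have hn0 : n = 0 := by
        by_contra h0
        exact h3 (dvd_pow_self 2 h0)
      rw [hn0, pow_zero, relIndex_eq_one] at hn
      exact hn
  have hQne : Q ≠ ⊥ := by
    rintro hb
    rw [hb, Subgroup.map_bot] at hQP
    exact hPne hQP.symm
  have h1 := h Q hQp hQne
  have h2 : (normalizer (Q : Set G)).map (QuotientGroup.mk' N) ≤ normalizer (P : Set (G ⧸ N)) := by
    rintro _ ⟨x, hx, rfl⟩
    rw [mem_normalizer_iff]
    have hx' := mem_normalizer_iff.1 hx
    intro z
    rw [← hQP]
    constructor
    · rintro ⟨q, hq, rfl⟩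
      exact ⟨x * q * x⁻¹, (hx' q).1 hq, by simp⟩
    · rintro ⟨q, hq, hqz⟩
      refine ⟨x⁻¹ * q * x, ?_, ?_⟩
      · apply (hx' _).2
        have : x * (x⁻¹ * q * x) * x⁻¹ = q := by group
        rw [this]; exact hq
      · rw [map_mul, map_mul, hqz, map_inv]
        group
  have h3 : (normalizer (P : Set (G ⧸ N))).index ∣ (normalizer (Q : Set G)).index := by
    refine (index_dvd_of_le h2).trans ?_
    exact Subgroup.index_map_dvd _ (QuotientGroup.mk'_surjective N)
  exact Odd.of_dvd_nat h1 h3

end Pool.Agent.Work.MP_cd0fff_al
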