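import Pool.Agent.Work.MP_cd0fff_al.Dim

/-!
The linear lemmas applied to elementary abelian sections of `E`.
-/

universe u

namespace Pool.Agent.Work.MP_cd0fff_al

open Subgroup Module

variable {G : Type u} [Group G]

/-- the linear maps of `A / K` induced by the conjugates of elements of `S \ E` that
normalise `A` and `K` -/
def TT (S E A K : Subgroup G) {V : Type u} [AddCommGroup V] [Module (ZMod 2) V] (q : G → V) :
    Set (Module.End (ZMod 2) V) :=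
  {κ | ∃ z, Out S E z ∧ z ∈ normalizer (A : Set G) ∧ z ∈ normalizer (K : Set G) ∧
    ∀ a ∈ A, κ (q a) = q (z * a * z⁻¹)}

section

variable {V : Type u} [AddCommGroup V] [Module (ZMod 2) V]

theorem TT_inv [Finite G] {S : Sylow 2 G} {E A K : Subgroup G} (hE : Half E S) {q : G → V}
    (hq : Quo A K q) (hEA : ∀ e ∈ E, ∀ a ∈ A, e * a * e⁻¹ ∈ A ∧ q (e * a * e⁻¹) = q a) :
    InvSet (TT (S : Subgroup G) E A K q) := by
  refine ⟨?_, ?_, ?_⟩
  · rintro κ ⟨z, hz, hzA, hzK, hκ⟩ v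
    obtain ⟨a, ha, rfl⟩ := hq.surj v
    rw [hκ a ha, hκ _ (norm_conj hzA ha)]
    have e1 : z * (z * a * z⁻¹) * z⁻¹ = (z * z) * a * (z * z)⁻¹ := by group
    rw [e1, (hEA _ (hz.sq_mem hE) a ha).2]
  · rintro κ ⟨z, hz, hzA, hzK, hκ⟩ κ' ⟨z', hz', hzA', hzK', hκ'⟩
    refine ⟨z * z' * z⁻¹, hz'.conj (hz.mem_normalizer hE), mul_mem (mul_mem hzA hzA')
      (inv_mem hzA), mul_mem (mul_mem hzK hzK') (inv_mem hzK), ?_⟩
    intro a ha
    have h1 : κ (q a) = q (z⁻¹ * a * z) := by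
      rw [hκ a ha]
      have e1 : z * a * z⁻¹ = (z * z) * (z⁻¹ * a * z) * (z * z)⁻¹ := by group
      rw [e1, (hEA _ (hz.sq_mem hE) _ (norm_conj' hzA ha)).2]
    rw [Module.End.mul_apply, Module.End.mul_apply, h1, hκ' _ (norm_conj' hzA ha),
      hκ _ (norm_conj hzA' (norm_conj' hzA ha))]
    congr 1
    group
  · rintro κ ⟨z, hz, hzA, hzK, hκ⟩ κ' ⟨z', hz', hzA', hzK', hκ'⟩
    obtain ⟨n, hn, hzz⟩ := hz.odd hE hz'
    refine ⟨n, hn, ?_⟩
    have key : ∀ k : ℕ, ∀ a ∈ A, ((κ * κ') ^ k) (q a) =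
        q ((z * z') ^ k * a * ((z * z') ^ k)⁻¹) := by
      intro k
      induction k with
      | zero => intro a _; simp
      | succ k ih =>
        intro a ha
        have hm : (z * z') ^ k * a * ((z * z') ^ k)⁻¹ ∈ A :=
          norm_conj (pow_mem (mul_mem hzA hzA') k) ha
        rw [pow_succ', Module.End.mul_apply, Module.End.mul_apply, ih a ha, hκ' _ hm,
          hκ _ (norm_conj hzA' hm), pow_succ']
        congr 1
        generalize (z * z') ^ k = P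
        group
    ext v
    obtain ⟨a, ha, rfl⟩ := hq.surj v
    rw [key n a ha, (hEA _ hzz a ha).2]
    rfl

/-- the inverse image of a subspace -/
def pre {A K : Subgroup G} {q : G → V} (hq : Quo A K q) (Y : Submodule (ZMod 2) V) :
    Subgroup G where
  carrier := {a | a ∈ A ∧ q a ∈ Y}
  one_mem' := ⟨A.one_mem, by rw [hq.one]; exact Y.zero_mem⟩
  mul_mem' := by
    rintro a b ⟨ha, ha'⟩ ⟨hb, hb'⟩
    exact ⟨A.mul_mem ha hb, by rw [hq.add a ha b hb]; exact Y.add_mem ha' hb'⟩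
  inv_mem' := by
    rintro a ⟨ha, ha'⟩
    exact ⟨A.inv_mem ha, by rw [hq.inv ha]; exact ha'⟩

theorem mem_pre {A K : Subgroup G} {q : G → V} {hq : Quo A K q} {Y : Submodule (ZMod 2) V}
    {a : G} : a ∈ pre hq Y ↔ a ∈ A ∧ q a ∈ Y := Iff.rfl

/-- `E` acts trivially on `E / Ph E` -/
theorem Quo.triv {E : Subgroup G} {q : G → V} (hq : Quo E (Ph E) q) {e a : G} (he : e ∈ E)
    (ha : a ∈ E) : e * a * e⁻¹ ∈ E ∧ q (e * a * e⁻¹) = q a := by
  refine ⟨E.mul_mem (E.mul_mem he ha) (E.inv_mem he), ?_⟩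
  rw [hq.add _ (E.mul_mem he ha) _ (E.inv_mem he), hq.add e he a ha, hq.inv he]
  (apply c2_of; (try abel_nf); (try simp (disch := norm_num) only [smeven, add_zero, zero_add]))

theorem Quo.ext {E : Subgroup G} {q : G → V} (hq : Quo E (Ph E) q) {a b : G} (_ha : a ∈ E)
    (_hb : b ∈ E) (h : ∀ φ, AddOn E φ → φ a = φ b) : q a = q b := by
  apply c2_of
  apply sep
  intro ψ
  rw [map_add, h _ (hq.comp ψ), zdbl]

theorem Quo.apply {E : Subgroup G} {q : G → V} (hq : Quo E (Ph E) q) {a b : G} (ha : a ∈ E)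
    (hb : b ∈ E) (h : q a = q b) {φ : G → ZMod 2} (hφ : AddOn E φ) : φ a = φ b := by
  obtain ⟨ψ, hψ⟩ := hq.lift φ hφ (fun x _ hx => hx.2 φ hφ)
  rw [← hψ a ha, ← hψ b hb, h]

/-- every subspace of `E / Ph E` is preserved by some member of `TT` -/
theorem TT_sub [Finite G] (hO : PropertyO G) {S : Sylow 2 G} {E : Subgroup G} (hE : Half E S)
    {q : G → V} (hq : Quo E (Ph E) q) (Y : Submodule (ZMod 2) V) :
    ∃ t ∈ TT (S : Subgroup G) E E (Ph E) q, ∀ y ∈ Y, t y ∈ Y := by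
  obtain ⟨k, hk, hkS⟩ := exists_conj_norm hO hE (Y := pre hq Y) (fun a ha => ha.1)
    (le_normalizer_of (by
      rintro e he a ⟨ha, ha'⟩
      obtain ⟨h1, h2⟩ := hq.triv he ha
      exact ⟨h1, by rw [h2]; exact ha'⟩))
  obtain ⟨x, hx, hxE⟩ := hE.exists_not_mem
  have hz : Out (S : Subgroup G) E (k * x * k⁻¹) := (out_self hx hxE).conj hk
  have hzE := hz.mem_normalizer hE
  obtain ⟨κ, hκ⟩ := hq.induced hzE (Ph_norm hzE)
  refine ⟨κ, ⟨_, hz, hzE, Ph_norm hzE, hκ⟩, ?_⟩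
  intro y hy
  obtain ⟨a, ha, rfl⟩ := hq.surj y
  rw [hκ a ha]
  exact (norm_conj (hkS x hx) (show a ∈ pre hq Y from ⟨ha, hy⟩)).2

/-- membership of the map induced by an element of `S \ E` -/
theorem exists_TT {S E : Subgroup G} (hE : Half E S) {q : G → V} (hq : Quo E (Ph E) q)
    {z : G} (hz : Out S E z) :
    ∃ κ ∈ TT S E E (Ph E) q, ∀ a ∈ E, κ (q a) = q (z * a * z⁻¹) := by
  have hzE := hz.mem_normalizer hE
  obtain ⟨κ, hκ⟩ := hq.induced hzE (Ph_norm hzE)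
  exact ⟨κ, ⟨_, hz, hzE, Ph_norm hzE, hκ⟩, hκ⟩

/-- each element of `E` is conjugate to one centralised by `S` modulo `Ph E` -/
theorem conj_fix [Finite G] (hO : PropertyO G) {S : Sylow 2 G} {l : G → ZMod 2}
    (hl : AddOn (S : Subgroup G) l) {x₀ : G} (hx₀ : x₀ ∈ (S : Subgroup G)) (hx₁ : l x₀ = 1)
    {e : G} (he : e ∈ kr (S : Subgroup G) l hl) :
    ∃ k ∈ normalizer (kr (S : Subgroup G) l hl : Set G),
      ∀ m h, Lk (S : Subgroup G) l m h → m (k * e * k⁻¹) = 0 := by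
  set E := kr (S : Subgroup G) l hl with hEdef
  have hE : Half E S := half_kr hx₀ hx₁
  obtain ⟨V, _, _, _, q, hq, _⟩ := exists_quo (Ph_le E)
    ((Subgroup.le_normalizer).trans (normalizer_le_Ph E)) (fun a ha => sq_mem_Ph ha)
  obtain ⟨k, hk, hkS⟩ := exists_conj_norm hO hE (Y := pre hq (Submodule.span (ZMod 2) {q e}))
    (fun a ha => ha.1) (le_normalizer_of (by
      rintro e he a ⟨ha, ha'⟩
      obtain ⟨h1, h2⟩ := hq.triv he ha
      exact ⟨h1, by rw [h2]; exact ha'⟩))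
  refine ⟨k⁻¹, inv_mem hk, ?_⟩
  intro m h hm
  rw [inv_inv]
  set e' := k⁻¹ * e * k with he'
  have he'E : e' ∈ E := norm_conj' hk he
  have h1 := norm_conj (hkS x₀ hx₀) (show e ∈ pre hq (Submodule.span (ZMod 2) {q e}) from
    ⟨he, Submodule.mem_span_singleton_self _⟩)
  have hx₀E : x₀ ∈ normalizer (E : Set G) := hE.le_normalizer hx₀
  have hzE : k * x₀ * k⁻¹ ∈ normalizer (E : Set G) :=
    mul_mem (mul_mem hk hx₀E) (inv_mem hk)
  obtain ⟨κ, hκ⟩ := hq.induced hzE (Ph_norm hzE)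
  have h2 : q (k * x₀ * k⁻¹ * e * (k * x₀ * k⁻¹)⁻¹) = q e := by
    have h3 := h1.2
    rw [Submodule.mem_span_singleton] at h3
    obtain ⟨a, ha⟩ := h3
    rcases zmod2_cases a with rfl | rfl
    · rw [zero_smul] at ha
      rw [← ha]
      have h4 : k * x₀ * k⁻¹ * e * (k * x₀ * k⁻¹)⁻¹ ∈ Ph E := by
        rw [← hq.ker _ h1.1]; exact ha.symm
      have h5 := norm_conj' (Ph_norm hzE) h4
      have e1 : (k * x₀ * k⁻¹)⁻¹ * (k * x₀ * k⁻¹ * e * (k * x₀ * k⁻¹)⁻¹) * (k * x₀ * k⁻¹) = e := by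
        group
      rw [e1] at h5
      exact ((hq.ker e he).2 h5).symm
    · rw [one_smul] at ha
      exact ha.symm
  have h3 : q (x₀ * e' * x₀⁻¹) = q e' := by
    apply hq.ext (hE.conj_mem hx₀ he'E) he'E
    intro φ hφ
    have h4 := hq.apply h1.1 he h2 (hφ.comp_conj (inv_mem hk))
    rw [inv_inv] at h4
    have e1 : k⁻¹ * (k * x₀ * k⁻¹ * e * (k * x₀ * k⁻¹)⁻¹) * k = x₀ * e' * x₀⁻¹ := by
      rw [he']; group
    rw [e1] at h4
    exact h4
  have h4 := hq.apply (hE.conj_mem hx₀ he'E) he'E h3 (hm.addOn E kr_le (fun e he => he.2))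
  rw [hm.conj hl hx₀ (kr_le he'E), hx₁, he'E.2] at h4
  have aux : ∀ a b c : ZMod 2, a + 1 * b + 0 * c = a → b = 0 := by decide
  exact aux _ _ _ h4

/-- Additive functions on `ker l` are controlled by `Hm S` and the links of `l`. -/
theorem agree {S : Subgroup G} {l : G → ZMod 2} (hl : AddOn S l) {x₀ : G} (hx₀ : x₀ ∈ S)
    (hx₁ : l x₀ = 1) {g g' : G} (hg : g ∈ kr S l hl) (hg' : g' ∈ kr S l hl)
    (h1 : ∀ ρ, AddOn S ρ → ρ g = ρ g')
    (h2 : ∀ m h, AddOn S m → Lk S l m h → ∃ h', Lk S l m h' ∧ h' g = h' g') :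
    ∀ φ, AddOn (kr S l hl) φ → φ g = φ g' := by
  intro φ hφ
  obtain ⟨m, h, hm, hk, hext⟩ := exists_ext hl hx₀ hx₁ hφ
  obtain ⟨h', hk', hgg⟩ := h2 m h hm hk
  have h3 : AddOn S (h + h') := by
    intro x hx y hy
    simp only [Pi.add_apply]
    rw [hk x hx y hy, hk' x hx y hy]
    have aux : ∀ a b c d e : ZMod 2, a + b + c + (d + e + c) = a + d + (b + e) := by decide
    exact aux _ _ _ _ _
  have h4 := h1 _ h3
  simp only [Pi.add_apply, hgg] at h4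
  rw [← hext g hg, ← hext g' hg']
  exact add_right_cancel h4

/-- the commutator action when `m` spans `An S l` modulo `l` -/
theorem u1_transv {S : Subgroup G} {l m h : G → ZMod 2} (hl : AddOn S l)
    {x₀ : G} (hx₀ : x₀ ∈ S) (hx₁ : l x₀ = 1) (hk : Lk S l m h)
    (hspan : ∀ m' h', AddOn S m' → Lk S l m' h' →
      (∀ e ∈ kr S l hl, m' e = 0) ∨ (∀ e ∈ kr S l hl, m' e = m e))
    {e₀ : G} (he₀ : e₀ ∈ kr S l hl) (he₁ : m e₀ = 1)
    {q : G → V} (hq : Quo (kr S l hl) (Ph (kr S l hl)) q) :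
    q (x₀ * e₀ * x₀⁻¹) + q e₀ ≠ 0 ∧
    (∀ e ∈ kr S l hl, m e = 0 → q (x₀ * e * x₀⁻¹) = q e) ∧
    (∀ e ∈ kr S l hl, m e = 1 →
      q (x₀ * e * x₀⁻¹) = q e + (q (x₀ * e₀ * x₀⁻¹) + q e₀)) := by
  set E := kr S l hl with hE
  have hH : Half E S := half_kr hx₀ hx₁
  have key : ∀ φ, AddOn E φ → (∀ e ∈ E, φ (x₀ * e * x₀⁻¹) = φ e) ∨
      (∀ e ∈ E, φ (x₀ * e * x₀⁻¹) = φ e + m e) := by
    intro φ hφ
    obtain ⟨m', h', hm', hk', hext⟩ := exists_ext hl hx₀ hx₁ hφ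
    have h1 : ∀ e ∈ E, φ (x₀ * e * x₀⁻¹) = φ e + m' e := by
      intro e he
      have h2 := hk'.conj hl hx₀ (kr_le he)
      rw [hext e he, hext _ (hH.conj_mem hx₀ he), hx₁, he.2] at h2
      rw [h2]; ring
    rcases hspan m' h' hm' hk' with h2 | h2
    · left
      intro e he
      rw [h1 e he, h2 e he, add_zero]
    · right
      intro e he
      rw [h1 e he, h2 e he]
  refine ⟨?_, ?_, ?_⟩
  · intro h0
    have h1 := hq.apply (hH.conj_mem hx₀ he₀) he₀ (c2_of h0)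
      (hk.addOn E kr_le (fun e he => he.2))
    rw [hk.conj hl hx₀ (kr_le he₀), hx₁, he₀.2, he₁] at h1
    have aux : ∀ a b : ZMod 2, a + 1 * 1 + 0 * b ≠ a := by decide
    exact aux _ _ h1
  · intro e he hme
    apply hq.ext (hH.conj_mem hx₀ he) he
    intro φ hφ
    rcases key φ hφ with h1 | h1
    · exact h1 e he
    · rw [h1 e he, hme, add_zero]
  · intro e he hme
    apply c2_of
    apply sep
    intro ψ
    have h2 := hq.comp ψ
    simp only [map_add]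
    rcases key _ h2 with h1 | h1
    · rw [h1 e he, h1 e₀ he₀]
      have aux : ∀ a b : ZMod 2, a + (a + (b + b)) = 0 := by decide
      exact aux _ _
    · rw [h1 e he, h1 e₀ he₀, hme, he₁]
      have aux : ∀ a b : ZMod 2, a + 1 + (a + (b + 1 + b)) = 0 := by decide
      exact aux _ _

/-- Lemma A for `E / Ph E`. -/
theorem group_A [Finite G] (hO : PropertyO G) {S : Sylow 2 G} {E : Subgroup G} (hE : Half E S)
    {q : G → V} (hq : Quo E (Ph E) q) {x : G} (hx : x ∈ (S : Subgroup G)) (hxE : x ∉ E)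
    {c : V} (hc : c ≠ 0) (hs : ∀ e ∈ E, q (x * e * x⁻¹) = q e ∨ q (x * e * x⁻¹) = q e + c)
    (hne : ∃ e ∈ E, q (x * e * x⁻¹) ≠ q e) :
    ∃ s t : Module.End (ZMod 2) V, ∃ z, Out (S : Subgroup G) E z ∧
      (∀ a ∈ E, s (q a) = q (x * a * x⁻¹)) ∧ (∀ a ∈ E, t (q a) = q (z * a * z⁻¹)) ∧
      ∃ w f, s c = c ∧ t w = w ∧ (∀ v, s v = v ∨ s v = v + c) ∧ (∀ v, t v = v ∨ t v = v + w) ∧
      s w = w + c ∧ t c = c + w ∧ s f = f ∧ t f = f ∧
      (∀ r ∈ TT (S : Subgroup G) E E (Ph E) q, r = s ∨ r = t ∨ r = s * t * s) ∧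
      ∀ v : V, ∃ x, (x = 0 ∨ x = f) ∧ (v = x ∨ v = c + x ∨ v = w + x ∨ v = c + w + x) := by
  have hT := TT_inv (S := S) hE hq (fun e he a ha => hq.triv he ha)
  obtain ⟨s, hsT, hs'⟩ := exists_TT hE hq (out_self hx hxE)
  have hsv : ∀ v, s v = v ∨ s v = v + c := by
    intro v
    obtain ⟨a, ha, rfl⟩ := hq.surj v
    rw [hs' a ha]
    exact hs a ha
  have hne' : ∃ v, s v ≠ v := by
    obtain ⟨e, he, h1⟩ := hne
    exact ⟨q e, by rw [hs' e he]; exact h1⟩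
  obtain ⟨t, ht, w, f, h1, h2, h3, h4, h5, h6, h7, h8, h9⟩ :=
    lemma_A hT (TT_sub hO hE hq) hsT hc hsv hne'
  obtain ⟨z, hz, _, _, hz'⟩ := id ht
  exact ⟨s, t, z, hz, hs', hz', w, f, h1, h2, hsv, h3, h4, h5, h6, h7, h8, h9⟩

end

/-- If `An S l` is spanned by `m` modulo `l`, then `dim Hm (ker l) ≤ 3`, and some element of
`N_G(ker l)` moves the commutators `[x, e]` with `m e = 1` out of the kernel of `m`. -/
theorem u1_main [Finite G] (hO : PropertyO G) {S : Sylow 2 G} {l m h : G → ZMod 2}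
    (hl : AddOn (S : Subgroup G) l) {x₀ : G} (hx₀ : x₀ ∈ (S : Subgroup G)) (hx₁ : l x₀ = 1)
    (hk : Lk (S : Subgroup G) l m h)
    (hspan : ∀ m' h', AddOn (S : Subgroup G) m' → Lk (S : Subgroup G) l m' h' →
      (∀ e ∈ kr (S : Subgroup G) l hl, m' e = 0) ∨
      (∀ e ∈ kr (S : Subgroup G) l hl, m' e = m e))
    {e₀ : G} (he₀ : e₀ ∈ kr (S : Subgroup G) l hl) (he₁ : m e₀ = 1) :
    finrank (ZMod 2) (Hm (kr (S : Subgroup G) l hl)) ≤ 3 ∧
    ∃ z, Out (S : Subgroup G) (kr (S : Subgroup G) l hl) z ∧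
      ∀ g ∈ kr (S : Subgroup G) l hl, (∀ φ, AddOn (kr (S : Subgroup G) l hl) φ →
        φ g = φ (x₀ * e₀ * x₀⁻¹ * e₀⁻¹)) → m (z * g * z⁻¹) = 1 := by
  set E := kr (S : Subgroup G) l hl with hEdef
  have hH : Half E S := half_kr hx₀ hx₁
  obtain ⟨V, _, _, _, q, hq, _⟩ := exists_quo (Ph_le E)
    ((Subgroup.le_normalizer).trans (normalizer_le_Ph E)) (fun a ha => sq_mem_Ph ha)
  have hmk : Lk (S : Subgroup G) l m h := hk
  have hm : AddOn (S : Subgroup G) m := hk.addOn_mid hl hx₀ hx₁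
  obtain ⟨hc, h0, h1⟩ := u1_transv hl hx₀ hx₁ hk hspan he₀ he₁ hq
  set c := q (x₀ * e₀ * x₀⁻¹) + q e₀ with hcdef
  obtain ⟨s, t, z, hz, hs, ht, w, f, sc, tw, hsv, htv, sw, tc, sf, tf, _, hdec⟩ :=
    group_A hO hH hq hx₀ ((not_mem_kr hx₀).2 hx₁) hc (by
      intro e he
      rcases zmod2_cases (m e) with h | h
      · exact Or.inl (h0 e he h)
      · exact Or.inr (h1 e he h)) ⟨e₀, he₀, by
      intro h
      rw [h1 e₀ he₀ he₁] at h
      apply hc
      exact add_eq_left.1 h⟩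
  refine ⟨?_, z, hz, ?_⟩
  · have h2 := card_le_of_model hdec
    rw [card_quo hq] at h2
    by_contra hcon
    push Not at hcon
    have h3 : 2 ^ 4 ≤ 2 ^ finrank (ZMod 2) (Hm E) := Nat.pow_le_pow_right (by norm_num) hcon
    omega
  · intro g hg hgφ
    have hzE := hz.mem_normalizer hH
    have hcomm : x₀ * e₀ * x₀⁻¹ * e₀⁻¹ ∈ E :=
      E.mul_mem (hH.conj_mem hx₀ he₀) (E.inv_mem he₀)
    have hqg : q g = c := by
      rw [hq.ext hg hcomm hgφ, hq.add _ (hH.conj_mem hx₀ he₀) _ (E.inv_mem he₀), hq.inv he₀]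
    have h2 : q (z * g * z⁻¹) = c + w := by rw [← ht g hg, hqg, tc]
    have hmem : z * g * z⁻¹ ∈ E := norm_conj hzE hg
    by_contra hcon
    have h3 : m (z * g * z⁻¹) = 0 := by
      rcases zmod2_cases (m (z * g * z⁻¹)) with h | h
      · exact h
      · exact absurd h hcon
    have h4 := h0 _ hmem h3
    rw [← hs _ hmem, h2, map_add, sc, sw] at h4
    apply hc
    have : c = (c + (w + c)) + (c + w) := by (apply c2_of; (try abel_nf); (try simp (disch := norm_num) only [smeven, add_zero, zero_add]))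
    rw [this, h4, dbl]

end Pool.Agent.Work.MP_cd0fff_al
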