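import Pool.Agent.Work.MP_cd0fff_al.Core

/-!
The case where `x ^ 4 = 1`: `E` is elementary abelian.
-/

universe u

namespace Pool.Agent.Work.MP_cd0fff_al

open Subgroup Module

variable {G : Type u} [Group G]

theorem cA0 [Finite G] (hO : PropertyO G) {S : Sylow 2 G} {x : G}
    (hx : Outside (S : Subgroup G) x) {E : Subgroup G} (hE : MM (S : Subgroup G) E)
    (hS : ∀ s ∈ (S : Subgroup G), s * (x * x) = (x * x) * s)
    {b : G} (hb : b ∈ E) (hxb : x * b = (x * x) * b * x)
    {c : G} (hc : c ∈ E) (hxc : x * c = c * x) (hbc : b * c = c * b) :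
    Outside (S : Subgroup G) (x * c) := by
  have hEH := hE.1
  have hxS := hx.1
  have hbS := hEH.le hb
  have hcS := hEH.le hc
  have hout : Outside (S : Subgroup G) (x * c) := by
    refine ⟨mul_mem hxS hcS, fun R hR hmem => ?_⟩
    have hxR := hx.2 R hR
    have hcR : c ∉ R := fun h => hxR ((R.mul_mem_cancel_right h).1 hmem)
    apply hx.sq_not_mem hO hR
    by_cases hbR : b ∈ R
    · have h1 := comm_mem_Ph hmem hbR
      have e1 : x * c * b * (x * c)⁻¹ * b⁻¹ = x * x := by
        have : x * c * b * (x * c)⁻¹ * b⁻¹ = x * (c * b) * c⁻¹ * x⁻¹ * b⁻¹ := by group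
        rw [this, ← hbc]
        have : x * (b * c) * c⁻¹ * x⁻¹ * b⁻¹ = x * b * x⁻¹ * b⁻¹ := by group
        rw [this, hxb]; group
      rw [e1] at h1
      exact h1
    · have hbcR : b * c ∈ R := hR.1.mul_mem hbS hcS hbR hcR
      have h1 := comm_mem_Ph hmem hbcR
      have e1 : x * c * (b * c) * (x * c)⁻¹ * (b * c)⁻¹ = x * x := by
        have : x * c * (b * c) * (x * c)⁻¹ * (b * c)⁻¹ = (x * c) * b * x⁻¹ * (b * c)⁻¹ := by group
        rw [this, hxc]
        have : c * x * b * x⁻¹ * (b * c)⁻¹ = c * (x * b) * x⁻¹ * (b * c)⁻¹ := by group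
        rw [this, hxb]
        have : c * (x * x * b * x) * x⁻¹ * (b * c)⁻¹ = (c * (x * x)) * b * (b * c)⁻¹ := by group
        rw [this, hS c hcS]
        have : x * x * c * b * (b * c)⁻¹ = x * x * (c * b) * (b * c)⁻¹ := by group
        rw [this, hbc]; group
      rw [e1] at h1
      exact h1
  exact hout

theorem cA1 [Finite G] (hO : PropertyO G) {S : Sylow 2 G} {x : G}
    (hx : Outside (S : Subgroup G) x) {E : Subgroup G} (hE : MM (S : Subgroup G) E)
    (ha : (x * x) * (x * x) = 1) (hS : ∀ s ∈ (S : Subgroup G), s * (x * x) = (x * x) * s)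
    {b : G} (hb : b ∈ E) (hxb : x * b = (x * x) * b * x)
    {c : G} (hc : c ∈ E) (hxc : x * c = c * x) (hbc : b * c = c * b) : c * c = 1 := by
  have hEH := hE.1
  have hxS := hx.1
  have hbS := hEH.le hb
  have hcS := hEH.le hc
  have hout := cA0 hO hx hE hS hb hxb hc hxc hbc
  obtain ⟨i, hi⟩ := hout.conj_zpow hbS
  set a := x * x with hadef
  have haS : a ∈ (S : Subgroup G) := mul_mem hxS hxS
  have hainv : a⁻¹ = a := by rw [inv_eq_iff_mul_eq_one]; exact ha
  -- `b (x c) b⁻¹ = a (x c)`
  have h1 : b * (x * c) * b⁻¹ = a * (x * c) := by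
    have e1 : b * x = a * (x * b) := by
      rw [hxb]
      have : a * (a * b * x) = (a * a) * b * x := by group
      rw [this, ha, one_mul]
    have : b * (x * c) * b⁻¹ = (b * x) * c * b⁻¹ := by group
    rw [this, e1]
    have : a * (x * b) * c * b⁻¹ = a * x * (b * c) * b⁻¹ := by group
    rw [this, hbc]; group
  rw [hi] at h1
  set w := x * c with hw
  have hww : w * w = a * (c * c) := by
    have : w * w = x * (c * x) * c := by rw [hw]; group
    rw [this, ← hxc, hw, hadef]; group
  have h2 : w ^ (i - 1) = a := by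
    rw [zpow_sub_one, h1]; group
  have hwE : w ∉ E := hout.2 E hE
  rcases Int.even_or_odd' (i - 1) with ⟨m, hm | hm⟩
  · have h3 : (a * (c * c)) ^ m = a := by
      rw [← hww, ← pow_two, ← zpow_natCast w 2, ← zpow_mul, ← h2, hm]
      push_cast
      rfl
    have hac : Commute a (c * c) := by
      have h := hS c hcS
      have h' : Commute a c := h.symm
      exact h'.mul_right h'
    rw [hac.mul_zpow] at h3
    rcases Int.even_or_odd' m with ⟨r, hr | hr⟩
    · exfalso
      apply hx.sq_not_mem hO hE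
      rw [← hadef, ← h3]
      have : a ^ m = 1 := by
        rw [hr, zpow_mul, zpow_ofNat, pow_two, ha, one_zpow]
      rw [this, one_mul]
      exact (Ph E).zpow_mem (sq_mem_Ph hc) m
    · have : a ^ m = a := by
        rw [hr, zpow_add, zpow_mul, zpow_ofNat, pow_two, ha, one_zpow, one_mul, zpow_one]
      rw [this] at h3
      have h4 : (c * c) ^ m = 1 := by
        have := mul_eq_left.1 h3
        exact this
      obtain ⟨n, hn⟩ := two_elt (mul_mem hcS hcS)
      exact eq_one_of_odd hn ⟨r, hr⟩ h4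
  · exfalso
    apply hwE
    rw [hm, zpow_add, zpow_one, zpow_mul, zpow_ofNat, pow_two, hww] at h2
    have haE : a ∈ E := hEH.sq_mem hxS
    have h3 : w = ((a * (c * c)) ^ m)⁻¹ * a := eq_inv_mul_iff_mul_eq.2 h2
    rw [h3]
    exact mul_mem (inv_mem (zpow_mem (mul_mem haE (mul_mem hc hc)) m)) haE

/-- the data in the first case -/
structure AD (S E : Subgroup G) (x a b : G) : Prop where
  out : Outside S x
  mm : MM S E
  xa : x * x = a
  aa : a * a = 1
  a1 : a ≠ 1
  aS : ∀ s ∈ S, s * a = a * s
  bE : b ∈ E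
  bb : b * b = 1
  xb : x * b = a * (b * x)
  eb : ∀ e ∈ E, e * b = b * e
  cen : ∀ e ∈ E, x * e = e * x ∨ x * e = a * (e * x)
  sq : ∀ e ∈ E, e * e = 1
  card : Nat.card E ≤ 8
  cR : ∀ c ∈ E, x * c = c * x → ∀ R, MM S R → c ∈ R
  fus : ∃ k, k * a * k⁻¹ = b

theorem exists_AD [Finite G] (hO : PropertyO G) {S : Sylow 2 G} {x : G}
    (hx : Outside (S : Subgroup G) x) {E : Subgroup G} (hE : MM (S : Subgroup G) E)
    (ha : (x * x) * (x * x) = 1) : ∃ b, AD (S : Subgroup G) E x (x * x) b := by
  obtain ⟨hcard, -, hS, b, hb, hbb, hab, hxb, hbE, kf, hkf⟩ := hx.core hO hE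
  have hEH := hE.1
  have hxS := hx.1
  have haE : x * x ∈ E := hEH.sq_mem hxS
  have hne : x * x ≠ 1 := by
    intro h
    apply hx.sq_not_mem hO hE
    rw [h]
    exact (Ph E).one_mem
  have key := @cA1 G _ _ hO S x hx E hE ha
  have key0 := @cA0 G _ _ hO S x hx E hE
  set a := x * x with hadef
  have hainv : a⁻¹ = a := by rw [inv_eq_iff_mul_eq_one]; exact ha
  rw [ha] at hbb
  have hbinv : b⁻¹ = b := by rw [inv_eq_iff_mul_eq_one]; exact hbb
  rw [hainv, or_self] at hxb
  have hS' : ∀ s ∈ (S : Subgroup G), s * a = a * s := by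
    intro s hs
    have h := hS s hs
    rw [hainv, or_self] at h
    calc s * a = (s * a * s⁻¹) * s := by group
      _ = a * s := by rw [h]
  have hbE' : ∀ e ∈ E, e * b = b * e := by
    intro e he
    have h := hbE e he
    rw [hbinv, or_self] at h
    calc e * b = (e * b * e⁻¹) * e := by group
      _ = b * e := by rw [h]
  have hxb' : x * b = a * b * x := by rw [← hxb]; group
  have key' : ∀ c ∈ E, x * c = c * x → c * c = 1 := fun c hc hxc =>
    key hS' hb hxb' hc hxc (hbE' c hc).symm
  have hcen : ∀ e ∈ E, x * e = e * x ∨ x * e = a * e * x := by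
    intro e he
    obtain ⟨i, hi⟩ := hx.comm_E hE he
    rw [← hadef] at hi
    rcases Int.even_or_odd' i with ⟨r, hr | hr⟩
    · left
      rw [hr, zpow_mul, zpow_ofNat, pow_two, ha, one_zpow, one_mul] at hi
      calc x * e = (x * e * x⁻¹) * x := by group
        _ = e * x := by rw [hi]
    · right
      rw [hr, zpow_add, zpow_mul, zpow_ofNat, pow_two, ha, one_zpow, one_mul, zpow_one] at hi
      calc x * e = (x * e * x⁻¹) * x := by group
        _ = a * e * x := by rw [hi]
  -- if `x e = a e x` then `b e` commutes with `x`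
  have hbe : ∀ e ∈ E, x * e = a * e * x → x * (b * e) = (b * e) * x := by
    intro e he h
    calc x * (b * e) = (x * b) * e := by group
      _ = a * b * (x * e) := by rw [hxb']; group
      _ = a * (b * a) * e * x := by rw [h]; group
      _ = (a * a) * b * e * x := by rw [hS' b (hEH.le hb)]; group
      _ = (b * e) * x := by rw [ha]; group
  have hsq : ∀ e ∈ E, e * e = 1 := by
    intro e he
    rcases hcen e he with h | h
    · exact key' e he h
    · have h1 := key' (b * e) (mul_mem hb he) (hbe e he h)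
      have : b * e * (b * e) = (b * b) * (e * e) := by
        calc b * e * (b * e) = b * (e * b) * e := by group
          _ = (b * b) * (e * e) := by rw [hbE' e he]; group
      rw [this, hbb, one_mul] at h1
      exact h1
  have hPh : Ph E ≤ ⊥ := Ph_le_of bot_le (by
      apply le_normalizer_of
      intro e _ y hy
      rw [mem_bot] at hy ⊢
      rw [hy]; group) (fun e he => by rw [mem_bot]; exact hsq e he)
  have hPh' : Ph E = ⊥ := le_bot_iff.1 hPh
  rw [hPh', card_bot, mul_one] at hcard
  refine ⟨b, hx, hE, rfl, ha, hne, hS', hb, hbb, by rw [hxb']; group, hbE', ?_, hsq, hcard, ?_,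
    kf, hkf⟩
  · intro e he
    rcases hcen e he with h | h
    · exact Or.inl h
    · right; rw [h]; group
  · intro c hc hxc R hR
    by_contra hcR
    exact (key0 hS' hb hxb' hc hxc (hbE' c hc).symm).2 R hR
      (hR.1.mul_mem hxS (hEH.le hc) (hx.2 R hR) hcR)

end Pool.Agent.Work.MP_cd0fff_al
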