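import Pool.Agent.Work.MP_cd0fff_al.CaseA

/-!
The case where `x ^ 4 ≠ 1`.
-/

set_option linter.unusedSimpArgs false
set_option linter.unusedSectionVars false

universe u

namespace Pool.Agent.Work.MP_cd0fff_al

open Subgroup Module

variable {G : Type u} [Group G]

theorem asc {u v w : G} (h : u * v = w) (t : G) : u * (v * t) = w * t := by rw [← mul_assoc, h]

theorem comm_of {u v g : G} (h : u * v = g * (v * u)) : u * v * u⁻¹ * v⁻¹ = g := by
  rw [h]; group

/-- the data in the second case -/
structure BD (S E : Subgroup G) (x a z b α : G) : Prop where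
  out : Outside S x
  mm : MM S E
  xa : x * x = a
  aa : a * a = z
  zz : z * z = 1
  z1 : z ≠ 1
  zS : ∀ s ∈ S, s * z = z * s
  aS : ∀ s ∈ S, s * a = a * s ∨ s * a = z * (a * s)
  bE : b ∈ E
  bb : b * b = z
  ba : b * a = z * (a * b)
  xb : x * b = α * (b * x)
  hα : α = a ∨ α = z * a
  eb : ∀ e ∈ E, e * b = b * e ∨ e * b = z * (b * e)
  card : Nat.card E ≤ 8 * Nat.card (Ph E)
  aP : ∀ R, MM S R → a ∉ Ph R
  fus : ∃ k, k * a * k⁻¹ = b ∨ k * a * k⁻¹ = z * b

theorem exists_BD [Finite G] (hO : PropertyO G) {S : Sylow 2 G} {x : G}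
    (hx : Outside (S : Subgroup G) x) {E : Subgroup G} (hE : MM (S : Subgroup G) E)
    (ha : (x * x) * (x * x) ≠ 1) :
    ∃ b α, BD (S : Subgroup G) E x (x * x) ((x * x) * (x * x)) b α := by
  obtain ⟨hcard, h4, hS, b, hb, hbb, hab, hxb, hbE, kf, hkf⟩ := hx.core hO hE
  have hEH := hE.1
  have hxS := hx.1
  have haP : ∀ R, MM (S : Subgroup G) R → x * x ∉ Ph R := fun R hR => hx.sq_not_mem hO hR
  have haS : x * x ∈ (S : Subgroup G) := mul_mem hxS hxS
  set a := x * x with hadef
  set z := a * a with hzdef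
  have hzz : z * z = 1 := by
    rw [← h4, hzdef]
    simp only [pow_succ, pow_zero, one_mul, mul_assoc]
  have hainv : a⁻¹ = z * a := by
    rw [inv_eq_iff_mul_eq_one, hzdef, ← hzz, hzdef]
    simp only [mul_assoc]
  have hzS : ∀ s ∈ (S : Subgroup G), s * z = z * s := by
    intro s hs
    have e1 : s * z * s⁻¹ = (s * a * s⁻¹) * (s * a * s⁻¹) := by rw [hzdef]; group
    have e2 : s * z * s⁻¹ = z := by
      rw [e1]
      rcases hS s hs with h | h
      · rw [h]
      · rw [h, ← mul_inv_rev, ← hzdef, inv_eq_iff_mul_eq_one]; exact hzz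
    calc s * z = (s * z * s⁻¹) * s := by group
      _ = z * s := by rw [e2]
  have hbS := hEH.le hb
  have hbinv : b⁻¹ = z * b := by
    rw [inv_eq_iff_mul_eq_one, ← mul_assoc, hzS b hbS, mul_assoc, hbb, hzz]
  have hab' : a * b = z * (b * a) := by
    calc a * b = (a * b * a⁻¹) * a := by group
      _ = z * (b * a) := by rw [hab, mul_assoc]
  refine ⟨b, x * b * x⁻¹ * b⁻¹, hx, hE, rfl, rfl, hzz, ha, hzS, ?_, hb, hbb, ?_, by group, ?_, ?_,
    hcard, haP, kf, Or.inl hkf⟩
  · intro s hs
    rcases hS s hs with h | h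
    · left
      calc s * a = (s * a * s⁻¹) * s := by group
        _ = a * s := by rw [h]
    · right
      calc s * a = (s * a * s⁻¹) * s := by group
        _ = z * (a * s) := by rw [h, hainv, mul_assoc]
  · rw [hab', ← mul_assoc z z, hzz, one_mul]
  · rcases hxb with h | h
    · left; rw [h]; group
    · right; rw [h, hainv]; group
  · intro e he
    rcases hbE e he with h | h
    · left
      calc e * b = (e * b * e⁻¹) * e := by group
        _ = b * e := by rw [h]
    · right
      calc e * b = (e * b * e⁻¹) * e := by group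
        _ = z * (b * e) := by rw [h, hbinv, mul_assoc]

namespace BD

variable {S E : Subgroup G} {x a z b α : G}

theorem aE (D : BD S E x a z b α) : a ∈ E := by rw [← D.xa]; exact D.mm.1.sq_mem D.out.1

theorem zE (D : BD S E x a z b α) : z ∈ E := by rw [← D.aa]; exact mul_mem D.aE D.aE

theorem aS' (D : BD S E x a z b α) : a ∈ S := D.mm.1.le D.aE

theorem bS' (D : BD S E x a z b α) : b ∈ S := D.mm.1.le D.bE

theorem zne (D : BD S E x a z b α) {t : G} : z * t ≠ t := fun h => D.z1 (mul_eq_right.1 h)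

theorem za (D : BD S E x a z b α) : a * z = z * a := D.zS a D.aS'

theorem zb (D : BD S E x a z b α) : b * z = z * b := D.zS b D.bS'

theorem zx (D : BD S E x a z b α) : x * z = z * x := D.zS x D.out.1

theorem ax (D : BD S E x a z b α) : x * a = a * x := by rw [← D.xa]; group

theorem ainv (D : BD S E x a z b α) : a⁻¹ = z * a := by
  rw [inv_eq_iff_mul_eq_one, ← mul_assoc, D.za, mul_assoc, D.aa, D.zz]

theorem binv (D : BD S E x a z b α) : b⁻¹ = z * b := by
  rw [inv_eq_iff_mul_eq_one, ← mul_assoc, D.zb, mul_assoc, D.bb, D.zz]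

theorem zinv (D : BD S E x a z b α) : z⁻¹ = z := by
  rw [inv_eq_iff_mul_eq_one]; exact D.zz

theorem apow (D : BD S E x a z b α) (i : ℤ) :
    (Even i ∧ (a ^ i = 1 ∨ a ^ i = z)) ∨ (Odd i ∧ (a ^ i = a ∨ a ^ i = z * a)) := by
  have hz : ∀ r : ℤ, z ^ r = 1 ∨ z ^ r = z := by
    intro r
    rcases Int.even_or_odd' r with ⟨s, hs | hs⟩
    · left; rw [hs, zpow_mul, zpow_ofNat, pow_two, D.zz, one_zpow]
    · right; rw [hs, zpow_add, zpow_mul, zpow_ofNat, pow_two, D.zz, one_zpow, one_mul, zpow_one]
  rcases Int.even_or_odd' i with ⟨r, hr | hr⟩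
  · left
    refine ⟨⟨r, by omega⟩, ?_⟩
    rw [hr, zpow_mul, zpow_ofNat, pow_two, D.aa]
    exact hz r
  · right
    refine ⟨⟨r, hr⟩, ?_⟩
    rw [hr, zpow_add, zpow_mul, zpow_ofNat, pow_two, D.aa, zpow_one]
    rcases hz r with h | h
    · left; rw [h, one_mul]
    · right; rw [h]

/-- elements of `E` commuting with `a` and `b` -/
theorem c1 [Finite G] {S : Sylow 2 G} (D : BD (S : Subgroup G) E x a z b α) {c : G} (hc : c ∈ E)
    (hca : c * a = a * c) (hcb : c * b = b * c) : x * c = c * x ∨ x * c = z * (c * x) := by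
  obtain ⟨i, hi⟩ := D.out.comm_E D.mm hc
  rw [D.xa] at hi
  have h1 : x * c = a ^ i * (c * x) := by
    calc x * c = (x * c * x⁻¹) * x := by group
      _ = a ^ i * (c * x) := by rw [hi, mul_assoc]
  rcases D.apow i with ⟨_, h | h⟩ | ⟨_, h⟩
  · left; rw [h1, h, one_mul]
  · right; rw [h1, h]
  · exfalso
    have hcz : c * z = z * c := D.zS c (D.mm.1.le hc)
    have h2 : x * b * c = x * c * b := by rw [mul_assoc, ← hcb, ← mul_assoc]
    rw [D.xb, h1] at h2
    have key : z * (a ^ i * α * b * c * x) = a ^ i * α * b * c * x := by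
      have e1 : α * (b * x) * c = z * (a ^ i * α * b * c * x) := by
        have : α * (b * x) * c = α * b * (x * c) := by group
        rw [this, h1]
        rcases h with h | h <;> rcases D.hα with h' | h' <;> rw [h, h'] <;>
        simp only [mul_assoc, D.aa, D.zz, D.ba, D.za, D.zb, hcz, asc D.ba, asc D.za, asc D.zb,
          asc D.aa, asc D.zz, one_mul]
      have e2 : a ^ i * (c * x) * b = a ^ i * α * b * c * x := by
        have : a ^ i * (c * x) * b = a ^ i * c * (x * b) := by group
        rw [this, D.xb]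
        rcases h with h | h <;> rcases D.hα with h' | h' <;> rw [h, h'] <;>
        simp only [mul_assoc, D.aa, D.zz, D.ba, D.za, D.zb, hcz, asc D.ba, asc D.za, asc D.zb,
          asc D.aa, asc D.zz, one_mul, hca, hcb, asc hca, asc hcb, asc hcz]
      rw [← e1, ← e2, h2]
    exact D.zne key

theorem c2 [Finite G] {S : Sylow 2 G} (D : BD (S : Subgroup G) E x a z b α) {c : G} (hc : c ∈ E)
    (hca : c * a = a * c) (hcb : c * b = b * c) {R : Subgroup G} (hR : MM (S : Subgroup G) R) :
    x * c ∉ R := by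
  intro hmem
  have hxR := D.out.2 R hR
  have hcR : c ∉ R := fun h => hxR ((R.mul_mem_cancel_right h).1 hmem)
  have hcz : c * z = z * c := D.zS c (D.mm.1.le hc)
  have hzR : z ∈ Ph R := by
    rw [← D.aa]
    exact sq_mem_Ph (by rw [← D.xa]; exact hR.1.sq_mem D.out.1)
  have hαP : α ∉ Ph R := by
    intro h
    rcases D.hα with h' | h'
    · rw [h'] at h; exact D.aP R hR h
    · rw [h'] at h
      exact D.aP R hR (((Ph R).mul_mem_cancel_left hzR).1 h)
  by_cases hbR : b ∈ R
  · have h1 := comm_mem_Ph hmem hbR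
    have e1 : x * c * b = α * (b * (x * c)) := by
      have : x * c * b = x * (c * b) := by group
      rw [this, hcb]
      have : x * (b * c) = (x * b) * c := by group
      rw [this, D.xb]; group
    rw [comm_of e1] at h1
    exact hαP h1
  · have hbcR : b * c ∈ R := hR.1.mul_mem D.bS' (D.mm.1.le hc) hbR hcR
    have h1 := comm_mem_Ph hmem hbcR
    have e0 : x * c * (b * c) = α * (b * (x * c) * c) := by
      have : x * c * (b * c) = x * (c * b) * c := by group
      rw [this, hcb]
      have : x * (b * c) * c = (x * b) * c * c := by group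
      rw [this, D.xb]; group
    rcases D.c1 hc hca hcb with hxc | hxc
    · have e1 : x * c * (b * c) = α * ((b * c) * (x * c)) := by
        rw [e0, hxc]
        have : b * c * (c * x) = b * c * (x * c) := by rw [hxc]
        rw [this]; group
      rw [comm_of e1] at h1
      exact hαP h1
    · have e1 : x * c * (b * c) = z * α * ((b * c) * (x * c)) := by
        rw [e0]
        have h2 : b * (x * c) * c = z * (b * c * (x * c)) := by
          have : b * (x * c) * c = b * (z * (c * x)) * c := by rw [hxc]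
          rw [this]
          simp only [mul_assoc, asc D.zb]
        rw [h2]
        rcases D.hα with h' | h' <;> rw [h'] <;> simp only [mul_assoc, asc D.za]
      rw [comm_of e1] at h1
      exact hαP (((Ph R).mul_mem_cancel_left hzR).1 h1)

theorem c2' [Finite G] {S : Sylow 2 G} (D : BD (S : Subgroup G) E x a z b α) {c : G} (hc : c ∈ E)
    (hca : c * a = a * c) (hcb : c * b = b * c) : Outside (S : Subgroup G) (x * c) :=
  ⟨mul_mem D.out.1 (D.mm.1.le hc), fun _ hR => D.c2 hc hca hcb hR⟩

/-- elements of `C` belong to all members of `MM` -/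
theorem c2'' [Finite G] {S : Sylow 2 G} (D : BD (S : Subgroup G) E x a z b α) {c : G} (hc : c ∈ E)
    (hca : c * a = a * c) (hcb : c * b = b * c) {R : Subgroup G} (hR : MM (S : Subgroup G) R) :
    c ∈ R := by
  by_contra h
  exact D.c2 hc hca hcb hR (hR.1.mul_mem D.out.1 (D.mm.1.le hc) (D.out.2 R hR) h)

theorem c3 [Finite G] {S : Sylow 2 G} (D : BD (S : Subgroup G) E x a z b α) {c : G} (hc : c ∈ E)
    (hca : c * a = a * c) (hcb : c * b = b * c) : c * c = 1 ∨ c * c = z := by
  have hcS := D.mm.1.le hc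
  have hcz : c * z = z * c := D.zS c hcS
  obtain ⟨i, hi⟩ := (D.c2' hc hca hcb).conj_zpow D.bS'
  have hxc := D.c1 hc hca hcb
  set w := x * c with hw
  have hwE : w ∉ E := D.c2 hc hca hcb D.mm
  -- `w w = κ a c c`
  obtain ⟨κ, hκ, hww⟩ : ∃ κ, (κ = 1 ∨ κ = z) ∧ w * w = κ * (a * (c * c)) := by
    rcases hxc with h | h
    · refine ⟨1, Or.inl rfl, ?_⟩
      have : w * w = x * (c * x) * c := by rw [hw]; group
      rw [this, ← h, hw]
      have : x * (x * c) * c = (x * x) * (c * c) := by group
      rw [this, D.xa, one_mul]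
    · refine ⟨z, Or.inr rfl, ?_⟩
      have h' : c * x = z * w := by rw [h, ← mul_assoc, D.zz, one_mul]
      have : w * w = x * (c * x) * c := by rw [hw]; group
      rw [this, h', hw]
      have : x * (z * (x * c)) * c = (x * z) * x * c * c := by group
      rw [this, D.zx]
      have : z * x * x * c * c = z * ((x * x) * (c * c)) := by group
      rw [this, D.xa]
  have hαinv : α⁻¹ * α = 1 := inv_mul_cancel α
  have h1 : b * w * b⁻¹ = α⁻¹ * w := by
    have e1 : b * x = α⁻¹ * (x * b) := by rw [D.xb]; group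
    have : b * w * b⁻¹ = (b * x) * c * b⁻¹ := by rw [hw]; group
    rw [this, e1]
    have : α⁻¹ * (x * b) * c * b⁻¹ = α⁻¹ * x * (b * c) * b⁻¹ := by group
    rw [this, ← hcb, hw]; group
  rw [hi] at h1
  have h2 : w ^ (i - 1) = α⁻¹ := by
    rw [zpow_sub_one, h1]; group
  have hαz : α⁻¹ = a ∨ α⁻¹ = z * a := by
    rcases D.hα with h | h
    · right; rw [h, D.ainv]
    · left; rw [h, mul_inv_rev, D.ainv, D.zinv, ← D.za, mul_assoc, D.zz, mul_one]
  have haE := D.aE
  have hαE : α⁻¹ ∈ E := by
    rcases hαz with h | h <;> rw [h]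
    · exact haE
    · exact mul_mem D.zE haE
  have hκE : κ ∈ E := by
    rcases hκ with h | h <;> rw [h]
    · exact E.one_mem
    · exact D.zE
  -- everything commutes
  have cκa : Commute κ a := by
    rcases hκ with h | h <;> rw [h]
    · exact Commute.one_left a
    · exact D.za.symm
  have cκc : Commute κ c := by
    rcases hκ with h | h <;> rw [h]
    · exact Commute.one_left c
    · exact hcz.symm
  have cac : Commute a c := hca.symm
  rcases Int.even_or_odd' (i - 1) with ⟨m, hm | hm⟩
  · have h3 : κ ^ m * (a ^ m * (c * c) ^ m) = α⁻¹ := by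
      rw [← (cac.mul_right cac).mul_zpow, ← (cκa.mul_right (cκc.mul_right cκc)).mul_zpow, ← hww,
        ← pow_two, ← zpow_natCast w 2, ← zpow_mul, ← h2, hm]
      push_cast
      rfl
    have hκm : κ ^ m = 1 ∨ κ ^ m = z := by
      rcases hκ with h | h <;> rw [h]
      · left; rw [one_zpow]
      · rcases Int.even_or_odd' m with ⟨s, hs | hs⟩
        · left; rw [hs, zpow_mul, zpow_ofNat, pow_two, D.zz, one_zpow]
        · right; rw [hs, zpow_add, zpow_mul, zpow_ofNat, pow_two, D.zz, one_zpow, one_mul, zpow_one]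
    have cbc : Commute b ((c * c) ^ m) :=
      ((show Commute b c from hcb.symm).mul_right hcb.symm).zpow_right m
    have h4 : (c * c) ^ m = (a ^ m)⁻¹ * (κ ^ m)⁻¹ * α⁻¹ := by rw [← h3]; group
    rcases D.apow m with ⟨_, h⟩ | ⟨hodd, h⟩
    · -- `m` even
      exfalso
      have h5 : b * (c * c) ^ m = (c * c) ^ m * b := cbc
      rw [h4] at h5
      rcases h with h | h <;> rcases hκm with h' | h' <;> rcases hαz with h'' | h'' <;>
        rw [h, h', h''] at h5 <;>
        simp only [mul_assoc, D.zinv, inv_one, one_mul, D.zz, D.zb, D.ba, asc D.zz, asc D.zb,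
          asc D.ba, asc D.za, D.za] at h5
      all_goals first
        | exact D.zne h5
        | exact D.zne h5.symm
    · have h6 : (c * c) ^ m = 1 ∨ (c * c) ^ m = z := by
        rw [h4]
        rcases h with h | h <;> rcases hκm with h' | h' <;> rcases hαz with h'' | h'' <;>
          rw [h, h', h''] <;>
          simp only [mul_assoc, D.zinv, D.ainv, inv_one, one_mul, D.zz, asc D.zz, mul_inv_rev,
            asc D.aa, asc D.za, D.za, D.aa, true_or, or_true, mul_one]
      have h7 : ((c * c) * (c * c)) ^ m = 1 := by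
        rw [(Commute.refl (c * c)).mul_zpow]
        rcases h6 with h | h <;> rw [h]
        · rw [one_mul]
        · exact D.zz
      obtain ⟨n, hn⟩ := two_elt (mul_mem (mul_mem hcS hcS) (mul_mem hcS hcS))
      have h8 := eq_one_of_odd hn hodd h7
      have h9 : (c * c) ^ m = c * c := by
        obtain ⟨r, hr⟩ := hodd
        rw [hr, zpow_add, zpow_mul, zpow_ofNat, pow_two, h8, one_zpow, one_mul, zpow_one]
      rwa [h9] at h6
  · exfalso
    apply hwE
    rw [hm, zpow_add, zpow_one, zpow_mul, zpow_ofNat, pow_two, hww] at h2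
    have h3 : w = ((κ * (a * (c * c))) ^ m)⁻¹ * α⁻¹ := eq_inv_mul_iff_mul_eq.2 h2
    rw [h3]
    exact mul_mem (inv_mem (zpow_mem (mul_mem hκE (mul_mem haE (mul_mem hc hc))) m)) hαE

end BD

end Pool.Agent.Work.MP_cd0fff_al
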