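import Pool.Agent.Work.MP_cd0fff_al.CaseB

/-!
The case where `x ^ 4 ≠ 1`, continued: the structure of `E`.
-/

set_option linter.unusedSimpArgs false
set_option linter.unusedSectionVars false

universe u

namespace Pool.Agent.Work.MP_cd0fff_al

open Subgroup Module

variable {G : Type u} [Group G]

/-- elements of `E` commuting with `a` -/
def CE (E : Subgroup G) (a : G) : Subgroup G where
  carrier := {e | e ∈ E ∧ e * a = a * e}
  one_mem' := ⟨E.one_mem, by group⟩
  mul_mem' := by
    rintro x y ⟨hx, hx'⟩ ⟨hy, hy'⟩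
    exact ⟨E.mul_mem hx hy, by rw [mul_assoc, hy', ← mul_assoc, hx', mul_assoc]⟩
  inv_mem' := by
    rintro x ⟨hx, hx'⟩
    refine ⟨E.inv_mem hx, ?_⟩
    calc x⁻¹ * a = x⁻¹ * (a * x) * x⁻¹ := by group
      _ = a * x⁻¹ := by rw [← hx']; group

theorem mem_CE {E : Subgroup G} {a e : G} : e ∈ CE E a ↔ e ∈ E ∧ e * a = a * e := Iff.rfl

theorem CE_le {E : Subgroup G} {a : G} : CE E a ≤ E := fun _ h => h.1

theorem four_elements [Finite G] {H : Subgroup G} (h4 : Nat.card H ≤ 4) {z c e : G} (hz : z ∈ H)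
    (hzz : z * z = 1) (hz1 : z ≠ 1) (hc : c ∈ H) (hc1 : c ≠ 1) (hcz : c ≠ z) (he : e ∈ H) :
    e = 1 ∨ e = z ∨ e = c ∨ e = z * c := by
  classical
  by_contra hcon
  push Not at hcon
  obtain ⟨h1, h2, h3, h4'⟩ := hcon
  have hzc : z * c ≠ 1 := by
    intro h
    apply hcz
    have : c = z⁻¹ := eq_inv_of_mul_eq_one_right h
    rw [this, inv_eq_iff_mul_eq_one]
    exact hzz
  have hzc2 : z * c ≠ z := fun h => hc1 (mul_eq_left.1 h)
  have hzc3 : z * c ≠ c := fun h => hz1 (mul_eq_right.1 h)
  have hs : ((({1, z, c, z * c, e} : Finset G) : Set G)) ⊆ (H : Set G) := by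
    intro y hy
    simp only [Finset.coe_insert, Finset.coe_singleton, Set.mem_insert_iff,
      Set.mem_singleton_iff] at hy
    rcases hy with rfl | rfl | rfl | rfl | rfl
    · exact H.one_mem
    · exact hz
    · exact hc
    · exact H.mul_mem hz hc
    · exact he
  have h5 : ({1, z, c, z * c, e} : Finset G).card = 5 := by
    rw [Finset.card_insert_of_notMem, Finset.card_insert_of_notMem, Finset.card_insert_of_notMem,
      Finset.card_insert_of_notMem, Finset.card_singleton]
    · simp only [Finset.mem_singleton]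
      exact h4'.symm
    · simp only [Finset.mem_insert, Finset.mem_singleton, not_or]
      exact ⟨hzc3.symm, h3.symm⟩
    · simp only [Finset.mem_insert, Finset.mem_singleton, not_or]
      exact ⟨hcz.symm, hzc2.symm, h2.symm⟩
    · simp only [Finset.mem_insert, Finset.mem_singleton, not_or]
      exact ⟨hz1.symm, hc1.symm, hzc.symm, h1.symm⟩
  have h6 := Set.ncard_le_ncard hs (Set.toFinite _)
  rw [Set.ncard_coe_finset, h5] at h6
  have h7 : (H : Set G).ncard = Nat.card H := rfl
  omega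

namespace BD

variable {S E : Subgroup G} {x a z b α : G}

theorem decomp [Finite G] {S : Sylow 2 G} (D : BD (S : Subgroup G) E x a z b α) {e : G}
    (he : e ∈ E) : ∃ p, (p = 1 ∨ p = a ∨ p = b ∨ p = a * b) ∧ (p * e) * a = a * (p * e) ∧
      (p * e) * b = b * (p * e) := by
  rcases D.aS e (D.mm.1.le he) with h | h <;> rcases D.eb e he with h' | h'
  · exact ⟨1, Or.inl rfl, by rw [one_mul, h], by rw [one_mul, h']⟩
  · refine ⟨a, Or.inr (Or.inl rfl), ?_, ?_⟩
    · rw [mul_assoc, h]
    · simp only [mul_assoc, h, h', D.ba, asc D.ba, asc D.zb, asc D.za]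
  · refine ⟨b, Or.inr (Or.inr (Or.inl rfl)), ?_, ?_⟩
    · simp only [mul_assoc, h, h', D.ba, asc D.ba, asc D.zb, asc D.za, asc D.zz, one_mul]
    · simp only [mul_assoc, h, h', D.ba, asc D.ba, asc D.zb, asc D.za, asc D.zz, one_mul]
  · refine ⟨a * b, Or.inr (Or.inr (Or.inr rfl)), ?_, ?_⟩
    · simp only [mul_assoc, h, h', D.ba, asc D.ba, asc D.zb, asc D.za, asc D.zz, one_mul]
    · simp only [mul_assoc, h, h', D.ba, asc D.ba, asc D.zb, asc D.za, asc D.zz, one_mul]

theorem pE (D : BD S E x a z b α) {p : G} (hp : p = 1 ∨ p = a ∨ p = b ∨ p = a * b) : p ∈ E := by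
  rcases hp with rfl | rfl | rfl | rfl
  · exact E.one_mem
  · exact D.aE
  · exact D.bE
  · exact mul_mem D.aE D.bE

theorem pinv (D : BD S E x a z b α) {p : G} (hp : p = 1 ∨ p = a ∨ p = b ∨ p = a * b) :
    p⁻¹ = p ∨ p⁻¹ = z * p := by
  rcases hp with rfl | rfl | rfl | rfl
  · left; exact inv_one
  · right; exact D.ainv
  · right; exact D.binv
  · right
    rw [mul_inv_rev, D.ainv, D.binv]
    simp only [mul_assoc, D.ba, asc D.zb, asc D.zz, one_mul]

theorem sq [Finite G] {S : Sylow 2 G} (D : BD (S : Subgroup G) E x a z b α) {e : G}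
    (he : e ∈ E) : e * e = 1 ∨ e * e = z := by
  obtain ⟨p, hp, h1, h2⟩ := D.decomp he
  have hpE := D.pE hp
  have h3 := D.c3 (mul_mem hpE he) h1 h2
  set c := p * e with hc
  have he' : e = p⁻¹ * c := by rw [hc]; group
  have hcS : c ∈ (S : Subgroup G) := D.mm.1.le (mul_mem hpE he)
  have hcz := D.zS c hcS
  have hpc : c * p = p * c := by
    rcases hp with h | h | h | h <;> rw [h]
    · group
    · exact h1
    · exact h2
    · rw [← mul_assoc, h1, mul_assoc, h2, mul_assoc]
  have hpp : p * p = 1 ∨ p * p = z := by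
    rcases hp with h | h | h | h <;> rw [h]
    · left; group
    · right; exact D.aa
    · right; exact D.bb
    · right
      simp only [mul_assoc, asc D.ba, D.bb, D.za, asc D.za, D.aa, asc D.aa, asc D.zz, one_mul, D.zz,
        mul_one]
  have hee : e * e = (p * p)⁻¹ * (c * c) := by
    have : p⁻¹ * c = c * p⁻¹ := by
      calc p⁻¹ * c = p⁻¹ * (c * p) * p⁻¹ := by group
        _ = c * p⁻¹ := by rw [hpc]; group
    calc e * e = (p⁻¹ * c) * (p⁻¹ * c) := by rw [← he']
      _ = p⁻¹ * (c * p⁻¹) * c := by group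
      _ = (p * p)⁻¹ * (c * c) := by rw [← this]; group
  rw [hee]
  rcases hpp with h | h <;> rcases h3 with h' | h' <;> rw [h, h']
  · left; group
  · right; group
  · right; rw [D.zinv, mul_one]
  · left; rw [D.zinv, D.zz]

theorem z_zpow (D : BD S E x a z b α) {t : G} (ht : t ∈ zpowers z) : t = 1 ∨ t = z := by
  obtain ⟨m, rfl⟩ := mem_zpowers_iff.1 ht
  rcases Int.even_or_odd' m with ⟨s, hs | hs⟩
  · left; rw [hs, zpow_mul, zpow_ofNat, pow_two, D.zz, one_zpow]
  · right; rw [hs, zpow_add, zpow_mul, zpow_ofNat, pow_two, D.zz, one_zpow, one_mul, zpow_one]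

theorem Ph_le [Finite G] {S : Sylow 2 G} (D : BD (S : Subgroup G) E x a z b α) :
    Ph E ≤ zpowers z := by
  apply Ph_le_of
  · rw [zpowers_le]; exact D.zE
  · apply le_normalizer_of
    intro e he y hy
    have hez := D.zS e (D.mm.1.le he)
    rcases D.z_zpow hy with rfl | rfl
    · have : e * 1 * e⁻¹ = 1 := by group
      rw [this]; exact one_mem _
    · have : e * y * e⁻¹ = y := by rw [hez]; group
      rw [this]; exact mem_zpowers y
  · intro e he
    rcases D.sq he with h | h <;> rw [h]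
    · exact one_mem _
    · exact mem_zpowers z

theorem card_E [Finite G] {S : Sylow 2 G} (D : BD (S : Subgroup G) E x a z b α) :
    Nat.card E ≤ 16 := by
  have h1 := Subgroup.card_le_of_le D.Ph_le
  have h2 : Nat.card (zpowers z) = 2 := by
    rw [Nat.card_zpowers]
    exact orderOf_eq_prime (by rw [pow_two]; exact D.zz) D.z1
  have h3 := D.card
  omega

theorem z_inv [Finite G] {S : Sylow 2 G} (D : BD (S : Subgroup G) E x a z b α) {k : G}
    (hk : k ∈ normalizer (E : Set G)) : k * z * k⁻¹ = z := by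
  have h1 : z ∈ Ph E := by rw [← D.aa]; exact sq_mem_Ph D.aE
  have h2 := D.Ph_le (norm_conj (Ph_norm hk) h1)
  rcases D.z_zpow h2 with h | h
  · exfalso
    apply D.z1
    calc z = k⁻¹ * (k * z * k⁻¹) * k := by group
      _ = 1 := by rw [h]; group
  · exact h

theorem half1 [Finite G] {S : Sylow 2 G} (D : BD (S : Subgroup G) E x a z b α) :
    Half (CE E a) E := by
  refine half_of_mul CE_le D.bE ?_ ?_
  · intro h
    have h1 := h.2
    rw [D.ba] at h1
    exact D.zne h1
  · intro e he hne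
    refine ⟨mul_mem he D.bE, ?_⟩
    have h1 : e * a = z * (a * e) := by
      rcases D.aS e (D.mm.1.le he) with h | h
      · exact absurd ⟨he, h⟩ hne
      · exact h
    have hez := D.zS e (D.mm.1.le he)
    simp only [mul_assoc, D.ba, asc hez, asc h1, asc D.zz, one_mul]

theorem half2 [Finite G] {S : Sylow 2 G} (D : BD (S : Subgroup G) E x a z b α) :
    Half (CE (CE E a) b) (CE E a) := by
  have haC : a ∈ CE E a := ⟨D.aE, rfl⟩
  have hab : a * b = z * (b * a) := by rw [D.ba, ← mul_assoc, D.zz, one_mul]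
  refine half_of_mul CE_le haC ?_ ?_
  · intro h
    have h1 := h.2
    rw [hab] at h1
    exact D.zne h1
  · intro e he hne
    refine ⟨mul_mem he haC, ?_⟩
    have h1 : e * b = z * (b * e) := by
      rcases D.eb e he.1 with h | h
      · exact absurd ⟨he, h⟩ hne
      · exact h
    have hez := D.zS e (D.mm.1.le he.1)
    rw [mul_assoc, hab]
    simp only [mul_assoc, asc hez, asc h1, asc D.zz, one_mul]

theorem card_C [Finite G] {S : Sylow 2 G} (D : BD (S : Subgroup G) E x a z b α) :
    Nat.card E = 4 * Nat.card (CE (CE E a) b) := by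
  have h1 := D.half1.card
  have h2 := D.half2.card
  omega

theorem four [Finite G] {S : Sylow 2 G} (D : BD (S : Subgroup G) E x a z b α) {c e : G}
    (hc : c ∈ E) (hca : c * a = a * c) (hcb : c * b = b * c) (hc1 : c ≠ 1) (hcz : c ≠ z)
    (he : e ∈ E) (hea : e * a = a * e) (heb : e * b = b * e) :
    e = 1 ∨ e = z ∨ e = c ∨ e = z * c := by
  have h4 : Nat.card (CE (CE E a) b) ≤ 4 := by
    have h1 := D.card_C
    have h2 := D.card_E
    omega
  exact four_elements h4 ⟨⟨D.zE, D.za.symm⟩, D.zb.symm⟩ D.zz D.z1 ⟨⟨hc, hca⟩, hcb⟩ hc1 hcz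
    ⟨⟨he, hea⟩, heb⟩

/-- elements of `C` commute -/
theorem comm_C [Finite G] {S : Sylow 2 G} (D : BD (S : Subgroup G) E x a z b α) {c e : G}
    (hc : c ∈ E) (hca : c * a = a * c) (hcb : c * b = b * c)
    (he : e ∈ E) (hea : e * a = a * e) (heb : e * b = b * e) : e * c = c * e := by
  by_cases hc1 : c = 1
  · rw [hc1]; group
  by_cases hcz : c = z
  · rw [hcz]; exact D.zS e (D.mm.1.le he)
  have hcz' := D.zS c (D.mm.1.le hc)
  rcases D.four hc hca hcb hc1 hcz he hea heb with h | h | h | h <;> rw [h]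
  · group
  · exact hcz'.symm
  · rw [← mul_assoc, hcz']

/-- elements of `C` are central in `E` -/
theorem comm_CE [Finite G] {S : Sylow 2 G} (D : BD (S : Subgroup G) E x a z b α) {c e : G}
    (hc : c ∈ E) (hca : c * a = a * c) (hcb : c * b = b * c)
    (he : e ∈ E) : e * c = c * e := by
  obtain ⟨p, hp, h1, h2⟩ := D.decomp he
  have h3 := D.comm_C hc hca hcb (mul_mem (D.pE hp) he) h1 h2
  have hpc : c * p = p * c := by
    rcases hp with h | h | h | h <;> rw [h]
    · group
    · exact hca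
    · exact hcb
    · rw [← mul_assoc, hca, mul_assoc, hcb, mul_assoc]
  have h4 : p * (e * c) = p * (c * e) := by
    rw [← mul_assoc, h3, ← mul_assoc, hpc, mul_assoc]
  exact mul_left_cancel h4

/-- Lemma K -/
theorem lemK [Finite G] (hO : PropertyO G) {S : Sylow 2 G}
    (D : BD (S : Subgroup G) E x a z b α) {c : G}
    (hc : c ∈ E) (hca : c * a = a * c) (hcb : c * b = b * c) (hcc : c * c = 1) :
    x * c = c * x := by
  by_contra hcon
  have h1 := (D.c1 hc hca hcb).resolve_left hcon
  have hc1 : c ≠ 1 := by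
    rintro rfl
    apply hcon; group
  have hcz : c ≠ z := by
    rintro rfl
    exact hcon D.zx
  obtain ⟨k, hk, hkS⟩ := exists_conj_norm hO D.mm.1 (Y := zpowers c)
    (by rw [zpowers_le]; exact hc) (by
      apply le_normalizer_of
      intro e he y hy
      obtain ⟨i, rfl⟩ := mem_zpowers_iff.1 hy
      have : e * c ^ i * e⁻¹ = c ^ i := by
        rw [← _root_.conj_zpow]
        congr 1
        rw [D.comm_CE hc hca hcb he]; group
      rw [this]
      exact zpow_mem (mem_zpowers c) i)
  have h2 := norm_conj (hkS x D.out.1) (mem_zpowers c)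
  have h3 : ∀ t ∈ zpowers c, t = 1 ∨ t = c := by
    intro t ht
    obtain ⟨m, rfl⟩ := mem_zpowers_iff.1 ht
    rcases Int.even_or_odd' m with ⟨s, hs | hs⟩
    · left; rw [hs, zpow_mul, zpow_ofNat, pow_two, hcc, one_zpow]
    · right; rw [hs, zpow_add, zpow_mul, zpow_ofNat, pow_two, hcc, one_zpow, one_mul, zpow_one]
  have h4 : k * x * k⁻¹ * c * (k * x * k⁻¹)⁻¹ = c := by
    rcases h3 _ h2 with h | h
    · exfalso
      apply hc1
      calc c = (k * x * k⁻¹)⁻¹ * (k * x * k⁻¹ * c * (k * x * k⁻¹)⁻¹) * (k * x * k⁻¹) := by group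
        _ = 1 := by rw [h]; group
    · exact h
  -- the conjugate
  have hc'E : k⁻¹ * c * k ∈ E := norm_conj' hk hc
  have h5 : x * (k⁻¹ * c * k) = (k⁻¹ * c * k) * x := by
    calc x * (k⁻¹ * c * k) = k⁻¹ * (k * x * k⁻¹ * c * (k * x * k⁻¹)⁻¹) * (k * x * k⁻¹) * k := by
          group
      _ = (k⁻¹ * c * k) * x := by rw [h4]; group
  have hcen : ∀ e ∈ E, (k⁻¹ * c * k) * e = e * (k⁻¹ * c * k) := by
    intro e he
    calc (k⁻¹ * c * k) * e = k⁻¹ * (c * (k * e * k⁻¹)) * k := by group
      _ = k⁻¹ * ((k * e * k⁻¹) * c) * k := by rw [D.comm_CE hc hca hcb (norm_conj hk he)]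
      _ = e * (k⁻¹ * c * k) := by group
  rcases D.four hc hca hcb hc1 hcz hc'E (hcen a D.aE) (hcen b D.bE) with h | h | h | h
  · apply hc1
    calc c = k * (k⁻¹ * c * k) * k⁻¹ := by group
      _ = 1 := by rw [h]; group
  · apply hcz
    calc c = k * (k⁻¹ * c * k) * k⁻¹ := by group
      _ = z := by rw [h]; exact D.z_inv hk
  · rw [h] at h5
    exact hcon h5
  · rw [h] at h5
    apply hcon
    have h6 : z * (x * c) = z * (c * x) := by
      rw [← mul_assoc, ← D.zx, mul_assoc, h5, mul_assoc]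
    exact mul_left_cancel h6

end BD

end Pool.Agent.Work.MP_cd0fff_al
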