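import Pool.Agent.Work.MP_cd0fff_al.CaseB2

/-!
The case where `x ^ 4 ≠ 1`, conclusion.
-/

set_option linter.unusedSimpArgs false
set_option linter.unusedSectionVars false

universe u

namespace Pool.Agent.Work.MP_cd0fff_al

open Subgroup Module

variable {G : Type u} [Group G]

namespace BD

variable {S E : Subgroup G} {x a z b α : G}

theorem other [Finite G] (hO : PropertyO G) {S : Sylow 2 G}
    (D : BD (S : Subgroup G) E x a z b α) :
    ∃ M b' α', BD (S : Subgroup G) M x a z b' α' ∧ b ∉ M ∧
      ∃ p c, (p = b ∨ p = a * b) ∧ c ∈ E ∧ c * a = a * c ∧ c * b = b * c ∧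
        b' = z * (x * (p * c)) := by
  obtain ⟨M, hM, e₀, he₀, he₀M⟩ := exists_other hO D.mm
  obtain ⟨b', α', DM⟩ := exists_BD hO D.out hM (by rw [D.xa, D.aa]; exact D.z1)
  rw [D.xa, D.aa] at DM
  have hbM : b ∉ M := by
    intro hbM
    apply he₀M
    obtain ⟨p, hp, h1, h2⟩ := D.decomp he₀
    have h3 := D.c2'' (mul_mem (D.pE hp) he₀) h1 h2 hM
    have hpM : p ∈ M := by
      rcases hp with h | h | h | h <;> rw [h]
      · exact M.one_mem
      · exact DM.aE
      · exact hbM
      · exact mul_mem DM.aE hbM
    exact (M.mul_mem_cancel_left hpM).1 h3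
  have hpa : ∀ p, (p = 1 ∨ p = a ∨ p = b ∨ p = a * b) → p ∈ M → p = 1 ∨ p = a := by
    intro p hp hpM
    rcases hp with h | h | h | h
    · exact Or.inl h
    · exact Or.inr h
    · rw [h] at hpM; exact absurd hpM hbM
    · rw [h] at hpM
      exact absurd ((M.mul_mem_cancel_left DM.aE).1 hpM) hbM
  have hb'E : b' ∉ E := by
    intro hb'E
    obtain ⟨p, hp, h1, h2⟩ := D.decomp hb'E
    have h3 := D.c2'' (mul_mem (D.pE hp) hb'E) h1 h2 hM
    have h4 := hpa p hp ((M.mul_mem_cancel_right DM.bE).1 h3)
    have h5 : b' * a = a * b' := by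
      rcases h4 with h | h
      · rw [h, one_mul] at h1; exact h1
      · rw [h] at h1
        rw [mul_assoc] at h1
        exact mul_left_cancel h1
    rw [DM.ba] at h5
    exact D.zne h5
  obtain ⟨e, he, hb'⟩ := (D.mm.1.cover D.out.1 (D.out.2 E D.mm) DM.bS').resolve_left hb'E
  have heM : e ∉ M := by
    intro heM
    apply D.out.2 M hM
    have h := DM.bE
    rw [hb'] at h
    exact (M.mul_mem_cancel_right heM).1 h
  obtain ⟨p, hp, h1, h2⟩ := D.decomp he
  have h3 := D.c2'' (mul_mem (D.pE hp) he) h1 h2 hM
  have hpM : p ∉ M := fun h => heM ((M.mul_mem_cancel_left h).1 h3)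
  have hp' : p = b ∨ p = a * b := by
    rcases hp with h | h | h | h
    · exact absurd (h ▸ M.one_mem) hpM
    · exact absurd (h ▸ DM.aE) hpM
    · exact Or.inl h
    · exact Or.inr h
  refine ⟨M, b', α', DM, hbM, p, p * e, hp', mul_mem (D.pE hp) he, h1, h2, ?_⟩
  have hpi : p⁻¹ = z * p := by
    rcases D.pinv hp with h | h
    · exfalso
      have h6 : p * p = 1 := by
        calc p * p = p * p⁻¹ := by rw [h]
          _ = 1 := by group
      rcases hp' with h' | h'
      · rw [h', D.bb] at h6; exact D.z1 h6
      · rw [h'] at h6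
        simp only [mul_assoc, asc D.ba, D.bb, D.za, asc D.za, D.aa, asc D.aa, asc D.zz, one_mul,
          D.zz, mul_one] at h6
        exact D.z1 h6
    · exact h
  calc b' = x * (p⁻¹ * (p * e)) := by rw [hb']; group
    _ = x * z * (p * (p * e)) := by rw [hpi]; group
    _ = z * (x * (p * (p * e))) := by rw [D.zx, mul_assoc]

/-- passing to a better element `x` -/
theorem good [Finite G] (hO : PropertyO G) {S : Sylow 2 G}
    (D : BD (S : Subgroup G) E x a z b α) :
    ∃ w a', BD (S : Subgroup G) E w a' z b a' := by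
  obtain ⟨M, b', α', DM, hbM, p, c, hp, hc, hca, hcb, hb'⟩ := D.other hO
  have h1 := DM.bb
  have hcz := D.zS c (D.mm.1.le hc)
  rcases D.hα with hα | hα
  · exact ⟨x, a, hα ▸ D⟩
  · have hxc := D.c1 hc hca hcb
    have hcc := D.c3 hc hca hcb
    have hxb := D.xb
    -- the square of `x c`
    have key : (x * c) * (x * c) = z * a := by
      rw [hb'] at h1
      rcases hxc with hxc | hxc
      · have hcx : c * x = x * c := hxc.symm
        rcases hcc with hcc | hcc <;> rcases hp with hp | hp <;> rw [hp] at h1 <;>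
        rw [hα] at hxb <;>
        simp only [mul_assoc, D.zx, D.za, D.zb, hcz, asc D.zx, asc D.za, asc D.zb, asc hcz, D.zz,
          asc D.zz, one_mul, mul_one, D.aa, asc D.aa, D.bb, asc D.bb, D.ba, asc D.ba, D.ax,
          asc D.ax, hxb, asc hxb, hca, asc hca, hcb, asc hcb, hxc, asc hxc, D.xa,
          asc D.xa, hcc, asc hcc] at h1 ⊢
        all_goals first
          | exact absurd h1 D.z1
          | exact absurd h1.symm D.z1
          | skip
      · have hcx : c * x = z * (x * c) := by rw [hxc, ← mul_assoc, D.zz, one_mul]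
        rcases hcc with hcc | hcc <;> rcases hp with hp | hp <;> rw [hp] at h1 <;>
        rw [hα] at hxb <;>
        simp only [mul_assoc, D.zx, D.za, D.zb, hcz, asc D.zx, asc D.za, asc D.zb, asc hcz, D.zz,
          asc D.zz, one_mul, mul_one, D.aa, asc D.aa, D.bb, asc D.bb, D.ba, asc D.ba, D.ax,
          asc D.ax, hxb, asc hxb, hca, asc hca, hcb, asc hcb, hxc, asc hxc, D.xa,
          asc D.xa, hcc, asc hcc] at h1 ⊢
        all_goals first
          | exact absurd h1 D.z1
          | exact absurd h1.symm D.z1
          | skip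
    refine ⟨x * c, z * a, D.c2' hc hca hcb, D.mm, key, ?_, D.zz, D.z1, D.zS, ?_, D.bE, D.bb, ?_,
      ?_, Or.inl rfl, D.eb, D.card, ?_, ?_⟩
    · simp only [mul_assoc, asc D.za, D.aa, asc D.zz, one_mul]
    · intro s hs
      have hsz := D.zS s hs
      rcases D.aS s hs with h | h
      · left
        simp only [mul_assoc, asc hsz, h]
      · right
        simp only [mul_assoc, asc hsz, h]
    · simp only [mul_assoc, asc D.zb, D.ba]
    · have hxb := D.xb
      rw [hα] at hxb
      calc x * c * b = x * (c * b) := by group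
        _ = x * b * c := by rw [hcb]; group
        _ = z * a * (b * (x * c)) := by rw [hxb]; group
    · intro R hR h
      have hzR : z ∈ Ph R := by
        rw [← D.aa]
        exact sq_mem_Ph (by rw [← D.xa]; exact hR.1.sq_mem D.out.1)
      exact D.aP R hR (((Ph R).mul_mem_cancel_left hzR).1 h)
    · obtain ⟨k, hk⟩ := D.fus
      refine ⟨k, ?_⟩
      have h2 : k * z * k⁻¹ = z := by
        have e1 : k * z * k⁻¹ = (k * a * k⁻¹) * (k * a * k⁻¹) := by rw [← D.aa]; group
        rw [e1]
        rcases hk with h | h <;> rw [h]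
        · exact D.bb
        · simp only [mul_assoc, asc D.zb, D.bb, asc D.zz, one_mul]
      have h3 : k * (z * a) * k⁻¹ = z * (k * a * k⁻¹) := by
        calc k * (z * a) * k⁻¹ = (k * z * k⁻¹) * (k * a * k⁻¹) := by group
          _ = z * (k * a * k⁻¹) := by rw [h2]
      rw [h3]
      rcases hk with h | h <;> rw [h]
      · right; rfl
      · left; rw [← mul_assoc, D.zz, one_mul]

theorem final [Finite G] (hO : PropertyO G) {S : Sylow 2 G}
    (D : BD (S : Subgroup G) E x a z b a) {c : G} (hc : c ∈ E) (hca : c * a = a * c)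
    (hcb : c * b = b * c) : c * c = 1 ∧ x * c = c * x := by
  rcases D.c3 hc hca hcb with hcc | hcc
  · exact ⟨hcc, D.lemK hO hc hca hcb hcc⟩
  · exfalso
    have hcz := D.zS c (D.mm.1.le hc)
    have htt : (a * c) * (a * c) = 1 := by
      simp only [mul_assoc, asc hca, hcc, asc D.aa, D.zz]
    rcases D.c1 hc hca hcb with hxc | hxc
    · -- `a * c` commutes with `x`
      have hxt : x * (a * c) = (a * c) * x := by
        rw [← mul_assoc, D.ax, mul_assoc, hxc, mul_assoc]
      have hpow : ∀ t ∈ zpowers (a * c), t = 1 ∨ t = a * c := by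
        intro t ht
        obtain ⟨m, rfl⟩ := mem_zpowers_iff.1 ht
        rcases Int.even_or_odd' m with ⟨s, hs | hs⟩
        · left; rw [hs, zpow_mul, zpow_ofNat, pow_two, htt, one_zpow]
        · right
          rw [hs, zpow_add, zpow_mul, zpow_ofNat, pow_two, htt, one_zpow, one_mul, zpow_one]
      have htS : a * c ∈ (S : Subgroup G) := mul_mem D.aS' (D.mm.1.le hc)
      have hn : (S : Subgroup G) ≤ normalizer (zpowers (a * c) : Set G) := by
        apply D.out.norm (by rw [zpowers_le]; exact htS)
        apply mem_normalizer_fin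
        intro y hy
        rcases hpow y hy with rfl | rfl
        · have : x * 1 * x⁻¹ = 1 := by group
          rw [this]; exact one_mem _
        · have : x * (a * c) * x⁻¹ = a * c := by rw [hxt]; group
          rw [this]; exact mem_zpowers _
      have h1 := norm_conj (hn D.bS') (mem_zpowers (a * c))
      have h2 : b * (a * c) * b⁻¹ = z * (a * c) := by
        have : b * (a * c) = z * (a * c) * b := by
          rw [← mul_assoc, D.ba]
          simp only [mul_assoc, hcb]
        rw [this]; group
      rw [h2] at h1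
      rcases hpow _ h1 with h | h
      · -- `c = a⁻¹ z`
        have h3 : c = a := by
          have h4 : a * c = z := by
            have := eq_inv_of_mul_eq_one_right h
            rw [D.zinv] at this
            exact this
          rw [← D.aa] at h4
          exact mul_left_cancel h4
        rw [h3] at hcb
        rw [D.ba] at hcb
        exact D.zne hcb.symm
      · exact D.zne h
    · obtain ⟨M, b', α', DM, hbM, p, c', hp, hc', hc'a, hc'b, hb'⟩ := D.other hO
      have hcM : c ∈ M := D.c2'' hc hca hcb DM.mm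
      have hcc' : c' * c = c * c' := D.comm_C hc hca hcb hc' hc'a hc'b
      have hc'z := D.zS c' (D.mm.1.le hc')
      have hxt := DM.lemK hO (c := a * c) (mul_mem DM.aE hcM) (by rw [mul_assoc, hca]) (by
        rw [hb']
        have hcx : c * x = z * (x * c) := by rw [hxc, ← mul_assoc, D.zz, one_mul]
        rcases hp with hp | hp <;> rw [hp] <;>
        simp only [mul_assoc, D.zx, D.za, D.zb, hcz, asc D.zx, asc D.za, asc D.zb, asc hcz, D.zz,
          asc D.zz, one_mul, mul_one, D.aa, asc D.aa, D.bb, asc D.bb, D.ba, asc D.ba, D.ax,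
          asc D.ax, D.xb, asc D.xb, hca, asc hca, hcb, asc hcb, hxc, asc hxc, D.xa,
          asc D.xa, hcc, asc hcc, hc'a, asc hc'a, hc'b, asc hc'b, hcc', asc hcc']) htt
      have h5 : x * (a * c) = z * (a * c * x) := by
        rw [← mul_assoc, D.ax, mul_assoc, hxc]
        simp only [mul_assoc, asc D.za]
      rw [h5] at hxt
      exact D.zne hxt

end BD

end Pool.Agent.Work.MP_cd0fff_al
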