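import Mathlib

/-!
Squares in the Frattini subgroup of a `2`-group, and coprime action modulo Frattini.
-/

namespace Pool.Agent.Work.MP_cd0fff_al

open Subgroup

theorem exists_zpow_eq_of_odd {G : Type*} [Group G] {x : G} {n : ℕ} (hx : x ^ 2 ^ n = 1)
    {m : ℤ} (hm : Odd m) : ∃ a : ℤ, x = (x ^ m) ^ a := by
  have h1 : IsCoprime m ((2 : ℤ) ^ n) := by
    apply IsCoprime.pow_right
    rw [Int.isCoprime_iff_gcd_eq_one]
    obtain ⟨k, rfl⟩ := hm
    have : Int.gcd (2 * k + 1) 2 = 1 := by
      rw [Int.gcd_comm]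
      simp
    exact this
  obtain ⟨a, b, hab⟩ := h1
  refine ⟨a, ?_⟩
  have h2 : x ^ ((2 : ℤ) ^ n) = 1 := by
    have : ((2 : ℤ) ^ n) = ((2 ^ n : ℕ) : ℤ) := by push_cast; rfl
    rw [this, zpow_natCast, hx]
  calc x = x ^ (a * m + b * 2 ^ n) := by rw [hab, zpow_one]
    _ = (x ^ m) ^ a * (x ^ ((2 : ℤ) ^ n)) ^ b := by
        rw [zpow_add, mul_comm a m, zpow_mul, mul_comm b, zpow_mul]
    _ = (x ^ m) ^ a := by rw [h2, one_zpow, mul_one]

theorem IsPGroup.exists_pow {G : Type*} [Group G] (hG : IsPGroup 2 G) (x : G) :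
    ∃ n, x ^ 2 ^ n = 1 := (isPGroup_iff_pow_pow_eq_one.1 hG) x

theorem sq_mem_frattini {L : Type*} [Group L] [Finite L] (hL : IsPGroup 2 L) (x : L) :
    x ^ 2 ∈ frattini L := by
  have : Group.IsNilpotent L := hL.isNilpotent
  have hnc : NormalizerCondition L := Group.normalizerCondition_of_isNilpotent
  rw [frattini, Order.radical]
  simp only [mem_iInf]
  intro M hM
  have hMn : M.Normal := NormalizerCondition.normal_of_coatom M hnc hM
  by_contra hx
  have h1 : M ⊔ zpowers (x ^ 2) = ⊤ := by
    apply hM.2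
    refine lt_of_le_of_ne le_sup_left ?_
    intro h
    apply hx
    rw [h]
    exact (le_sup_right : zpowers (x ^ 2) ≤ M ⊔ zpowers (x ^ 2)) (mem_zpowers _)
  have h2 : x ∈ M ⊔ zpowers (x ^ 2) := by rw [h1]; trivial
  rw [mem_sup_of_normal_left] at h2
  obtain ⟨m, hm, z, hz, hmz⟩ := h2
  obtain ⟨k, rfl⟩ := mem_zpowers_iff.1 hz
  have h3 : m = x ^ (1 - 2 * k) := by
    have : x ^ 2 = x ^ (2 : ℤ) := by norm_cast
    rw [this, ← zpow_mul] at hmz
    rw [zpow_sub, zpow_one]
    exact eq_mul_inv_of_mul_eq hmz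
  obtain ⟨n, hn⟩ := IsPGroup.exists_pow hL x
  have hodd : Odd (1 - 2 * k) := by
    refine ⟨-k, by ring⟩
  obtain ⟨a, ha⟩ := exists_zpow_eq_of_odd hn hodd
  apply hx
  have h4 : x ∈ M := by
    rw [ha, ← h3]
    exact M.zpow_mem hm a
  exact M.pow_mem h4 2

theorem mulAut_eq_one_of_frattini {L : Type*} [Group L] [Finite L] (hL : IsPGroup 2 L)
    {p : ℕ} [hp : Fact p.Prime] (hp2 : p ≠ 2) (a : MulAut L) (ha : a ^ p = 1)
    (h : ∀ x, x⁻¹ * a x ∈ frattini L) : a = 1 := by
  classical
  have : Fintype L := Fintype.ofFinite L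
  have hchar : ∀ x, x ∈ frattini L → a x ∈ frattini L := by
    intro x hx
    have h1 := (characteristic_iff_map_eq.1 (frattini_characteristic (G := L))) a
    rw [← h1]
    exact ⟨x, hx, rfl⟩
  set C : Subgroup L := MonoidHom.eqLocus (a.toMonoidHom) (MonoidHom.id L) with hC
  have hsup : C ⊔ frattini L = ⊤ := by
    rw [eq_top_iff]
    intro x _
    have hiff : ∀ y, x⁻¹ * (a.toEquiv y) ∈ frattini L ↔ x⁻¹ * y ∈ frattini L := by
      intro y
      have e1 : x⁻¹ * (a.toEquiv y) = (x⁻¹ * a x) * a (x⁻¹ * y) := by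
        simp [mul_assoc]
      rw [e1, Subgroup.mul_mem_cancel_left _ (h x)]
      constructor
      · intro h2
        -- injectivity: `a` is a bijection of frattini
        have h3 : ∀ k : ℕ, (a ^ k) (x⁻¹ * y) ∈ frattini L ∨ k = 0 := by
          intro k
          induction k with
          | zero => right; rfl
          | succ k ih =>
            left
            rcases Nat.eq_zero_or_pos k with rfl | hk
            · simpa using h2
            · rcases ih with ih | ih
              · rw [pow_succ', MulAut.mul_apply]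
                exact hchar _ ih
              · omega
        have h4 := h3 p
        rcases h4 with h4 | h4
        · rw [ha] at h4
          simpa using h4
        · exact absurd h4 hp.out.ne_zero
      · exact hchar _
    set σ : Equiv.Perm {y : L // x⁻¹ * y ∈ frattini L} := Equiv.Perm.subtypePerm (a.toEquiv : Equiv.Perm L) hiff with hσ
    have hσk : ∀ k : ℕ, ∀ y, (((σ ^ k) y : {y : L // x⁻¹ * y ∈ frattini L}) : L) = (a ^ k) y := by
      intro k
      induction k with
      | zero => intro y; simp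
      | succ k ih =>
        intro y
        rw [pow_succ', pow_succ', Equiv.Perm.mul_apply, MulAut.mul_apply, ← ih y]
        rfl
    have hσp : σ ^ p ^ 1 = 1 := by
      ext y
      rw [pow_one, hσk, ha]
      simp
    have hcard : ¬ p ∣ Fintype.card {y : L // x⁻¹ * y ∈ frattini L} := by
      have e : {y : L // x⁻¹ * y ∈ frattini L} ≃ frattini L :=
        { toFun := fun y => ⟨x⁻¹ * y.1, y.2⟩
          invFun := fun z => ⟨x * z.1, by simp⟩
          left_inv := fun y => by simp
          right_inv := fun z => by simp }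
      rw [Fintype.card_congr e, ← Nat.card_eq_fintype_card]
      obtain ⟨n, hn⟩ := IsPGroup.iff_card.1 (hL.to_subgroup (frattini L))
      rw [hn]
      intro hdvd
      have := (Nat.Prime.dvd_of_dvd_pow hp.out hdvd)
      exact hp2 ((Nat.prime_dvd_prime_iff_eq hp.out Nat.prime_two).1 this)
    obtain ⟨y, hy⟩ := Equiv.Perm.exists_fixed_point_of_prime hcard hσp
    have hyC : (y : L) ∈ C := by
      have := congrArg (Subtype.val) hy
      exact this
    have hxy : x = (y : L) * ((y : L)⁻¹ * x) := by group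
    rw [hxy]
    refine Subgroup.mul_mem_sup hyC ?_
    have := (frattini L).inv_mem y.2
    simpa using this
  have hC1 := frattini_nongenerating hsup
  ext x
  have : x ∈ C := by rw [hC1]; trivial
  exact this

end Pool.Agent.Work.MP_cd0fff_al
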