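import Pool.Agent.Work.MP_cd0fff_al.Basic
import Pool.Agent.Work.MP_cd0fff_al.Coprime

/-!
Property (O) in a group with a self-centralising normal `2`-subgroup: the Sylow
`2`-subgroup is normal.
-/

namespace Pool.Agent.Work.MP_cd0fff_al

open Subgroup

variable {G : Type*} [Group G]

/-- `t` is a `2`-element outside `Q` of the smallest possible order. -/
def MinOut (Q : Subgroup G) (t : G) : Prop :=
  t ∉ Q ∧ (∃ n, t ^ 2 ^ n = 1) ∧ ∀ s : G, s ∉ Q → (∃ n, s ^ 2 ^ n = 1) → orderOf t ≤ orderOf s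

theorem MinOut.conj {Q : Subgroup G} [Q.Normal] {t : G} (h : MinOut Q t) (g : G) :
    MinOut Q (g * t * g⁻¹) := by
  refine ⟨?_, ?_, ?_⟩
  · intro h1
    apply h.1
    have := (inferInstance : Q.Normal).conj_mem _ h1 g⁻¹
    simpa [mul_assoc] using this
  · obtain ⟨n, hn⟩ := h.2.1
    refine ⟨n, ?_⟩
    rw [conj_pow, hn]
    simp
  · intro s hs hs'
    have : orderOf (g * t * g⁻¹) = orderOf t := by
      have := MulEquiv.orderOf_eq (MulAut.conj g) t
      simpa using this
    rw [this]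
    exact h.2.2 s hs hs'

theorem orderOf_sq_lt [Finite G] {t : G} (ht : t ≠ 1) (h : ∃ n, t ^ 2 ^ n = 1) :
    orderOf (t ^ 2) * 2 = orderOf t := by
  obtain ⟨n, hn⟩ := h
  have h1 : orderOf t ∣ 2 ^ n := orderOf_dvd_of_pow_eq_one hn
  obtain ⟨k, hk, hk2⟩ := (Nat.dvd_prime_pow Nat.prime_two).1 h1
  have hk0 : k ≠ 0 := by
    rintro rfl
    rw [pow_zero, orderOf_eq_one_iff] at hk2
    exact ht hk2
  rw [orderOf_pow, hk2]
  obtain ⟨j, rfl⟩ := Nat.exists_eq_succ_of_ne_zero hk0
  have : Nat.gcd (2 ^ (j + 1)) 2 = 2 := by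
    rw [pow_succ]
    exact Nat.gcd_eq_right (dvd_mul_left 2 _)
  rw [Nat.succ_eq_add_one, this, pow_succ, Nat.mul_div_cancel _ (by norm_num)]

theorem MinOut.sq_mem [Finite G] {Q : Subgroup G} {t : G} (h : MinOut Q t) : t ^ 2 ∈ Q := by
  by_contra hc
  have ht : t ≠ 1 := by
    rintro rfl
    exact h.1 Q.one_mem
  obtain ⟨n, hn⟩ := h.2.1
  have h1 := h.2.2 (t ^ 2) hc ⟨n, by rw [← pow_mul, mul_comm, pow_mul, hn, one_pow]⟩
  have h2 := orderOf_sq_lt ht h.2.1
  have h3 : 0 < orderOf (t ^ 2) := orderOf_pos _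
  omega

/-- Elements of `Q` move by a power of `t ^ 2` under a minimal `2`-element `t` outside `Q`. -/
theorem MinOut.conj_eq [Finite G] (hO : PropertyO G) {Q : Subgroup G} [hQn : Q.Normal]
    (hQ : IsPGroup 2 Q) {t : G} (h : MinOut Q t) {q : G} (hq : q ∈ Q) :
    ∃ i : ℤ, t⁻¹ * q * t = q * (t ^ 2) ^ i := by
  obtain ⟨n, hn⟩ := h.2.1
  have hP : IsPGroup 2 (zpowers t) := by
    rw [isPGroup_iff_pow_pow_eq_one]
    rintro ⟨x, hx⟩
    obtain ⟨k, rfl⟩ := mem_zpowers_iff.1 hx
    refine ⟨n, ?_⟩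
    ext
    simp only [SubmonoidClass.mk_pow, OneMemClass.coe_one]
    rw [← zpow_natCast, ← zpow_mul, mul_comm, zpow_mul, zpow_natCast, hn, one_zpow]
  obtain ⟨T, hT1, hT2⟩ := (propertyO_iff.1 hO) _ hP
  have hQT : Q ≤ T := hQ.le_sylow_of_normal T
  have h1 := (mem_normalizer_iff.1 (hT2 (hQT (Q.inv_mem hq))) t⁻¹).1
    ((zpowers t).inv_mem (mem_zpowers t))
  rw [inv_inv] at h1
  -- `q⁻¹ t⁻¹ q ∈ ⟨t⟩`
  have h2 : q⁻¹ * t⁻¹ * q * t ∈ zpowers t := (zpowers t).mul_mem h1 (mem_zpowers t)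
  obtain ⟨m, hm⟩ := mem_zpowers_iff.1 h2
  have h3 : q⁻¹ * t⁻¹ * q * t ∈ Q := by
    have : q⁻¹ * t⁻¹ * q * t = q⁻¹ * (t⁻¹ * q * t⁻¹⁻¹) := by group
    rw [this]
    exact Q.mul_mem (Q.inv_mem hq) (hQn.conj_mem q hq t⁻¹)
  have hme : Even m := by
    by_contra hodd
    rw [Int.not_even_iff_odd] at hodd
    obtain ⟨a, ha⟩ := exists_zpow_eq_of_odd hn hodd
    apply h.1
    rw [ha]
    apply Q.zpow_mem
    rw [show t ^ m = q⁻¹ * t⁻¹ * q * t from hm]
    exact h3
  obtain ⟨i, rfl⟩ := hme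
  refine ⟨i, ?_⟩
  have h4 : (t ^ 2) ^ i = t ^ (i + i) := by
    rw [← zpow_natCast, ← zpow_mul]
    congr 1
    push_cast
    ring
  rw [h4, show t ^ (i + i) = q⁻¹ * t⁻¹ * q * t from hm]
  group

/-- The key computation: two minimal elements `t, t'` outside `Q`. -/
theorem MinOut.key [Finite G] (hO : PropertyO G) {Q : Subgroup G} [hQn : Q.Normal]
    (hQ : IsPGroup 2 Q) {t t' : G} (h : MinOut Q t) (h' : MinOut Q t') :
    ∃ j : ℤ, t⁻¹ * t' ^ 2 * t = t' ^ 2 * ((t ^ 2) ^ 2) ^ j := by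
  obtain ⟨i, hi⟩ := h.conj_eq hO hQ h'.sq_mem
  obtain ⟨i', hi'⟩ := h'.conj_eq hO hQ h.sq_mem
  by_cases hu1 : t ^ 2 = 1
  · refine ⟨0, ?_⟩
    rw [hi, hu1]
    simp
  rcases Int.even_or_odd i with he | hodd
  · obtain ⟨j, rfl⟩ := he
    refine ⟨j, ?_⟩
    rw [hi]
    congr 1
    rw [← zpow_natCast (t ^ 2) 2, ← zpow_mul]
    congr 1
    push_cast
    ring
  · exfalso
    have ht : t ≠ 1 := by
      rintro rfl
      exact h.1 Q.one_mem
    have ht' : t' ≠ 1 := by
      rintro rfl
      exact h'.1 Q.one_mem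
    set u := t ^ 2 with hu
    set u' := t' ^ 2 with hu'
    have horder : orderOf t = orderOf t' := le_antisymm (h.2.2 t' h'.1 h'.2.1) (h'.2.2 t h.1 h.2.1)
    have ho : orderOf u * 2 = orderOf t := orderOf_sq_lt ht h.2.1
    have ho' : orderOf u' * 2 = orderOf t' := orderOf_sq_lt ht' h'.2.1
    have hou : orderOf u = orderOf u' := by omega
    have hun : ∃ n, u ^ 2 ^ n = 1 := by
      obtain ⟨n, hn⟩ := h.2.1
      exact ⟨n, by rw [hu, ← pow_mul, mul_comm, pow_mul, hn, one_pow]⟩
    -- (1) `u⁻¹ u' u = u' u ^ (2 i)`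
    have htu : t⁻¹ * u * t = u := by rw [hu]; group
    have htuz : ∀ z : ℤ, t⁻¹ * u ^ z * t = u ^ z := by
      intro z
      have : t⁻¹ * u ^ z * t = (t⁻¹ * u * t) ^ z := by
        have := conj_zpow (a := t⁻¹) (b := u) (i := z)
        simpa using this.symm
      rw [this, htu]
    have e1 : u⁻¹ * u' * u = u' * u ^ (2 * i) := by
      have : u⁻¹ * u' * u = t⁻¹ * (t⁻¹ * u' * t) * t := by rw [hu, pow_two]; group
      rw [this, hi]
      have : t⁻¹ * (u' * u ^ i) * t = (t⁻¹ * u' * t) * (t⁻¹ * u ^ i * t) := by group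
      rw [this, hi, htuz, mul_assoc, ← zpow_add]
      congr 2
      ring
    -- (2) `u'⁻¹ u u' = u ^ (1 - 2 i)`
    have e2 : u'⁻¹ * u * u' = u ^ (1 - 2 * i) := by
      have h1 : u' * u = u * u' * u ^ (2 * i) := by
        have := congrArg (fun z => u * z) e1
        simpa [mul_assoc] using this
      have h2 : u'⁻¹ * u * u' * u ^ (2 * i) = u := by
        have := congrArg (fun z => u'⁻¹ * z) h1
        simpa [mul_assoc] using this.symm
      rw [zpow_sub, zpow_one]
      exact eq_mul_inv_of_mul_eq h2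
    -- (3) `u'⁻¹ u u' = u u' ^ (2 i')`
    have htu' : t'⁻¹ * u' * t' = u' := by rw [hu']; group
    have htuz' : ∀ z : ℤ, t'⁻¹ * u' ^ z * t' = u' ^ z := by
      intro z
      have : t'⁻¹ * u' ^ z * t' = (t'⁻¹ * u' * t') ^ z := by
        have := conj_zpow (a := t'⁻¹) (b := u') (i := z)
        simpa using this.symm
      rw [this, htu']
    have e3 : u'⁻¹ * u * u' = u * u' ^ (2 * i') := by
      have : u'⁻¹ * u * u' = t'⁻¹ * (t'⁻¹ * u * t') * t' := by rw [hu', pow_two]; group
      rw [this, hi']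
      have : t'⁻¹ * (u * u' ^ i') * t' = (t'⁻¹ * u * t') * (t'⁻¹ * u' ^ i' * t') := by group
      rw [this, hi', htuz', mul_assoc, ← zpow_add]
      congr 2
      ring
    -- `u ^ (-2 i) = u' ^ (2 i')`
    have e4 : u ^ (-(2 * i)) = u' ^ (2 * i') := by
      have : u * u ^ (-(2 * i)) = u * u' ^ (2 * i') := by
        rw [← e3, e2, ← zpow_one_add]
        congr 1
      exact mul_left_cancel this
    -- `u ^ 2` commutes with `u'`
    obtain ⟨n, hn⟩ := hun
    have hu2n : (u ^ 2) ^ 2 ^ n = 1 := by rw [← pow_mul, mul_comm, pow_mul, hn, one_pow]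
    obtain ⟨a, ha⟩ := exists_zpow_eq_of_odd hu2n (m := -i) (by simpa using hodd)
    have hcomm : Commute (u ^ 2) u' := by
      have h5 : (u ^ 2) ^ (-i) = u' ^ (2 * i') := by
        rw [← e4, ← zpow_natCast, ← zpow_mul]
        congr 1
        push_cast
        ring
      rw [ha, h5]
      exact ((Commute.refl u').zpow_left _).zpow_left _
    have e5 : u ^ (4 * i) = 1 := by
      have h6 : u'⁻¹ * u ^ 2 * u' = u ^ 2 := by
        rw [mul_assoc, hcomm.eq]
        group
      have h7 : u'⁻¹ * u ^ 2 * u' = (u'⁻¹ * u * u') ^ 2 := by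
        have := conj_pow (a := u'⁻¹) (b := u) (i := 2)
        simpa using this.symm
      rw [h7, e2, ← zpow_natCast (u ^ (1 - 2 * i)), ← zpow_mul] at h6
      have h8 : u ^ ((1 - 2 * i) * ((2 : ℕ) : ℤ)) = u ^ (2 : ℤ) := by
        rw [h6]; norm_cast
      have h9 : u ^ (2 : ℤ) * (u ^ ((1 - 2 * i) * ((2 : ℕ) : ℤ)))⁻¹ = 1 := by
        rw [h8]; group
      rw [← zpow_neg, ← zpow_add] at h9
      rw [← h9]
      congr 1
      push_cast
      ring
    have e6 : u ^ 4 = 1 := by
      have h10 : (u ^ 4) ^ 2 ^ n = 1 := by rw [← pow_mul, mul_comm, pow_mul, hn, one_pow]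
      obtain ⟨b, hb⟩ := exists_zpow_eq_of_odd h10 hodd
      rw [hb, ← zpow_natCast u 4, ← zpow_mul u, show ((4 : ℕ) : ℤ) * i = 4 * i by push_cast; ring,
        e5, one_zpow]
    -- the element `t u'`
    have hout : t * u' ∉ Q := by
      intro h11
      exact h.1 ((Q.mul_mem_cancel_right h'.sq_mem).1 h11)
    have hconj : ∀ z : ℤ, u'⁻¹ * u ^ z * u' = u ^ ((1 - 2 * i) * z) := by
      intro z
      have : u'⁻¹ * u ^ z * u' = (u'⁻¹ * u * u') ^ z := by
        have := conj_zpow (a := u'⁻¹) (b := u) (i := z)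
        simpa using this.symm
      rw [this, e2, ← zpow_mul]
    have hsq : (t * u') ^ 2 = u * u' * u ^ i * u' := by
      have : (t * u') ^ 2 = t ^ 2 * (t⁻¹ * u' * t) * u' := by rw [pow_two, pow_two]; group
      rw [this, hi, ← hu]
      group
    have hsq2 : (t * u') ^ 2 = u' ^ 2 * u ^ ((1 - 2 * i) * ((1 - 2 * i) + i)) := by
      rw [hsq]
      have c1 : u * u' = u' * u ^ (1 - 2 * i) := by
        have := congrArg (fun z => u' * z) e2
        simpa [mul_assoc] using this
      have c2 : ∀ z : ℤ, u ^ z * u' = u' * u ^ ((1 - 2 * i) * z) := by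
        intro z
        have := congrArg (fun w => u' * w) (hconj z)
        simpa [mul_assoc] using this
      calc u * u' * u ^ i * u' = u' * (u ^ (1 - 2 * i) * u ^ i) * u' := by rw [c1]; group
        _ = u' * u ^ ((1 - 2 * i) + i) * u' := by rw [zpow_add]
        _ = u' * (u ^ ((1 - 2 * i) + i) * u') := by group
        _ = u' * (u' * u ^ ((1 - 2 * i) * ((1 - 2 * i) + i))) := by rw [c2]
        _ = _ := by rw [pow_two, mul_assoc]
    have htu'2 : ∃ n, (t * u') ^ 2 ^ n = 1 := by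
      have h12 : (t * u') ^ 2 ∈ Q := by
        rw [hsq]
        exact Q.mul_mem (Q.mul_mem (Q.mul_mem h.sq_mem h'.sq_mem) (Q.zpow_mem h.sq_mem i))
          h'.sq_mem
      obtain ⟨m, hm⟩ := IsPGroup.exists_pow hQ ⟨_, h12⟩
      refine ⟨m + 1, ?_⟩
      have := congrArg Subtype.val hm
      simp only [SubmonoidClass.mk_pow, OneMemClass.coe_one] at this
      rw [pow_succ', pow_mul]
      exact this
    have hmin := h.2.2 _ hout htu'2
    obtain ⟨k, hk⟩ := hodd
    have hexp : (1 - 2 * i) * ((1 - 2 * i) + i) = 2 * ((1 - 2 * i) * (-k)) := by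
      rw [hk]; ring
    rw [hexp, zpow_mul] at hsq2
    have hcast : u ^ (2 : ℤ) = u ^ 2 := by norm_cast
    rw [hcast] at hsq2
    have hdvd : orderOf u ∣ 4 := orderOf_dvd_of_pow_eq_one e6
    have hu'4 : u' ^ 4 = 1 := by
      rw [← orderOf_dvd_iff_pow_eq_one, ← hou]
      exact hdvd
    by_cases hu2 : u ^ 2 = 1
    · have h13 : orderOf u ∣ 2 := orderOf_dvd_of_pow_eq_one hu2
      have h14 : u' ^ 2 = 1 := by
        rw [← orderOf_dvd_iff_pow_eq_one, ← hou]
        exact h13
      have h15 : (t * u') ^ 2 = 1 := by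
        rw [hsq2, h14, hu2, one_zpow, one_mul]
      have h16 := Nat.le_of_dvd (by norm_num) (orderOf_dvd_of_pow_eq_one h15)
      have h17 : orderOf u ≠ 1 := by
        rw [ne_eq, orderOf_eq_one_iff]
        exact hu1
      have h18 : 0 < orderOf u := orderOf_pos u
      omega
    · have h15 : (t * u') ^ 4 = 1 := by
        have : (t * u') ^ 4 = ((t * u') ^ 2) ^ 2 := by rw [← pow_mul]
        rw [this, hsq2]
        have hc2 : Commute (u' ^ 2) ((u ^ 2) ^ ((1 - 2 * i) * (-k))) :=
          ((hcomm.symm).pow_left 2).zpow_right _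
        rw [hc2.mul_pow, ← pow_mul, show 2 * 2 = 4 by norm_num, hu'4, one_mul, ← zpow_natCast,
          ← zpow_mul, mul_comm, zpow_mul, zpow_natCast, ← pow_mul, show 2 * 2 = 4 by norm_num, e6,
          one_zpow]
      have h16 := Nat.le_of_dvd (by norm_num) (orderOf_dvd_of_pow_eq_one h15)
      have h17 : ¬ orderOf u ∣ 2 := by
        rw [orderOf_dvd_iff_pow_eq_one]
        exact hu2
      have h18 : 0 < orderOf u := orderOf_pos u
      have h19 : orderOf u ≤ 4 := Nat.le_of_dvd (by norm_num) hdvd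
      have h20 : orderOf u ≠ 1 := fun h => h17 (by rw [h]; norm_num)
      have h21 : orderOf u ≠ 2 := fun h => h17 (by rw [h])
      have h22 : orderOf u ≠ 3 := fun h => by
        rw [h] at hdvd
        norm_num at hdvd
      omega

/-- Every `2`-element lies in a self-centralising normal `2`-subgroup `Q` which contains all
normal `2`-subgroups, when (O) holds. -/
theorem mem_of_constrained [Finite G] (hO : PropertyO G) {Q : Subgroup G} [hQn : Q.Normal]
    (hQ : IsPGroup 2 Q) (hC : centralizer (Q : Set G) ≤ Q)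
    (hmax : ∀ N : Subgroup G, N.Normal → IsPGroup 2 N → N ≤ Q) :
    ∀ t : G, (∃ n, t ^ 2 ^ n = 1) → t ∈ Q := by
  classical
  by_contra hcon
  push Not at hcon
  -- a minimal element
  obtain ⟨t0, ht0, ht0Q⟩ := hcon
  have hfin : ({s : G | s ∉ Q ∧ ∃ n, s ^ 2 ^ n = 1}).Finite := Set.toFinite _
  obtain ⟨t1, ⟨ht1Q, ht1⟩, hmin⟩ := Set.exists_min_image _ (fun s => orderOf s) hfin ⟨t0, ht0Q, ht0⟩
  have hM1 : MinOut Q t1 := ⟨ht1Q, ht1, fun s hs hs' => hmin s ⟨hs, hs'⟩⟩
  -- the conjugacy class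
  set D : Set G := {x | ∃ g, x = g * t1 * g⁻¹} with hD
  have hDinv : ∀ g, ∀ d ∈ D, g * d * g⁻¹ ∈ D := by
    rintro g _ ⟨h, rfl⟩
    exact ⟨g * h, by group⟩
  have hDM : ∀ d ∈ D, MinOut Q d := by
    rintro _ ⟨g, rfl⟩
    exact hM1.conj g
  -- by Baer-Suzuki two conjugates generate a non-2-group
  have hex : ∃ a ∈ D, ∃ b ∈ D, ¬ IsPGroup 2 (closure {a, b}) := by
    by_contra hno
    push Not at hno
    have h1 := baer_suzuki hDinv hno
    have h2 : (closure D).Normal := by
      constructor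
      intro n hn g
      induction hn using closure_induction with
      | mem x hx => exact subset_closure (hDinv g x hx)
      | one => simp
      | mul x y _ _ hx hy =>
        have : g * (x * y) * g⁻¹ = (g * x * g⁻¹) * (g * y * g⁻¹) := by group
        rw [this]; exact (closure D).mul_mem hx hy
      | inv x _ hx =>
        have : g * x⁻¹ * g⁻¹ = (g * x * g⁻¹)⁻¹ := by group
        rw [this]; exact (closure D).inv_mem hx
    exact ht1Q (hmax _ h2 h1 (subset_closure ⟨1, by simp⟩))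
  obtain ⟨t, htD, t', ht'D, hnp⟩ := hex
  have hM := hDM t htD
  have hM' := hDM t' ht'D
  set E : Subgroup G := closure {t, t'} with hE
  -- an element of odd prime order in `E`
  obtain ⟨p, hp, hp2, α, hαE, hα⟩ : ∃ p : ℕ, p.Prime ∧ p ≠ 2 ∧ ∃ α ∈ E, orderOf α = p := by
    by_contra hno
    push Not at hno
    apply hnp
    have hcard : Nat.card E = 2 ^ (Nat.card E).primeFactorsList.length := by
      apply Nat.eq_prime_pow_of_unique_prime_dvd Nat.card_pos.ne'
      intro d hd hdvd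
      by_contra hd2
      have := Fact.mk hd
      obtain ⟨x, hx⟩ := exists_prime_orderOf_dvd_card' d hdvd
      exact hno d hd hd2 x x.2 (by simpa using hx)
    exact IsPGroup.of_card hcard
  have hpF : Fact p.Prime := ⟨hp⟩
  have hα1 : α ^ p = 1 := by rw [← hα]; exact pow_orderOf_eq_one α
  -- the subgroup `L`
  set L : Subgroup G := closure {t ^ 2, t' ^ 2} with hL
  have hLQ : L ≤ Q := by
    rw [hL, closure_le]
    rintro x (rfl | rfl)
    · exact hM.sq_mem
    · exact hM'.sq_mem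
  have hLp : IsPGroup 2 L := hQ.to_le hLQ
  have htL : t ^ 2 ∈ L := subset_closure (by simp)
  have ht'L : t' ^ 2 ∈ L := subset_closure (by simp)
  obtain ⟨j, hj⟩ := MinOut.key hO hQ hM hM'
  obtain ⟨j', hj'⟩ := MinOut.key hO hQ hM' hM
  -- `t⁻¹` and `t'⁻¹` normalise `L`
  have hnorm_aux : ∀ s : G, (s⁻¹ * t ^ 2 * s ∈ L) → (s⁻¹ * t' ^ 2 * s ∈ L) →
      s ∈ normalizer (L : Set G) := by
    intro s h1 h2
    have hsub : ∀ x ∈ L, s⁻¹ * x * s ∈ L := by
      intro x hx
      rw [hL] at hx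
      induction hx using closure_induction with
      | mem x hx =>
        rcases hx with rfl | rfl
        · exact h1
        · exact h2
      | one => simp
      | mul x y _ _ hx hy =>
        have : s⁻¹ * (x * y) * s = (s⁻¹ * x * s) * (s⁻¹ * y * s) := by group
        rw [this]; exact L.mul_mem hx hy
      | inv x _ hx =>
        have : s⁻¹ * x⁻¹ * s = (s⁻¹ * x * s)⁻¹ := by group
        rw [this]; exact L.inv_mem hx
    have hmem : s⁻¹ ∈ normalizer (L : Set G) := by
      have hle : L.map (MulAut.conj s⁻¹).toMonoidHom ≤ L := by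
        rintro _ ⟨x, hx, rfl⟩
        simpa using hsub x hx
      have heq : L.map (MulAut.conj s⁻¹).toMonoidHom = L := by
        apply Subgroup.eq_of_le_of_card_ge hle
        rw [Subgroup.card_map_of_injective (MulAut.conj s⁻¹).injective]
      rw [mem_normalizer_iff]
      intro x
      constructor
      · intro hx
        simpa using hsub x hx
      · intro hx
        rw [← heq] at hx
        obtain ⟨y, hy, hyx⟩ := hx
        have : y = x := by simpa using hyx
        rwa [this] at hy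
    simpa using (normalizer (L : Set G)).inv_mem hmem
  have htn : t ∈ normalizer (L : Set G) := by
    apply hnorm_aux
    · have : t⁻¹ * t ^ 2 * t = t ^ 2 := by rw [pow_two]; group
      rw [this]; exact htL
    · rw [hj]
      exact L.mul_mem ht'L (L.zpow_mem (L.pow_mem htL 2) j)
  have ht'n : t' ∈ normalizer (L : Set G) := by
    apply hnorm_aux
    · rw [hj']
      exact L.mul_mem htL (L.zpow_mem (L.pow_mem ht'L 2) j')
    · have : t'⁻¹ * t' ^ 2 * t' = t' ^ 2 := by rw [pow_two]; group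
      rw [this]; exact ht'L
  have hEn : E ≤ normalizer (L : Set G) := by
    rw [hE, closure_le]
    rintro x (rfl | rfl)
    · exact htn
    · exact ht'n
  -- action on `L / Φ(L)`
  set π : L →* L ⧸ frattini L := QuotientGroup.mk' (frattini L) with hπ
  set ν := L.normalizerMonoidHom with hν
  have hνapp : ∀ (n : normalizer (L : Set G)) (x : L), ((ν n x : L) : G) = n * x * (n : G)⁻¹ := by
    intro n x
    simp [hν]
  have hπsq : ∀ x : L, ∀ k : ℤ, π ((x ^ 2) ^ k) = 1 := by
    intro x k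
    rw [map_zpow]
    have : π (x ^ 2) = 1 := by
      rw [hπ, QuotientGroup.mk'_apply, QuotientGroup.eq_one_iff]
      exact sq_mem_frattini hLp x
    rw [this, one_zpow]
  set K : Subgroup (normalizer (L : Set G)) :=
    { carrier := {n | π.comp (ν n).toMonoidHom = π}
      one_mem' := by ext x; simp
      mul_mem' := by
        intro a b ha hb
        simp only [Set.mem_ofPred_eq] at ha hb ⊢
        ext x
        have h1 := DFunLike.congr_fun ha (ν b x)
        have h2 := DFunLike.congr_fun hb x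
        simp only [MonoidHom.comp_apply, MulEquiv.toMonoidHom_eq_coe, MonoidHom.coe_coe] at h1 h2 ⊢
        rw [map_mul, MulAut.mul_apply, h1, h2]
      inv_mem' := by
        intro a ha
        simp only [Set.mem_ofPred_eq] at ha ⊢
        ext x
        have h1 := DFunLike.congr_fun ha (ν a⁻¹ x)
        simp only [MonoidHom.comp_apply, MulEquiv.toMonoidHom_eq_coe, MonoidHom.coe_coe] at h1 ⊢
        rw [← h1, ← MulAut.mul_apply, ← map_mul]
        simp } with hK
  have hgen : ∀ f g : L →* L ⧸ frattini L, f ⟨t ^ 2, htL⟩ = g ⟨t ^ 2, htL⟩ →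
      f ⟨t' ^ 2, ht'L⟩ = g ⟨t' ^ 2, ht'L⟩ → f = g := by
    intro f g h1 h2
    ext ⟨x, hx⟩
    have key : ∀ x ∈ closure {t ^ 2, t' ^ 2}, ∀ hx' : x ∈ L, f ⟨x, hx'⟩ = g ⟨x, hx'⟩ := by
      intro x hx
      induction hx using closure_induction with
      | mem x hx =>
        intro hx'
        rcases hx with rfl | rfl
        · exact h1
        · exact h2
      | one => intro _; exact (map_one f).trans (map_one g).symm
      | mul x y hx hy ihx ihy =>
        intro hx'
        have e : (⟨x * y, hx'⟩ : L) = ⟨x, hx⟩ * ⟨y, hy⟩ := rfl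
        rw [e, map_mul, map_mul, ihx hx, ihy hy]
      | inv x hx ihx =>
        intro hx'
        have e : (⟨x⁻¹, hx'⟩ : L) = (⟨x, hx⟩ : L)⁻¹ := rfl
        rw [e, map_inv, map_inv, ihx hx]
    exact key x hx hx
  have htK : (⟨t, htn⟩ : normalizer (L : Set G))⁻¹ ∈ K := by
    apply hgen
    · simp only [MonoidHom.comp_apply, MulEquiv.toMonoidHom_eq_coe, MonoidHom.coe_coe]
      congr 1
      ext
      rw [hνapp]
      simp only [InvMemClass.coe_inv, inv_inv]
      rw [pow_two]; group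
    · simp only [MonoidHom.comp_apply, MulEquiv.toMonoidHom_eq_coe, MonoidHom.coe_coe]
      have : ν (⟨t, htn⟩ : normalizer (L : Set G))⁻¹ ⟨t' ^ 2, ht'L⟩ =
          ⟨t' ^ 2, ht'L⟩ * ((⟨t ^ 2, htL⟩ : L) ^ 2) ^ j := by
        ext
        rw [hνapp]
        simp only [InvMemClass.coe_inv, inv_inv]
        rw [hj]
        simp
      rw [this, map_mul, hπsq, mul_one]
  have ht'K : (⟨t', ht'n⟩ : normalizer (L : Set G))⁻¹ ∈ K := by
    apply hgen
    · simp only [MonoidHom.comp_apply, MulEquiv.toMonoidHom_eq_coe, MonoidHom.coe_coe]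
      have : ν (⟨t', ht'n⟩ : normalizer (L : Set G))⁻¹ ⟨t ^ 2, htL⟩ =
          ⟨t ^ 2, htL⟩ * ((⟨t' ^ 2, ht'L⟩ : L) ^ 2) ^ j' := by
        ext
        rw [hνapp]
        simp only [InvMemClass.coe_inv, inv_inv]
        rw [hj']
        simp
      rw [this, map_mul, hπsq, mul_one]
    · simp only [MonoidHom.comp_apply, MulEquiv.toMonoidHom_eq_coe, MonoidHom.coe_coe]
      congr 1
      ext
      rw [hνapp]
      simp only [InvMemClass.coe_inv, inv_inv]
      rw [pow_two]; group
  have hEK : E ≤ K.map (normalizer (L : Set G)).subtype := by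
    rw [hE, closure_le]
    rintro x (hx | hx)
    · exact ⟨⟨t, htn⟩, by simpa using K.inv_mem htK, hx.symm⟩
    · exact ⟨⟨t', ht'n⟩, by simpa using K.inv_mem ht'K, hx.symm⟩
  obtain ⟨a, haK, haα⟩ := hEK hαE
  -- `α` centralises `L`
  have hνa : ν a = 1 := by
    apply mulAut_eq_one_of_frattini hLp hp2
    · rw [← map_pow]
      have : a ^ p = 1 := by
        ext
        have h1 : (a : G) = α := haα
        simp [h1, hα1]
      rw [this, map_one]
    · intro x
      have h1 : π (ν a x) = π x := DFunLike.congr_fun haK x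
      rw [hπ, QuotientGroup.mk'_apply, QuotientGroup.mk'_apply] at h1
      exact QuotientGroup.eq.1 h1.symm
  have hαL : ∀ x ∈ L, α * x * α⁻¹ = x := by
    intro x hx
    have h1 := hνapp a ⟨x, hx⟩
    rw [hνa] at h1
    have h2 : (a : G) = α := haα
    rw [h2] at h1
    exact h1.symm
  -- `E` acts trivially on `Q / L`
  have hEQ : ∀ d ∈ E, ∀ q ∈ Q, q⁻¹ * (d * q * d⁻¹) ∈ L := by
    intro d hd
    rw [hE] at hd
    induction hd using closure_induction with
    | mem d hd =>
      intro q hq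
      have hgen2 : ∀ s : G, s ∈ normalizer (L : Set G) → MinOut Q s → s ^ 2 ∈ L →
          q⁻¹ * (s * q * s⁻¹) ∈ L := by
        intro s hsn hs hsL
        obtain ⟨i, hi⟩ := hs.conj_eq hO hQ (hQn.conj_mem q hq s)
        have h1 : s⁻¹ * (s * q * s⁻¹) * s = q := by group
        rw [h1] at hi
        have h2 : q⁻¹ * (s * q * s⁻¹) = (s ^ 2) ^ (-i) := by
          have : s * q * s⁻¹ = q * ((s ^ 2) ^ i)⁻¹ := eq_mul_inv_of_mul_eq hi.symm
          rw [this]
          group
        rw [h2]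
        exact L.zpow_mem hsL _
      rcases hd with rfl | rfl
      · exact hgen2 _ htn hM htL
      · exact hgen2 _ ht'n hM' ht'L
    | one => intro q _; simp
    | mul d e hd he ihd ihe =>
      intro q hq
      have h1 := ihe q hq
      have h2 := ihd _ (hQn.conj_mem q hq e)
      have : q⁻¹ * (d * e * q * (d * e)⁻¹) =
          (q⁻¹ * (e * q * e⁻¹)) * ((e * q * e⁻¹)⁻¹ * (d * (e * q * e⁻¹) * d⁻¹)) := by group
      rw [this]
      exact L.mul_mem h1 h2
    | inv d hd ihd =>
      intro q hq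
      have h1 := ihd _ (hQn.conj_mem q hq d⁻¹)
      have h2 := L.inv_mem h1
      have : q⁻¹ * (d⁻¹ * q * d⁻¹⁻¹) =
          ((d⁻¹ * q * d⁻¹⁻¹)⁻¹ * (d * (d⁻¹ * q * d⁻¹⁻¹) * d⁻¹))⁻¹ := by group
      rw [this]
      exact h2
  -- hence `α` centralises `Q`
  have hαQ : α ∈ centralizer (Q : Set G) := by
    rw [mem_centralizer_iff]
    intro q hq
    set l := q⁻¹ * (α * q * α⁻¹) with hl
    have hlL : l ∈ L := hEQ α hαE q hq
    have hstep : ∀ k : ℕ, α ^ k * q * (α ^ k)⁻¹ = q * l ^ k := by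
      intro k
      induction k with
      | zero => simp
      | succ k ih =>
        have h1 : α ^ (k + 1) * q * (α ^ (k + 1))⁻¹ = α * (α ^ k * q * (α ^ k)⁻¹) * α⁻¹ := by
          rw [pow_succ']; group
        rw [h1, ih]
        have h2 : α * (q * l ^ k) * α⁻¹ = (α * q * α⁻¹) * (α * l ^ k * α⁻¹) := by group
        rw [h2, hαL _ (L.pow_mem hlL k)]
        have h3 : α * q * α⁻¹ = q * l := by rw [hl]; group
        rw [h3, pow_succ', mul_assoc]
    have h1 := hstep p
    rw [hα1] at h1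
    have h2 : l ^ p = 1 := by
      have : q = q * l ^ p := by simpa using h1
      exact (mul_eq_left.1 this.symm)
    obtain ⟨m, hm⟩ := IsPGroup.exists_pow hLp ⟨l, hlL⟩
    have hm' : l ^ 2 ^ m = 1 := by
      have := congrArg Subtype.val hm
      simpa using this
    have h3 : l = 1 := by
      have hdvd : orderOf l ∣ Nat.gcd p (2 ^ m) :=
        Nat.dvd_gcd (orderOf_dvd_of_pow_eq_one h2) (orderOf_dvd_of_pow_eq_one hm')
      have hcop : Nat.gcd p (2 ^ m) = 1 := by
        apply Nat.Coprime.pow_right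
        exact (Nat.coprime_primes hp Nat.prime_two).2 hp2
      rw [hcop, Nat.dvd_one, orderOf_eq_one_iff] at hdvd
      exact hdvd
    have h4 : α * q * α⁻¹ = q * l := by rw [hl]; group
    rw [h3, mul_one] at h4
    have := mul_inv_eq_iff_eq_mul.1 h4
    exact this.symm
  have hαinQ := hC hαQ
  obtain ⟨m, hm⟩ := IsPGroup.exists_pow hQ ⟨α, hαinQ⟩
  have hm' : α ^ 2 ^ m = 1 := by
    have := congrArg Subtype.val hm
    simpa using this
  have h5 : p ∣ 2 ^ m := by
    rw [← hα]
    exact orderOf_dvd_of_pow_eq_one hm'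
  exact hp2 ((Nat.prime_dvd_prime_iff_eq hp Nat.prime_two).1 (hp.dvd_of_dvd_pow h5))

end Pool.Agent.Work.MP_cd0fff_al
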