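import Pool.Agent.Work.MP_cd0fff_al.Step5

/-!
Relations satisfied by an element `x` outside all members of `MM`.
-/

universe u

namespace Pool.Agent.Work.MP_cd0fff_al

open Subgroup Module

variable {G : Type u} [Group G]

theorem eq_one_of_odd {g : G} {n : ℕ} (hg : g ^ 2 ^ n = 1) {j : ℤ} (hj : Odd j)
    (h : g ^ j = 1) : g = 1 := by
  have h1 : (orderOf g : ℤ) ∣ j := orderOf_dvd_iff_zpow_eq_one.2 h
  have h2 : (orderOf g : ℤ) ∣ 2 ^ n := by exact_mod_cast orderOf_dvd_of_pow_eq_one hg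
  have h3 : IsCoprime (2 ^ n : ℤ) j := by
    apply IsCoprime.pow_left
    obtain ⟨m, rfl⟩ := hj
    exact ⟨-m, 1, by ring⟩
  have h4 := h3.isUnit_of_dvd' h2 h1
  rw [Int.isUnit_iff] at h4
  have h5 : orderOf g = 1 := by omega
  exact orderOf_eq_one_iff.1 h5

theorem two_elt [Finite G] {S : Sylow 2 G} {g : G} (hg : g ∈ (S : Subgroup G)) :
    ∃ n : ℕ, g ^ 2 ^ n = 1 := by
  obtain ⟨n, hn⟩ := (isPGroup_iff_pow_pow_eq_one.1 S.isPGroup') (⟨g, hg⟩ : (S : Subgroup G))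
  refine ⟨n, ?_⟩
  have := congrArg Subtype.val hn
  simpa using this

theorem rel_aux {x b : G} {j : ℤ} (h1 : x * b * x⁻¹ = (x * x) ^ j * b) :
    (x * x) * b * (x * x)⁻¹ = (x * x) ^ (2 * j) * b := by
  have c : Commute x ((x * x) ^ j) := ((Commute.refl x).mul_right (Commute.refl x)).zpow_right j
  have e1 : x * x * b * (x * x)⁻¹ = x * (x * b * x⁻¹) * x⁻¹ := by group
  rw [e1, h1]
  have e2 : x * ((x * x) ^ j * b) * x⁻¹ = (x * x) ^ j * (x * b * x⁻¹) := by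
    rw [← mul_assoc, c.eq]
    simp only [mul_assoc]
  rw [e2, h1, two_mul, zpow_add, mul_assoc]

theorem rel_aux2 {a b : G} {j : ℤ} (h : a * b * a⁻¹ = a ^ (2 * j) * b) :
    b * a * b⁻¹ = a ^ (1 - 2 * j) := by
  have h1 : b * a⁻¹ = a⁻¹ * (a * b * a⁻¹) := by group
  rw [h, ← mul_assoc, ← zpow_neg_one, ← zpow_add, zpow_neg_one] at h1
  have h2 : b * a⁻¹ * b⁻¹ = a ^ (-1 + 2 * j) := by
    rw [h1]; group
  have h3 : b * a * b⁻¹ = (b * a⁻¹ * b⁻¹)⁻¹ := by group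
  rw [h3, h2, ← zpow_neg]
  congr 1
  ring

theorem rel_main {x y : G} {j j' : ℤ} (hj : Odd j)
    (h1 : x * (y * y) * x⁻¹ = (x * x) ^ j * (y * y))
    (h2 : y * (x * x) * y⁻¹ = (y * y) ^ j' * (x * x))
    {n : ℕ} (hn : (x * x) ^ 2 ^ n = 1) :
    (x * x) ^ 4 = 1 ∧ (y * y) ^ (2 * j') = (x * x) ^ (- (2 * j)) ∧
      (x * x) * (y * y) * (x * x)⁻¹ = (x * x) ^ (2 * j) * (y * y) := by
  have h3 := rel_aux h1
  have h4 := rel_aux h2
  set a := x * x with ha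
  set b := y * y with hb
  have h5 := rel_aux2 h3
  rw [h5] at h4
  have h6 : b ^ (2 * j') = a ^ (-(2 * j)) := by
    have : b ^ (2 * j') = (b ^ (2 * j') * a) * a⁻¹ := by group
    rw [this, ← h4, ← zpow_neg_one a, ← zpow_add]
    congr 1
    ring
  refine ⟨?_, h6, h3⟩
  have h7 : b * a ^ (-(2 * j)) * b⁻¹ = a ^ (-(2 * j)) := by
    rw [← h6]; group
  rw [← _root_.conj_zpow, h5, ← zpow_mul] at h7
  have h8 : a ^ (4 * (j * j)) = 1 := by
    have : a ^ (4 * (j * j)) = a ^ ((1 - 2 * j) * -(2 * j)) * (a ^ (-(2 * j)))⁻¹ := by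
      rw [← zpow_neg, ← zpow_add]
      congr 1
      ring
    rw [this, h7, mul_inv_cancel]
  rw [zpow_mul] at h8
  have h9 : (a ^ (4 : ℤ)) ^ 2 ^ n = 1 := by
    rw [← zpow_natCast, ← zpow_mul, mul_comm, zpow_mul, zpow_natCast, hn, one_zpow]
  have h10 := eq_one_of_odd h9 (hj.mul hj) h8
  exact_mod_cast h10

theorem zpow_two_odd {a : G} (h4 : a ^ 4 = 1) {j : ℤ} (hj : Odd j) : a ^ (2 * j) = a * a := by
  obtain ⟨m, rfl⟩ := hj
  have : a ^ (2 * (2 * m + 1)) = (a ^ 4) ^ m * (a * a) := by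
    rw [← zpow_natCast, ← zpow_mul, ← pow_two, ← zpow_natCast, ← zpow_add]
    congr 1
    push_cast
    ring
  rw [this, h4, one_zpow, one_mul]

theorem zpow_odd {a : G} (h4 : a ^ 4 = 1) {j : ℤ} (hj : Odd j) : a ^ j = a ∨ a ^ j = a⁻¹ := by
  obtain ⟨m, rfl⟩ := hj
  rcases Int.even_or_odd' m with ⟨r, rfl | rfl⟩
  · left
    have : a ^ (2 * (2 * r) + 1) = (a ^ 4) ^ r * a := by
      rw [← zpow_natCast, ← zpow_mul, ← zpow_add_one]
      congr 1
      push_cast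
      ring
    rw [this, h4, one_zpow, one_mul]
  · right
    have : a ^ (2 * (2 * r + 1) + 1) = (a ^ 4) ^ (r + 1) * a⁻¹ := by
      rw [← zpow_natCast, ← zpow_mul, ← zpow_sub_one]
      congr 1
      push_cast
      ring
    rw [this, h4, one_zpow, one_mul]

/-- the basic relations -/
theorem Outside.core [Finite G] (hO : PropertyO G) {S : Sylow 2 G} {x : G}
    (hx : Outside (S : Subgroup G) x) {E : Subgroup G} (hE : MM (S : Subgroup G) E) :
    Nat.card E ≤ 8 * Nat.card (Ph E) ∧ (x * x) ^ 4 = 1 ∧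
    (∀ s ∈ (S : Subgroup G), s * (x * x) * s⁻¹ = x * x ∨ s * (x * x) * s⁻¹ = (x * x)⁻¹) ∧
    ∃ b ∈ E, b * b = (x * x) * (x * x) ∧
      (x * x) * b * (x * x)⁻¹ = (x * x) * (x * x) * b ∧
      (x * b * x⁻¹ = (x * x) * b ∨ x * b * x⁻¹ = (x * x)⁻¹ * b) ∧
      (∀ e ∈ E, e * b * e⁻¹ = b ∨ e * b * e⁻¹ = b⁻¹) ∧ ∃ k, k * (x * x) * k⁻¹ = b := by
  obtain ⟨hcard, k, hk, j, j', hj, hj', h1, h2⟩ := hx.data hO hE
  have hyy : (k * x * k⁻¹) * (k * x * k⁻¹) = k * (x * x) * k⁻¹ := by group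
  rw [← hyy] at h1 h2
  obtain ⟨n, hn⟩ := two_elt (hE.1.le (hE.1.sq_mem hx.1))
  have hn' : ((k * x * k⁻¹) * (k * x * k⁻¹)) ^ 2 ^ n = 1 := by
    rw [hyy, conj_pow, hn]; group
  obtain ⟨h4, h5, h6⟩ := rel_main hj h1 h2 hn
  obtain ⟨h4', -, -⟩ := rel_main hj' h2 h1 hn'
  rw [zpow_neg, zpow_two_odd h4 hj, zpow_two_odd h4' hj'] at h5
  rw [zpow_two_odd h4 hj] at h6
  have hinv : ((x * x) * (x * x))⁻¹ = (x * x) * (x * x) := by
    rw [inv_eq_iff_mul_eq_one, ← h4]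
    generalize x * x = a
    simp only [pow_succ, pow_zero, one_mul, mul_assoc]
  rw [hinv] at h5
  have hS : ∀ s ∈ (S : Subgroup G), s * (x * x) * s⁻¹ = x * x ∨ s * (x * x) * s⁻¹ = (x * x)⁻¹ := by
    intro s hs
    obtain ⟨i, hi⟩ := hx.conj_zpow hs
    have e1 : s * (x * x) * s⁻¹ = (x * x) ^ i := by
      have : s * (x * x) * s⁻¹ = (s * x * s⁻¹) * (s * x * s⁻¹) := by group
      rw [this, hi, ← pow_two x, ← zpow_natCast x 2, ← zpow_mul, ← zpow_add]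
      congr 1
      push_cast
      ring
    rw [e1]
    rcases Int.even_or_odd' i with ⟨m, hm | hm⟩
    · -- impossible
      exfalso
      have e2 : s * ((x * x) * (x * x)) * s⁻¹ = 1 := by
        have : s * ((x * x) * (x * x)) * s⁻¹ = (s * (x * x) * s⁻¹) * (s * (x * x) * s⁻¹) := by
          group
        rw [this, e1, hm, ← zpow_add]
        have : (x * x) ^ (2 * m + 2 * m) = ((x * x) ^ 4) ^ m := by
          rw [← zpow_natCast (x * x) 4, ← zpow_mul]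
          congr 1
          push_cast
          ring
        rw [this, h4, one_zpow]
      have e3 : (x * x) * (x * x) = 1 := by
        have : (x * x) * (x * x) = s⁻¹ * (s * ((x * x) * (x * x)) * s⁻¹) * s := by group
        rw [this, e2]; group
      have e4 : (x * x) ^ i = 1 := by
        rw [hm, zpow_mul, zpow_ofNat, pow_two, e3, one_zpow]
      have e5 : x * x = 1 := by
        have : x * x = s⁻¹ * (s * (x * x) * s⁻¹) * s := by group
        rw [this, e1, e4]; group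
      exact hx.sq_not_mem hO hE (by rw [e5]; exact (Ph E).one_mem)
    · exact zpow_odd h4 ⟨m, hm⟩
  refine ⟨hcard, h4, hS, (k * x * k⁻¹) * (k * x * k⁻¹), ?_, h5, h6, ?_, ?_, k, hyy.symm⟩
  · rw [hyy]
    exact norm_conj hk (hE.1.sq_mem hx.1)
  · rcases zpow_odd h4 hj with h | h
    · left; rw [h1, h]
    · right; rw [h1, h]
  · intro e he
    have e1 : e * (k * (x * x) * k⁻¹) * e⁻¹ =
      k * ((k⁻¹ * e * k) * (x * x) * (k⁻¹ * e * k)⁻¹) * k⁻¹ := by group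
    rw [hyy, e1]
    rcases hS _ (hE.1.le (norm_conj' hk he)) with h | h
    · left; rw [h]
    · right; rw [h]; group

/-- a second member of `MM` -/
theorem exists_other [Finite G] (hO : PropertyO G) {S : Sylow 2 G} {E : Subgroup G}
    (hE : MM (S : Subgroup G) E) : ∃ M, MM (S : Subgroup G) M ∧ ∃ e ∈ E, e ∉ M := by
  have hl : ind E (S : Subgroup G) ∈ Hm (S : Subgroup G) :=
    ⟨fun x hx => ind_zero hE.1.le hx, hE.1.addOn_ind⟩
  have hMM : MM (S : Subgroup G) (kr (S : Subgroup G) (ind E S) hl.2) := by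
    have : kr (S : Subgroup G) (ind E S) hl.2 = E := hE.1.kr_ind
    rw [this]; exact hE
  obtain ⟨m, hm⟩ := exists_IM hO hl hMM
  obtain ⟨e, he, h1, h2⟩ := exists_01 hm.1 hm.2.2.1.1 hm.2.2.2.1 hm.2.2.2.2
  refine ⟨_, hm.symm.MM, e, (ind_eq_zero he).1 h1, ?_⟩
  intro h3
  rw [mem_kr, h2] at h3
  exact one_ne_zero h3.2

theorem comm_mem_Ph {E : Subgroup G} {u v : G} (hu : u ∈ E) (hv : v ∈ E) :
    u * v * u⁻¹ * v⁻¹ ∈ Ph E := by
  refine ⟨E.mul_mem (E.mul_mem (E.mul_mem hu hv) (E.inv_mem hu)) (E.inv_mem hv), fun φ h => ?_⟩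
  rw [h _ (E.mul_mem (E.mul_mem hu hv) (E.inv_mem hu)) _ (E.inv_mem hv), h.conj hu hv, h.inv hv,
    zdbl]

theorem Ph_le_of [Finite G] {E K : Subgroup G} (hK : K ≤ E)
    (hEK : E ≤ normalizer (K : Set G)) (hsq : ∀ e ∈ E, e * e ∈ K) : Ph E ≤ K := by
  obtain ⟨V, _, _, _, q, hq, _⟩ := exists_quo hK hEK hsq
  intro e he
  rw [← hq.ker e he.1]
  apply sep
  intro ψ
  exact he.2 _ (hq.comp ψ)

end Pool.Agent.Work.MP_cd0fff_al
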