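import Pool.Agent.Work.MP_cd0fff_al.Rank4

/-!
Rank three: descent arguments.
-/

universe u

namespace Pool.Agent.Work.MP_cd0fff_al

open Subgroup Module

variable {G : Type u} [Group G]

/-- the descent principle -/
theorem descent {ι : Type*} [Finite ι] [Nonempty ι] (Z : ι → G → Prop)
    (hne : ∀ i, ∃ z, Z i z)
    (h : ∀ i, ∃ j, ∀ z, Z j z → ∃ z', Z i z' ∧ orderOf z' < orderOf z) : False := by
  classical
  choose p hp using h
  have hne' : ∀ i, ∃ n, ∃ z, Z i z ∧ orderOf z = n := fun i => by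
    obtain ⟨z, hz⟩ := hne i
    exact ⟨_, z, hz, rfl⟩
  set f : ι → ℕ := fun i => Nat.find (hne' i) with hf
  have key : ∀ i, f i < f (p i) := by
    intro i
    obtain ⟨z, hz, hzn⟩ := Nat.find_spec (hne' (p i))
    obtain ⟨z', hz', hlt⟩ := hp i z hz
    have h1 : f i ≤ orderOf z' := Nat.find_min' (hne' i) ⟨z', hz', rfl⟩
    have h2 : orderOf z = f (p i) := hzn
    omega
  obtain ⟨i, hi⟩ := Finite.exists_max f
  have := key i
  have := hi (p i)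
  omega

theorem orderOf_sq_lt' [Finite G] {t : G} (ht : t ≠ 1) {P : Subgroup G} (hP : IsPGroup 2 P) (htP : t ∈ P) :
    orderOf (t * t) < orderOf t := by
  obtain ⟨n, hn⟩ := (isPGroup_iff_pow_pow_eq_one.1 hP) ⟨t, htP⟩
  have hn' : t ^ 2 ^ n = 1 := by
    have := congrArg Subtype.val hn
    simpa using this
  have h1 : orderOf t ∣ 2 ^ n := orderOf_dvd_of_pow_eq_one hn'
  obtain ⟨k, hk, hk2⟩ := (Nat.dvd_prime_pow Nat.prime_two).1 h1
  have hk0 : k ≠ 0 := by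
    rintro rfl
    rw [pow_zero, orderOf_eq_one_iff] at hk2
    exact ht hk2
  rw [← pow_two, orderOf_pow, hk2]
  obtain ⟨j, rfl⟩ := Nat.exists_eq_succ_of_ne_zero hk0
  have : Nat.gcd (2 ^ (j + 1)) 2 = 2 := by
    rw [pow_succ]
    exact Nat.gcd_eq_right (dvd_mul_left 2 _)
  rw [Nat.succ_eq_add_one, this, pow_succ, Nat.mul_div_cancel _ (by norm_num)]
  have : 0 < 2 ^ j := by positivity
  omega

theorem orderOf_conj (k z : G) : orderOf (k * z * k⁻¹) = orderOf z := by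
  have := MulEquiv.orderOf_eq (MulAut.conj k) z
  simpa using this

/-- If `dim Hm S = 3` and `An S l` is spanned by `m` modulo `l`, then `An S l = {0, m}`. -/
theorem an_eq_of_le [Finite G] (hO : PropertyO G) {S : Sylow 2 G} {l m : G → ZMod 2}
    (h : IM (S : Subgroup G) l m) (hd : finrank (ZMod 2) (Hm (S : Subgroup G)) = 3)
    (hA : An (S : Subgroup G) l ≤ quad l m ∨
      finrank (ZMod 2) (Hm (kr (S : Subgroup G) l h.1.2)) = 3) :
    ∀ p ∈ An (S : Subgroup G) l, p = 0 ∨ p = m := by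
  have h1 : finrank (ZMod 2) (Hm (kr (S : Subgroup G) l h.1.2)) ≤ 3 := by
    rcases hA with hA | hA
    · exact an_u1 hO h hA
    · exact hA.le
  have h2 := dimf h.1 h.2.1
  intro p hp
  by_contra hcon
  push Not at hcon
  have h3 := two_le_finrank h.2.2.1 hp h.2.2.2.1 hcon.1 hcon.2
  omega

/-- the rotation statement in terms of `An` -/
theorem an_rot [Finite G] (hO : PropertyO G) {S : Sylow 2 G} {l m : G → ZMod 2}
    (h : IM (S : Subgroup G) l m) (hA : An (S : Subgroup G) l ≤ quad l m)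
    {x₀ : G} (hx₀ : x₀ ∈ (S : Subgroup G)) (hx₁ : l x₀ = 1)
    {e₀ : G} (he₀ : e₀ ∈ kr (S : Subgroup G) l h.1.2) (he₁ : m e₀ = 1) :
    ∃ z, Out (S : Subgroup G) (kr (S : Subgroup G) l h.1.2) z ∧
      ∀ g ∈ kr (S : Subgroup G) l h.1.2, (∀ φ, AddOn (kr (S : Subgroup G) l h.1.2) φ →
        φ g = φ (x₀ * e₀ * x₀⁻¹ * e₀⁻¹)) → m (z * g * z⁻¹) = 1 := by
  obtain ⟨hl, hl0, ⟨hm, g, hg⟩, hm0, hml⟩ := h
  exact (u1_main hO hl.2 hx₀ hx₁ hg (hspan_of hl hA) he₀ he₁).2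

/-- 3a: no self-links in rank three -/
theorem no_self3 [Finite G] (hO : PropertyO G) {S : Sylow 2 G} {l m : G → ZMod 2}
    (h : IM (S : Subgroup G) l m) (hd : finrank (ZMod 2) (Hm (S : Subgroup G)) = 3) :
    l ∉ An (S : Subgroup G) l := by
  intro hll
  obtain ⟨x₁, hx₁, hlx₁⟩ := exists_one h.1 h.2.1
  refine descent (ι := Unit) (fun _ x => x ∈ (S : Subgroup G) ∧ l x = 1)
    (fun _ => ⟨x₁, hx₁, hlx₁⟩) (fun _ => ⟨(), ?_⟩)
  rintro x ⟨hx, hlx⟩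
  -- the partner `p` with `p x = 1`
  have hp : ∃ p ∈ An (S : Subgroup G) l, p ≠ 0 ∧ p ≠ l ∧ p x = 1 := by
    rcases zmod2_cases (m x) with hmx | hmx
    · refine ⟨m + l, (An (S : Subgroup G) l).add_mem h.2.2.1 hll, ?_, ?_, ?_⟩
      · intro h0; exact h.2.2.2.2 (c2_of h0)
      · intro h0; apply h.2.2.2.1
        have : m = (m + l) + l := by (apply c2_of; (try abel_nf); (try simp (disch := norm_num) only [smeven, add_zero, zero_add]))
        rw [this, h0, dbl]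
      · rw [Pi.add_apply, hmx, hlx]; decide
    · exact ⟨m, h.2.2.1, h.2.2.2.1, h.2.2.2.2, hmx⟩
  obtain ⟨p, hpA, hp0, hpl, hpx⟩ := hp
  have hIM : IM (S : Subgroup G) p l :=
    ⟨hpA.1, hp0, An_symm h.1 hpA, h.2.1, hpl.symm⟩
  have hAn := an_eq_of_le hO hIM hd (an_case_i hO hIM hll)
  have hAq : An (S : Subgroup G) p ≤ quad p l := by
    intro q hq
    rcases hAn q hq with rfl | rfl
    · exact zero_mem_quad _ _
    · exact right_mem_quad _ _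
  obtain ⟨e₀, he₀, hpe, hle⟩ := exists_01 hpA.1 h.1 h.2.1 hpl.symm
  obtain ⟨z, hz, hrot⟩ := an_rot hO hIM hAq hx hpx (e₀ := e₀) ⟨he₀, hpe⟩ hle
  have hH : Half (kr (S : Subgroup G) p hpA.1.2) S := half_kr hx hpx
  have hxx : x * x ∈ kr (S : Subgroup G) p hpA.1.2 := hH.sq_mem hx
  have hcomm : x * e₀ * x⁻¹ * e₀⁻¹ ∈ kr (S : Subgroup G) p hpA.1.2 :=
    (kr _ _ _).mul_mem (hH.conj_mem hx ⟨he₀, hpe⟩) ((kr _ _ _).inv_mem ⟨he₀, hpe⟩)
  have h1 := hrot (x * x) hxx (by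
    apply agree hpA.1.2 hx hpx hxx hcomm
    · intro ρ hρ
      rw [hρ.sq hx, hρ _ (S.mul_mem (S.mul_mem hx he₀) (S.inv_mem hx)) _ (S.inv_mem he₀),
        hρ.conj hx he₀, hρ.inv he₀, zdbl]
    · intro m' h' hm' hk'
      refine ⟨h', hk', ?_⟩
      rw [hk'.sq hx, hk'.comm hpA.1.2 hm' hx he₀, hpx, hpe]
      have hmem : cut (S : Subgroup G) m' ∈ An (S : Subgroup G) p :=
        ⟨hm'.cut, h', hk'.congr (fun _ _ => rfl) (fun x hx => (cut_mem hx).symm)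
          (fun _ _ => rfl)⟩
      rcases hAn _ hmem with h0 | h0
      · rw [← cut_mem (f := m') hx, ← cut_mem (f := m') he₀, h0]
        simp
      · rw [← cut_mem (f := m') hx, ← cut_mem (f := m') he₀, h0, hlx, hle]
        simp)
  refine ⟨z * (x * x) * z⁻¹, ⟨?_, h1⟩, ?_⟩
  · exact kr_le (norm_conj (hz.mem_normalizer hH) hxx)
  · rw [orderOf_conj]
    refine orderOf_sq_lt' ?_ S.isPGroup' hx
    rintro rfl
    rw [h.1.2.one] at hlx
    exact zero_ne_one hlx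

/-- transport of elements of `Ph S` into `ker l` -/
theorem arrow0 [Finite G] (hO : PropertyO G) {S : Sylow 2 G} {l m n h₁ h₂ : G → ZMod 2}
    (hl : AddOn (S : Subgroup G) l) {x₀ : G} (hx₀ : x₀ ∈ (S : Subgroup G)) (hx₁ : l x₀ = 1)
    (hk₁ : Lk (S : Subgroup G) l m h₁) (hk₂ : Lk (S : Subgroup G) l n h₂)
    (hU : ∀ ρ, AddOn (S : Subgroup G) ρ → ∀ x ∈ (S : Subgroup G), l x = 0 → m x = 0 → n x = 0 →
      ρ x = 0)
    (hA : ∀ p h, AddOn (S : Subgroup G) p → Lk (S : Subgroup G) l p h →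
      (∀ x ∈ (S : Subgroup G), p x = 0) ∨ (∀ x ∈ (S : Subgroup G), p x = m x) ∨
      (∀ x ∈ (S : Subgroup G), p x = n x) ∨ (∀ x ∈ (S : Subgroup G), p x = m x + n x))
    {y₀ : G} (hy₀ : y₀ ∈ kr (S : Subgroup G) l hl) :
    ∃ a b : ZMod 2, ∀ z ∈ Ph (S : Subgroup G), h₁ z = a → h₂ z = b →
      ∃ k ∈ normalizer (kr (S : Subgroup G) l hl : Set G),
        z ∈ kr (S : Subgroup G) l hl ∧
        ∀ φ, AddOn (kr (S : Subgroup G) l hl) φ → φ (k * z * k⁻¹) = φ y₀ := by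
  obtain ⟨k, hk, hkf⟩ := conj_fix hO hl hx₀ hx₁ hy₀
  set E := kr (S : Subgroup G) l hl with hE
  set z₀ := k * y₀ * k⁻¹ with hz₀
  have hz₀E : z₀ ∈ E := norm_conj hk hy₀
  refine ⟨h₁ z₀, h₂ z₀, ?_⟩
  intro z hz hz1 hz2
  have hzE : z ∈ E := ⟨hz.1, hz.2 l hl⟩
  have key : ∀ φ, AddOn E φ → φ z = φ z₀ := by
    apply agree hl hx₀ hx₁ hzE hz₀E
    · intro ρ hρ
      rw [hz.2 ρ hρ, hU ρ hρ z₀ hz₀E.1 hz₀E.2 (hkf m h₁ hk₁) (hkf n h₂ hk₂)]
    · intro p h' hp hk'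
      have hS := kr_le hzE
      have hS' := kr_le hz₀E
      rcases hA p h' hp hk' with h | h | h | h
      · refine ⟨0, ?_, rfl⟩
        intro x _ y hy
        rw [h y hy]; simp
      · exact ⟨h₁, hk₁.congr (fun _ _ => rfl) (fun x hx => (h x hx).symm) (fun _ _ => rfl), hz1⟩
      · exact ⟨h₂, hk₂.congr (fun _ _ => rfl) (fun x hx => (h x hx).symm) (fun _ _ => rfl), hz2⟩
      · refine ⟨h₁ + h₂, (hk₁.add_right hk₂).congr (fun _ _ => rfl)
          (fun x hx => (h x hx).symm) (fun _ _ => rfl), ?_⟩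
        rw [Pi.add_apply, Pi.add_apply, hz1, hz2]
  refine ⟨k⁻¹, inv_mem hk, hzE, ?_⟩
  intro φ hφ
  have h1 := key _ (hφ.comp_conj (inv_mem hk))
  rw [h1]
  congr 1
  rw [hz₀]; group

/-- transport of elements of `Ph S` out of `ker l`, through `ker m` -/
theorem arrow1 [Finite G] (hO : PropertyO G) {S : Sylow 2 G} {l m n h₁ h₂ : G → ZMod 2}
    (hl : AddOn (S : Subgroup G) l) (hm : AddOn (S : Subgroup G) m)
    (hk₁ : Lk (S : Subgroup G) l m h₁) (hk₂ : Lk (S : Subgroup G) l n h₂)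
    (hU : ∀ ρ, AddOn (S : Subgroup G) ρ → ∀ x ∈ (S : Subgroup G), l x = 0 → m x = 0 → n x = 0 →
      ρ x = 0)
    (hA : ∀ p h, AddOn (S : Subgroup G) p → Lk (S : Subgroup G) l p h →
      (∀ x ∈ (S : Subgroup G), p x = 0) ∨ (∀ x ∈ (S : Subgroup G), p x = m x) ∨
      (∀ x ∈ (S : Subgroup G), p x = n x) ∨ (∀ x ∈ (S : Subgroup G), p x = m x + n x))
    (hA' : ∀ p h, AddOn (S : Subgroup G) p → Lk (S : Subgroup G) m p h →
      (∀ x ∈ (S : Subgroup G), p x = 0) ∨ (∀ x ∈ (S : Subgroup G), p x = l x))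
    {y₁ : G} (hy₁ : y₁ ∈ (S : Subgroup G)) (hmy₁ : m y₁ = 1)
    {x₀ : G} (hx₀ : x₀ ∈ (S : Subgroup G)) (hlx₀ : l x₀ = 1) (hmx₀ : m x₀ = 0) :
    ∃ a b : ZMod 2, ∀ z ∈ Ph (S : Subgroup G), h₁ z = a → h₂ z = b →
      ∃ k : G, k * z * k⁻¹ ∈ (S : Subgroup G) ∧
        ∀ ρ, AddOn (S : Subgroup G) ρ → ρ (k * z * k⁻¹) = ρ x₀ := by
  set M := kr (S : Subgroup G) m hm with hM
  set E := kr (S : Subgroup G) l hl with hE
  have hx₀M : x₀ ∈ M := ⟨hx₀, hmx₀⟩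
  obtain ⟨k, hk, hkf⟩ := conj_fix hO hm hy₁ hmy₁ hx₀M
  set y₀ := k * x₀ * k⁻¹ with hy₀
  have hy₀M : y₀ ∈ M := norm_conj hk hx₀M
  have hly₀ : l y₀ = 0 := hkf l _ (hk₁.symm hl hm)
  have hy₀E : y₀ ∈ E := ⟨hy₀M.1, hly₀⟩
  obtain ⟨a, b, hab⟩ := arrow0 hO hl hx₀ hlx₀ hk₁ hk₂ hU hA hy₀E
  refine ⟨a, b, ?_⟩
  intro z hz hz1 hz2
  obtain ⟨k', hk', hzE, hzφ⟩ := hab z hz hz1 hz2
  set y := k' * z * k'⁻¹ with hy
  have hyE : y ∈ E := norm_conj hk' hzE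
  have hyM : y ∈ M := ⟨hyE.1, by rw [hzφ m (hm.mono kr_le), hy₀M.2]⟩
  have key : ∀ φ, AddOn M φ → φ y = φ y₀ := by
    apply agree hm hy₁ hmy₁ hyM hy₀M
    · intro ρ hρ
      exact hzφ ρ (hρ.mono kr_le)
    · intro p h' hp hk''
      rcases hA' p h' hp hk'' with h | h
      · refine ⟨0, ?_, rfl⟩
        intro x _ w hw
        rw [h w hw]; simp
      · refine ⟨fun x => h₁ x + l x * m x, (hk₁.symm hl hm).congr (fun _ _ => rfl)
          (fun x hx => (h x hx).symm) (fun _ _ => rfl), ?_⟩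
        simp only
        rw [hzφ h₁ (hk₁.addOn E kr_le (fun e he => he.2)), hyM.2, hy₀M.2]
        ring
  refine ⟨k⁻¹ * k', ?_, ?_⟩
  · have e1 : k⁻¹ * k' * z * (k⁻¹ * k')⁻¹ = k⁻¹ * y * k := by rw [hy]; group
    rw [e1]
    exact (norm_conj' hk hyM).1
  · intro ρ hρ
    have h1 := key _ ((hρ.mono (kr_le (h := hm))).comp_conj (inv_mem hk))
    have e1 : k⁻¹ * k' * z * (k⁻¹ * k')⁻¹ = k⁻¹ * y * k⁻¹⁻¹ := by rw [hy]; group
    rw [e1, h1]
    congr 1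
    rw [hy₀]; group

end Pool.Agent.Work.MP_cd0fff_al
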