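import Pool.Agent.Work.MP_cd0fff_al.Iso
import Pool.Agent.Work.MP_cd0fff_al.Rank3

/-!
Finite `2`-groups all of whose subgroups are normal.
-/

set_option linter.unusedSimpArgs false
set_option linter.unusedSectionVars false

universe u

namespace Pool.Agent.Work.MP_cd0fff_al

open Subgroup Module

variable {G : Type u} [Group G]

theorem ded_conj {S : Subgroup G} (hD : IsDedekindSubgroup S) {s g : G} (hs : s ∈ S)
    (hg : g ∈ S) : ∃ i : ℤ, g * s * g⁻¹ = s ^ i := by
  have h1 := norm_conj (hD (zpowers s) (by rw [zpowers_le]; exact hs) hg) (mem_zpowers s)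
  obtain ⟨i, hi⟩ := mem_zpowers_iff.1 h1
  exact ⟨i, hi.symm⟩

theorem ded_aux {x y : G} {i : ℤ} (h : x * y * x⁻¹ = y ^ i) (h2 : x * (y * y) = (y * y) * x)
    (hne : x * y ≠ y * x) : x * y * x⁻¹ * y⁻¹ ∈ zpowers y ∧ x * y * x⁻¹ * y⁻¹ ≠ 1 ∧
      (x * y * x⁻¹ * y⁻¹) * (x * y * x⁻¹ * y⁻¹) = 1 ∧ y * y ≠ 1 := by
  have ht1 : x * y * x⁻¹ * y⁻¹ ≠ 1 := by
    intro h1
    apply hne
    calc x * y = (x * y * x⁻¹ * y⁻¹) * y * x := by group
      _ = y * x := by rw [h1, one_mul]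
  have ht : x * y * x⁻¹ * y⁻¹ = y ^ (i - 1) := by rw [h, zpow_sub_one]
  have htt : (x * y * x⁻¹ * y⁻¹) * (x * y * x⁻¹ * y⁻¹) = 1 := by
    have h3 : y ^ i * y ^ i = y * y := by
      rw [← h]
      calc x * y * x⁻¹ * (x * y * x⁻¹) = (x * (y * y)) * x⁻¹ := by group
        _ = y * y := by rw [h2]; group
    rw [ht, ← zpow_add]
    have : y ^ (i - 1 + (i - 1)) = (y ^ i * y ^ i) * (y * y)⁻¹ := by group
    rw [this, h3, mul_inv_cancel]
  refine ⟨by rw [ht]; exact zpow_mem (mem_zpowers y) _, ht1, htt, ?_⟩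
  intro hyy
  rw [ht] at ht1
  rcases zpow_invol hyy (i - 1) with h4 | h4
  · exact ht1 h4
  · have h5 : x * y * x⁻¹ = 1 := by
      rw [h]
      have : y ^ i = y ^ (i - 1) * y := by rw [zpow_sub_one]; group
      rw [this, h4, hyy]
    have h6 : y = 1 := by
      calc y = x⁻¹ * (x * y * x⁻¹) * x := by group
        _ = 1 := by rw [h5]; group
    apply hne
    rw [h6]; group

theorem invol_unique {y t : G} {n : ℕ} (hy : orderOf y = 2 ^ (n + 1)) (ht : t ∈ zpowers y)
    (htt : t * t = 1) (ht1 : t ≠ 1) : t = y ^ 2 ^ n := by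
  obtain ⟨k, rfl⟩ := mem_zpowers_iff.1 ht
  have h1 : y ^ (2 * k) = 1 := by
    rw [two_mul, zpow_add]; exact htt
  have h2 : ((2 ^ (n + 1) : ℕ) : ℤ) ∣ 2 * k := by
    rw [← hy]; exact orderOf_dvd_iff_zpow_eq_one.2 h1
  have h3 : (2 ^ n : ℤ) ∣ k := by
    rw [pow_succ'] at h2
    push_cast at h2
    exact Int.dvd_of_mul_dvd_mul_left (by norm_num) h2
  obtain ⟨k', rfl⟩ := h3
  have h4 : y ^ ((2 ^ n : ℤ) * k') = (y ^ 2 ^ n) ^ k' := by
    rw [zpow_mul]
    congr 1
    have : (2 ^ n : ℤ) = ((2 ^ n : ℕ) : ℤ) := by push_cast; rfl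
    rw [this, zpow_natCast]
  have h5 : y ^ 2 ^ n * y ^ 2 ^ n = 1 := by
    rw [← pow_add, ← two_mul, ← pow_succ', ← hy, pow_orderOf_eq_one]
  rcases zpow_invol h5 k' with h6 | h6
  · rw [h4, h6] at ht1
    exact absurd rfl ht1
  · rw [h4, h6]

/-- A nonabelian `2`-group with all subgroups normal contains a quaternion group. -/
theorem exists_Q [Finite G] {S : Subgroup G} (hD : IsDedekindSubgroup S) (hS : IsPGroup 2 S)
    (hne : ∃ x ∈ S, ∃ y ∈ S, x * y ≠ y * x) :
    ∃ x ∈ S, ∃ y ∈ S, ∃ t, x * x = t ∧ y * y = t ∧ t * t = 1 ∧ t ≠ 1 ∧ x * y = t * (y * x) := by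
  classical
  have hord : ∀ g ∈ S, ∃ k, orderOf g = 2 ^ k := by
    intro g hg
    obtain ⟨k, hk⟩ := (IsPGroup.iff_orderOf.1 hS) ⟨g, hg⟩
    exact ⟨k, by rw [← hk, Subgroup.orderOf_mk]⟩
  obtain ⟨x₀, hx₀, y₀, hy₀, hxy₀⟩ := hne
  obtain ⟨y, ⟨hyS, hyn⟩, hymin⟩ := Set.exists_min_image {y | y ∈ S ∧ ∃ x ∈ S, x * y ≠ y * x}
    orderOf (Set.toFinite _) ⟨y₀, hy₀, x₀, hx₀, hxy₀⟩
  obtain ⟨x₁, hx₁, hxy₁⟩ := hyn
  obtain ⟨x, ⟨hxS, hxn⟩, hxmin⟩ := Set.exists_min_image {x | x ∈ S ∧ x * y ≠ y * x}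
    orderOf (Set.toFinite _) ⟨x₁, hx₁, hxy₁⟩
  have hy1 : y ≠ 1 := by rintro rfl; exact hxn (by group)
  have hx1 : x ≠ 1 := by rintro rfl; exact hxn (by group)
  obtain ⟨n', hn'⟩ := hord y hyS
  obtain ⟨m', hm'⟩ := hord x hxS
  have hlt : ∀ g ∈ S, g ≠ 1 → orderOf (g * g) < orderOf g := by
    intro g hg hg1
    obtain ⟨k, hk⟩ := hord g hg
    have hk0 : k ≠ 0 := by
      rintro rfl
      rw [pow_zero, orderOf_eq_one_iff] at hk
      exact hg1 hk
    have h2 : orderOf (g * g) = orderOf g / Nat.gcd (orderOf g) 2 := by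
      rw [← pow_two, orderOf_pow]
    have h3 : Nat.gcd (orderOf g) 2 = 2 := by
      apply Nat.gcd_eq_right
      rw [hk]
      exact dvd_pow_self 2 hk0
    rw [h2, h3]
    exact Nat.div_lt_self (orderOf_pos g) (by norm_num)
  -- squares commute
  have hyy : ∀ s ∈ S, s * (y * y) = (y * y) * s := by
    intro s hs
    by_contra hcon
    have := hymin (y * y) ⟨mul_mem hyS hyS, s, hs, hcon⟩
    exact absurd (hlt y hyS hy1) (not_lt.2 this)
  have hxx : x * x * y = y * (x * x) := by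
    by_contra hcon
    have := hxmin (x * x) ⟨mul_mem hxS hxS, hcon⟩
    exact absurd (hlt x hxS hx1) (not_lt.2 this)
  obtain ⟨i, hi⟩ := ded_conj hD hyS hxS
  obtain ⟨j, hj⟩ := ded_conj hD hxS hyS
  obtain ⟨ty, t1, tt, yy1⟩ := ded_aux hi (hyy x hxS) hxn
  obtain ⟨tx, -, -, xx1⟩ := ded_aux hj hxx.symm (fun h => hxn h.symm)
  set t := x * y * x⁻¹ * y⁻¹ with ht
  have htinv : t⁻¹ = t := by rw [inv_eq_iff_mul_eq_one]; exact tt
  have htx : t ∈ zpowers x := by
    have e : y * x * y⁻¹ * x⁻¹ = t := by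
      rw [← htinv, ht]; group
    rw [← e]; exact tx
  have hxy : x * y = t * (y * x) := by rw [ht]; group
  -- the orders
  have hn0 : n' ≠ 0 := by
    rintro rfl
    rw [pow_zero, orderOf_eq_one_iff] at hn'
    exact hy1 hn'
  have hm0 : m' ≠ 0 := by
    rintro rfl
    rw [pow_zero, orderOf_eq_one_iff] at hm'
    exact hx1 hm'
  obtain ⟨n, rfl⟩ := Nat.exists_eq_succ_of_ne_zero hn0
  obtain ⟨m, rfl⟩ := Nat.exists_eq_succ_of_ne_zero hm0
  have hty := invol_unique hn' ty tt t1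
  have htx' := invol_unique hm' htx tt t1
  have hle : n ≤ m := by
    have h1 := hymin x ⟨hxS, y, hyS, fun h => hxn h.symm⟩
    rw [hn', hm'] at h1
    have := (Nat.pow_le_pow_iff_right (by norm_num : 1 < 2)).1 h1
    omega
  have hn1 : n ≠ 0 := by
    rintro rfl
    apply yy1
    have h2 : orderOf y = 2 := by rw [hn']; rfl
    rw [← pow_two, ← h2, pow_orderOf_eq_one]
  -- a smaller element
  have hsmall : ∀ w ∈ S, w ^ 2 ^ n = 1 → x * w = w * x := by
    intro w hw hwn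
    by_contra hcon
    have h1 := hymin w ⟨hw, x, hxS, hcon⟩
    have h2 := Nat.le_of_dvd (by positivity) (orderOf_dvd_of_pow_eq_one hwn)
    rw [hn'] at h1
    have h3 := (Nat.pow_le_pow_iff_right (by norm_num : 1 < 2)).1 (h1.trans h2)
    omega
  have htcx : Commute t x := by
    obtain ⟨k, hk⟩ := mem_zpowers_iff.1 htx
    rw [← hk]
    exact (Commute.refl x).zpow_left k
  have htcy : Commute t y := by
    obtain ⟨k, hk⟩ := mem_zpowers_iff.1 ty
    rw [← hk]
    exact (Commute.refl y).zpow_left k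
  rcases Nat.lt_or_ge n m with hnm | hnm
  · exfalso
    obtain ⟨d, hd⟩ := Nat.exists_eq_add_of_lt hnm
    set x' := x ^ 2 ^ (d + 1) with hx'
    have hc1 : Commute x' y := by
      have : x' = (x * x) ^ 2 ^ d := by rw [hx', pow_succ', pow_mul, pow_two]
      rw [this]
      exact (show Commute (x * x) y from hxx).pow_left _
    have hc2 : Commute x x' := (Commute.refl x).pow_right _
    have h1 : (x' * y) ^ 2 ^ n = 1 := by
      rw [hc1.mul_pow, ← hty, hx', ← pow_mul, ← pow_add,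
        show d + 1 + n = m by omega, ← htx', tt]
    have h2 := hsmall (x' * y) (mul_mem (pow_mem hxS _) hyS) h1
    apply hxn
    have h3 : x' * (x * y) = x' * (y * x) := by
      rw [← mul_assoc, ← hc2.eq, mul_assoc, h2, mul_assoc]
    exact mul_left_cancel h3
  · have hmn : m = n := by omega
    subst hmn
    by_cases hm1 : m = 1
    · subst hm1
      rw [pow_one, pow_two] at htx' hty
      exact ⟨x, hxS, y, hyS, t, htx'.symm, hty.symm, tt, t1, hxy⟩
    · exfalso
      obtain ⟨d, rfl⟩ : ∃ d, m = d + 2 := ⟨m - 2, by omega⟩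
      have hsq : (x * y) * (x * y) = t * ((x * x) * (y * y)) := by
        have hyx : y * x = t * (x * y) := by rw [hxy, ← mul_assoc, tt, one_mul]
        calc (x * y) * (x * y) = x * (y * x) * y := by group
          _ = (x * t) * x * (y * y) := by rw [hyx]; group
          _ = t * ((x * x) * (y * y)) := by rw [← htcx.eq]; group
      have hc : Commute (x * x) (y * y) := by
        have h1 : Commute (x * x) y := hxx
        exact h1.mul_right h1
      have hct : Commute t ((x * x) * (y * y)) :=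
        (htcx.mul_right htcx).mul_right (htcy.mul_right htcy)
      have h1 : (x * y) ^ 2 ^ (d + 2) = 1 := by
        have e : (x * y) ^ 2 ^ (d + 2) = ((x * y) * (x * y)) ^ 2 ^ (d + 1) := by
          rw [← pow_two, ← pow_mul, ← pow_succ']
        rw [e, hsq, hct.mul_pow, hc.mul_pow, ← pow_two x, ← pow_two y, ← pow_mul, ← pow_mul,
          ← pow_succ', ← htx', ← hty, tt, mul_one, pow_succ', pow_mul, pow_two, tt, one_pow]
      have h2 := hsmall (x * y) (mul_mem hxS hyS) h1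
      apply hxn
      have h3 : x * (x * y) = x * (y * x) := by rw [h2, mul_assoc]
      exact mul_left_cancel h3

end Pool.Agent.Work.MP_cd0fff_al
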