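import Pool.Agent.Work.MP_cd0fff_al.Links

/-!
The spaces `Hm E`, `An S l` and the dimension formula.
-/

universe u

namespace Pool.Agent.Work.MP_cd0fff_al

open Subgroup Module

variable {G : Type u} [Group G]

/-- additive functions on `E`, extended by zero -/
def Hm (E : Subgroup G) : Submodule (ZMod 2) (G → ZMod 2) where
  carrier := {φ | (∀ x, x ∉ E → φ x = 0) ∧ AddOn E φ}
  zero_mem' := ⟨fun _ _ => rfl, AddOn.zero E⟩
  add_mem' := by
    rintro a b ⟨ha, ha'⟩ ⟨hb, hb'⟩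
    exact ⟨fun x hx => by rw [Pi.add_apply, ha x hx, hb x hx, add_zero], ha'.add hb'⟩
  smul_mem' := by
    rintro c a ⟨ha, ha'⟩
    rcases zmod2_cases c with rfl | rfl
    · rw [zero_smul]
      exact ⟨fun _ _ => rfl, AddOn.zero E⟩
    · rw [one_smul]
      exact ⟨ha, ha'⟩

theorem mem_Hm {E : Subgroup G} {φ : G → ZMod 2} :
    φ ∈ Hm E ↔ (∀ x, x ∉ E → φ x = 0) ∧ AddOn E φ := Iff.rfl

theorem Hm_addOn {E : Subgroup G} {φ : G → ZMod 2} (h : φ ∈ Hm E) : AddOn E φ := h.2

open Classical in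
/-- restriction to `E`, extended by zero -/
noncomputable def cut (E : Subgroup G) : (G → ZMod 2) →ₗ[ZMod 2] (G → ZMod 2) where
  toFun f := fun x => if x ∈ E then f x else 0
  map_add' f g := by
    ext x
    by_cases h : x ∈ E <;> simp [h]
  map_smul' c f := by
    ext x
    by_cases h : x ∈ E <;> simp [h]

theorem cut_mem {E : Subgroup G} {f : G → ZMod 2} {x : G} (hx : x ∈ E) : cut E f x = f x := by
  simp [cut, hx]

theorem cut_not_mem {E : Subgroup G} {f : G → ZMod 2} {x : G} (hx : x ∉ E) : cut E f x = 0 := by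
  simp [cut, hx]

theorem AddOn.cut {E : Subgroup G} {f : G → ZMod 2} (h : AddOn E f) :
    MP_cd0fff_al.cut E f ∈ Hm E := by
  refine ⟨fun x hx => cut_not_mem hx, ?_⟩
  intro x hx y hy
  rw [cut_mem hx, cut_mem hy, cut_mem (E.mul_mem hx hy), h x hx y hy]

theorem Hm_ext {E : Subgroup G} {f g : G → ZMod 2} (hf : f ∈ Hm E) (hg : g ∈ Hm E)
    (h : ∀ x ∈ E, f x = g x) : f = g := by
  ext x
  by_cases hx : x ∈ E
  · exact h x hx
  · rw [hf.1 x hx, hg.1 x hx]

theorem Lk.congr {S : Subgroup G} {l m h l' m' h' : G → ZMod 2} (hk : Lk S l m h)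
    (h1 : ∀ x ∈ S, l x = l' x) (h2 : ∀ x ∈ S, m x = m' x) (h3 : ∀ x ∈ S, h x = h' x) :
    Lk S l' m' h' := by
  intro x hx y hy
  rw [← h1 x hx, ← h2 y hy, ← h3 x hx, ← h3 y hy, ← h3 _ (S.mul_mem hx hy)]
  exact hk x hx y hy

/-- the functions linked to `l` -/
def An (S : Subgroup G) (l : G → ZMod 2) : Submodule (ZMod 2) (G → ZMod 2) where
  carrier := {m | m ∈ Hm S ∧ ∃ h, Lk S l m h}
  zero_mem' := ⟨(Hm S).zero_mem, 0, by intro x _ y _; simp⟩
  add_mem' := by
    rintro a b ⟨ha, h, hk⟩ ⟨hb, h', hk'⟩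
    exact ⟨(Hm S).add_mem ha hb, _, hk.add_right hk'⟩
  smul_mem' := by
    rintro c a ⟨ha, h, hk⟩
    rcases zmod2_cases c with rfl | rfl
    · rw [zero_smul]
      exact ⟨(Hm S).zero_mem, 0, by intro x _ y _; simp⟩
    · rw [one_smul]
      exact ⟨ha, h, hk⟩

theorem mem_An {S : Subgroup G} {l m : G → ZMod 2} :
    m ∈ An S l ↔ m ∈ Hm S ∧ ∃ h, Lk S l m h := Iff.rfl

theorem An_le {S : Subgroup G} {l : G → ZMod 2} : An S l ≤ Hm S := fun _ h => h.1

theorem An_symm {S : Subgroup G} {l m : G → ZMod 2} (hl : l ∈ Hm S) (h : m ∈ An S l) :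
    l ∈ An S m := by
  obtain ⟨hm, h, hk⟩ := h
  exact ⟨hl, _, hk.symm hl.2 hm.2⟩

theorem An_add {S : Subgroup G} {l l' m : G → ZMod 2} (h : m ∈ An S l) (h' : m ∈ An S l') :
    m ∈ An S (l + l') := by
  obtain ⟨hm, h, hk⟩ := h
  obtain ⟨_, h', hk'⟩ := h'
  exact ⟨hm, _, hk.add_left hk'⟩

/-- pairs `(m, h)` with `h` a link of `l` and `m` -/
def LkSp (S : Subgroup G) (l : G → ZMod 2) :
    Submodule (ZMod 2) ((G → ZMod 2) × (G → ZMod 2)) where
  carrier := {p | p.1 ∈ Hm S ∧ (∀ x, x ∉ S → p.2 x = 0) ∧ Lk S l p.1 p.2}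
  zero_mem' := ⟨(Hm S).zero_mem, fun _ _ => rfl, by intro x _ y _; simp⟩
  add_mem' := by
    rintro a b ⟨ha, ha2, hk⟩ ⟨hb, hb2, hk'⟩
    refine ⟨(Hm S).add_mem ha hb, fun x hx => ?_, hk.add_right hk'⟩
    rw [Prod.snd_add, Pi.add_apply, ha2 x hx, hb2 x hx, add_zero]
  smul_mem' := by
    rintro c a ⟨ha, ha2, hk⟩
    rcases zmod2_cases c with rfl | rfl
    · rw [zero_smul]
      exact ⟨(Hm S).zero_mem, fun _ _ => rfl, by intro x _ y _; simp⟩
    · rw [one_smul]
      exact ⟨ha, ha2, hk⟩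

theorem finrank_LkSp₁ [Finite G] (S : Subgroup G) (l : G → ZMod 2) :
    finrank (ZMod 2) (LkSp S l) = finrank (ZMod 2) (An S l) + finrank (ZMod 2) (Hm S) := by
  classical
  set f₁ : LkSp S l →ₗ[ZMod 2] (G → ZMod 2) :=
    (LinearMap.fst (ZMod 2) (G → ZMod 2) (G → ZMod 2)).comp (LkSp S l).subtype with hf₁
  have hr : LinearMap.range f₁ = An S l := by
    ext m
    constructor
    · rintro ⟨⟨⟨m', h⟩, hm, h1, hk⟩, rfl⟩
      exact ⟨hm, h, hk⟩
    · rintro ⟨hm, h, hk⟩
      refine ⟨⟨⟨m, cut S h⟩, hm, fun x hx => cut_not_mem hx, ?_⟩, rfl⟩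
      exact hk.congr (fun _ _ => rfl) (fun _ _ => rfl) (fun x hx => (cut_mem hx).symm)
  set g₁ : Hm S →ₗ[ZMod 2] LkSp S l :=
    { toFun := fun h => ⟨(0, h.1), (Hm S).zero_mem, h.2.1, (lk_zero_iff).2 h.2.2⟩
      map_add' := fun a b => by ext <;> simp
      map_smul' := fun c a => by ext <;> simp } with hg₁
  have hker : LinearMap.ker f₁ = LinearMap.range g₁ := by
    ext p
    constructor
    · intro hp
      obtain ⟨⟨m, h⟩, hm, h1, hk⟩ := p
      have hm0 : m = 0 := hp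
      subst hm0
      exact ⟨⟨h, h1, (lk_zero_iff).1 hk⟩, rfl⟩
    · rintro ⟨h, rfl⟩
      rfl
  have hinj : Function.Injective g₁ := by
    intro a b hab
    have := congrArg (fun p => (p : LkSp S l).1.2) hab
    exact Subtype.ext this
  have h1 := LinearMap.finrank_range_add_finrank_ker f₁
  rw [hr, hker, LinearMap.finrank_range_of_inj hinj] at h1
  exact h1.symm

theorem finrank_LkSp₂ [Finite G] {S : Subgroup G} {l : G → ZMod 2} (hl : l ∈ Hm S)
    {x₀ : G} (hx₀ : x₀ ∈ S) (hx₁ : l x₀ = 1) :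
    finrank (ZMod 2) (LkSp S l) = finrank (ZMod 2) (Hm (kr S l hl.2)) + 1 := by
  classical
  set E := kr S l hl.2 with hE
  have hH : Half E S := half_kr hx₀ hx₁
  set f₂ : LkSp S l →ₗ[ZMod 2] (G → ZMod 2) :=
    (cut E).comp ((LinearMap.snd (ZMod 2) (G → ZMod 2) (G → ZMod 2)).comp (LkSp S l).subtype)
    with hf₂
  have hr : LinearMap.range f₂ = Hm E := by
    ext φ
    constructor
    · rintro ⟨⟨⟨m, h⟩, hm, h1, hk⟩, rfl⟩
      exact (hk.addOn E kr_le (fun e he => he.2)).cut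
    · intro hφ
      obtain ⟨m, h, hm, hk, hext⟩ := exists_ext hl.2 hx₀ hx₁ hφ.2
      refine ⟨⟨⟨cut S m, cut S h⟩, hm.cut, fun x hx => cut_not_mem hx, ?_⟩, ?_⟩
      · exact hk.congr (fun _ _ => rfl) (fun x hx => (cut_mem hx).symm)
          (fun x hx => (cut_mem hx).symm)
      · refine Hm_ext (E := E) ?_ hφ ?_
        · change cut E (cut S h) ∈ Hm E
          exact (AddOn.cut (by
            intro x hx y hy
            rw [cut_mem (kr_le hx), cut_mem (kr_le hy), cut_mem (kr_le (E.mul_mem hx hy)),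
              hext _ hx, hext _ hy, hext _ (E.mul_mem hx hy), hφ.2 x hx y hy]))
        · intro x hx
          change cut E (cut S h) x = φ x
          rw [cut_mem hx, cut_mem (kr_le hx), hext x hx]
  set v : LkSp S l := ⟨(0, l), (Hm S).zero_mem, hl.1, (lk_zero_iff).2 hl.2⟩ with hv
  have hker : LinearMap.ker f₂ = Submodule.span (ZMod 2) {v} := by
    ext p
    rw [Submodule.mem_span_singleton]
    constructor
    · intro hp
      obtain ⟨⟨m, h⟩, hm, h1, hk⟩ := p
      replace hm : m ∈ Hm S := hm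
      replace h1 : ∀ x, x ∉ S → h x = 0 := h1
      replace hk : Lk S l m h := hk
      have hp' : ∀ e ∈ E, h e = 0 := by
        intro e he
        have : cut E h = 0 := hp
        have h2 := congrFun this e
        rwa [cut_mem he] at h2
      have hm' : ∀ e ∈ E, m e = 0 := by
        intro e he
        have h2 := hk.conj hl.2 hx₀ (kr_le he)
        simp only [hx₁, he.2, hp' e he, hp' _ (hH.conj_mem hx₀ he)] at h2
        have aux : ∀ a b : ZMod 2, 0 = 0 + 1 * a + 0 * b → a = 0 := by decide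
        exact aux _ _ h2
      have hmx : m x₀ = 0 := by
        have h2 := hk.sq hx₀
        simp only [hx₁, one_mul] at h2
        rw [← h2, hp' _ (hH.sq_mem hx₀)]
      have hm0 : m = 0 := by
        ext y
        by_cases hy : y ∈ S
        · rcases hH.cover hx₀ ((not_mem_kr hx₀).2 hx₁) hy with h | ⟨e, he, rfl⟩
          · exact hm' y h
          · rw [hm.2 x₀ hx₀ e (kr_le he), hmx, hm' e he]; rfl
        · exact hm.1 y hy
      subst hm0
      have hadd : AddOn S h := (lk_zero_iff).1 hk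
      refine ⟨h x₀, ?_⟩
      ext y
      · simp [hv]
      · change (h x₀ • (l : G → ZMod 2)) y = h y
        by_cases hy : y ∈ S
        · rcases hH.cover hx₀ ((not_mem_kr hx₀).2 hx₁) hy with h' | ⟨e, he, rfl⟩
          · rw [Pi.smul_apply, h'.2, hp' y h', smul_zero]
          · rw [Pi.smul_apply, hadd x₀ hx₀ e (kr_le he), hl.2 x₀ hx₀ e (kr_le he), hx₁, he.2,
              hp' e he]
            simp
        · have h1y : h y = 0 := h1 y hy
          rw [Pi.smul_apply, hl.1 y hy, h1y, smul_zero]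
    · rintro ⟨c, rfl⟩
      rw [LinearMap.mem_ker, map_smul]
      have : f₂ v = 0 := by
        change cut E l = 0
        ext y
        by_cases hy : y ∈ E
        · rw [cut_mem hy, hy.2]; rfl
        · rw [cut_not_mem hy]; rfl
      rw [this, smul_zero]
  have h1 := LinearMap.finrank_range_add_finrank_ker f₂
  have hv0 : v ≠ 0 := by
    intro h
    have h2 := congrArg (fun p => (p : LkSp S l).1.2 x₀) h
    change l x₀ = 0 at h2
    rw [hx₁] at h2
    exact one_ne_zero h2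
  rw [hr, hker, finrank_span_singleton hv0] at h1
  exact h1.symm

theorem dim_formula [Finite G] {S : Subgroup G} {l : G → ZMod 2} (hl : l ∈ Hm S)
    {x₀ : G} (hx₀ : x₀ ∈ S) (hx₁ : l x₀ = 1) :
    finrank (ZMod 2) (Hm (kr S l hl.2)) + 1 =
      finrank (ZMod 2) (An S l) + finrank (ZMod 2) (Hm S) := by
  rw [← finrank_LkSp₁, finrank_LkSp₂ hl hx₀ hx₁]

theorem finrank_quo [Finite G] {E : Subgroup G} {V : Type u} [AddCommGroup V]
    [Module (ZMod 2) V] [Finite V] {q : G → V} (hq : Quo E (Ph E) q) :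
    finrank (ZMod 2) V = finrank (ZMod 2) (Hm E) := by
  classical
  rw [← Subspace.dual_finrank_eq]
  set g : Module.Dual (ZMod 2) V →ₗ[ZMod 2] (G → ZMod 2) :=
    (cut E).comp ({ toFun := fun ψ x => ψ (q x), map_add' := fun _ _ => rfl,
                    map_smul' := fun _ _ => rfl } :
      Module.Dual (ZMod 2) V →ₗ[ZMod 2] (G → ZMod 2)) with hg
  have hgE : ∀ ψ, ∀ x ∈ E, g ψ x = ψ (q x) := fun ψ x hx => cut_mem hx
  have hinj : Function.Injective g := by
    rw [injective_iff_map_eq_zero]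
    intro ψ hψ
    ext v
    obtain ⟨a, ha, rfl⟩ := hq.surj v
    rw [← hgE ψ a ha, hψ]
    rfl
  have hr : LinearMap.range g = Hm E := by
    ext φ
    constructor
    · rintro ⟨ψ, rfl⟩
      exact (hq.comp ψ).cut
    · intro hφ
      obtain ⟨ψ, hψ⟩ := hq.lift φ hφ.2 (fun x _ hx => hx.2 φ hφ.2)
      refine ⟨ψ, Hm_ext (E := E) (hq.comp ψ).cut hφ ?_⟩
      intro x hx
      rw [hgE ψ x hx, hψ x hx]
  rw [← LinearMap.finrank_range_of_inj hinj, hr]

theorem card_quo [Finite G] {E : Subgroup G} {V : Type u} [AddCommGroup V]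
    [Module (ZMod 2) V] [Finite V] {q : G → V} (hq : Quo E (Ph E) q) :
    Nat.card V = 2 ^ finrank (ZMod 2) (Hm E) := by
  rw [← finrank_quo hq, Module.natCard_eq_pow_finrank (K := ZMod 2)]
  simp

end Pool.Agent.Work.MP_cd0fff_al
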