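import Pool.Agent.Work.MP_cd0fff_al.Top2

/-!
The classification in terms of the Sylow `2`-subgroup and the subgroups of index two.
-/

set_option linter.unusedSimpArgs false
set_option linter.unusedSectionVars false

universe u v

namespace Pool.Agent.Work.MP_cd0fff_al

open Subgroup Module

theorem of_no_index_two {G : Type u} [Group G] [Finite G] {S : Sylow 2 G} {x a b z : G}
    (F : Frame (S : Subgroup G) x a b 1 z) (h : ¬ ∃ H : Subgroup G, H.index = 2) :
    Fus a b z ∧ Fus a (x * b) z :=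
  ⟨F.fus_of_no_index_two h, F.symm.fus_of_no_index_two h⟩

theorem of_D {G : Type u} [Group G] [Finite G] {S : Sylow 2 G} (e : S ≃* DihedralGroup 4)
    (h : ¬ ∃ H : Subgroup G, H.index = 2) : ∃ x a b z, Frame (S : Subgroup G) x a b 1 z ∧
      Fus a b z ∧ Fus a (x * b) z := by
  obtain ⟨f, hf, F⟩ := Frame.of_equiv e Frame.dihedral
  rw [map_one] at F
  exact ⟨_, _, _, _, F, of_no_index_two F h⟩

theorem of_Q {G : Type u} [Group G] [Finite G] {S : Sylow 2 G} (e : S ≃* QuaternionGroup 4)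
    (h : ¬ ∃ H : Subgroup G, H.index = 2) : ∃ x a b z, Frame (S : Subgroup G) x a b 1 z ∧
      Fus a b z ∧ Fus a (x * b) z := by
  obtain ⟨f, hf, F⟩ := Frame.of_equiv e Frame.quaternion
  rw [map_one] at F
  exact ⟨_, _, _, _, F, of_no_index_two F h⟩

theorem card_C2 : Nat.card (Multiplicative (ZMod 2)) = 2 := by
  rw [Nat.card_eq_fintype_card]
  rfl

theorem classification {G : Type u} [Group G] [Finite G] (S : Sylow 2 G) :
    PropertyO G ↔
      IsDedekindSubgroup (S : Subgroup G) ∨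
      ((Nonempty (S ≃* DihedralGroup 4) ∨ Nonempty (S ≃* QuaternionGroup 4)) ∧
        ¬ ∃ H : Subgroup G, H.index = 2) ∨
      (Nonempty (S ≃* DihedralGroup 4 × Multiplicative (ZMod 2)) ∧
        ∃ H : Subgroup G, H.index = 2 ∧ (¬ ∃ L : Subgroup H, L.index = 2) ∧
          ∀ T : Sylow 2 H, Nonempty (T ≃* DihedralGroup 4)) ∨
      (Nonempty (S ≃* QuaternionGroup 4 × Multiplicative (ZMod 2)) ∧
        ∃ H : Subgroup G, H.index = 2 ∧ (¬ ∃ L : Subgroup H, L.index = 2) ∧
          ∀ T : Sylow 2 H, Nonempty (T ≃* QuaternionGroup 4)) := by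
  constructor
  · intro hO
    rcases (propertyO_iff_frame S).1 hO with h | ⟨x, a, b, c, z, F, hf₁, hf₂⟩
    · exact Or.inl h
    · right
      obtain ⟨hD, hQ⟩ := F.exists_hom
      by_cases hc : c = 1
      · left
        subst hc
        refine ⟨?_, F.no_index_two hf₁ hf₂⟩
        by_cases hz : z = 1
        · left
          obtain ⟨f, hf, hr⟩ := hD hz
          exact nonempty_equiv f hf (hr.trans F.D_eq)
        · right
          obtain ⟨f, hf, hr⟩ := hQ hz
          exact nonempty_equiv f hf (hr.trans F.D_eq)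
      · right
        obtain ⟨H, hH, hcH⟩ := F.exists_index_two hf₁ hf₂ hc
        obtain ⟨h1, h2⟩ := F.index_two_props hf₁ hf₂ hc hH hcH
        by_cases hz : z = 1
        · left
          obtain ⟨f, hf, hr⟩ := hD hz
          refine ⟨F.exists_prod hc f hf hr, H, hH, h1, fun T => ?_⟩
          obtain ⟨e₁⟩ := h2 T
          obtain ⟨e₂⟩ := nonempty_equiv f hf hr
          exact ⟨e₁.trans e₂⟩
        · right
          obtain ⟨f, hf, hr⟩ := hQ hz
          refine ⟨F.exists_prod hc f hf hr, H, hH, h1, fun T => ?_⟩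
          obtain ⟨e₁⟩ := h2 T
          obtain ⟨e₂⟩ := nonempty_equiv f hf hr
          exact ⟨e₁.trans e₂⟩
  · rintro (h | ⟨⟨⟨e⟩⟩ | ⟨⟨e⟩⟩, h⟩ | ⟨⟨e⟩, H, hH, hn, hT⟩ | ⟨⟨e⟩, H, hH, hn, hT⟩)
    · exact (propertyO_iff_frame S).2 (Or.inl h)
    · obtain ⟨x, a, b, z, F, h1, h2⟩ := of_D e h
      exact F.propertyO h1 h2
    · obtain ⟨x, a, b, z, F, h1, h2⟩ := of_Q e h
      exact F.propertyO h1 h2
    · have T : Sylow 2 H := default
      obtain ⟨e'⟩ := hT T
      obtain ⟨x, a, b, z, F, h1, h2⟩ := of_D e' hn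
      refine Frame.of_index_two e T F h1 h2 ?_
      rw [Nat.card_congr e.toEquiv, Nat.card_congr e'.toEquiv, Nat.card_prod, card_C2, mul_comm]
    · have T : Sylow 2 H := default
      obtain ⟨e'⟩ := hT T
      obtain ⟨x, a, b, z, F, h1, h2⟩ := of_Q e' hn
      refine Frame.of_index_two e T F h1 h2 ?_
      rw [Nat.card_congr e.toEquiv, Nat.card_congr e'.toEquiv, Nat.card_prod, card_C2, mul_comm]

end Pool.Agent.Work.MP_cd0fff_al
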