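import Pool.Agent.Work.MP_cd0fff_al.CaseB3

/-!
The structure of the Sylow `2`-subgroups in a group with property (O).
-/

set_option linter.unusedSimpArgs false
set_option linter.unusedSectionVars false

universe u

namespace Pool.Agent.Work.MP_cd0fff_al

open Subgroup Module

variable {G : Type u} [Group G]

/-- `S` is generated by `x`, `b`, `c` subject to the relations of `D₈ × C` or `Q₁₆ × C`, with
`C` of order at most two. -/
structure Frame (S : Subgroup G) (x a b c z : G) : Prop where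
  xS : x ∈ S
  bS : b ∈ S
  cS : c ∈ S
  xa : x * x = a
  aa : a * a = z
  zz : z * z = 1
  bb : b * b = z
  xb : x * b = a * (b * x)
  cc : c * c = 1
  cx : c * x = x * c
  cb : c * b = b * c
  a1 : a ≠ 1
  az : a ≠ z
  gen : ∀ s ∈ S, ∃ u p v w, (u = 1 ∨ u = z) ∧ (p = 1 ∨ p = a ∨ p = b ∨ p = a * b) ∧
    (v = 1 ∨ v = c) ∧ (w = 1 ∨ w = x) ∧ s = u * (p * (v * w))
  hc : c = 1 ∨ (c ≠ 1 ∧ c ≠ z ∧ c ≠ a ∧ c ≠ z * a)

/-- `a` is conjugate to `b` or to `z * b` -/
def Fus (a b z : G) : Prop := ∃ k, k * a * k⁻¹ = b ∨ k * a * k⁻¹ = z * b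

namespace AD

variable {S E : Subgroup G} {x a b : G}

theorem aE (D : AD S E x a b) : a ∈ E := by rw [← D.xa]; exact D.mm.1.sq_mem D.out.1

theorem other [Finite G] (hO : PropertyO G) {S : Sylow 2 G} (D : AD (S : Subgroup G) E x a b) :
    ∃ M b', AD (S : Subgroup G) M x a b' ∧
      ∃ c, c ∈ E ∧ x * c = c * x ∧ b' = x * (b * c) := by
  obtain ⟨M, hM, e₀, he₀, he₀M⟩ := exists_other hO D.mm
  obtain ⟨b', DM⟩ := exists_AD hO D.out hM (by rw [D.xa]; exact D.aa)
  rw [D.xa] at DM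
  have hbS := D.mm.1.le D.bE
  have hab := D.aS b hbS
  have hbe : ∀ e ∈ E, x * e = a * (e * x) → x * (b * e) = (b * e) * x := by
    intro e he h
    calc x * (b * e) = (x * b) * e := by group
      _ = a * (b * (x * e)) := by rw [D.xb]; group
      _ = a * (b * a) * e * x := by rw [h]; group
      _ = (a * a) * (b * e) * x := by rw [hab]; group
      _ = (b * e) * x := by rw [D.aa, one_mul]
  have hbM : b ∉ M := by
    intro hbM
    apply he₀M
    rcases D.cen e₀ he₀ with h | h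
    · exact D.cR e₀ he₀ h M hM
    · have h1 := D.cR (b * e₀) (mul_mem D.bE he₀) (hbe e₀ he₀ h) M hM
      exact (M.mul_mem_cancel_left hbM).1 h1
  have hb'E : b' ∉ E := by
    intro hb'E
    have hx := DM.xb
    have h0 : ¬ x * b' = b' * x := by
      intro h
      rw [h] at hx
      have : a = 1 := by
        have h' : a * (b' * x) = 1 * (b' * x) := by rw [one_mul]; exact hx.symm
        exact mul_right_cancel h'
      exact D.a1 this
    have h1 := (D.cen b' hb'E).resolve_left h0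
    have h2 := D.cR (b * b') (mul_mem D.bE hb'E) (hbe b' hb'E h1) M hM
    exact hbM ((M.mul_mem_cancel_right DM.bE).1 h2)
  have hb'S := DM.mm.1.le DM.bE
  obtain ⟨e, he, hb'⟩ := (D.mm.1.cover D.out.1 (D.out.2 E D.mm) hb'S).resolve_left hb'E
  have heM : e ∉ M := by
    intro heM
    apply D.out.2 M hM
    have h := DM.bE
    rw [hb'] at h
    exact (M.mul_mem_cancel_right heM).1 h
  have hx : ¬ x * e = e * x := fun h => heM (D.cR e he h M hM)
  have h1 := (D.cen e he).resolve_left hx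
  refine ⟨M, b', DM, b * e, mul_mem D.bE he, hbe e he h1, ?_⟩
  rw [hb', ← mul_assoc b b, D.bb, one_mul]

theorem halfC [Finite G] {S : Sylow 2 G} (D : AD (S : Subgroup G) E x a b) :
    Half (CE E x) E := by
  have hab := D.aS b (D.mm.1.le D.bE)
  refine half_of_mul CE_le D.bE ?_ ?_
  · intro h
    have h1 := h.2
    rw [D.xb] at h1
    have h' : a * (b * x) = 1 * (b * x) := by rw [one_mul]; exact h1.symm
    exact D.a1 (mul_right_cancel h')
  · intro e he hne
    refine ⟨mul_mem he D.bE, ?_⟩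
    have h1 : x * e = a * (e * x) := by
      rcases D.cen e he with h | h
      · exact absurd ⟨he, h.symm⟩ hne
      · exact h
    have hea := D.aS e (D.mm.1.le he)
    calc e * b * x = (a * a) * (e * b * x) := by rw [D.aa, one_mul]
      _ = a * (a * e) * (b * x) := by group
      _ = a * (e * a) * (b * x) := by rw [hea]
      _ = a * e * (a * (b * x)) := by group
      _ = a * e * (x * b) := by rw [D.xb]
      _ = x * (e * b) := by rw [← mul_assoc x, h1]; group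

/-- the elements of `E` -/
theorem genE [Finite G] {S : Sylow 2 G} (D : AD (S : Subgroup G) E x a b) :
    ∃ c ∈ E, x * c = c * x ∧ (c = 1 ∨ (c ≠ 1 ∧ c ≠ a)) ∧
      ∀ e ∈ E, ∃ p v, (p = 1 ∨ p = a ∨ p = b ∨ p = a * b) ∧ (v = 1 ∨ v = c) ∧ e = p * v := by
  have haE := D.aE
  have hax : a * x = x * a := by rw [← D.xa]; group
  have hcard : Nat.card (CE E x) ≤ 4 := by
    have h1 := D.halfC.card
    have h2 := D.card
    omega
  have hC : ∃ c ∈ E, x * c = c * x ∧ (c = 1 ∨ (c ≠ 1 ∧ c ≠ a)) ∧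
      ∀ e ∈ CE E x, e = 1 ∨ e = a ∨ e = c ∨ e = a * c := by
    by_cases h : ∃ c ∈ CE E x, c ≠ 1 ∧ c ≠ a
    · obtain ⟨c, hc, hc1, hca⟩ := h
      exact ⟨c, hc.1, hc.2.symm, Or.inr ⟨hc1, hca⟩, fun e he =>
        four_elements hcard ⟨haE, hax⟩ D.aa D.a1 hc hc1 hca he⟩
    · push Not at h
      refine ⟨1, E.one_mem, by group, Or.inl rfl, fun e he => ?_⟩
      by_cases he1 : e = 1
      · exact Or.inl he1
      · exact Or.inr (Or.inl (h e he he1))
  obtain ⟨c, hc, hxc, hc', hall⟩ := hC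
  refine ⟨c, hc, hxc, hc', ?_⟩
  have h1 : ∀ e ∈ CE E x, ∃ p v, (p = 1 ∨ p = a) ∧ (v = 1 ∨ v = c) ∧ e = p * v := by
    intro e he
    rcases hall e he with h | h | h | h
    · exact ⟨1, 1, Or.inl rfl, Or.inl rfl, by rw [h]; group⟩
    · exact ⟨a, 1, Or.inr rfl, Or.inl rfl, by rw [h]; group⟩
    · exact ⟨1, c, Or.inl rfl, Or.inr rfl, by rw [h]; group⟩
    · exact ⟨a, c, Or.inr rfl, Or.inr rfl, h⟩
  intro e he
  by_cases hex : e ∈ CE E x
  · obtain ⟨p, v, hp, hv, hev⟩ := h1 e hex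
    refine ⟨p, v, ?_, hv, hev⟩
    rcases hp with h | h
    · exact Or.inl h
    · exact Or.inr (Or.inl h)
  · have h2 : b * e ∈ CE E x := by
      have hbC : b ∉ CE E x := by
        intro h
        have h1 := h.2
        rw [D.xb] at h1
        have h' : a * (b * x) = 1 * (b * x) := by rw [one_mul]; exact h1.symm
        exact D.a1 (mul_right_cancel h')
      exact D.halfC.mul_mem D.bE he hbC hex
    obtain ⟨p, v, hp, hv, hev⟩ := h1 _ h2
    have he' : e = b * p * v := by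
      calc e = (b * b) * e := by rw [D.bb, one_mul]
        _ = b * (b * e) := by group
        _ = b * p * v := by rw [hev]; group
    refine ⟨b * p, v, ?_, hv, he'⟩
    rcases hp with h | h
    · right; right; left; rw [h, mul_one]
    · right; right; right; rw [h, D.aS b (D.mm.1.le D.bE)]

theorem frame [Finite G] (hO : PropertyO G) {S : Sylow 2 G} (D : AD (S : Subgroup G) E x a b) :
    ∃ x c, Frame (S : Subgroup G) x a b c 1 ∧ Fus a b 1 ∧ Fus a (x * b) 1 := by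
  obtain ⟨M, b', DM, c₁, hc₁, hxc₁, hb'⟩ := D.other hO
  obtain ⟨c, hc, hxc, hc', hgen⟩ := D.genE
  have hbc₁ := D.eb c₁ hc₁
  have hbc := D.eb c hc
  have hc₁c₁ := D.sq c₁ hc₁
  have hcc₁ : c * c₁ = c₁ * c := by
    have h1 := D.sq c hc
    have h2 := D.sq (c * c₁) (mul_mem hc hc₁)
    calc c * c₁ = c * (c * c₁ * (c * c₁)) * c₁ := by rw [h2, mul_one]
      _ = (c * c) * (c₁ * c) * (c₁ * c₁) := by group
      _ = c₁ * c := by rw [h1, hc₁c₁]; group
  have hac₁ := D.aS c₁ (D.mm.1.le hc₁)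
  have hxE := D.out.2 E D.mm
  have hXE : x * c₁ ∉ E := fun h => hxE ((E.mul_mem_cancel_right hc₁).1 h)
  have hXS : x * c₁ ∈ (S : Subgroup G) := mul_mem D.out.1 (D.mm.1.le hc₁)
  have hXb : (x * c₁) * b = b' := by
    rw [hb', mul_assoc, hbc₁]
  have hXX : (x * c₁) * (x * c₁) = a := by
    calc (x * c₁) * (x * c₁) = x * (c₁ * x) * c₁ := by group
      _ = (x * x) * (c₁ * c₁) := by rw [← hxc₁]; group
      _ = a := by rw [D.xa, hc₁c₁, mul_one]
  refine ⟨x * c₁, c, ⟨hXS, D.mm.1.le D.bE, D.mm.1.le hc, hXX, D.aa, one_mul 1, D.bb, ?_,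
    D.sq c hc, ?_, hbc, D.a1, D.a1, ?_, ?_⟩, ?_, ?_⟩
  · calc x * c₁ * b = x * (c₁ * b) := by group
      _ = (x * b) * c₁ := by rw [hbc₁]; group
      _ = a * (b * (x * c₁)) := by rw [D.xb]; group
  · calc c * (x * c₁) = (c * x) * c₁ := by group
      _ = x * (c * c₁) := by rw [← hxc]; group
      _ = x * c₁ * c := by rw [hcc₁]; group
  · intro s hs
    by_cases hsE : s ∈ E
    · obtain ⟨p, v, hp, hv, hpv⟩ := hgen s hsE
      exact ⟨1, p, v, 1, Or.inl rfl, hp, hv, Or.inl rfl, by rw [hpv]; group⟩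
    · have h1 : s * (x * c₁)⁻¹ ∈ E := by
        apply D.mm.1.mul_mem hs (inv_mem hXS) hsE
        intro h
        exact hXE (by simpa using E.inv_mem h)
      obtain ⟨p, v, hp, hv, hpv⟩ := hgen _ h1
      refine ⟨1, p, v, x * c₁, Or.inl rfl, hp, hv, Or.inr rfl, ?_⟩
      calc s = (s * (x * c₁)⁻¹) * (x * c₁) := by group
        _ = _ := by rw [hpv]; group
  · rcases hc' with h | ⟨h1, h2⟩
    · exact Or.inl h
    · exact Or.inr ⟨h1, h1, h2, by rw [one_mul]; exact h2⟩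
  · obtain ⟨k, hk⟩ := D.fus
    exact ⟨k, Or.inl hk⟩
  · obtain ⟨k, hk⟩ := DM.fus
    exact ⟨k, Or.inl (by rw [hk, hXb])⟩

end AD

namespace BD

variable {S E : Subgroup G} {x a z b : G}

/-- the elements of `E` -/
theorem genE [Finite G] (hO : PropertyO G) {S : Sylow 2 G}
    (D : BD (S : Subgroup G) E x a z b a) :
    ∃ c ∈ E, c * c = 1 ∧ x * c = c * x ∧ c * a = a * c ∧ c * b = b * c ∧
      (c = 1 ∨ (c ≠ 1 ∧ c ≠ z)) ∧
      ∀ e ∈ E, ∃ u p v, (u = 1 ∨ u = z) ∧ (p = 1 ∨ p = a ∨ p = b ∨ p = a * b) ∧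
        (v = 1 ∨ v = c) ∧ e = u * (p * v) := by
  have hC : ∃ c ∈ E, c * c = 1 ∧ x * c = c * x ∧ c * a = a * c ∧ c * b = b * c ∧
      (c = 1 ∨ (c ≠ 1 ∧ c ≠ z)) ∧
      ∀ e ∈ E, e * a = a * e → e * b = b * e → e = 1 ∨ e = z ∨ e = c ∨ e = z * c := by
    by_cases h : ∃ c ∈ E, c * a = a * c ∧ c * b = b * c ∧ c ≠ 1 ∧ c ≠ z
    · obtain ⟨c, hc, hca, hcb, hc1, hcz⟩ := h
      obtain ⟨h1, h2⟩ := D.final hO hc hca hcb
      exact ⟨c, hc, h1, h2, hca, hcb, Or.inr ⟨hc1, hcz⟩, fun e he hea heb =>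
        D.four hc hca hcb hc1 hcz he hea heb⟩
    · push Not at h
      refine ⟨1, E.one_mem, by group, by group, by group, by group, Or.inl rfl,
        fun e he hea heb => ?_⟩
      by_cases he1 : e = 1
      · exact Or.inl he1
      · exact Or.inr (Or.inl (h e he hea heb he1))
  obtain ⟨c, hc, hcc, hxc, hca, hcb, hc', hall⟩ := hC
  refine ⟨c, hc, hcc, hxc, hca, hcb, hc', ?_⟩
  intro e he
  obtain ⟨p, hp, h1, h2⟩ := D.decomp he
  have h3 := hall (p * e) (mul_mem (D.pE hp) he) h1 h2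
  have h4 : ∃ u v, (u = 1 ∨ u = z) ∧ (v = 1 ∨ v = c) ∧ p * e = u * v := by
    rcases h3 with h | h | h | h
    · exact ⟨1, 1, Or.inl rfl, Or.inl rfl, by rw [h]; group⟩
    · exact ⟨z, 1, Or.inr rfl, Or.inl rfl, by rw [h]; group⟩
    · exact ⟨1, c, Or.inl rfl, Or.inr rfl, by rw [h]; group⟩
    · exact ⟨z, c, Or.inr rfl, Or.inr rfl, h⟩
  obtain ⟨u, v, hu, hv, huv⟩ := h4
  have hpz := D.zS p (D.mm.1.le (D.pE hp))
  have hpu : p * u = u * p := by
    rcases hu with h | h <;> rw [h]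
    · group
    · exact hpz
  rcases D.pinv hp with hpi | hpi
  · refine ⟨u, p, v, hu, hp, hv, ?_⟩
    calc e = p⁻¹ * (p * e) := by group
      _ = (p * u) * v := by rw [huv, hpi]; group
      _ = u * (p * v) := by rw [hpu]; group
  · have h5 : e = (z * u) * (p * v) := by
      calc e = p⁻¹ * (p * e) := by group
        _ = z * (p * u) * v := by rw [huv, hpi]; group
        _ = (z * u) * (p * v) := by rw [hpu]; group
    refine ⟨z * u, p, v, ?_, hp, hv, h5⟩
    rcases hu with h | h <;> rw [h]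
    · right; group
    · left; exact D.zz

theorem frame [Finite G] (hO : PropertyO G) {S : Sylow 2 G}
    (D : BD (S : Subgroup G) E x a z b a) :
    ∃ x a c, Frame (S : Subgroup G) x a b c z ∧ Fus a b z ∧ Fus a (x * b) z := by
  obtain ⟨M, b', α', DM, hbM, p, c₁, hp, hc₁, hc₁a, hc₁b, hb'⟩ := D.other hO
  obtain ⟨c, hc, hcc, hxc, hca, hcb, hc', hgen⟩ := D.genE hO
  obtain ⟨hc₁c₁, hxc₁⟩ := D.final hO hc₁ hc₁a hc₁b
  have hcc₁ : c₁ * c = c * c₁ := D.comm_C hc hca hcb hc₁ hc₁a hc₁b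
  have hcz := D.zS c (D.mm.1.le hc)
  have hc₁z := D.zS c₁ (D.mm.1.le hc₁)
  have hcx : c * x = x * c := hxc.symm
  have hc₁x : c₁ * x = x * c₁ := hxc₁.symm
  have hxE := D.out.2 E D.mm
  -- the new `x`
  obtain ⟨r, hr, hX⟩ : ∃ r, (r = 1 ∨ r = a) ∧ b' * b⁻¹ = z * (r * (c₁ * x)) := by
    rcases hp with h | h
    · refine ⟨1, Or.inl rfl, ?_⟩
      rw [hb', h, D.binv]
      simp only [mul_assoc, D.zx, D.za, D.zb, hcz, asc D.zx, asc D.za, asc D.zb, asc hcz, D.zz,
          asc D.zz, one_mul, mul_one, D.aa, asc D.aa, D.bb, asc D.bb, D.ba, asc D.ba, D.ax,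
          asc D.ax, D.xb, asc D.xb, hc₁a, asc hc₁a, hc₁b, asc hc₁b, hxc₁, asc hxc₁, D.xa,
          asc D.xa, hc₁c₁, asc hc₁c₁, hc₁z, asc hc₁z]
    · refine ⟨a, Or.inr rfl, ?_⟩
      rw [hb', h, D.binv]
      simp only [mul_assoc, D.zx, D.za, D.zb, hcz, asc D.zx, asc D.za, asc D.zb, asc hcz, D.zz,
          asc D.zz, one_mul, mul_one, D.aa, asc D.aa, D.bb, asc D.bb, D.ba, asc D.ba, D.ax,
          asc D.ax, D.xb, asc D.xb, hc₁a, asc hc₁a, hc₁b, asc hc₁b, hxc₁, asc hxc₁, D.xa,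
          asc D.xa, hc₁c₁, asc hc₁c₁, hc₁z, asc hc₁z]
  set X := b' * b⁻¹ with hXdef
  have hXb : X * b = b' := by rw [hXdef]; group
  have hXS : X ∈ (S : Subgroup G) := mul_mem DM.bS' (inv_mem D.bS')
  have hrE : r ∈ E := by
    rcases hr with h | h <;> rw [h]
    · exact E.one_mem
    · exact D.aE
  have hXE : X ∉ E := by
    intro h
    rw [hX] at h
    have h1 := (E.mul_mem_cancel_left D.zE).1 h
    have h2 := (E.mul_mem_cancel_left hrE).1 h1
    exact hxE ((E.mul_mem_cancel_left hc₁).1 h2)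
  obtain ⟨a', ha', hXX, hXb', haa'⟩ : ∃ a', (a' = a ∨ a' = z * a) ∧ X * X = a' ∧
      X * b = a' * (b * X) ∧ a' * a' = z := by
    rcases hr with h | h
    · refine ⟨a, Or.inl rfl, ?_, ?_, D.aa⟩
      · rw [hX, h]
        simp only [mul_assoc, D.zx, D.za, D.zb, hcz, asc D.zx, asc D.za, asc D.zb, asc hcz, D.zz,
          asc D.zz, one_mul, mul_one, D.aa, asc D.aa, D.bb, asc D.bb, D.ba, asc D.ba, D.ax,
          asc D.ax, D.xb, asc D.xb, hc₁a, asc hc₁a, hc₁b, asc hc₁b, hxc₁, asc hxc₁, D.xa,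
          asc D.xa, hc₁c₁, asc hc₁c₁, hc₁z, asc hc₁z]
      · rw [hX, h]
        simp only [mul_assoc, D.zx, D.za, D.zb, hcz, asc D.zx, asc D.za, asc D.zb, asc hcz, D.zz,
          asc D.zz, one_mul, mul_one, D.aa, asc D.aa, D.bb, asc D.bb, D.ba, asc D.ba, D.ax,
          asc D.ax, D.xb, asc D.xb, hc₁a, asc hc₁a, hc₁b, asc hc₁b, hxc₁, asc hxc₁, D.xa,
          asc D.xa, hc₁c₁, asc hc₁c₁, hc₁z, asc hc₁z]
    · refine ⟨z * a, Or.inr rfl, ?_, ?_, ?_⟩
      · rw [hX, h]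
        simp only [mul_assoc, D.zx, D.za, D.zb, hcz, asc D.zx, asc D.za, asc D.zb, asc hcz, D.zz,
          asc D.zz, one_mul, mul_one, D.aa, asc D.aa, D.bb, asc D.bb, D.ba, asc D.ba, D.ax,
          asc D.ax, D.xb, asc D.xb, hc₁a, asc hc₁a, hc₁b, asc hc₁b, hxc₁, asc hxc₁, D.xa,
          asc D.xa, hc₁c₁, asc hc₁c₁, hc₁z, asc hc₁z]
      · rw [hX, h]
        simp only [mul_assoc, D.zx, D.za, D.zb, hcz, asc D.zx, asc D.za, asc D.zb, asc hcz, D.zz,
          asc D.zz, one_mul, mul_one, D.aa, asc D.aa, D.bb, asc D.bb, D.ba, asc D.ba, D.ax,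
          asc D.ax, D.xb, asc D.xb, hc₁a, asc hc₁a, hc₁b, asc hc₁b, hxc₁, asc hxc₁, D.xa,
          asc D.xa, hc₁c₁, asc hc₁c₁, hc₁z, asc hc₁z]
      · simp only [mul_assoc, asc D.za, D.aa, asc D.zz, one_mul]
  -- facts about `a'`
  have hcX : c * X = X * c := by
    rw [hX]
    rcases hr with h | h <;> rw [h] <;>
    simp only [mul_assoc, D.zx, D.za, D.zb, hcz, asc D.zx, asc D.za, asc D.zb, asc hcz, D.zz,
          asc D.zz, one_mul, mul_one, hca, asc hca, hcb, asc hcb, hcc₁, asc hcc₁, hxc₁,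
          asc hxc₁, hxc, asc hxc, hc₁z, asc hc₁z]
  have ha'1 : a' ≠ 1 := by
    intro h
    rw [h, one_mul] at haa'
    exact D.z1 haa'.symm
  have ha'z : a' ≠ z := by
    intro h
    rw [h, D.zz] at haa'
    exact D.z1 haa'.symm
  have hzd : ∀ u, (u = 1 ∨ u = z) → (z * u = 1 ∨ z * u = z) := by
    rintro u (h | h) <;> rw [h]
    · right; group
    · left; exact D.zz
  -- change of `a`
  have hchg : ∀ u p, (u = 1 ∨ u = z) → (p = 1 ∨ p = a ∨ p = b ∨ p = a * b) → ∀ t,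
      ∃ u' p', (u' = 1 ∨ u' = z) ∧ (p' = 1 ∨ p' = a' ∨ p' = b ∨ p' = a' * b) ∧
        u * (p * t) = u' * (p' * t) := by
    intro u p hu hp t
    rcases ha' with h | h
    · exact ⟨u, p, hu, by rw [h]; exact hp, rfl⟩
    · have huz : z * (u * z) = u := by
        rcases hu with h' | h' <;> rw [h']
        · rw [one_mul]; exact D.zz
        · rw [D.zz, mul_one]
      rcases hp with h' | h' | h' | h'
      · exact ⟨u, 1, hu, Or.inl rfl, by rw [h']⟩
      · refine ⟨z * u, a', hzd u hu, Or.inr (Or.inl rfl), ?_⟩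
        rw [h', h]
        calc u * (a * t) = (z * (u * z)) * (a * t) := by rw [huz]
          _ = _ := by group
      · exact ⟨u, b, hu, Or.inr (Or.inr (Or.inl rfl)), by rw [h']⟩
      · refine ⟨z * u, a' * b, hzd u hu, Or.inr (Or.inr (Or.inr rfl)), ?_⟩
        rw [h', h]
        calc u * (a * b * t) = (z * (u * z)) * (a * b * t) := by rw [huz]
          _ = _ := by group
  have hfus : ∀ y, (∃ k, k * a * k⁻¹ = y ∨ k * a * k⁻¹ = z * y) → y * y = z → y * z = z * y →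
      Fus a' y z := by
    rintro y ⟨k, hk⟩ hyy hyz
    rcases ha' with h | h
    · exact ⟨k, by rw [h]; exact hk⟩
    · refine ⟨k, ?_⟩
      have h2 : k * z * k⁻¹ = z := by
        have e1 : k * z * k⁻¹ = (k * a * k⁻¹) * (k * a * k⁻¹) := by rw [← D.aa]; group
        rw [e1]
        rcases hk with h | h <;> rw [h]
        · exact hyy
        · simp only [mul_assoc, asc hyz, hyy, asc D.zz, one_mul]
      have h3 : k * (z * a) * k⁻¹ = z * (k * a * k⁻¹) := by
        calc k * (z * a) * k⁻¹ = (k * z * k⁻¹) * (k * a * k⁻¹) := by group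
          _ = z * (k * a * k⁻¹) := by rw [h2]
      rw [h, h3]
      rcases hk with h | h <;> rw [h]
      · right; rfl
      · left; rw [← mul_assoc, D.zz, one_mul]
  refine ⟨X, a', c, ⟨hXS, D.bS', D.mm.1.le hc, hXX, haa', D.zz, D.bb, hXb', hcc, hcX, hcb, ha'1,
    ha'z, ?_, ?_⟩, hfus b D.fus D.bb D.zb, ?_⟩
  · intro s hs
    by_cases hsE : s ∈ E
    · obtain ⟨u, p, v, hu, hp, hv, hpv⟩ := hgen s hsE
      obtain ⟨u', p', hu', hp', hup⟩ := hchg u p hu hp v
      exact ⟨u', p', v, 1, hu', hp', hv, Or.inl rfl, by rw [hpv, hup, mul_one]⟩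
    · have h1 : s * X⁻¹ ∈ E := by
        apply D.mm.1.mul_mem hs (inv_mem hXS) hsE
        intro h
        exact hXE (by simpa using E.inv_mem h)
      obtain ⟨u, p, v, hu, hp, hv, hpv⟩ := hgen _ h1
      obtain ⟨u', p', hu', hp', hup⟩ := hchg u p hu hp v
      refine ⟨u', p', v, X, hu', hp', hv, Or.inr rfl, ?_⟩
      calc s = (s * X⁻¹) * X := by group
        _ = _ := by rw [hpv, hup]; group
  · rcases hc' with h | ⟨h1, h2⟩
    · exact Or.inl h
    · refine Or.inr ⟨h1, h2, ?_, ?_⟩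
      · intro h
        rw [h, haa'] at hcc
        exact D.z1 hcc
      · intro h
        rw [h] at hcc
        have hza' : a' * z = z * a' := by
          rw [← haa']; group
        have : z * a' * (z * a') = z := by
          simp only [mul_assoc, asc hza', haa', asc D.zz, one_mul]
        rw [this] at hcc
        exact D.z1 hcc
  · rw [hXb]
    exact hfus b' DM.fus DM.bb DM.zb

end BD

/-- The structure of the Sylow `2`-subgroups. -/
theorem frame_of_O [Finite G] (hO : PropertyO G) {S : Sylow 2 G}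
    (hD : ¬ IsDedekindSubgroup (S : Subgroup G)) :
    ∃ x a b c z, Frame (S : Subgroup G) x a b c z ∧ Fus a b z ∧ Fus a (x * b) z := by
  obtain ⟨⟨E, hE⟩, x, hx, hx'⟩ := exists_outside_MM hO hD
  have hout : Outside (S : Subgroup G) x := ⟨hx, hx'⟩
  by_cases h : (x * x) * (x * x) = 1
  · obtain ⟨b, D⟩ := exists_AD hO hout hE h
    obtain ⟨x', c, hF, h1, h2⟩ := D.frame hO
    exact ⟨x', _, b, c, 1, hF, h1, h2⟩
  · obtain ⟨b, α, D⟩ := exists_BD hO hout hE h
    obtain ⟨w, a', D'⟩ := D.good hO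
    obtain ⟨x', a'', c, hF, h1, h2⟩ := D'.frame hO
    exact ⟨x', a'', b, c, _, hF, h1, h2⟩

end Pool.Agent.Work.MP_cd0fff_al
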