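import Pool.Agent.Work.MP_cd0fff_al.Frame

/-!
Basic facts on frames.
-/

set_option linter.unusedSimpArgs false
set_option linter.unusedSectionVars false

universe u

namespace Pool.Agent.Work.MP_cd0fff_al

open Subgroup Module

variable {G : Type u} [Group G]

namespace Frame

variable {S : Subgroup G} {x a b c z : G}

theorem aS (F : Frame S x a b c z) : a ∈ S := by rw [← F.xa]; exact mul_mem F.xS F.xS

theorem zS (F : Frame S x a b c z) : z ∈ S := by rw [← F.bb]; exact mul_mem F.bS F.bS

theorem ax (F : Frame S x a b c z) : x * a = a * x := by rw [← F.xa]; group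

theorem zx (F : Frame S x a b c z) : x * z = z * x := by rw [← F.aa, ← F.xa]; group

theorem za (F : Frame S x a b c z) : a * z = z * a := by rw [← F.aa]; group

theorem zb (F : Frame S x a b c z) : b * z = z * b := by rw [← F.bb]; group

theorem ca (F : Frame S x a b c z) : c * a = a * c := by
  rw [← F.xa, ← mul_assoc, F.cx, mul_assoc, F.cx, mul_assoc]

theorem cz (F : Frame S x a b c z) : c * z = z * c := by
  rw [← F.aa, ← mul_assoc, F.ca, mul_assoc, F.ca, mul_assoc]

theorem ainv (F : Frame S x a b c z) : a⁻¹ = z * a := by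
  rw [inv_eq_iff_mul_eq_one, ← mul_assoc, F.za, mul_assoc, F.aa, F.zz]

theorem binv (F : Frame S x a b c z) : b⁻¹ = z * b := by
  rw [inv_eq_iff_mul_eq_one, ← mul_assoc, F.zb, mul_assoc, F.bb, F.zz]

theorem cinv (F : Frame S x a b c z) : c⁻¹ = c := by rw [inv_eq_iff_mul_eq_one]; exact F.cc

theorem zinv (F : Frame S x a b c z) : z⁻¹ = z := by rw [inv_eq_iff_mul_eq_one]; exact F.zz

theorem bx (F : Frame S x a b c z) : b * x = z * (a * (x * b)) := by
  rw [F.xb, ← mul_assoc a a, F.aa, ← mul_assoc, ← mul_assoc, F.zz, one_mul]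

theorem ba (F : Frame S x a b c z) : b * a = z * (a * b) := by
  have h : b * a = (b * x) * x := by rw [← F.xa]; group
  rw [h, F.bx]
  simp only [mul_assoc, F.bx, asc F.bx, F.ax, asc F.ax, asc F.zx, F.zx, asc F.zz, one_mul, asc F.xa,
    asc F.aa, asc F.za, F.za]

theorem xinv (F : Frame S x a b c z) : x⁻¹ = z * (a * x) := by
  rw [inv_eq_iff_mul_eq_one]
  simp only [mul_assoc, asc F.zx, F.ax, asc F.ax, F.xa, F.aa, F.zz, asc F.xa]

theorem ha (F : Frame S x a b c z) {t : G} : a * t ≠ t := fun h => F.a1 (mul_eq_right.1 h)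

theorem b1 (F : Frame S x a b c z) : b ≠ 1 := by
  intro h
  have h1 := F.xb
  rw [h] at h1
  rw [mul_one, one_mul] at h1
  exact F.ha h1.symm

theorem bz (F : Frame S x a b c z) : b ≠ z := by
  intro h
  have h1 := F.bb
  rw [h, F.zz] at h1
  apply F.b1
  rw [h, ← h1]

theorem z_cen (F : Frame S x a b c z) {s : G} (hs : s ∈ S) : s * z = z * s := by
  obtain ⟨u, p, v, w, hu, hp, hv, hw, rfl⟩ := F.gen s hs
  rcases hu with h | h <;> rcases hp with h' | h' | h' | h' <;> rcases hv with h'' | h'' <;>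
    rcases hw with h''' | h''' <;> rw [h, h', h'', h'''] <;>
    simp only [mul_assoc, F.zz, asc F.zz, F.zx, asc F.zx, F.za, asc F.za, F.zb, asc F.zb, F.cz,
      asc F.cz, one_mul, mul_one]

theorem c_cen (F : Frame S x a b c z) {s : G} (hs : s ∈ S) : s * c = c * s := by
  have h1 : x * c = c * x := F.cx.symm
  have h2 : a * c = c * a := F.ca.symm
  have h3 : b * c = c * b := F.cb.symm
  have h4 : z * c = c * z := F.cz.symm
  obtain ⟨u, p, v, w, hu, hp, hv, hw, rfl⟩ := F.gen s hs
  rcases hu with h | h <;> rcases hp with h' | h' | h' | h' <;> rcases hv with h'' | h'' <;>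
    rcases hw with h''' | h''' <;> rw [h, h', h'', h'''] <;>
    simp only [mul_assoc, h1, h2, h3, h4, asc h1, asc h2, asc h3, asc h4, one_mul, mul_one, F.cc,
      asc F.cc]

/-- `x` acts on `S` -/
theorem x_act (F : Frame S x a b c z) {s : G} (hs : s ∈ S) :
    x * s = s * x ∨ x * s = a * (s * x) := by
  obtain ⟨u, p, v, w, hu, hp, hv, hw, rfl⟩ := F.gen s hs
  have key : ∀ u v w, (u = 1 ∨ u = z) → (v = 1 ∨ v = c) → (w = 1 ∨ w = x) →
      (x * u = u * x) ∧ (x * v = v * x) ∧ (x * w = w * x) ∧ (a * u = u * a) := by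
    intro u v w hu hv hw
    refine ⟨?_, ?_, ?_, ?_⟩
    · rcases hu with h | h <;> rw [h]
      · group
      · exact F.zx
    · rcases hv with h | h <;> rw [h]
      · group
      · exact F.cx.symm
    · rcases hw with h | h <;> rw [h]
      group
    · rcases hu with h | h <;> rw [h]
      · group
      · exact F.za
  obtain ⟨h1, h2, h3, h4⟩ := key u v w hu hv hw
  have h4' : u * a = a * u := h4.symm
  rcases hp with h | h | h | h <;> rw [h]
  · left
    simp only [mul_assoc, h1, asc h1, h2, asc h2, h3, asc h3, one_mul, mul_one]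
  · left
    simp only [mul_assoc, h1, asc h1, h2, asc h2, h3, asc h3, one_mul, mul_one, asc F.ax, F.ax]
  · right
    simp only [mul_assoc, h1, asc h1, h2, asc h2, h3, asc h3, one_mul, mul_one, asc F.ax, F.ax,
      asc F.xb, asc h4']
  · right
    simp only [mul_assoc, h1, asc h1, h2, asc h2, h3, asc h3, one_mul, mul_one, asc F.ax, F.ax,
      asc F.xb, asc h4']

/-- the membership in the subgroup `E` -/
def InE (a b c z : G) (s : G) : Prop :=
  ∃ u p v, (u = 1 ∨ u = z) ∧ (p = 1 ∨ p = a ∨ p = b ∨ p = a * b) ∧ (v = 1 ∨ v = c) ∧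
    s = u * (p * v)

theorem zz' (F : Frame S x a b c z) {u u' : G} (hu : u = 1 ∨ u = z) (hu' : u' = 1 ∨ u' = z) :
    u * u' = 1 ∨ u * u' = z := by
  rcases hu with h | h <;> rcases hu' with h' | h' <;> rw [h, h']
  · left; group
  · right; group
  · right; group
  · left; exact F.zz

theorem cc' (F : Frame S x a b c z) {u u' : G} (hu : u = 1 ∨ u = c) (hu' : u' = 1 ∨ u' = c) :
    u * u' = 1 ∨ u * u' = c := by
  rcases hu with h | h <;> rcases hu' with h' | h' <;> rw [h, h']
  · left; group
  · right; group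
  · right; group
  · left; exact F.cc

theorem pp' (F : Frame S x a b c z) {p p' : G} (hp : p = 1 ∨ p = a ∨ p = b ∨ p = a * b)
    (hp' : p' = 1 ∨ p' = a ∨ p' = b ∨ p' = a * b) :
    ∃ u q, (u = 1 ∨ u = z) ∧ (q = 1 ∨ q = a ∨ q = b ∨ q = a * b) ∧ p * p' = u * q := by
  rcases hp with h | h | h | h <;> rcases hp' with h' | h' | h' | h' <;> rw [h, h']
  · exact ⟨1, 1, by simp⟩
  · exact ⟨1, a, by simp⟩
  · exact ⟨1, b, by simp⟩
  · exact ⟨1, a * b, by simp⟩
  · exact ⟨1, a, by simp⟩
  · exact ⟨z, 1, by simp [F.aa]⟩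
  · exact ⟨1, a * b, by simp⟩
  · exact ⟨z, b, by simp [← mul_assoc, F.aa]⟩
  · exact ⟨1, b, by simp⟩
  · exact ⟨z, a * b, by simp [F.ba]⟩
  · exact ⟨z, 1, by simp [F.bb]⟩
  · refine ⟨1, a, by simp, by simp, ?_⟩
    simp only [mul_assoc, F.ba, asc F.ba, F.bb, F.za, asc F.zz, one_mul]
  · exact ⟨1, a * b, by simp⟩
  · refine ⟨1, b, by simp, by simp, ?_⟩
    simp only [mul_assoc, F.ba, asc F.ba, F.bb, F.za, asc F.zz, one_mul, asc F.za, asc F.aa]
  · refine ⟨z, a, by simp, by simp, ?_⟩
    simp only [mul_assoc, F.ba, asc F.ba, F.bb, F.za, asc F.zz, one_mul, asc F.za, asc F.aa]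
  · refine ⟨z, 1, by simp, by simp, ?_⟩
    simp only [mul_assoc, F.ba, asc F.ba, F.bb, F.za, asc F.zz, one_mul, asc F.za, asc F.aa,
      F.aa, mul_one, F.zz]

theorem uS (F : Frame S x a b c z) {u : G} (hu : u = 1 ∨ u = z) : u ∈ S := by
  rcases hu with h | h <;> rw [h]
  · exact S.one_mem
  · exact F.zS

theorem pS (F : Frame S x a b c z) {p : G} (hp : p = 1 ∨ p = a ∨ p = b ∨ p = a * b) : p ∈ S := by
  rcases hp with h | h | h | h <;> rw [h]
  · exact S.one_mem
  · exact F.aS
  · exact F.bS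
  · exact mul_mem F.aS F.bS

theorem vS (F : Frame S x a b c z) {v : G} (hv : v = 1 ∨ v = c) : v ∈ S := by
  rcases hv with h | h <;> rw [h]
  · exact S.one_mem
  · exact F.cS

theorem u_cen (F : Frame S x a b c z) {u s : G} (hu : u = 1 ∨ u = z) (hs : s ∈ S) :
    s * u = u * s := by
  rcases hu with h | h <;> rw [h]
  · group
  · exact F.z_cen hs

theorem v_cen (F : Frame S x a b c z) {u s : G} (hu : u = 1 ∨ u = c) (hs : s ∈ S) :
    s * u = u * s := by
  rcases hu with h | h <;> rw [h]
  · group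
  · exact F.c_cen hs

theorem InE.mul (F : Frame S x a b c z) {s t : G} (hs : InE a b c z s) (ht : InE a b c z t) :
    InE a b c z (s * t) := by
  obtain ⟨u, p, v, hu, hp, hv, rfl⟩ := hs
  obtain ⟨u', p', v', hu', hp', hv', rfl⟩ := ht
  obtain ⟨u'', q, hu'', hq, h⟩ := F.pp' hp hp'
  refine ⟨u * u' * u'', q, v * v', F.zz' (F.zz' hu hu') hu'', hq, F.cc' hv hv', ?_⟩
  have h1 := F.u_cen hu' (F.vS hv)
  have h2 := F.u_cen hu' (F.pS hp)
  have h3 := F.v_cen hv (F.pS hp')
  calc u * (p * v) * (u' * (p' * v')) = u * p * (v * u') * p' * v' := by group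
    _ = u * (p * u') * (v * p') * v' := by rw [h1]; group
    _ = u * u' * (p * p') * v * v' := by rw [h2, ← h3]; group
    _ = u * u' * u'' * (q * (v * v')) := by rw [h]; group

theorem pinv' (F : Frame S x a b c z) {p : G} (hp : p = 1 ∨ p = a ∨ p = b ∨ p = a * b) :
    p⁻¹ = p ∨ p⁻¹ = z * p := by
  rcases hp with h | h | h | h <;> rw [h]
  · left; exact inv_one
  · right; exact F.ainv
  · right; exact F.binv
  · right
    rw [mul_inv_rev, F.ainv, F.binv]
    simp only [mul_assoc, F.ba, asc F.zb, asc F.zz, one_mul]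

theorem InE.inv (F : Frame S x a b c z) {s : G} (hs : InE a b c z s) : InE a b c z s⁻¹ := by
  obtain ⟨u, p, v, hu, hp, hv, rfl⟩ := hs
  have hui : u⁻¹ = u := by
    rcases hu with h | h <;> rw [h]
    · exact inv_one
    · exact F.zinv
  have hvi : v⁻¹ = v := by
    rcases hv with h | h <;> rw [h]
    · exact inv_one
    · exact F.cinv
  have h1 := F.v_cen hv (F.pS hp)
  have h2 := F.u_cen hu (F.pS hp)
  have h3 := F.u_cen hu (F.vS hv)
  have e1 : (u * (p * v))⁻¹ = v * p⁻¹ * u := by
    rw [mul_inv_rev, mul_inv_rev, hui, hvi]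
  rcases F.pinv' hp with h | h
  · refine ⟨u, p, v, hu, hp, hv, ?_⟩
    rw [e1, h, ← h1, mul_assoc, h3, ← mul_assoc, h2, mul_assoc]
  · refine ⟨z * u, p, v, F.zz' (Or.inr rfl) hu, hp, hv, ?_⟩
    rw [e1, h]
    calc v * (z * p) * u = (v * z) * (p * u) := by group
      _ = z * v * (u * p) := by rw [F.z_cen (F.vS hv), h2]
      _ = z * (v * u) * p := by group
      _ = z * u * (v * p) := by rw [h3]; group
      _ = z * u * (p * v) := by rw [h1]

/-- the subgroup `⟨a, b, c⟩` -/
def E (F : Frame S x a b c z) : Subgroup G where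
  carrier := {s | InE a b c z s}
  one_mem' := ⟨1, 1, 1, by simp⟩
  mul_mem' := fun hs ht => InE.mul F hs ht
  inv_mem' := fun hs => InE.inv F hs

theorem mem_E (F : Frame S x a b c z) {s : G} : s ∈ F.E ↔ InE a b c z s := Iff.rfl

theorem E_le (F : Frame S x a b c z) : F.E ≤ S := by
  rintro s ⟨u, p, v, hu, hp, hv, rfl⟩
  exact mul_mem (F.uS hu) (mul_mem (F.pS hp) (F.vS hv))

theorem E_sq (F : Frame S x a b c z) {s : G} (hs : s ∈ F.E) : s * s = 1 ∨ s * s = z := by
  obtain ⟨u, p, v, hu, hp, hv, rfl⟩ := hs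
  have h1 := F.u_cen hu (F.vS hv)
  have h2 := F.u_cen hu (F.pS hp)
  have h3 := F.v_cen hv (F.pS hp)
  have huu : u * u = 1 := by
    rcases hu with h | h <;> rw [h]
    · group
    · exact F.zz
  have hvv : v * v = 1 := by
    rcases hv with h | h <;> rw [h]
    · group
    · exact F.cc
  have hpp : p * p = 1 ∨ p * p = z := by
    rcases hp with h | h | h | h <;> rw [h]
    · left; group
    · right; exact F.aa
    · right; exact F.bb
    · right
      simp only [mul_assoc, F.ba, asc F.ba, F.bb, F.za, asc F.zz, one_mul, asc F.za, asc F.aa,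
        F.aa, mul_one, F.zz]
  have e1 : u * (p * v) * (u * (p * v)) = p * p := by
    calc u * (p * v) * (u * (p * v)) = u * p * (v * u) * p * v := by group
      _ = u * (p * u) * (v * p) * v := by rw [h1]; group
      _ = (u * u) * p * p * (v * v) := by rw [h2, ← h3]; group
      _ = p * p := by rw [huu, hvv, one_mul, mul_one]
  rw [e1]
  exact hpp

theorem x_not_mem (F : Frame S x a b c z) : x ∉ F.E := by
  intro h
  rcases F.E_sq h with h' | h'
  · rw [F.xa] at h'; exact F.a1 h'
  · rw [F.xa] at h'; exact F.az h'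

theorem halfE (F : Frame S x a b c z) : Half F.E S := by
  refine half_of_mul F.E_le F.xS F.x_not_mem ?_
  intro s hs hsE
  obtain ⟨u, p, v, w, hu, hp, hv, hw, rfl⟩ := F.gen s hs
  rcases hw with h | h
  · exfalso
    apply hsE
    exact ⟨u, p, v, hu, hp, hv, by rw [h, mul_one]⟩
  · have haE : a ∈ F.E := ⟨1, a, 1, by simp⟩
    have h1 : u * (p * (v * w)) * x = (u * (p * v)) * a := by
      rw [h, ← F.xa]; group
    rw [h1]
    exact mul_mem ⟨u, p, v, hu, hp, hv, rfl⟩ haE

theorem aE (F : Frame S x a b c z) : a ∈ F.E := ⟨1, a, 1, by simp⟩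
theorem bE (F : Frame S x a b c z) : b ∈ F.E := ⟨1, b, 1, by simp⟩
theorem cE (F : Frame S x a b c z) : c ∈ F.E := ⟨1, 1, c, by simp⟩
theorem zE (F : Frame S x a b c z) : z ∈ F.E := ⟨z, 1, 1, by simp⟩

/-- the symmetric frame -/
theorem symm (F : Frame S x a b c z) : Frame S x a (x * b) c z := by
  have hbx := F.bx
  refine ⟨F.xS, mul_mem F.xS F.bS, F.cS, F.xa, F.aa, F.zz, ?_, ?_, F.cc, F.cx, ?_, F.a1, F.az, ?_,
    F.hc⟩
  · calc x * b * (x * b) = x * (b * x) * b := by group
      _ = (x * z) * a * x * (b * b) := by rw [hbx]; group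
      _ = z * (x * a) * x * z := by rw [F.zx, F.bb]; group
      _ = z * a * (x * x) * z := by rw [F.ax]; group
      _ = z * (a * a) * z := by rw [F.xa]; group
      _ = z := by rw [F.aa, F.zz, one_mul]
  · calc x * (x * b) = (x * x) * b := by group
      _ = a * b := by rw [F.xa]
      _ = (z * z) * a * b := by rw [F.zz, one_mul]
      _ = a * (x * b * x) := by
        have : x * b * x = b := by
          calc x * b * x = x * (b * x) := by group
            _ = (x * z) * a * x * b := by rw [hbx]; group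
            _ = z * (x * a) * x * b := by rw [F.zx]; group
            _ = z * a * (x * x) * b := by rw [F.ax]; group
            _ = z * (a * a) * b := by rw [F.xa]; group
            _ = b := by rw [F.aa, F.zz, one_mul]
        rw [this, F.zz, one_mul]
  · calc c * (x * b) = (c * x) * b := by group
      _ = x * (c * b) := by rw [F.cx]; group
      _ = x * b * c := by rw [F.cb]; group
  · have hxbx : x * b * x = b := by
      calc x * b * x = x * (b * x) := by group
        _ = (x * z) * a * x * b := by rw [hbx]; group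
        _ = z * (x * a) * x * b := by rw [F.zx]; group
        _ = z * a * (x * x) * b := by rw [F.ax]; group
        _ = z * (a * a) * b := by rw [F.xa]; group
        _ = b := by rw [F.aa, F.zz, one_mul]
    intro s hs
    obtain ⟨u, p, v, w, hu, hp, hv, hw, rfl⟩ := F.gen s hs
    have hvx : x * v = v * x := F.v_cen hv F.xS
    have hvb : b * v = v * b := F.v_cen hv F.bS
    rcases hp with h | h | h | h
    · exact ⟨u, p, v, w, hu, Or.inl h, hv, hw, rfl⟩
    · exact ⟨u, p, v, w, hu, Or.inr (Or.inl h), hv, hw, rfl⟩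
    · rcases hw with h' | h'
      · refine ⟨u, x * b, v, x, hu, Or.inr (Or.inr (Or.inl rfl)), hv, Or.inr rfl, ?_⟩
        rw [h, h']
        calc u * (b * (v * 1)) = u * ((x * b * x) * v) := by rw [hxbx]; group
          _ = u * (x * b * (x * v)) := by group
          _ = u * (x * b * (v * x)) := by rw [hvx]
      · refine ⟨z * u, a * (x * b), v, 1, F.zz' (Or.inr rfl) hu, Or.inr (Or.inr (Or.inr rfl)), hv,
          Or.inl rfl, ?_⟩
        rw [h, h']
        calc u * (b * (v * x)) = u * (b * (x * v)) := by rw [hvx]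
          _ = u * (b * x) * v := by group
          _ = (u * z) * (a * (x * b)) * v := by rw [hbx]; group
          _ = z * u * (a * (x * b) * (v * 1)) := by rw [F.z_cen (F.uS hu)]; group
    · rcases hw with h' | h'
      · refine ⟨u, a * (x * b), v, x, hu, Or.inr (Or.inr (Or.inr rfl)), hv, Or.inr rfl, ?_⟩
        rw [h, h']
        calc u * (a * b * (v * 1)) = u * (a * (x * b * x) * v) := by rw [hxbx]; group
          _ = u * (a * (x * b) * (x * v)) := by group
          _ = u * (a * (x * b) * (v * x)) := by rw [hvx]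
      · refine ⟨u, x * b, v, 1, hu, Or.inr (Or.inr (Or.inl rfl)), hv,
          Or.inl rfl, ?_⟩
        rw [h, h']
        calc u * (a * b * (v * x)) = u * (a * b * (x * v)) := by rw [hvx]
          _ = u * (a * (b * x)) * v := by group
          _ = u * (a * z) * (a * (x * b)) * v := by rw [hbx]; group
          _ = u * z * (a * a) * (x * b) * v := by rw [F.za]; group
          _ = u * (z * z) * (x * b) * v := by rw [F.aa]; group
          _ = u * (x * b * (v * 1)) := by rw [F.zz]; group

theorem b_act (F : Frame S x a b c z) {s : G} (hs : s ∈ S) :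
    ∃ r ∈ zpowers a, b * s = r * (s * b) := by
  have hz : z ∈ zpowers a := by rw [← F.aa]; exact mul_mem (mem_zpowers a) (mem_zpowers a)
  have ha := mem_zpowers a
  obtain ⟨u, p, v, w, hu, hp, hv, hw, rfl⟩ := F.gen s hs
  have h1 := F.u_cen hu F.bS
  have h2 := F.v_cen hv F.bS
  have h3 : a * u = u * a := F.u_cen hu F.aS
  have h3' : u * a = a * u := h3.symm
  have h4 : z * u = u * z := F.u_cen hu F.zS
  have h4' : u * z = z * u := h4.symm
  have h5 : v * a = a * v := (F.v_cen hv F.aS).symm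
  have h6 : v * z = z * v := (F.v_cen hv F.zS).symm
  rcases hp with h | h | h | h <;> rcases hw with h' | h' <;> rw [h, h']
  · refine ⟨1, one_mem _, ?_⟩
    simp only [mul_assoc, h1, asc h1, h2, asc h2, one_mul, mul_one]
  · refine ⟨z * a, mul_mem hz ha, ?_⟩
    simp only [mul_assoc, h1, asc h1, h2, asc h2, one_mul, mul_one, F.bx, F.za, asc F.za, asc h3',
      asc h4', h3', h4', asc h5, asc h6]
  · refine ⟨z, hz, ?_⟩
    simp only [mul_assoc, h1, asc h1, h2, asc h2, one_mul, mul_one, F.bx, F.za, asc F.za, asc h3',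
      asc h4', h3', h4', asc F.ba, F.ba, asc h5, asc h6]
  · refine ⟨a, ha, ?_⟩
    simp only [mul_assoc, h1, asc h1, h2, asc h2, one_mul, mul_one, F.bx, F.za, asc F.za, asc h3',
      asc h4', h3', h4', asc F.ba, F.ba, asc F.bx, asc F.zz, asc h5, asc h6]
  · refine ⟨1, one_mem _, ?_⟩
    simp only [mul_assoc, h1, asc h1, h2, asc h2, one_mul, mul_one]
  · refine ⟨a, ha, ?_⟩
    simp only [mul_assoc, h1, asc h1, h2, asc h2, one_mul, mul_one, F.bx, F.za, asc F.za, asc h3',
      asc h4', h3', h4', asc F.ba, F.ba, asc F.bx, asc F.zz, asc F.zb, asc h5, asc h6]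
  · refine ⟨z, hz, ?_⟩
    simp only [mul_assoc, h1, asc h1, h2, asc h2, one_mul, mul_one, F.bx, F.za, asc F.za, asc h3',
      asc h4', h3', h4', asc F.ba, F.ba, asc F.bx, asc F.zz, asc F.zb, asc h5, asc h6]
  · refine ⟨z * a, mul_mem hz ha, ?_⟩
    simp only [mul_assoc, h1, asc h1, h2, asc h2, one_mul, mul_one, F.bx, F.za, asc F.za, asc h3',
      asc h4', h3', h4', asc F.ba, F.ba, asc F.bx, asc F.zz, asc F.zb, asc F.aa, asc h5, asc h6]

end Frame

end Pool.Agent.Work.MP_cd0fff_al
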