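import Pool.Agent.Work.MP_cd0fff_al.Basic
import Pool.Agent.Work.MP_cd0fff_al.Coprime

/-!
Subgroups of index two, central elements, and the subgroup `N_S(Y)`.
-/

namespace Pool.Agent.Work.MP_cd0fff_al

open Subgroup

variable {G : Type*} [Group G]

/-- `E` is a subgroup of index two in `S`. -/
def Half (E S : Subgroup G) : Prop := E ≤ S ∧ E.relIndex S = 2

theorem Half.le {E S : Subgroup G} (h : Half E S) : E ≤ S := h.1

theorem Half.mul_mem_iff {E S : Subgroup G} (h : Half E S) {x y : G} (hx : x ∈ S) (hy : y ∈ S) :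
    x * y ∈ E ↔ (x ∈ E ↔ y ∈ E) := by
  have := mul_mem_iff_of_index_two (H := E.subgroupOf S) h.2 (a := ⟨x, hx⟩) (b := ⟨y, hy⟩)
  simpa [mem_subgroupOf] using this

theorem Half.sq_mem {E S : Subgroup G} (h : Half E S) {x : G} (hx : x ∈ S) : x * x ∈ E := by
  rw [h.mul_mem_iff hx hx]

theorem Half.mul_mem {E S : Subgroup G} (h : Half E S) {x y : G} (hx : x ∈ S) (hy : y ∈ S)
    (hx' : x ∉ E) (hy' : y ∉ E) : x * y ∈ E := by
  rw [h.mul_mem_iff hx hy]; tauto

theorem Half.conj_mem {E S : Subgroup G} (h : Half E S) {x e : G} (hx : x ∈ S) (he : e ∈ E) :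
    x * e * x⁻¹ ∈ E := by
  have hn : (E.subgroupOf S).Normal := normal_of_index_eq_two h.2
  have := hn.conj_mem ⟨e, h.1 he⟩ (by simpa [mem_subgroupOf] using he) ⟨x, hx⟩
  simpa [mem_subgroupOf] using this

theorem Half.conj_mem' {E S : Subgroup G} (h : Half E S) {x e : G} (hx : x ∈ S) (he : e ∈ E) :
    x⁻¹ * e * x ∈ E := by
  simpa using h.conj_mem (S.inv_mem hx) he

theorem mem_normalizer_of {H : Subgroup G} {x : G} (h1 : ∀ y ∈ H, x * y * x⁻¹ ∈ H)
    (h2 : ∀ y ∈ H, x⁻¹ * y * x ∈ H) : x ∈ normalizer (H : Set G) := by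
  rw [mem_normalizer_iff]
  intro y
  refine ⟨h1 y, fun hy => ?_⟩
  have := h2 _ hy
  have e : x⁻¹ * (x * y * x⁻¹) * x = y := by group
  rwa [e] at this

theorem le_normalizer_of {H S : Subgroup G} (h1 : ∀ x ∈ S, ∀ y ∈ H, x * y * x⁻¹ ∈ H) :
    S ≤ normalizer (H : Set G) := by
  intro x hx
  refine mem_normalizer_of (h1 x hx) (fun y hy => ?_)
  simpa using h1 _ (S.inv_mem hx) y hy

theorem norm_conj {H : Subgroup G} {x y : G} (hx : x ∈ normalizer (H : Set G)) (hy : y ∈ H) :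
    x * y * x⁻¹ ∈ H := (mem_normalizer_iff.1 hx y).1 hy

theorem norm_conj' {H : Subgroup G} {x y : G} (hx : x ∈ normalizer (H : Set G)) (hy : y ∈ H) :
    x⁻¹ * y * x ∈ H := by
  simpa using norm_conj (inv_mem hx) hy

theorem Half.le_normalizer {E S : Subgroup G} (h : Half E S) : S ≤ normalizer (E : Set G) :=
  le_normalizer_of fun _ hx _ he => h.conj_mem hx he

theorem Half.exists_not_mem {E S : Subgroup G} (h : Half E S) : ∃ x ∈ S, x ∉ E := by
  by_contra hcon
  push Not at hcon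
  have h1 : E.relIndex S = 1 := relIndex_eq_one.2 hcon
  rw [h.2] at h1
  omega

theorem Half.cover {E S : Subgroup G} (h : Half E S) {x y : G} (hx : x ∈ S) (hx' : x ∉ E)
    (hy : y ∈ S) : y ∈ E ∨ ∃ e ∈ E, y = x * e := by
  by_cases hyE : y ∈ E
  · exact Or.inl hyE
  · right
    refine ⟨x⁻¹ * y, ?_, by group⟩
    exact h.mul_mem (S.inv_mem hx) hy (fun h' => hx' (by simpa using E.inv_mem h')) hyE

theorem Half.card [Finite G] {E S : Subgroup G} (h : Half E S) :
    Nat.card S = 2 * Nat.card E := by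
  have h1 := Subgroup.card_mul_index (E.subgroupOf S)
  have h2 : Nat.card (E.subgroupOf S) = Nat.card E :=
    Nat.card_congr (Subgroup.subgroupOfEquivOfLe h.1).toEquiv
  have h3 : (E.subgroupOf S).index = 2 := h.2
  rw [h2, h3] at h1
  omega

theorem half_of_card [Finite G] {E S : Subgroup G} (h : E ≤ S) (hc : Nat.card S = 2 * Nat.card E) :
    Half E S := by
  refine ⟨h, ?_⟩
  have h1 := Subgroup.card_mul_index (E.subgroupOf S)
  have h2 : Nat.card (E.subgroupOf S) = Nat.card E :=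
    Nat.card_congr (Subgroup.subgroupOfEquivOfLe h).toEquiv
  rw [h2, hc] at h1
  have h3 : 0 < Nat.card E := Nat.card_pos
  have h4 : (E.subgroupOf S).index = 2 := by
    apply Nat.eq_of_mul_eq_mul_left h3
    rw [h1]; ring
  exact h4

/-- a criterion for index two -/
theorem half_of_mul {E S : Subgroup G} (h : E ≤ S) {a : G} (ha : a ∈ S) (ha' : a ∉ E)
    (hm : ∀ b ∈ S, b ∉ E → b * a ∈ E) : Half E S := by
  refine ⟨h, ?_⟩
  rw [relIndex_eq_two_iff_exists_notMem_and]
  refine ⟨a, ha, ha', fun b hb => ?_⟩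
  by_cases hbE : b ∈ E
  · exact Or.inr hbE
  · exact Or.inl (hm b hb hbE)

theorem Half.eq_of_le {E M S : Subgroup G} (h : Half E S) (h' : Half M S) (hle : E ≤ M) :
    E = M := by
  apply le_antisymm hle
  intro y hy
  by_contra hyE
  obtain ⟨x, hx, hxM⟩ := h'.exists_not_mem
  have hxE : x ∉ E := fun hxE => hxM (hle hxE)
  have h1 := hle (h.mul_mem hx (h'.le hy) hxE hyE)
  apply hxM
  have := M.mul_mem h1 (M.inv_mem hy)
  simpa using this

/-- A nontrivial normal subgroup of a finite `2`-group contains a central involution. -/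
theorem exists_central_involution {Q : Type*} [Group Q] [Finite Q] (hQ : IsPGroup 2 Q)
    (N : Subgroup Q) [N.Normal] (hN : N ≠ ⊥) :
    ∃ z ∈ N, z ≠ 1 ∧ z * z = 1 ∧ ∀ q, q * z * q⁻¹ = z := by
  classical
  have hQ' : IsPGroup 2 (ConjAct Q) := hQ.of_equiv ConjAct.toConjAct
  have hcard : 2 ∣ Nat.card N := by
    obtain ⟨n, hn⟩ := IsPGroup.iff_card.1 (hQ.to_subgroup N)
    rw [hn]
    apply dvd_pow_self
    rintro rfl
    rw [pow_zero] at hn
    exact hN (N.eq_bot_of_card_eq hn)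
  obtain ⟨z, hz, hz1⟩ := hQ'.exists_fixed_point_of_prime_dvd_card_of_fixed_point N hcard
    (a := 1) (by
      intro q
      ext
      simp [ConjAct.Subgroup.val_conj_smul, ConjAct.smul_def])
  have hzc : ∀ q : Q, q * (z : Q) * q⁻¹ = z := by
    intro q
    have := congrArg Subtype.val (hz (ConjAct.toConjAct q))
    simpa [ConjAct.Subgroup.val_conj_smul, ConjAct.smul_def] using this
  have hz1' : (z : Q) ≠ 1 := fun h => hz1 (Subtype.ext h.symm)
  obtain ⟨n, hn⟩ := (isPGroup_iff_pow_pow_eq_one.1 hQ) (z : Q)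
  obtain ⟨k, hk, hk2⟩ := (Nat.dvd_prime_pow Nat.prime_two).1 (orderOf_dvd_of_pow_eq_one hn)
  have hk0 : k ≠ 0 := by
    rintro rfl
    rw [pow_zero, orderOf_eq_one_iff] at hk2
    exact hz1' hk2
  obtain ⟨j, rfl⟩ := Nat.exists_eq_succ_of_ne_zero hk0
  refine ⟨(z : Q) ^ 2 ^ j, N.pow_mem z.2 _, ?_, ?_, ?_⟩
  · intro h
    have h1 := orderOf_dvd_of_pow_eq_one h
    rw [hk2] at h1
    have h2 := (Nat.pow_dvd_pow_iff_le_right (by norm_num : 1 < 2)).1 h1
    omega
  · rw [← pow_add, ← two_mul, ← pow_succ', ← Nat.succ_eq_add_one, ← hk2, pow_orderOf_eq_one]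
  · intro q
    rw [← conj_pow, hzc]

/-- Relative version: `T < Y` both normal in the `2`-group `P`. -/
theorem exists_rel_central [Finite G] {P T Y : Subgroup G} (hP : IsPGroup 2 P) (hTY : T ≤ Y)
    (hYP : Y ≤ P) (hT : P ≤ normalizer (T : Set G)) (hY : P ≤ normalizer (Y : Set G))
    (hne : ¬ Y ≤ T) :
    ∃ a ∈ Y, a ∉ T ∧ a * a ∈ T ∧ ∀ p ∈ P, p * a * p⁻¹ * a⁻¹ ∈ T := by
  classical
  have hTn : (T.subgroupOf P).Normal := by
    constructor
    intro n hn g
    rw [mem_subgroupOf] at hn ⊢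
    exact norm_conj (hT g.2) hn
  have hYn : (Y.subgroupOf P).Normal := by
    constructor
    intro n hn g
    rw [mem_subgroupOf] at hn ⊢
    exact norm_conj (hY g.2) hn
  have hQ : IsPGroup 2 (P ⧸ T.subgroupOf P) := hP.to_quotient _
  set N := (Y.subgroupOf P).map (QuotientGroup.mk' (T.subgroupOf P)) with hN
  have hNn : N.Normal := hYn.map _ (QuotientGroup.mk'_surjective _)
  have hNb : N ≠ ⊥ := by
    intro h
    apply hne
    intro y hy
    have h1 : (⟨y, hYP hy⟩ : P) ∈ Y.subgroupOf P := by rw [mem_subgroupOf]; exact hy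
    have h2 : QuotientGroup.mk' (T.subgroupOf P) ⟨y, hYP hy⟩ ∈ N := ⟨_, h1, rfl⟩
    rw [h, mem_bot, QuotientGroup.mk'_apply, QuotientGroup.eq_one_iff, mem_subgroupOf] at h2
    exact h2
  obtain ⟨z, hzN, hz1, hz2, hz3⟩ := exists_central_involution hQ N hNb
  obtain ⟨a, haY, rfl⟩ := hzN
  refine ⟨a, haY, ?_, ?_, ?_⟩
  · intro h
    apply hz1
    rw [QuotientGroup.mk'_apply, QuotientGroup.eq_one_iff, mem_subgroupOf]
    exact h
  · rw [← map_mul, QuotientGroup.mk'_apply, QuotientGroup.eq_one_iff, mem_subgroupOf] at hz2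
    exact hz2
  · intro p hp
    have h1 := hz3 (QuotientGroup.mk' _ ⟨p, hp⟩)
    rw [← mul_inv_eq_one, ← map_inv, ← map_inv, ← map_mul, ← map_mul, ← map_mul,
      QuotientGroup.mk'_apply, QuotientGroup.eq_one_iff, mem_subgroupOf] at h1
    exact h1

end Pool.Agent.Work.MP_cd0fff_al
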