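import Pool.Agent.Work.MP_cd0fff_al.TransferTwo

/-!
Isomorphism types of groups with frames.
-/

set_option linter.unusedSimpArgs false
set_option linter.unusedSectionVars false

universe u

namespace Pool.Agent.Work.MP_cd0fff_al

open Subgroup Module

variable {G : Type u} [Group G]

section

variable {x b z : G} {m : ℕ}

theorem pow_val_add [NeZero m] (hx : x ^ m = 1) (i j : ZMod m) :
    x ^ (i + j).val = x ^ i.val * x ^ j.val := by
  rw [ZMod.val_add, ← pow_eq_pow_mod _ hx, pow_add]

theorem pow_val_neg [NeZero m] (hx : x ^ m = 1) (i : ZMod m) :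
    x ^ (-i).val = (x ^ i.val)⁻¹ := by
  have h := pow_val_add hx i (-i)
  rw [add_neg_cancel, ZMod.val_zero, pow_zero] at h
  exact eq_inv_of_mul_eq_one_right h.symm

theorem b_pow_val [NeZero m] (hx : x ^ m = 1) (hbx : b * x = x⁻¹ * b) (i : ZMod m) :
    b * x ^ i.val = x ^ (-i).val * b := by
  have h : SemiconjBy b x x⁻¹ := hbx
  have h2 := h.pow_right i.val
  rw [pow_val_neg hx, ← inv_pow]
  exact h2

theorem pow_val_sub [NeZero m] (hx : x ^ m = 1) (i j : ZMod m) :
    x ^ (j - i).val = x ^ (-i).val * x ^ j.val := by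
  rw [← pow_val_add hx]
  congr 2
  ring

/-- the homomorphism from a dihedral group -/
def homD [NeZero m] (hx : x ^ m = 1) (hbb : b * b = 1) (hbx : b * x = x⁻¹ * b) :
    DihedralGroup m →* G where
  toFun
    | .r i => x ^ i.val
    | .sr i => b * x ^ i.val
  map_one' := by
    show x ^ (0 : ZMod m).val = 1
    rw [ZMod.val_zero, pow_zero]
  map_mul' := by
    rintro (i | i) (j | j)
    · exact pow_val_add hx i j
    · show b * x ^ (j - i).val = x ^ i.val * (b * x ^ j.val)
      rw [pow_val_sub hx, ← mul_assoc, b_pow_val hx hbx, neg_neg, mul_assoc]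
    · show b * x ^ (i + j).val = b * x ^ i.val * x ^ j.val
      rw [pow_val_add hx, mul_assoc]
    · show x ^ (j - i).val = b * x ^ i.val * (b * x ^ j.val)
      rw [pow_val_sub hx, b_pow_val hx hbx, mul_assoc, ← mul_assoc b b, hbb, one_mul]

/-- the homomorphism from a generalised quaternion group -/
def homQ {n : ℕ} [NeZero n] [NeZero (2 * n)] (hx : x ^ (2 * n) = 1) (hbb : b * b = x ^ n)
    (hbx : b * x = x⁻¹ * b) : QuaternionGroup n →* G where
  toFun
    | .a i => x ^ i.val
    | .xa i => b * x ^ i.val
  map_one' := by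
    show x ^ (0 : ZMod (2 * n)).val = 1
    rw [ZMod.val_zero, pow_zero]
  map_mul' := by
    rintro (i | i) (j | j)
    · exact pow_val_add hx i j
    · show b * x ^ (j - i).val = x ^ i.val * (b * x ^ j.val)
      rw [pow_val_sub hx, ← mul_assoc, b_pow_val hx hbx, neg_neg, mul_assoc]
    · show b * x ^ (i + j).val = b * x ^ i.val * x ^ j.val
      rw [pow_val_add hx, mul_assoc]
    · show x ^ ((n : ZMod (2 * n)) + j - i).val = b * x ^ i.val * (b * x ^ j.val)
      have hn : (n : ZMod (2 * n)).val = n := by
        apply ZMod.val_natCast_of_lt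
        have := NeZero.pos n
        omega
      have h1 : x ^ ((n : ZMod (2 * n)) + j - i).val = x ^ n * (x ^ (-i).val * x ^ j.val) := by
        rw [add_sub_assoc, pow_val_add hx, hn, pow_val_sub hx]
      have h2 : x ^ (-i).val * x ^ n = x ^ n * x ^ (-i).val := by
        rw [← pow_add, ← pow_add, add_comm]
      rw [h1, b_pow_val hx hbx, mul_assoc, ← mul_assoc b b, hbb, ← mul_assoc, ← mul_assoc, h2]

/-- the homomorphism from a group of order two -/
def homC (hz : z * z = 1) : Multiplicative (ZMod 2) →* G where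
  toFun i := z ^ (Multiplicative.toAdd i).val
  map_one' := by
    show z ^ (0 : ZMod 2).val = 1
    rw [ZMod.val_zero, pow_zero]
  map_mul' i j := pow_val_add (by rw [pow_two]; exact hz) _ _

end

/-- a subgroup which is the image of an injective homomorphism -/
theorem nonempty_equiv {P : Type*} [Group P] (f : P →* G) (hf : Function.Injective f)
    {S : Subgroup G} (h : f.range = S) : Nonempty (S ≃* P) := by
  subst h
  exact ⟨(MonoidHom.ofInjective hf).symm⟩

theorem val_eq_zero_of_pow {x : G} {m : ℕ} [NeZero m] (hm : orderOf x = m) {i : ZMod m}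
    (h : x ^ i.val = 1) : i = 0 := by
  have h1 := orderOf_dvd_of_pow_eq_one h
  rw [hm] at h1
  have h2 := ZMod.val_lt i
  have h3 := Nat.eq_zero_of_dvd_of_lt h1 h2
  exact (ZMod.val_eq_zero i).1 h3

namespace Frame

variable {S : Subgroup G} {x a b c z : G}

/-- membership in `⟨x, b⟩` -/
def InD (x a b z : G) (s : G) : Prop :=
  ∃ u p w, (u = 1 ∨ u = z) ∧ (p = 1 ∨ p = a ∨ p = b ∨ p = a * b) ∧ (w = 1 ∨ w = x) ∧
    s = u * (p * w)

theorem bx' (F : Frame S x a b c z) : b * x = x⁻¹ * b := by
  rw [F.bx, F.xinv]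
  simp only [mul_assoc]

theorem InD.mulx (F : Frame S x a b c z) {s : G} (hs : InD x a b z s) : InD x a b z (s * x) := by
  obtain ⟨u, p, w, hu, hp, hw, rfl⟩ := hs
  rcases hw with h | h
  · exact ⟨u, p, x, hu, hp, Or.inr rfl, by rw [h]; group⟩
  · have h1 : u * (p * w) * x = u * (p * a) := by rw [h, ← F.xa]; group
    obtain ⟨u', q, hu', hq, h2⟩ := F.pp' hp (Or.inr (Or.inl rfl) : a = 1 ∨ a = a ∨ a = b ∨ a = a * b)
    exact ⟨u * u', q, 1, F.zz' hu hu', hq, Or.inl rfl, by rw [h1, h2]; group⟩

theorem InD.mulb (F : Frame S x a b c z) {s : G} (hs : InD x a b z s) : InD x a b z (s * b) := by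
  obtain ⟨u, p, w, hu, hp, hw, rfl⟩ := hs
  rcases hw with h | h
  · obtain ⟨u', q, hu', hq, h2⟩ := F.pp' hp
      (Or.inr (Or.inr (Or.inl rfl)) : b = 1 ∨ b = a ∨ b = b ∨ b = a * b)
    refine ⟨u * u', q, 1, F.zz' hu hu', hq, Or.inl rfl, ?_⟩
    rw [h]
    calc u * (p * 1) * b = u * (p * b) := by group
      _ = _ := by rw [h2]; group
  · obtain ⟨u', q, hu', hq, h2⟩ := F.pp' hp
      (Or.inr (Or.inr (Or.inr rfl)) : a * b = 1 ∨ a * b = a ∨ a * b = b ∨ a * b = a * b)
    refine ⟨u * u', q, x, F.zz' hu hu', hq, Or.inr rfl, ?_⟩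
    rw [h]
    calc u * (p * x) * b = u * (p * (x * b)) := by group
      _ = u * (p * (a * b)) * x := by rw [F.xb]; group
      _ = _ := by rw [h2]; group

theorem InD.mul (F : Frame S x a b c z) {s t : G} (hs : InD x a b z s) (ht : InD x a b z t) :
    InD x a b z (s * t) := by
  have ha : ∀ s, InD x a b z s → InD x a b z (s * a) := by
    intro s hs
    have h := InD.mulx F (InD.mulx F hs)
    rwa [mul_assoc, F.xa] at h
  have hz : ∀ s, InD x a b z s → InD x a b z (s * z) := by
    intro s hs
    have h := ha _ (ha _ hs)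
    rwa [mul_assoc, F.aa] at h
  obtain ⟨u, p, w, hu, hp, hw, rfl⟩ := ht
  have h1 : InD x a b z (s * u) := by
    rcases hu with h | h <;> rw [h]
    · rw [mul_one]; exact hs
    · exact hz s hs
  have h2 : InD x a b z (s * u * p) := by
    rcases hp with h | h | h | h <;> rw [h]
    · rw [mul_one]; exact h1
    · exact ha _ h1
    · exact InD.mulb F h1
    · rw [← mul_assoc]; exact InD.mulb F (ha _ h1)
  have h3 : InD x a b z (s * u * p * w) := by
    rcases hw with h | h <;> rw [h]
    · rw [mul_one]; exact h2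
    · exact InD.mulx F h2
  have e : s * (u * (p * w)) = s * u * p * w := by group
  rw [e]
  exact h3

/-- the subgroup `⟨x, b⟩` -/
def D (F : Frame S x a b c z) : Subgroup G where
  carrier := {s | InD x a b z s}
  one_mem' := ⟨1, 1, 1, by simp⟩
  mul_mem' := fun hs ht => InD.mul F hs ht
  inv_mem' := by
    rintro s ⟨u, p, w, hu, hp, hw, rfl⟩
    have hu' : InD x a b z u⁻¹ := by
      rcases hu with h | h <;> rw [h]
      · exact ⟨1, 1, 1, by simp⟩
      · rw [F.zinv]; exact ⟨z, 1, 1, by simp⟩
    have hp' : InD x a b z p⁻¹ := by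
      rcases F.pinv' hp with h | h <;> rw [h]
      · exact ⟨1, p, 1, Or.inl rfl, hp, Or.inl rfl, by group⟩
      · exact ⟨z, p, 1, Or.inr rfl, hp, Or.inl rfl, by group⟩
    have hw' : InD x a b z w⁻¹ := by
      rcases hw with h | h <;> rw [h]
      · exact ⟨1, 1, 1, by simp⟩
      · rw [F.xinv]; exact ⟨z, a, x, by simp⟩
    have h1 := InD.mul F (InD.mul F hw' hp') hu'
    have e : (u * (p * w))⁻¹ = w⁻¹ * p⁻¹ * u⁻¹ := by group
    show InD x a b z (u * (p * w))⁻¹
    rw [e]
    exact h1

theorem mem_D (F : Frame S x a b c z) {s : G} : s ∈ F.D ↔ InD x a b z s := Iff.rfl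

theorem D_le (F : Frame S x a b c z) : F.D ≤ S := by
  rintro s ⟨u, p, w, hu, hp, hw, rfl⟩
  refine mul_mem (F.uS hu) (mul_mem (F.pS hp) ?_)
  rcases hw with h | h <;> rw [h]
  · exact one_mem _
  · exact F.xS

theorem xD (F : Frame S x a b c z) : x ∈ F.D := ⟨1, 1, x, by simp⟩
theorem aD (F : Frame S x a b c z) : a ∈ F.D := ⟨1, a, 1, by simp⟩
theorem bD (F : Frame S x a b c z) : b ∈ F.D := ⟨1, b, 1, by simp⟩
theorem zD (F : Frame S x a b c z) : z ∈ F.D := ⟨z, 1, 1, by simp⟩

/-- the frame of `D` -/
theorem frameD (F : Frame S x a b c z) : Frame F.D x a b 1 z := by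
  refine ⟨F.xD, F.bD, one_mem _, F.xa, F.aa, F.zz, F.bb, F.xb, one_mul 1, by group, by group, F.a1,
    F.az, ?_, Or.inl rfl⟩
  rintro s ⟨u, p, w, hu, hp, hw, rfl⟩
  exact ⟨u, p, 1, w, hu, hp, Or.inl rfl, hw, by rw [one_mul]⟩

theorem D_eq (F : Frame S x a b 1 z) : F.D = S := by
  apply le_antisymm F.D_le
  intro s hs
  obtain ⟨u, p, v, w, hu, hp, hv, hw, rfl⟩ := F.gen s hs
  refine ⟨u, p, w, hu, hp, hw, ?_⟩
  rcases hv with h | h <;> rw [h, one_mul]

/-- if the product of elements of `S \ D` by `c` -/
theorem mul_c (F : Frame S x a b c z) {s : G} (hs : s ∈ S) : s ∈ F.D ∨ s * c ∈ F.D := by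
  obtain ⟨u, p, v, w, hu, hp, hv, hw, rfl⟩ := F.gen s hs
  rcases hv with h | h
  · left
    exact ⟨u, p, w, hu, hp, hw, by rw [h, one_mul]⟩
  · right
    have hwc : w * c = c * w := by
      rcases hw with h' | h' <;> rw [h']
      · group
      · exact F.cx.symm
    refine ⟨u, p, w, hu, hp, hw, ?_⟩
    rw [h]
    calc u * (p * (c * w)) * c = u * (p * (c * (w * c))) := by group
      _ = u * (p * ((c * c) * w)) := by rw [hwc]; group
      _ = u * (p * w) := by rw [F.cc, one_mul]

theorem x_ne_b (F : Frame S x a b c z) : x * b ≠ b * x := by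
  intro h
  have h1 := F.xb
  rw [h] at h1
  exact F.ha h1.symm

/-- central involutions of `D` -/
theorem mem_of_central (F : Frame S x a b c z) {s : G} (hs : s ∈ F.D) (hx : s * x = x * s)
    (hb : s * b = b * s) (hss : s * s = 1) : s = 1 ∨ s = z ∨ s = a ∨ s = z * a := by
  obtain ⟨u, p, w, hu, hp, hw, rfl⟩ := hs
  have hux : u * x = x * u := by
    rcases hu with h | h <;> rw [h]
    · group
    · exact F.zx.symm
  have hub : u * b = b * u := by
    rcases hu with h | h <;> rw [h]
    · group
    · exact F.zb.symm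
  have hwx : w * x = x * w := by
    rcases hw with h | h <;> rw [h]
    group
  have hpx : p * x = x * p := by
    have h1 : u * (p * w) * x = u * (p * x) * w := by
      calc u * (p * w) * x = u * (p * (w * x)) := by group
        _ = u * (p * x) * w := by rw [hwx]; group
    have h2 : x * (u * (p * w)) = u * (x * p) * w := by
      calc x * (u * (p * w)) = (x * u) * p * w := by group
        _ = u * (x * p) * w := by rw [← hux]; group
    rw [h1, h2] at hx
    exact mul_left_cancel (mul_right_cancel hx)
  have hp' : p = 1 ∨ p = a := by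
    rcases hp with h | h | h | h
    · exact Or.inl h
    · exact Or.inr h
    · rw [h] at hpx; exact absurd hpx.symm F.x_ne_b
    · exfalso
      rw [h] at hpx
      have h1 : a * (b * x) = a * (x * b) := by
        calc a * (b * x) = a * b * x := by group
          _ = (x * a) * b := by rw [hpx]; group
          _ = a * (x * b) := by rw [F.ax]; group
      exact F.x_ne_b (mul_left_cancel h1).symm
  have hux' := hux
  have hw' : w = 1 := by
    rcases hw with h | h
    · exact h
    · exfalso
      have hxp : x * p = p * x := hpx.symm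
      have hpp : p * p = 1 ∨ p * p = z := by
        rcases hp' with h' | h' <;> rw [h']
        · left; group
        · right; exact F.aa
      have huu : u * u = 1 := by
        rcases hu with h' | h' <;> rw [h']
        · group
        · exact F.zz
      have hup : p * u = u * p := by
        rcases hu with h' | h' <;> rw [h']
        · group
        · rcases hp' with h'' | h'' <;> rw [h'']
          · group
          · exact F.za
      have e : u * (p * w) * (u * (p * w)) = (p * p) * a := by
        rw [h]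
        calc u * (p * x) * (u * (p * x)) = u * p * (x * u) * p * x := by group
          _ = u * (p * u) * (x * p) * x := by rw [← hux]; group
          _ = (u * u) * (p * p) * (x * x) := by rw [hup, hxp]; group
          _ = (p * p) * a := by rw [huu, F.xa, one_mul]
      rw [e] at hss
      rcases hpp with h' | h' <;> rw [h'] at hss
      · rw [one_mul] at hss; exact F.a1 hss
      · have := eq_inv_of_mul_eq_one_right hss
        rw [F.zinv] at this
        exact F.az this
  rw [hw', mul_one]
  rcases hu with h | h <;> rcases hp' with h' | h' <;> rw [h, h']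
  · left; group
  · right; right; left; group
  · right; left; group
  · right; right; right; rfl

theorem c_not_mem_D (F : Frame S x a b c z) (hc : c ≠ 1) : c ∉ F.D := by
  intro h
  obtain ⟨h1, h2, h3, h4⟩ := F.hc.resolve_left hc
  rcases F.mem_of_central h F.cx F.cb F.cc with h' | h' | h' | h'
  · exact h1 h'
  · exact h2 h'
  · exact h3 h'
  · exact h4 h'

theorem halfD (F : Frame S x a b c z) (hc : c ≠ 1) : Half F.D S := by
  refine half_of_mul F.D_le F.cS (F.c_not_mem_D hc) ?_
  intro s hs hsD
  exact (F.mul_c hs).resolve_left hsD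

theorem order4 (F : Frame S x a b c z) (hz : z = 1) : orderOf x = 4 := by
  have h1 : ¬ x ^ 2 ^ 1 = 1 := by
    rw [pow_one, pow_two, F.xa]; exact F.a1
  have h2 : x ^ 2 ^ (1 + 1) = 1 := by
    have : x ^ 2 ^ (1 + 1) = (x * x) * (x * x) := by
      norm_num
      simp only [pow_succ, pow_zero, one_mul, mul_assoc]
    rw [this, F.xa, F.aa, hz]
  have h3 := orderOf_eq_prime_pow h1 h2
  rw [h3]; norm_num

theorem order8 (F : Frame S x a b c z) (hz : z ≠ 1) : orderOf x = 8 := by
  have e4 : x ^ 2 ^ 2 = z := by
    have : x ^ 2 ^ 2 = (x * x) * (x * x) := by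
      norm_num
      simp only [pow_succ, pow_zero, one_mul, mul_assoc]
    rw [this, F.xa, F.aa]
  have h1 : ¬ x ^ 2 ^ 2 = 1 := by rw [e4]; exact hz
  have h2 : x ^ 2 ^ (2 + 1) = 1 := by
    rw [pow_succ 2 2, pow_mul, e4, pow_two, F.zz]
  have h3 := orderOf_eq_prime_pow h1 h2
  rw [h3]; norm_num

/-- The group `⟨x, b⟩` -/
theorem exists_hom (F : Frame S x a b c z) :
    (z = 1 → ∃ f : DihedralGroup 4 →* G, Function.Injective f ∧ f.range = F.D) ∧
    (z ≠ 1 → ∃ f : QuaternionGroup 4 →* G, Function.Injective f ∧ f.range = F.D) := by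
  have hcomm : ∀ i : ℕ, b * x ^ i ≠ 1 := by
    intro i h
    apply F.x_ne_b
    have h1 : b = (x ^ i)⁻¹ := eq_inv_of_mul_eq_one_left h
    rw [h1]
    group
  have hpow : ∀ i : ℕ, x ^ i ∈ F.D := fun i => pow_mem F.xD i
  constructor
  · intro hz
    have hord := F.order4 hz
    have hx4 : x ^ 4 = 1 := by rw [← hord, pow_orderOf_eq_one]
    have hbb : b * b = 1 := by rw [F.bb, hz]
    refine ⟨homD hx4 hbb F.bx', ?_, ?_⟩
    · rw [injective_iff_map_eq_one]
      rintro (i | i) h
      · have := val_eq_zero_of_pow hord h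
        rw [this]; rfl
      · exact absurd h (hcomm _)
    · apply le_antisymm
      · rintro _ ⟨(i | i), rfl⟩
        · exact hpow _
        · exact mul_mem F.bD (hpow _)
      · have hx' : x ∈ (homD hx4 hbb F.bx').range := ⟨.r 1, by
          show x ^ (1 : ZMod 4).val = x
          rw [show (1 : ZMod 4).val = 1 from rfl, pow_one]⟩
        have hb' : b ∈ (homD hx4 hbb F.bx').range := ⟨.sr 0, by
          show b * x ^ (0 : ZMod 4).val = b
          rw [ZMod.val_zero, pow_zero, mul_one]⟩
        have ha' := mul_mem hx' hx'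
        rw [F.xa] at ha'
        have hz' := mul_mem ha' ha'
        rw [F.aa] at hz'
        rintro s ⟨u, p, w, hu, hp, hw, rfl⟩
        refine mul_mem ?_ (mul_mem ?_ ?_)
        · rcases hu with h | h <;> rw [h]
          · exact one_mem _
          · exact hz'
        · rcases hp with h | h | h | h <;> rw [h]
          · exact one_mem _
          · exact ha'
          · exact hb'
          · exact mul_mem ha' hb'
        · rcases hw with h | h <;> rw [h]
          · exact one_mem _
          · exact hx'
  · intro hz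
    have hord := F.order8 hz
    have hx8 : x ^ (2 * 4) = 1 := by
      rw [show 2 * 4 = orderOf x by rw [hord], pow_orderOf_eq_one]
    have hbb : b * b = x ^ 4 := by
      rw [F.bb, ← F.aa, ← F.xa]
      simp only [pow_succ, pow_zero, one_mul, mul_assoc]
    refine ⟨homQ hx8 hbb F.bx', ?_, ?_⟩
    · rw [injective_iff_map_eq_one]
      rintro (i | i) h
      · have := val_eq_zero_of_pow (m := 2 * 4) hord h
        rw [this]; rfl
      · exact absurd h (hcomm _)
    · apply le_antisymm
      · rintro _ ⟨(i | i), rfl⟩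
        · exact hpow _
        · exact mul_mem F.bD (hpow _)
      · have hx' : x ∈ (homQ hx8 hbb F.bx').range := ⟨.a 1, by
          show x ^ (1 : ZMod (2 * 4)).val = x
          rw [show (1 : ZMod (2 * 4)).val = 1 from rfl, pow_one]⟩
        have hb' : b ∈ (homQ hx8 hbb F.bx').range := ⟨.xa 0, by
          show b * x ^ (0 : ZMod (2 * 4)).val = b
          rw [ZMod.val_zero, pow_zero, mul_one]⟩
        have ha' := mul_mem hx' hx'
        rw [F.xa] at ha'
        have hz' := mul_mem ha' ha'
        rw [F.aa] at hz'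
        rintro s ⟨u, p, w, hu, hp, hw, rfl⟩
        refine mul_mem ?_ (mul_mem ?_ ?_)
        · rcases hu with h | h <;> rw [h]
          · exact one_mem _
          · exact hz'
        · rcases hp with h | h | h | h <;> rw [h]
          · exact one_mem _
          · exact ha'
          · exact hb'
          · exact mul_mem ha' hb'
        · rcases hw with h | h <;> rw [h]
          · exact one_mem _
          · exact hx'

/-- the product with a group of order two -/
theorem exists_prod (F : Frame S x a b c z) (hc : c ≠ 1) {P : Type*} [Group P] (f : P →* G)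
    (hf : Function.Injective f) (hr : f.range = F.D) :
    Nonempty (S ≃* P × Multiplicative (ZMod 2)) := by
  have hcomm : ∀ (m : P) (n : Multiplicative (ZMod 2)), Commute (f m) (homC F.cc n) := by
    intro m n
    have h1 : f m ∈ S := F.D_le (hr ▸ ⟨m, rfl⟩)
    have h2 : Commute (f m) c := F.c_cen h1
    exact h2.pow_right _
  have hC : ∀ n : Multiplicative (ZMod 2), (homC F.cc n = 1 ∧ n = 1) ∨ homC F.cc n = c := by
    intro n
    rcases zmod2_cases (Multiplicative.toAdd n) with h | h
    · left
      have : n = 1 := h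
      exact ⟨by rw [this, map_one], this⟩
    · right
      show c ^ (Multiplicative.toAdd n).val = c
      rw [h, show (1 : ZMod 2).val = 1 from rfl, pow_one]
  refine nonempty_equiv (MonoidHom.noncommCoprod f (homC F.cc) hcomm) ?_ ?_
  · rw [injective_iff_map_eq_one]
    rintro ⟨p, n⟩ h
    rw [MonoidHom.noncommCoprod_apply] at h
    rcases hC n with ⟨h1, h2⟩ | h1
    · rw [h1, mul_one] at h
      have : p = 1 := hf (by rw [h, map_one])
      rw [this, h2]; rfl
    · exfalso
      rw [h1] at h
      apply F.c_not_mem_D hc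
      have h3 : c = (f p)⁻¹ := eq_inv_of_mul_eq_one_right h
      have h4 : (f p)⁻¹ ∈ F.D := inv_mem (hr ▸ ⟨p, rfl⟩)
      rw [← h3] at h4
      exact h4
  · apply le_antisymm
    · rintro _ ⟨⟨p, n⟩, rfl⟩
      rw [MonoidHom.noncommCoprod_apply]
      refine mul_mem (F.D_le (hr ▸ ⟨p, rfl⟩)) ?_
      rcases hC n with ⟨h1, _⟩ | h1 <;> rw [h1]
      · exact one_mem _
      · exact F.cS
    · intro s hs
      rcases F.mul_c hs with h | h
      · rw [← hr] at h
        obtain ⟨p, hp⟩ := h
        exact ⟨(p, 1), by rw [MonoidHom.noncommCoprod_apply, map_one, mul_one]; exact hp⟩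
      · rw [← hr] at h
        obtain ⟨p, hp⟩ := h
        refine ⟨(p, Multiplicative.ofAdd 1), ?_⟩
        rw [MonoidHom.noncommCoprod_apply, hp]
        have : homC F.cc (Multiplicative.ofAdd 1) = c := by
          show c ^ (1 : ZMod 2).val = c
          rw [show (1 : ZMod 2).val = 1 from rfl, pow_one]
        rw [this, mul_assoc, F.cc, mul_one]

end Frame

end Pool.Agent.Work.MP_cd0fff_al
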