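import Pool.Agent.Work.MP_cd0fff_al.Half

/-!
Non-normal subgroups of a `2`-group: their normalisers lie in suitable subgroups of index two.
-/

namespace Pool.Agent.Work.MP_cd0fff_al

open Subgroup

variable {G : Type*} [Group G]

/-- `E` has index two in `S` and has a normal subgroup which is not normal in `S`. -/
def MM (S E : Subgroup G) : Prop :=
  Half E S ∧ ∃ Y ≤ E, E ≤ normalizer (Y : Set G) ∧ ¬ S ≤ normalizer (Y : Set G)

theorem exists_norm_not_mem [Finite G] {S H : Subgroup G} (hS : IsPGroup 2 S) (hH : H ≤ S)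
    (hne : ¬ S ≤ H) : ∃ m ∈ S, m ∉ H ∧ m ∈ normalizer (H : Set G) := by
  have : Group.IsNilpotent S := hS.isNilpotent
  have hnc : NormalizerCondition S := Group.normalizerCondition_of_isNilpotent
  have h1 : H.subgroupOf S < ⊤ := by
    rw [lt_top_iff_ne_top]
    intro h
    rw [subgroupOf_eq_top] at h
    exact hne h
  have h2 := hnc _ h1
  obtain ⟨m, hm, hmH⟩ := SetLike.exists_of_lt h2
  refine ⟨m, m.2, hmH, ?_⟩
  apply mem_normalizer_of
  · intro y hy
    have := norm_conj hm (y := ⟨y, hH hy⟩) (by rw [mem_subgroupOf]; exact hy)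
    simpa [mem_subgroupOf] using this
  · intro y hy
    have := norm_conj' hm (y := ⟨y, hH hy⟩) (by rw [mem_subgroupOf]; exact hy)
    simpa [mem_subgroupOf] using this

theorem mem_normalizer_fin [Finite G] {H : Subgroup G} {x : G} (h : ∀ y ∈ H, x * y * x⁻¹ ∈ H) :
    x ∈ normalizer (H : Set G) := by
  have h1 : H.map (MulAut.conj x).toMonoidHom ≤ H := by
    rintro _ ⟨y, hy, rfl⟩
    exact h y hy
  have h2 : H.map (MulAut.conj x).toMonoidHom = H :=
    Subgroup.eq_of_le_of_card_ge h1 (by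
      rw [Subgroup.card_map_of_injective (MulAut.conj x).injective])
  apply mem_normalizer_of h
  intro y hy
  rw [← h2] at hy
  obtain ⟨z, hz, rfl⟩ := hy
  have : x⁻¹ * (MulAut.conj x).toMonoidHom z * x = z := by
    simp only [MulEquiv.toMonoidHom_eq_coe, MonoidHom.coe_coe, MulAut.conj_apply]
    group
  rw [this]
  exact hz

/-- `T ∪ Ta` for `a` normalising `T` with `a ^ 2 ∈ T`. -/
def adj (T : Subgroup G) (a : G) (ha : a ∈ normalizer (T : Set G)) (ha2 : a * a ∈ T) :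
    Subgroup G where
  carrier := {x | x ∈ T ∨ x * a⁻¹ ∈ T}
  one_mem' := Or.inl T.one_mem
  mul_mem' := by
    rintro x y (hx | hx) (hy | hy)
    · exact Or.inl (T.mul_mem hx hy)
    · right
      rw [mul_assoc]
      exact T.mul_mem hx hy
    · right
      have : x * y * a⁻¹ = x * a⁻¹ * (a * y * a⁻¹) := by group
      rw [this]
      exact T.mul_mem hx (norm_conj ha hy)
    · left
      have : x * y = x * a⁻¹ * (a * (y * a⁻¹) * a⁻¹) * (a * a) := by group
      rw [this]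
      exact T.mul_mem (T.mul_mem hx (norm_conj ha hy)) ha2
  inv_mem' := by
    rintro x (hx | hx)
    · exact Or.inl (T.inv_mem hx)
    · right
      have : x⁻¹ * a⁻¹ = (a * (x * a⁻¹) * a⁻¹ * (a * a))⁻¹ := by group
      rw [this]
      exact T.inv_mem (T.mul_mem (norm_conj ha hx) ha2)

theorem mem_adj {T : Subgroup G} {a : G} {ha : a ∈ normalizer (T : Set G)} {ha2 : a * a ∈ T}
    {x : G} : x ∈ adj T a ha ha2 ↔ x ∈ T ∨ x * a⁻¹ ∈ T := Iff.rfl

theorem lemma_F [Finite G] {S : Subgroup G} (hS : IsPGroup 2 S) {Y₀ : Subgroup G} (hY₀ : Y₀ ≤ S)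
    (hn₀ : ¬ S ≤ normalizer (Y₀ : Set G)) :
    ∃ E, MM S E ∧ S ⊓ normalizer (Y₀ : Set G) ≤ E := by
  classical
  set 𝒩 : Set (Subgroup G) := {N | ∃ Y ≤ S, ¬ S ≤ normalizer (Y : Set G) ∧
    N = S ⊓ normalizer (Y : Set G) ∧ S ⊓ normalizer (Y₀ : Set G) ≤ N} with h𝒩
  have hfin : 𝒩.Finite := Set.toFinite _
  obtain ⟨N, ⟨⟨Y, hYS, hYn, hNY, hN₀⟩, hmax⟩⟩ :=
    hfin.exists_maximal ⟨_, Y₀, hY₀, hn₀, rfl, le_refl _⟩
  have hNS : N ≤ S := by rw [hNY]; exact inf_le_left
  have hNN : N ≤ normalizer (Y : Set G) := by rw [hNY]; exact inf_le_right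
  -- the maximality property
  have hmaxp : ∀ X : Subgroup G, X ≤ S → N ≤ normalizer (X : Set G) →
      ∀ m ∈ S, m ∉ N → m ∈ normalizer (X : Set G) → S ≤ normalizer (X : Set G) := by
    intro X hXS hX m hm hmN hmX
    by_contra hcon
    apply hmN
    have h1 : N ≤ S ⊓ normalizer (X : Set G) := le_inf hNS hX
    exact hmax (y := S ⊓ normalizer (X : Set G)) ⟨X, hXS, hcon, rfl, hN₀.trans h1⟩ h1 ⟨hm, hmX⟩
  have hYN : Y ≤ N := by
    rw [hNY]; exact le_inf hYS Subgroup.le_normalizer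
  have hSN : ¬ S ≤ N := fun h => hYn (h.trans hNN)
  obtain ⟨m₁, hm₁S, hm₁N, hm₁n⟩ := exists_norm_not_mem hS hNS hSN
  -- an element `m` with `m ^ 2 ∈ N`
  have hN1p : IsPGroup 2 (S ⊓ normalizer (N : Set G) : Subgroup G) := hS.to_le inf_le_left
  obtain ⟨m, hmS', hmN, hm2, _⟩ := exists_rel_central (P := S ⊓ normalizer (N : Set G)) (T := N)
    (Y := S ⊓ normalizer (N : Set G)) hN1p (le_inf hNS Subgroup.le_normalizer) le_rfl
    inf_le_right Subgroup.le_normalizer (fun h => hm₁N (h ⟨hm₁S, hm₁n⟩))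
  obtain ⟨hmS, hmn⟩ := hmS'
  clear hm₁S hm₁N hm₁n
  -- `T = Y ⊓ Y^m`
  set T : Subgroup G := Y ⊓ Y.map (MulAut.conj m).toMonoidHom with hT
  have memcj : ∀ x, x ∈ Y.map (MulAut.conj m).toMonoidHom ↔ m⁻¹ * x * m ∈ Y := by
    intro x
    constructor
    · rintro ⟨y, hy, rfl⟩
      simp only [MulEquiv.toMonoidHom_eq_coe, MonoidHom.coe_coe, MulAut.conj_apply]
      have : m⁻¹ * (m * y * m⁻¹) * m = y := by group
      rw [this]; exact hy
    · intro h
      refine ⟨_, h, ?_⟩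
      simp only [MulEquiv.toMonoidHom_eq_coe, MonoidHom.coe_coe, MulAut.conj_apply]
      group
  have memT : ∀ x, x ∈ T ↔ x ∈ Y ∧ m⁻¹ * x * m ∈ Y := by
    intro x
    rw [hT, mem_inf, memcj]
  have hNT : N ≤ normalizer (T : Set G) := by
    apply le_normalizer_of
    intro n hn y hy
    rw [memT] at hy ⊢
    refine ⟨norm_conj (hNN hn) hy.1, ?_⟩
    have : m⁻¹ * (n * y * n⁻¹) * m = (m⁻¹ * n * m) * (m⁻¹ * y * m) * (m⁻¹ * n * m)⁻¹ := by group
    rw [this]
    exact norm_conj (hNN (norm_conj' hmn hn)) hy.2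
  have hmT : m ∈ normalizer (T : Set G) := by
    apply mem_normalizer_fin
    intro y hy
    rw [memT] at hy ⊢
    constructor
    · have : m * y * m⁻¹ = (m * m) * (m⁻¹ * y * m) * (m * m)⁻¹ := by group
      rw [this]
      exact norm_conj (hNN hm2) hy.2
    · have : m⁻¹ * (m * y * m⁻¹) * m = y := by group
      rw [this]
      exact hy.1
  have hTY : T ≤ Y := inf_le_left
  have hST : S ≤ normalizer (T : Set G) := hmaxp T (hTY.trans hYS) hNT m hmS hmN hmT
  have hYT : ¬ Y ≤ T := by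
    intro h
    apply hmN
    rw [hNY]
    refine ⟨hmS, ?_⟩
    have h1 : m⁻¹ ∈ normalizer (Y : Set G) := by
      apply mem_normalizer_fin
      intro y hy
      rw [inv_inv]
      exact ((memT y).1 (h hy)).2
    simpa using inv_mem h1
  obtain ⟨a, haY, haT, ha2, haN⟩ := exists_rel_central (P := N) (hS.to_le hNS) hTY hYN hNT hNN hYT
  have haN' : a ∈ N := hYN haY
  have Tc : ∀ s ∈ S, ∀ x ∈ T, s * x * s⁻¹ ∈ T := fun s hs x hx => norm_conj (hST hs) hx
  have Tc' : ∀ s ∈ S, ∀ x ∈ T, s⁻¹ * x * s ∈ T := fun s hs x hx => norm_conj' (hST hs) hx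
  have haT' : a ∈ normalizer (T : Set G) := hNT haN'
  set A := adj T a haT' ha2 with hA
  have hTA : T ≤ A := fun x hx => Or.inl hx
  have haA : a ∈ A := by right; rw [mul_inv_cancel]; exact T.one_mem
  have hAY : A ≤ Y := by
    rintro x (hx | hx)
    · exact hTY hx
    · have := Y.mul_mem (hTY hx) haY
      simpa using this
  have hNA : N ≤ normalizer (A : Set G) := by
    apply le_normalizer_of
    rintro p hp x (hx | hx)
    · exact Or.inl (Tc p (hNS hp) x hx)
    · right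
      have : p * x * p⁻¹ * a⁻¹ = (p * (x * a⁻¹) * p⁻¹) * (p * a * p⁻¹ * a⁻¹) := by group
      rw [this]
      exact T.mul_mem (Tc p (hNS hp) _ hx) (haN p hp)
  -- the conjugate
  set a' := m * a * m⁻¹ with ha'
  have ha'N : a' ∈ N := norm_conj hmn haN'
  have haa' : ∀ x, x ∈ T → a ≠ x * a' := by
    rintro x hx h
    apply haT
    rw [memT]
    refine ⟨haY, ?_⟩
    have h2 := ((memT x).1 hx).2
    have : m⁻¹ * a * m = (m⁻¹ * x * m) * a := by
      conv_lhs => rw [h]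
      rw [ha']; group
    rw [this]
    exact Y.mul_mem h2 haY
  have ha'T : a' ∉ T := by
    intro h
    apply haT
    have := Tc' m hmS _ h
    have e : m⁻¹ * a' * m = a := by rw [ha']; group
    rwa [e] at this
  have hAn : ¬ S ≤ normalizer (A : Set G) := by
    intro h
    have h1 : a' ∈ A := norm_conj (h hmS) haA
    rcases h1 with h1 | h1
    · exact ha'T h1
    · apply haa' (a' * a⁻¹)⁻¹ (T.inv_mem h1)
      group
  have ha'2 : a' * a' ∈ A := by
    apply hTA
    have : a' * a' = m * (a * a) * m⁻¹ := by rw [ha']; group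
    rw [this]
    exact Tc m hmS _ ha2
  have ha'p : ∀ p ∈ N, p * a' * p⁻¹ * a'⁻¹ ∈ T := by
    intro p hp
    have : p * a' * p⁻¹ * a'⁻¹ =
        m * ((m⁻¹ * p * m) * a * (m⁻¹ * p * m)⁻¹ * a⁻¹) * m⁻¹ := by rw [ha']; group
    rw [this]
    exact Tc m hmS _ (haN _ (norm_conj' hmn hp))
  set J := adj A a' (hNA ha'N) ha'2 with hJ
  have hAJ : A ≤ J := fun x hx => Or.inl hx
  have ha'J : a' ∈ J := by right; rw [mul_inv_cancel]; exact A.one_mem
  have hJN : J ≤ N := by
    rintro x (hx | hx)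
    · exact hYN (hAY hx)
    · have := N.mul_mem (hYN (hAY hx)) ha'N
      simpa using this
  have hNJ : N ≤ normalizer (J : Set G) := by
    apply le_normalizer_of
    rintro p hp x (hx | hx)
    · exact Or.inl (norm_conj (hNA hp) hx)
    · right
      have : p * x * p⁻¹ * a'⁻¹ = (p * (x * a'⁻¹) * p⁻¹) * (p * a' * p⁻¹ * a'⁻¹) := by group
      rw [this]
      exact A.mul_mem (norm_conj (hNA hp) hx) (hTA (ha'p p hp))
  have hmA : ∀ x ∈ A, m * x * m⁻¹ ∈ J := by
    rintro x (hx | hx)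
    · exact hAJ (hTA (Tc m hmS x hx))
    · have : m * x * m⁻¹ = (m * (x * a⁻¹) * m⁻¹) * a' := by rw [ha']; group
      rw [this]
      exact J.mul_mem (hAJ (hTA (Tc m hmS _ hx))) ha'J
  have hma' : m * a' * m⁻¹ ∈ J := by
    have : m * a' * m⁻¹ = ((m * m) * a * (m * m)⁻¹ * a⁻¹) * a := by rw [ha']; group
    rw [this]
    exact J.mul_mem (hAJ (hTA (haN _ hm2))) (hAJ haA)
  have hmJ : m ∈ normalizer (J : Set G) := by
    apply mem_normalizer_fin
    rintro x (hx | hx)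
    · exact hmA x hx
    · have : m * x * m⁻¹ = (m * (x * a'⁻¹) * m⁻¹) * (m * a' * m⁻¹) := by group
      rw [this]
      exact J.mul_mem (hmA _ hx) hma'
  have hSJ : S ≤ normalizer (J : Set G) := hmaxp J (hJN.trans hNS) hNJ m hmS hmN hmJ
  -- membership in `N` through the action on `a`
  have hinN : ∀ b ∈ S, b * a * b⁻¹ * a⁻¹ ∈ T → b ∈ N := by
    intro b hb h
    by_contra hbN
    apply hAn
    refine hmaxp A (hAY.trans hYS) hNA b hb hbN ?_
    apply mem_normalizer_fin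
    rintro x (hx | hx)
    · exact Or.inl (Tc b hb x hx)
    · right
      have : b * x * b⁻¹ * a⁻¹ = (b * (x * a⁻¹) * b⁻¹) * (b * a * b⁻¹ * a⁻¹) := by group
      rw [this]
      exact T.mul_mem (Tc b hb _ hx) h
  -- a central element modulo `T`
  obtain ⟨u, huJ, huT, _, hu⟩ := exists_rel_central (P := S) hS (hTA.trans hAJ) (hJN.trans hNS)
    hST hSJ (fun h => haT (h (hAJ haA)))
  have hnot : ¬ ∀ s ∈ S, s * a * s⁻¹ * a⁻¹ ∈ T := by
    intro h
    exact hSN fun s hs => hinN s hs (h s hs)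
  have hu' : u * a'⁻¹ * a⁻¹ ∈ T := by
    rcases huJ with hx | hx
    · rcases hx with hx | hx
      · exact absurd hx huT
      · exfalso
        apply hnot
        intro s hs
        have : s * a * s⁻¹ * a⁻¹ = (s * (u * a⁻¹)⁻¹ * s⁻¹) * (s * u * s⁻¹ * u⁻¹) * (u * a⁻¹) := by
          group
        rw [this]
        exact T.mul_mem (T.mul_mem (Tc s hs _ (T.inv_mem hx)) (hu s hs)) hx
    · rcases hx with hx | hx
      · exfalso
        apply hnot
        have key : ∀ s ∈ S, s * a' * s⁻¹ * a'⁻¹ ∈ T := by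
          intro s hs
          have : s * a' * s⁻¹ * a'⁻¹ =
              (s * (u * a'⁻¹)⁻¹ * s⁻¹) * (s * u * s⁻¹ * u⁻¹) * (u * a'⁻¹) := by group
          rw [this]
          exact T.mul_mem (T.mul_mem (Tc s hs _ (T.inv_mem hx)) (hu s hs)) hx
        intro s hs
        have h1 := key (m * s * m⁻¹) (S.mul_mem (S.mul_mem hmS hs) (S.inv_mem hmS))
        have h2 := Tc' m hmS _ h1
        have e : m⁻¹ * (m * s * m⁻¹ * a' * (m * s * m⁻¹)⁻¹ * a'⁻¹) * m =
            s * a * s⁻¹ * a⁻¹ := by rw [ha']; group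
        rwa [e] at h2
      · exact hx
  have hb : ∀ b ∈ S, b ∉ N → b * a * b⁻¹ * a'⁻¹ ∈ T := by
    intro b hbS hbN
    have h1 : b * a * b⁻¹ ∈ J := norm_conj (hSJ hbS) (hAJ haA)
    rcases h1 with (h1 | h1) | (h1 | h1)
    · exfalso
      apply haT
      have := Tc' b hbS _ h1
      have e : b⁻¹ * (b * a * b⁻¹) * b = a := by group
      rwa [e] at this
    · exact absurd (hinN b hbS h1) hbN
    · exact h1
    · exfalso
      -- `b a b⁻¹ ∈ T u`, so `a ∈ T u`
      have h2 : b * a * b⁻¹ * u⁻¹ ∈ T := by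
        have : b * a * b⁻¹ * u⁻¹ = (b * a * b⁻¹ * a'⁻¹ * a⁻¹) * (u * a'⁻¹ * a⁻¹)⁻¹ := by group
        rw [this]
        exact T.mul_mem h1 (T.inv_mem hu')
      have h3 : a * u⁻¹ ∈ T := by
        have h4 := Tc' b hbS _ h2
        have h5 := hu b⁻¹ (S.inv_mem hbS)
        rw [inv_inv] at h5
        have e : a * u⁻¹ = (b⁻¹ * (b * a * b⁻¹ * u⁻¹) * b) * (b⁻¹ * u * b * u⁻¹) := by group
        rw [e]
        exact T.mul_mem h4 h5
      apply ha'T
      have h6 : a'⁻¹ = a⁻¹ * ((a * u⁻¹) * (u * a'⁻¹ * a⁻¹)) * a := by group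
      have h7 : a'⁻¹ ∈ T := by
        rw [h6]
        exact Tc' a (hNS haN') _ (T.mul_mem h3 hu')
      simpa using T.inv_mem h7
  have hhalf : Half N S := by
    refine half_of_mul hNS hmS hmN ?_
    intro b hbS hbN
    by_contra hbm
    have h1 := hb _ (S.mul_mem hbS hmS) hbm
    have h2 := hb b hbS hbN
    have e1 : b * m * a * (b * m)⁻¹ * a'⁻¹ = b * a' * b⁻¹ * a'⁻¹ := by rw [ha']; group
    rw [e1] at h1
    have h3 : b * (a * a'⁻¹) * b⁻¹ ∈ T := by
      have : b * (a * a'⁻¹) * b⁻¹ = (b * a * b⁻¹ * a'⁻¹) * (b * a' * b⁻¹ * a'⁻¹)⁻¹ := by group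
      rw [this]
      exact T.mul_mem h2 (T.inv_mem h1)
    have h4 := Tc' b hbS _ h3
    have e2 : b⁻¹ * (b * (a * a'⁻¹) * b⁻¹) * b = a * a'⁻¹ := by group
    rw [e2] at h4
    apply haa' _ h4
    group
  exact ⟨N, ⟨hhalf, A, hAY.trans hYN, hNA, hAn⟩, hN₀⟩

end Pool.Agent.Work.MP_cd0fff_al
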