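import Pool.Agent.Work.MP_cd0fff_al.SylowH

/-!
Links between additive functions: functions `h` with `h (x y) = h x + h y + l x * m y`.
-/

universe u

namespace Pool.Agent.Work.MP_cd0fff_al

open Subgroup

variable {G : Type u} [Group G]

/-- `h` links `l` and `m` on `S`. -/
def Lk (S : Subgroup G) (l m h : G → ZMod 2) : Prop :=
  ∀ x ∈ S, ∀ y ∈ S, h (x * y) = h x + h y + l x * m y

section

variable {S : Subgroup G} {l m h : G → ZMod 2}

theorem Lk.one (hk : Lk S l m h) (hl : AddOn S l) : h 1 = 0 := by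
  have h1 := hk 1 S.one_mem 1 S.one_mem
  rw [mul_one, hl.one, zero_mul, add_zero, zdbl] at h1
  exact h1

theorem Lk.sq (hk : Lk S l m h) {x : G} (hx : x ∈ S) : h (x * x) = l x * m x := by
  rw [hk x hx x hx, zdbl, zero_add]

theorem Lk.symm (hk : Lk S l m h) (hl : AddOn S l) (hm : AddOn S m) :
    Lk S m l (fun x => h x + l x * m x) := by
  intro x hx y hy
  simp only
  rw [hk x hx y hy, hl x hx y hy, hm x hx y hy]
  have aux : ∀ a b c d e f : ZMod 2, a + b + c * f + (c + d) * (e + f) =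
    a + c * e + (b + d * f) + e * d := by decide
  exact aux _ _ _ _ _ _

theorem Lk.inv (hk : Lk S l m h) (hl : AddOn S l) (hm : AddOn S m) {x : G} (hx : x ∈ S) :
    h x⁻¹ = h x + l x * m x := by
  have h1 := hk x hx x⁻¹ (S.inv_mem hx)
  rw [mul_inv_cancel, hk.one hl, hm.inv hx] at h1
  have aux : ∀ a b c : ZMod 2, 0 = a + b + c → b = a + c := by decide
  exact aux _ _ _ h1

theorem Lk.conj (hk : Lk S l m h) (hl : AddOn S l) {x y : G}
    (hx : x ∈ S) (hy : y ∈ S) : h (x * y * x⁻¹) = h y + l x * m y + l y * m x := by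
  have h1 := hk (x * y * x⁻¹) (S.mul_mem (S.mul_mem hx hy) (S.inv_mem hx)) x hx
  rw [inv_mul_cancel_right, hk x hx y hy, hl.conj hx hy] at h1
  have aux : ∀ a b c d e : ZMod 2, a + b + c = d + a + e → d = b + c + e := by decide
  exact aux _ _ _ _ _ h1

theorem Lk.comm (hk : Lk S l m h) (hl : AddOn S l) (hm : AddOn S m) {x y : G}
    (hx : x ∈ S) (hy : y ∈ S) : h (x * y * x⁻¹ * y⁻¹) = l x * m y + l y * m x := by
  rw [hk _ (S.mul_mem (S.mul_mem hx hy) (S.inv_mem hx)) _ (S.inv_mem hy), hk.conj hl hx hy,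
    hk.inv hl hm hy, hl.conj hx hy, hm.inv hy]
  have aux : ∀ a b c d : ZMod 2, a + b + c + (a + d) + d = b + c := by decide
  exact aux _ _ _ _

theorem Lk.addOn (hk : Lk S l m h) (E : Subgroup G) (hE : E ≤ S) (hl : ∀ e ∈ E, l e = 0) :
    AddOn E h := by
  intro x hx y hy
  rw [hk x (hE hx) y (hE hy), hl x hx, zero_mul, add_zero]

theorem Lk.addOn' (hk : Lk S l m h) (E : Subgroup G) (hE : E ≤ S) (hl : ∀ e ∈ E, m e = 0) :
    AddOn E h := by
  intro x hx y hy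
  rw [hk x (hE hx) y (hE hy), hl y hy, mul_zero, add_zero]

theorem Lk.add_right (hk : Lk S l m h) {m' h' : G → ZMod 2} (hk' : Lk S l m' h') :
    Lk S l (m + m') (h + h') := by
  intro x hx y hy
  simp only [Pi.add_apply]
  rw [hk x hx y hy, hk' x hx y hy]
  ring

theorem Lk.add_left (hk : Lk S l m h) {l' h' : G → ZMod 2} (hk' : Lk S l' m h') :
    Lk S (l + l') m (h + h') := by
  intro x hx y hy
  simp only [Pi.add_apply]
  rw [hk x hx y hy, hk' x hx y hy]
  ring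

theorem lk_zero_iff : Lk S l 0 h ↔ AddOn S h := by
  constructor
  · intro hk x hx y hy
    rw [hk x hx y hy]
    simp
  · intro hk x hx y hy
    rw [hk x hx y hy]
    simp

/-- The middle function is determined by the link. -/
theorem Lk.addOn_mid (hk : Lk S l m h) (hl : AddOn S l) {x₀ : G} (hx₀ : x₀ ∈ S)
    (hx₁ : l x₀ = 1) : AddOn S m := by
  intro y hy z hz
  have h1 := hk (x₀ * y) (S.mul_mem hx₀ hy) z hz
  have h2 := hk x₀ hx₀ (y * z) (S.mul_mem hy hz)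
  have h3 := hk y hy z hz
  have h4 := hk x₀ hx₀ y hy
  rw [mul_assoc] at h1
  rw [hl _ hx₀ _ hy, hx₁] at h1
  rw [hx₁] at h2 h4
  generalize h (x₀ * (y * z)) = a1 at *
  generalize h (x₀ * y) = a2 at *
  generalize h (y * z) = a3 at *
  generalize h x₀ = a4 at *
  generalize h y = a5 at *
  generalize h z = a6 at *
  generalize m (y * z) = a7 at *
  generalize m y = a8 at *
  generalize m z = a9 at *
  generalize l y = a10 at *
  have e1 : a7 = a1 + a4 + a3 := by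
    rw [h2]
    have aux : ∀ a b c : ZMod 2, a = b + c + 1 * a + b + c := by decide
    exact aux _ _ _
  have e2 : a8 = a2 + a4 + a5 := by
    rw [h4]
    have aux : ∀ a b c : ZMod 2, a = b + c + 1 * a + b + c := by decide
    exact aux _ _ _
  rw [e1, h1, h3, e2]
  have aux : ∀ a2 a4 a5 a6 a9 a10 : ZMod 2, a2 + a6 + (1 + a10) * a9 + a4 + (a5 + a6 + a10 * a9) =
    a2 + a4 + a5 + a9 := by decide
  exact aux _ _ _ _ _ _

/-- Every additive function on the kernel of `l` extends to a link function. -/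
theorem exists_ext (hl : AddOn S l) {x₀ : G} (hx₀ : x₀ ∈ S) (hx₁ : l x₀ = 1)
    {φ : G → ZMod 2} (hφ : AddOn (kr S l hl) φ) :
    ∃ m h, AddOn S m ∧ Lk S l m h ∧ ∀ e ∈ kr S l hl, h e = φ e := by
  classical
  set E := kr S l hl with hE
  have hH : Half E S := half_kr hx₀ hx₁
  have hx₀' : x₀ ∉ E := (not_mem_kr hx₀).2 hx₁
  have l0 : ∀ e ∈ E, l e = 0 := fun e he => he.2
  have l1 : ∀ y ∈ S, y ∉ E → l y = 1 := fun y hy hy' => (not_mem_kr hy).1 hy'
  have E1 : ∀ y ∈ S, y ∉ E → y * x₀⁻¹ ∈ E := by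
    intro y hy hy'
    refine hH.mul_mem hy (S.inv_mem hx₀) hy' ?_
    intro h; exact hx₀' (by simpa using E.inv_mem h)
  have E2 : ∀ y ∈ S, y ∉ E → x₀⁻¹ * y ∈ E := by
    intro y hy hy'
    refine hH.mul_mem (S.inv_mem hx₀) hy ?_ hy'
    intro h; exact hx₀' (by simpa using E.inv_mem h)
  set h : G → ZMod 2 := fun y => if y ∈ E then φ y else φ (y * x₀⁻¹) with hh
  set m : G → ZMod 2 := fun y => if y ∈ E then φ y + φ (x₀ * y * x₀⁻¹) else
    φ (x₀ * x₀) + φ (x₀⁻¹ * y) + φ (y * x₀⁻¹) with hm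
  have h0 : ∀ y ∈ E, h y = φ y := fun y hy => by simp only [hh, hy, if_true]
  have h1 : ∀ y, y ∉ E → h y = φ (y * x₀⁻¹) := fun y hy => by simp only [hh, hy, if_false]
  have m0 : ∀ y ∈ E, m y = φ y + φ (x₀ * y * x₀⁻¹) := fun y hy => by
    simp only [hm, hy, if_true]
  have m1 : ∀ y, y ∉ E → m y = φ (x₀ * x₀) + φ (x₀⁻¹ * y) + φ (y * x₀⁻¹) := fun y hy => by
    simp only [hm, hy, if_false]
  have hLk : Lk S l m h := by
    intro y hy z hz
    by_cases hyE : y ∈ E <;> by_cases hzE : z ∈ E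
    · rw [h0 _ (E.mul_mem hyE hzE), h0 y hyE, h0 z hzE, l0 y hyE, hφ y hyE z hzE]
      ring
    · have hyz : y * z ∉ E := by
        rw [hH.mul_mem_iff hy hz]; tauto
      rw [h1 _ hyz, h0 y hyE, h1 z hzE, l0 y hyE, mul_assoc, hφ y hyE _ (E1 z hz hzE)]
      ring
    · have hyz : y * z ∉ E := by
        rw [hH.mul_mem_iff hy hz]; tauto
      have e : y * z * x₀⁻¹ = (y * x₀⁻¹) * (x₀ * z * x₀⁻¹) := by group
      rw [h1 _ hyz, h1 y hyE, h0 z hzE, l1 y hy hyE, m0 z hzE, e,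
        hφ _ (E1 y hy hyE) _ (hH.conj_mem hx₀ hzE)]
      have aux : ∀ a b c : ZMod 2, a + b = a + c + 1 * (c + b) := by decide
      exact aux _ _ _
    · have hyz : y * z ∈ E := hH.mul_mem hy hz hyE hzE
      have e : y * z = (y * x₀⁻¹) * ((x₀ * x₀) * (x₀⁻¹ * z)) := by group
      rw [h0 _ hyz, h1 y hyE, h1 z hzE, l1 y hy hyE, m1 z hzE, e,
        hφ _ (E1 y hy hyE) _ (E.mul_mem (hH.sq_mem hx₀) (E2 z hz hzE)),
        hφ _ (hH.sq_mem hx₀) _ (E2 z hz hzE)]
      have aux : ∀ a b c d : ZMod 2, a + (b + c) = a + d + 1 * (b + c + d) := by decide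
      exact aux _ _ _ _
  exact ⟨m, h, hLk.addOn_mid hl hx₀ hx₁, hLk, h0⟩

/-- A nontrivial link shows that the kernel of `l` lies in `MM`. -/
theorem MM_of_link (hk : Lk S l m h) (hl : AddOn S l) {x₀ e₀ : G} (hx₀ : x₀ ∈ S)
    (hx₁ : l x₀ = 1) (he₀ : e₀ ∈ S) (he₁ : l e₀ = 0) (he₂ : m e₀ = 1) : MM S (kr S l hl) := by
  set E := kr S l hl with hE
  have hH : Half E S := half_kr hx₀ hx₁
  have hadd : AddOn E h := hk.addOn E kr_le (fun e he => he.2)
  refine ⟨hH, kr E h hadd, kr_le, ?_, ?_⟩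
  · apply le_normalizer_of
    rintro x hx y ⟨hy, hy'⟩
    exact ⟨E.mul_mem (E.mul_mem hx hy) (E.inv_mem hx), by rw [hadd.conj hx hy, hy']⟩
  · intro hcon
    have he₀E : e₀ ∈ E := ⟨he₀, he₁⟩
    have h1 := hk.conj hl hx₀ he₀
    rw [hx₁, he₂, he₁] at h1
    by_cases h0 : h e₀ = 0
    · have h2 := norm_conj (hcon hx₀) (show e₀ ∈ kr E h hadd from ⟨he₀E, h0⟩)
      have h3 : h (x₀ * e₀ * x₀⁻¹) = 0 := h2.2
      rw [h3, h0, zero_mul] at h1
      revert h1; decide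
    · have h0' := zne h0
      have h2 : x₀ * e₀ * x₀⁻¹ ∈ kr E h hadd := by
        refine ⟨hH.conj_mem hx₀ he₀E, ?_⟩
        rw [h1, h0', zero_mul]; decide
      have h3 := norm_conj' (hcon hx₀) h2
      have e : x₀⁻¹ * (x₀ * e₀ * x₀⁻¹) * x₀ = e₀ := by group
      rw [e] at h3
      exact h0 h3.2

end

/-- Lemma 1: `S` acts nontrivially on `E / Ph E` for `E ∈ MM`. -/
theorem nontrivial_action [Finite G] (hO : PropertyO G) {S : Sylow 2 G} {E : Subgroup G}
    (hM : MM S E) : ∃ x ∈ (S : Subgroup G), x ∉ E ∧ ∃ e ∈ E, ∃ φ, AddOn E φ ∧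
      φ (x * e * x⁻¹) ≠ φ e := by
  obtain ⟨hE, Y, hYE, hEY, hSY⟩ := hM
  by_contra hcon
  push Not at hcon
  have hEp : IsPGroup 2 E := S.isPGroup'.to_le hE.le
  obtain ⟨k, hk, hkS⟩ := exists_conj_norm hO hE hYE hEY
  obtain ⟨x, hx, hxE⟩ := hE.exists_not_mem
  set x' := k * x * k⁻¹ with hx'
  have hx'Y : x' ∈ normalizer (Y : Set G) := hkS x hx
  have hxN : x ∈ normalizer (E : Set G) := hE.le_normalizer hx
  have hx'N : x' ∈ normalizer (E : Set G) := mul_mem (mul_mem hk hxN) (inv_mem hk)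
  have o1 : Out S E x := out_self hx hxE
  have o2 : Out S E x' := o1.conj hk
  obtain ⟨n, hn, hxx⟩ := o1.odd hE o2
  obtain ⟨r, N, hN, hrN, e, he, hre⟩ := exists_odd_rep hEp hn hxx
  -- trivial actions
  have t1 : ∀ e ∈ E, ∀ φ, AddOn E φ → φ (x * e * x⁻¹) = φ e := fun e he φ hφ =>
    hcon x hx hxE e he φ hφ
  have t2 : ∀ e ∈ E, ∀ φ, AddOn E φ → φ (x' * e * x'⁻¹) = φ e := by
    intro e he φ hφ
    have h1 := t1 (k⁻¹ * e * k) (norm_conj' hk he) _ (hφ.comp_conj hk)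
    have e1 : k * (x * (k⁻¹ * e * k) * x⁻¹) * k⁻¹ = x' * e * x'⁻¹ := by rw [hx']; group
    have e2 : k * (k⁻¹ * e * k) * k⁻¹ = e := by group
    rw [e1, e2] at h1
    exact h1
  set g := (x * x') ^ r with hg
  have hgN : g ∈ normalizer (E : Set G) := pow_mem (mul_mem hxN hx'N) r
  have t3 : ∀ f ∈ E, ∀ φ, AddOn E φ → φ (g * f * g⁻¹) = φ f := by
    intro f hf φ hφ
    rw [hre]
    have e1 : x * x' * e * f * (x * x' * e)⁻¹ = x * (x' * (e * f * e⁻¹) * x'⁻¹) * x⁻¹ := by group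
    rw [e1, t1 _ (norm_conj hx'N (E.mul_mem (E.mul_mem he hf) (E.inv_mem he))) φ hφ,
      t2 _ (E.mul_mem (E.mul_mem he hf) (E.inv_mem he)) φ hφ, hφ.conj he hf]
  have hcent := centralizes_of_odd hEp hgN hN hrN t3
  have hgY : g ∈ normalizer (Y : Set G) := by
    apply mem_normalizer_fin
    intro y hy
    rw [hcent y (hYE hy)]
    exact hy
  have hxY : x ∈ normalizer (Y : Set G) := by
    have : x = g * e⁻¹ * x'⁻¹ := by rw [hre]; group
    rw [this]
    exact mul_mem (mul_mem hgY (hEY (E.inv_mem he))) (inv_mem hx'Y)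
  apply hSY
  intro y hy
  rcases hE.cover hx hxE hy with h | ⟨f, hf, rfl⟩
  · exact hEY h
  · exact mul_mem hxY (hEY hf)

/-- For `E = ker l` in `MM` there is a nontrivial link. -/
theorem exists_link [Finite G] (hO : PropertyO G) {S : Sylow 2 G} {l : G → ZMod 2}
    (hl : AddOn S l) (hM : MM S (kr S l hl)) :
    ∃ m h, AddOn S m ∧ Lk S l m h ∧ ∃ e ∈ kr S l hl, m e = 1 := by
  obtain ⟨x, hx, hxE, e, he, φ, hφ, hne⟩ := nontrivial_action hO hM
  have hlx : l x = 1 := (not_mem_kr hx).1 hxE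
  obtain ⟨m, h, hm, hk, hext⟩ := exists_ext hl hx hlx hφ
  refine ⟨m, h, hm, hk, e, he, ?_⟩
  have h1 := hk.conj hl hx (kr_le he)
  rw [hlx, he.2, hext e he, hext _ (hM.1.conj_mem hx he)] at h1
  by_contra h0
  apply hne
  have h2 : m e = 0 := by
    rcases zmod2_cases (m e) with h | h
    · exact h
    · exact absurd h h0
  rw [h1, h2]
  ring

end Pool.Agent.Work.MP_cd0fff_al
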