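import Pool.Agent.Work.MP_cd0fff_al.Rank3b

/-!
Rank two: some maximal subgroup is not in `MM`.
-/

universe u

namespace Pool.Agent.Work.MP_cd0fff_al

open Subgroup Module

variable {G : Type u} [Group G]

theorem rank2_step [Finite G] (hO : PropertyO G) {S : Sylow 2 G} {l m : G → ZMod 2}
    (h : IM (S : Subgroup G) l m) (hd : Hm (S : Subgroup G) ≤ quad l m) :
    ∃ p ∈ Hm (S : Subgroup G), p ≠ 0 ∧ p ≠ l ∧ ∀ x ∈ (S : Subgroup G), p x = 0 → l x = 1 →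
      ∃ x' ∈ (S : Subgroup G), l x' = 0 ∧ m x' = 1 ∧ orderOf x' < orderOf x := by
  have hAq : An (S : Subgroup G) l ≤ quad l m := An_le.trans hd
  obtain ⟨x₀, hx₀, hx₁⟩ := exists_one h.1 h.2.1
  obtain ⟨e₀, he₀, hle, hme⟩ := exists_01 h.1 h.2.2.1.1 h.2.2.2.1 h.2.2.2.2
  have hl := h.1.2
  set E := kr (S : Subgroup G) l hl with hE
  obtain ⟨z, hz, hrot⟩ := an_rot hO h hAq hx₀ hx₁ (e₀ := e₀) ⟨he₀, hle⟩ hme
  have hH : Half E S := half_kr hx₀ hx₁
  have hzE := hz.mem_normalizer hH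
  have hm := h.2.2.1.1.2
  obtain ⟨m', h', hm', hk', hext⟩ := exists_ext hl hx₀ hx₁ ((hm.mono (kr_le (h := hl))).comp_conj hzE)
  have hcomm : x₀ * e₀ * x₀⁻¹ * e₀⁻¹ ∈ E :=
    E.mul_mem (hH.conj_mem hx₀ ⟨he₀, hle⟩) (E.inv_mem ⟨he₀, hle⟩)
  have h1 := hrot _ hcomm (fun _ _ => rfl)
  have h2 : m' e₀ = 1 := by
    have h3 := hext _ hcomm
    rw [hk'.comm hl hm' hx₀ he₀, hx₁, hle] at h3
    rw [h1] at h3
    have aux : ∀ a b : ZMod 2, 1 * a + 0 * b = 1 → a = 1 := by decide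
    exact aux _ _ h3
  have key : ∀ x ∈ (S : Subgroup G), l x = 1 → m' x = 1 →
      ∃ x' ∈ (S : Subgroup G), l x' = 0 ∧ m x' = 1 ∧ orderOf x' < orderOf x := by
    intro x hx hlx hmx
    have hxx : x * x ∈ E := hH.sq_mem hx
    have h3 := hext _ hxx
    rw [hk'.sq hx, hlx, hmx, mul_one] at h3
    have h4 := norm_conj hzE hxx
    refine ⟨z * (x * x) * z⁻¹, h4.1, h4.2, h3.symm, ?_⟩
    rw [orderOf_conj]
    exact orderOf_sq_lt' (ne_one_of hl hlx) S.isPGroup' hx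
  have hmem : cut (S : Subgroup G) m' ∈ quad l m := hd hm'.cut
  have hc : ∀ x ∈ (S : Subgroup G), m' x = cut (S : Subgroup G) m' x := fun x hx =>
    (cut_mem hx).symm
  rcases hmem with h3 | h3 | h3 | h3
  · exfalso
    rw [hc e₀ he₀, h3] at h2
    exact zero_ne_one h2
  · exfalso
    rw [hc e₀ he₀, h3, hle] at h2
    exact zero_ne_one h2
  · refine ⟨l + m, (Hm (S : Subgroup G)).add_mem h.1 h.2.2.1.1, ?_, ?_, ?_⟩
    · intro h0; exact h.2.2.2.2 (c2_of h0).symm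
    · intro h0
      apply h.2.2.2.1
      have : m = l + (l + m) := by (apply c2_of; (try abel_nf); (try simp (disch := norm_num) only [smeven, add_zero, zero_add]))
      rw [this, h0, dbl]
    · intro x hx hpx hlx
      apply key x hx hlx
      rw [hc x hx, h3]
      rw [Pi.add_apply, hlx] at hpx
      have aux : ∀ a : ZMod 2, 1 + a = 0 → a = 1 := by decide
      exact aux _ hpx
  · refine ⟨m, h.2.2.1.1, h.2.2.2.1, h.2.2.2.2, ?_⟩
    intro x hx hpx hlx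
    apply key x hx hlx
    rw [hc x hx, h3, Pi.add_apply, hlx, hpx, add_zero]

/-- Rank two: not all nonzero additive functions have partners. -/
theorem rank2_main [Finite G] (hO : PropertyO G) {S : Sylow 2 G}
    (hd : finrank (ZMod 2) (Hm (S : Subgroup G)) = 2) {l₀ m₀ : G → ZMod 2}
    (h₀ : IM (S : Subgroup G) l₀ m₀) :
    ∃ l ∈ Hm (S : Subgroup G), l ≠ 0 ∧ ∀ m, ¬ IM (S : Subgroup G) l m := by
  classical
  by_contra hcon
  push Not at hcon
  have hq : ∀ a ∈ Hm (S : Subgroup G), ∀ b ∈ Hm (S : Subgroup G), a ≠ 0 → b ≠ 0 → b ≠ a →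
      Hm (S : Subgroup G) ≤ quad a b := by
    intro a ha b hb ha0 hb0 hab c hc
    by_contra hcq
    have := three_le_finrank ha hb hc ha0 hb0 hab hcq
    omega
  let ι := {l : G → ZMod 2 // l ∈ Hm (S : Subgroup G) ∧ l ≠ 0}
  have : Nonempty ι := ⟨⟨l₀, h₀.1, h₀.2.1⟩⟩
  refine descent (ι := ι) (fun l x => x ∈ (S : Subgroup G) ∧ l.1 x = 0 ∧
    ∃ t ∈ Hm (S : Subgroup G), t x = 1) ?_ ?_
  · rintro ⟨l, hl, hl0⟩
    obtain ⟨m, hm⟩ := hcon l hl hl0
    obtain ⟨x, hx, h1, h2⟩ := exists_01 hl hm.2.2.1.1 hm.2.2.2.1 hm.2.2.2.2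
    exact ⟨x, hx, h1, m, hm.2.2.1.1, h2⟩
  · rintro ⟨l, hl, hl0⟩
    obtain ⟨m, hm⟩ := hcon l hl hl0
    obtain ⟨p, hp, hp0, hpl, hstep⟩ := rank2_step hO hm
      (hq l hl m hm.2.2.1.1 hl0 hm.2.2.2.1 hm.2.2.2.2)
    refine ⟨⟨p, hp, hp0⟩, ?_⟩
    rintro x ⟨hx, hpx, t, ht, htx⟩
    have hlx : l x = 1 := by
      rcases hq l hl p hp hl0 hp0 hpl ht with h | h | h | h
      · rw [h] at htx; exact absurd htx zero_ne_one
      · rw [← h]; exact htx
      · rw [h] at htx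
        simp only at hpx
        rw [hpx] at htx; exact absurd htx zero_ne_one
      · rw [h, Pi.add_apply] at htx
        simp only at hpx
        rwa [hpx, add_zero] at htx
    obtain ⟨x', hx', h1, h2, h3⟩ := hstep x hx hpx hlx
    exact ⟨x', ⟨hx', h1, m, hm.2.2.1.1, h2⟩, h3⟩

end Pool.Agent.Work.MP_cd0fff_al
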