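import Pool.Agent.Work.MP_cd0fff_al.Rank3

/-!
Rank three: every `An S l` has at most two elements.
-/

universe u

namespace Pool.Agent.Work.MP_cd0fff_al

open Subgroup Module

variable {G : Type u} [Group G]

theorem exists_val {S : Subgroup G} {l m n : G → ZMod 2} (hl : l ∈ Hm S) (hm : m ∈ Hm S)
    (hn : n ∈ Hm S) (hl0 : l ≠ 0) (hm0 : m ≠ 0) (hml : m ≠ l) (hn0 : n ∉ quad l m)
    (p q r : ZMod 2) : ∃ x ∈ S, l x = p ∧ m x = q ∧ n x = r := by
  have hn1 : n ≠ 0 := fun h => hn0 (by rw [h]; exact zero_mem_quad _ _)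
  obtain ⟨c, hc, c1, c2, c3⟩ := exists_001 hl hm hn hn0
  have hm' : m ∉ quad l n := by
    rintro (h | h | h | h)
    · exact hm0 h
    · exact hml h
    · exact hn0 (by rw [h]; exact right_mem_quad _ _)
    · apply hn0
      have : n = l + m := by rw [h]; (apply c2_of; (try abel_nf); (try simp (disch := norm_num) only [smeven, add_zero, zero_add]))
      rw [this]; exact add_mem_quad _ _
  obtain ⟨b, hb, b1, b3, b2⟩ := exists_001 hl hn hm hm'
  have hl' : l ∉ quad m n := by
    rintro (h | h | h | h)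
    · exact hl0 h
    · exact hml h.symm
    · exact hn0 (by rw [h]; exact left_mem_quad _ _)
    · apply hn0
      have : n = l + m := by rw [h]; (apply c2_of; (try abel_nf); (try simp (disch := norm_num) only [smeven, add_zero, zero_add]))
      rw [this]; exact add_mem_quad _ _
  obtain ⟨a, ha, a2, a3, a1⟩ := exists_001 hm hn hl hl'
  have pw : ∀ (f : G → ZMod 2), f ∈ Hm S → ∀ x ∈ S, ∀ p : ZMod 2, f (x ^ p.val) = p * f x := by
    intro f hf x hx p
    rcases zmod2_cases p with rfl | rfl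
    · simp [hf.2.one]
    · simp [ZMod.val_one]
  refine ⟨a ^ p.val * b ^ q.val * c ^ r.val, S.mul_mem (S.mul_mem (S.pow_mem ha _)
    (S.pow_mem hb _)) (S.pow_mem hc _), ?_, ?_, ?_⟩
  · rw [hl.2 _ (S.mul_mem (S.pow_mem ha _) (S.pow_mem hb _)) _ (S.pow_mem hc _),
      hl.2 _ (S.pow_mem ha _) _ (S.pow_mem hb _), pw l hl a ha, pw l hl b hb, pw l hl c hc, a1, b1,
      c1]
    ring
  · rw [hm.2 _ (S.mul_mem (S.pow_mem ha _) (S.pow_mem hb _)) _ (S.pow_mem hc _),
      hm.2 _ (S.pow_mem ha _) _ (S.pow_mem hb _), pw m hm a ha, pw m hm b hb, pw m hm c hc, a2, b2,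
      c2]
    ring
  · rw [hn.2 _ (S.mul_mem (S.pow_mem ha _) (S.pow_mem hb _)) _ (S.pow_mem hc _),
      hn.2 _ (S.pow_mem ha _) _ (S.pow_mem hb _), pw n hn a ha, pw n hn b hb, pw n hn c hc, a3, b3,
      c3]
    ring

theorem An_conv4 {S : Subgroup G} {l m n : G → ZMod 2}
    (h : ∀ p ∈ An S l, p = 0 ∨ p = m ∨ p = n ∨ p = m + n) :
    ∀ p h, AddOn S p → Lk S l p h →
      (∀ x ∈ S, p x = 0) ∨ (∀ x ∈ S, p x = m x) ∨ (∀ x ∈ S, p x = n x) ∨
      (∀ x ∈ S, p x = m x + n x) := by
  intro p h' hp hk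
  have h1 : cut S p ∈ An S l :=
    ⟨hp.cut, h', hk.congr (fun _ _ => rfl) (fun x hx => (cut_mem hx).symm) (fun _ _ => rfl)⟩
  rcases h _ h1 with h2 | h2 | h2 | h2
  · left; intro x hx; rw [← cut_mem (f := p) hx, h2]; rfl
  · right; left; intro x hx; rw [← cut_mem (f := p) hx, h2]
  · right; right; left; intro x hx; rw [← cut_mem (f := p) hx, h2]
  · right; right; right; intro x hx; rw [← cut_mem (f := p) hx, h2]; rfl

theorem An_conv2 {S : Subgroup G} {l m : G → ZMod 2}
    (h : ∀ p ∈ An S l, p = 0 ∨ p = m) :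
    ∀ p h, AddOn S p → Lk S l p h →
      (∀ x ∈ S, p x = 0) ∨ (∀ x ∈ S, p x = m x) := by
  intro p h' hp hk
  have h1 : cut S p ∈ An S l :=
    ⟨hp.cut, h', hk.congr (fun _ _ => rfl) (fun x hx => (cut_mem hx).symm) (fun _ _ => rfl)⟩
  rcases h _ h1 with h2 | h2
  · left; intro x hx; rw [← cut_mem (f := p) hx, h2]; rfl
  · right; intro x hx; rw [← cut_mem (f := p) hx, h2]

theorem oct_conv {S : Subgroup G} {l m n : G → ZMod 2} (h : Hm S ≤ oct l m n) :
    ∀ ρ, AddOn S ρ → ∀ x ∈ S, l x = 0 → m x = 0 → n x = 0 → ρ x = 0 := by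
  intro ρ hρ x hx hl hm hn
  rw [← cut_mem (f := ρ) hx]
  have key : ∀ σ : G → ZMod 2, σ ∈ quad l m → σ x = 0 := by
    rintro σ (h | h | h | h) <;> rw [h] <;> simp [hl, hm]
  rcases h hρ.cut with h1 | h1
  · exact key _ h1
  · have h2 := key _ h1
    rw [Pi.add_apply, hn, add_zero] at h2
    exact h2

theorem oct_swap {V : Type*} [AddCommGroup V] [Module (ZMod 2) V] (a b c : V) :
    oct a b c ≤ oct a c b := by
  apply oct_le
  · exact Or.inl (left_mem_quad _ _)
  · right; rw [dbl]; exact zero_mem_quad _ _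
  · exact Or.inl (right_mem_quad _ _)

theorem oct_swap' {V : Type*} [AddCommGroup V] [Module (ZMod 2) V] (a b c : V) :
    oct a b c ≤ oct b a c := by
  apply oct_le
  · exact Or.inl (right_mem_quad _ _)
  · exact Or.inl (left_mem_quad _ _)
  · right; rw [dbl]; exact zero_mem_quad _ _

/-- squares of conjugates -/
theorem sq_step [Finite G] {S : Sylow 2 G} {z k : G} (h : k * z * k⁻¹ ∈ (S : Subgroup G))
    (h1 : k * z * k⁻¹ ≠ 1) :
    (k * z * k⁻¹) * (k * z * k⁻¹) ∈ Ph (S : Subgroup G) ∧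
      orderOf ((k * z * k⁻¹) * (k * z * k⁻¹)) < orderOf z := by
  refine ⟨sq_mem_Ph h, ?_⟩
  have := orderOf_sq_lt' h1 S.isPGroup' h
  rwa [orderOf_conj] at this

theorem ne_one_of {S : Subgroup G} {l : G → ZMod 2} (hl : AddOn S l) {x : G} (h : l x = 1) :
    x ≠ 1 := by
  rintro rfl
  rw [hl.one] at h
  exact zero_ne_one h

/-- the triangle case -/
theorem no_triangle [Finite G] (hO : PropertyO G) {S : Sylow 2 G} {l₁ l₂ l₃ : G → ZMod 2}
    (hd : Hm (S : Subgroup G) ≤ oct l₁ l₂ l₃) (h1 : l₁ ∈ Hm (S : Subgroup G))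
    (h2 : l₂ ∈ Hm (S : Subgroup G)) (h3 : l₃ ∈ Hm (S : Subgroup G)) (h10 : l₁ ≠ 0)
    (h20 : l₂ ≠ 0) (h21 : l₂ ≠ l₁) (h30 : l₃ ∉ quad l₁ l₂)
    (h12 : l₂ ∈ An (S : Subgroup G) l₁) (h13 : l₃ ∈ An (S : Subgroup G) l₁)
    (h23 : l₃ ∈ An (S : Subgroup G) l₂)
    (A1 : ∀ p ∈ An (S : Subgroup G) l₁, p = 0 ∨ p = l₂ ∨ p = l₃ ∨ p = l₂ + l₃)
    (A2 : ∀ p ∈ An (S : Subgroup G) l₂, p = 0 ∨ p = l₁ ∨ p = l₃ ∨ p = l₁ + l₃)
    (A3 : ∀ p ∈ An (S : Subgroup G) l₃, p = 0 ∨ p = l₁ ∨ p = l₂ ∨ p = l₁ + l₂)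
    (A23 : ∀ p ∈ An (S : Subgroup G) (l₂ + l₃), p = 0 ∨ p = l₁) : False := by
  obtain ⟨_, k12, hk12⟩ := h12
  obtain ⟨_, k13, hk13⟩ := h13
  obtain ⟨_, k23, hk23⟩ := h23
  have hU := oct_conv hd
  have val := exists_val h1 h2 h3 h10 h20 h21 h30
  obtain ⟨u1, hu1, hu11, _, _⟩ := val 1 0 0
  obtain ⟨u2, hu2, hu21, hu22, hu23⟩ := val 0 1 0
  obtain ⟨u3, hu3, _, _, hu33⟩ := val 0 0 1
  set t : Fin 4 → ZMod 2 × ZMod 2 × ZMod 2 := ![(0, 0, 1), (0, 1, 0), (1, 0, 0), (1, 1, 1)]
    with ht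
  set Z : Fin 4 → G → Prop := fun i z => z ∈ Ph (S : Subgroup G) ∧
    (k12 z, k13 z, k23 z) = t i with hZ
  -- the type of a square
  have sqt : ∀ x ∈ (S : Subgroup G), (k12 (x * x), k13 (x * x), k23 (x * x)) =
      (l₁ x * l₂ x, l₁ x * l₃ x, l₂ x * l₃ x) := by
    intro x hx
    rw [hk12.sq hx, hk13.sq hx, hk23.sq hx]
  have one1 : k12 1 = 0 := hk12.one h1.2
  have one2 : k13 1 = 0 := hk13.one h1.2
  have one3 : k23 1 = 0 := hk23.one h2.2
  refine descent Z ?_ ?_
  · intro i
    fin_cases i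
    · obtain ⟨x, hx, x1, x2, x3⟩ := val 0 1 1
      exact ⟨x * x, sq_mem_Ph hx, by rw [sqt x hx, x1, x2, x3]; simp [ht]⟩
    · obtain ⟨x, hx, x1, x2, x3⟩ := val 1 0 1
      exact ⟨x * x, sq_mem_Ph hx, by rw [sqt x hx, x1, x2, x3]; simp [ht]⟩
    · obtain ⟨x, hx, x1, x2, x3⟩ := val 1 1 0
      exact ⟨x * x, sq_mem_Ph hx, by rw [sqt x hx, x1, x2, x3]; simp [ht]⟩
    · obtain ⟨x, hx, x1, x2, x3⟩ := val 1 1 1
      exact ⟨x * x, sq_mem_Ph hx, by rw [sqt x hx, x1, x2, x3]; simp [ht]⟩
  · intro i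
    fin_cases i
    · -- target (0,1,1) through `ker l₁`
      obtain ⟨x, hx, x1, x2, x3⟩ := val 0 1 1
      obtain ⟨a, b, hab⟩ := arrow0 hO h1.2 hu1 hu11 hk12 hk13 hU (An_conv4 A1)
        (y₀ := x) ⟨hx, x1⟩
      have hne : ¬ (a = 0 ∧ b = 0) := by
        rintro ⟨rfl, rfl⟩
        obtain ⟨k, hk, _, hφ⟩ := hab 1 (Ph (S : Subgroup G)).one_mem one1 one2
        have := hφ l₂ (h2.2.mono kr_le)
        rw [mul_one, mul_inv_cancel, h2.2.one, x2] at this
        exact zero_ne_one this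
      have fin : ∀ j, (∀ z, Z j z → k12 z = a ∧ k13 z = b) →
          ∀ z, Z j z → ∃ z', Z 0 z' ∧ orderOf z' < orderOf z := by
        intro j hj z hz
        obtain ⟨z1, z2⟩ := hj z hz
        obtain ⟨k, hk, hzE, hφ⟩ := hab z hz.1 z1 z2
        have hmem := norm_conj hk hzE
        have e1 : l₁ (k * z * k⁻¹) = 0 := hmem.2
        have e2 : l₂ (k * z * k⁻¹) = 1 := by rw [hφ l₂ (h2.2.mono kr_le), x2]
        have e3 : l₃ (k * z * k⁻¹) = 1 := by rw [hφ l₃ (h3.2.mono kr_le), x3]
        obtain ⟨s1, s2⟩ := sq_step (S := S) hmem.1 (ne_one_of h2.2 e2)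
        exact ⟨_, ⟨s1, by rw [sqt _ hmem.1, e1, e2, e3]; simp [ht]⟩, s2⟩
      rcases zmod2_cases a with rfl | rfl <;> rcases zmod2_cases b with rfl | rfl
      · exact absurd ⟨rfl, rfl⟩ hne
      · exact ⟨1, fin 1 (fun z hz => by
          have := hz.2; simp [ht] at this; exact ⟨this.1, this.2.1⟩)⟩
      · exact ⟨2, fin 2 (fun z hz => by
          have := hz.2; simp [ht] at this; exact ⟨this.1, this.2.1⟩)⟩
      · exact ⟨3, fin 3 (fun z hz => by
          have := hz.2; simp [ht] at this; exact ⟨this.1, this.2.1⟩)⟩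
    · -- target (1,0,1) through `ker l₂`
      obtain ⟨x, hx, x1, x2, x3⟩ := val 1 0 1
      obtain ⟨a, b, hab⟩ := arrow0 hO h2.2 hu2 hu22 (hk12.symm h1.2 h2.2) hk23
        (oct_conv (hd.trans (oct_swap' _ _ _))) (An_conv4 A2) (y₀ := x) ⟨hx, x2⟩
      have hPh : ∀ z ∈ Ph (S : Subgroup G), k12 z + l₁ z * l₂ z = k12 z := by
        intro z hz
        rw [hz.2 l₁ h1.2, zero_mul, add_zero]
      have hne : ¬ (a = 0 ∧ b = 0) := by
        rintro ⟨rfl, rfl⟩
        obtain ⟨k, hk, _, hφ⟩ := hab 1 (Ph (S : Subgroup G)).one_mem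
          (by rw [hPh 1 (Ph (S : Subgroup G)).one_mem, one1]) one3
        have := hφ l₁ (h1.2.mono kr_le)
        rw [mul_one, mul_inv_cancel, h1.2.one, x1] at this
        exact zero_ne_one this
      have fin : ∀ j, (∀ z, Z j z → k12 z = a ∧ k23 z = b) →
          ∀ z, Z j z → ∃ z', Z 1 z' ∧ orderOf z' < orderOf z := by
        intro j hj z hz
        obtain ⟨z1, z2⟩ := hj z hz
        obtain ⟨k, hk, hzE, hφ⟩ := hab z hz.1 (by rw [hPh z hz.1, z1]) z2
        have hmem := norm_conj hk hzE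
        have e2 : l₂ (k * z * k⁻¹) = 0 := hmem.2
        have e1 : l₁ (k * z * k⁻¹) = 1 := by rw [hφ l₁ (h1.2.mono kr_le), x1]
        have e3 : l₃ (k * z * k⁻¹) = 1 := by rw [hφ l₃ (h3.2.mono kr_le), x3]
        obtain ⟨s1, s2⟩ := sq_step (S := S) hmem.1 (ne_one_of h1.2 e1)
        exact ⟨_, ⟨s1, by rw [sqt _ hmem.1, e1, e2, e3]; simp [ht]⟩, s2⟩
      rcases zmod2_cases a with rfl | rfl <;> rcases zmod2_cases b with rfl | rfl
      · exact absurd ⟨rfl, rfl⟩ hne
      · exact ⟨0, fin 0 (fun z hz => by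
          have := hz.2; simp [ht] at this; exact ⟨this.1, this.2.2⟩)⟩
      · exact ⟨2, fin 2 (fun z hz => by
          have := hz.2; simp [ht] at this; exact ⟨this.1, this.2.2⟩)⟩
      · exact ⟨3, fin 3 (fun z hz => by
          have := hz.2; simp [ht] at this; exact ⟨this.1, this.2.2⟩)⟩
    · -- target (1,1,0) through `ker l₃`
      obtain ⟨x, hx, x1, x2, x3⟩ := val 1 1 0
      obtain ⟨a, b, hab⟩ := arrow0 hO h3.2 hu3 hu33 (hk13.symm h1.2 h3.2) (hk23.symm h2.2 h3.2)
        (oct_conv (hd.trans ((oct_swap _ _ _).trans (oct_swap' _ _ _)))) (An_conv4 A3)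
        (y₀ := x) ⟨hx, x3⟩
      have hPh : ∀ z ∈ Ph (S : Subgroup G), k13 z + l₁ z * l₃ z = k13 z := by
        intro z hz
        rw [hz.2 l₁ h1.2, zero_mul, add_zero]
      have hPh' : ∀ z ∈ Ph (S : Subgroup G), k23 z + l₂ z * l₃ z = k23 z := by
        intro z hz
        rw [hz.2 l₂ h2.2, zero_mul, add_zero]
      have hne : ¬ (a = 0 ∧ b = 0) := by
        rintro ⟨rfl, rfl⟩
        obtain ⟨k, hk, _, hφ⟩ := hab 1 (Ph (S : Subgroup G)).one_mem
          (by rw [hPh 1 (Ph (S : Subgroup G)).one_mem, one2])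
          (by rw [hPh' 1 (Ph (S : Subgroup G)).one_mem, one3])
        have := hφ l₁ (h1.2.mono kr_le)
        rw [mul_one, mul_inv_cancel, h1.2.one, x1] at this
        exact zero_ne_one this
      have fin : ∀ j, (∀ z, Z j z → k13 z = a ∧ k23 z = b) →
          ∀ z, Z j z → ∃ z', Z 2 z' ∧ orderOf z' < orderOf z := by
        intro j hj z hz
        obtain ⟨z1, z2⟩ := hj z hz
        obtain ⟨k, hk, hzE, hφ⟩ := hab z hz.1 (by rw [hPh z hz.1, z1])
          (by rw [hPh' z hz.1, z2])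
        have hmem := norm_conj hk hzE
        have e3 : l₃ (k * z * k⁻¹) = 0 := hmem.2
        have e1 : l₁ (k * z * k⁻¹) = 1 := by rw [hφ l₁ (h1.2.mono kr_le), x1]
        have e2 : l₂ (k * z * k⁻¹) = 1 := by rw [hφ l₂ (h2.2.mono kr_le), x2]
        obtain ⟨s1, s2⟩ := sq_step (S := S) hmem.1 (ne_one_of h1.2 e1)
        exact ⟨_, ⟨s1, by rw [sqt _ hmem.1, e1, e2, e3]; simp [ht]⟩, s2⟩
      rcases zmod2_cases a with rfl | rfl <;> rcases zmod2_cases b with rfl | rfl
      · exact absurd ⟨rfl, rfl⟩ hne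
      · exact ⟨0, fin 0 (fun z hz => by
          have := hz.2; simp [ht] at this; exact ⟨this.2.1, this.2.2⟩)⟩
      · exact ⟨1, fin 1 (fun z hz => by
          have := hz.2; simp [ht] at this; exact ⟨this.2.1, this.2.2⟩)⟩
      · exact ⟨3, fin 3 (fun z hz => by
          have := hz.2; simp [ht] at this; exact ⟨this.2.1, this.2.2⟩)⟩
    · -- target (1,1,1) through `ker (l₂ + l₃)` and `ker l₁`
      obtain ⟨x, hx, x1, x2, x3⟩ := val 1 1 1
      obtain ⟨a, b, hab⟩ := arrow1 hO h1.2 ((Hm (S : Subgroup G)).add_mem h2 h3).2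
        (hk12.add_right hk13) hk12
        (by
          intro ρ hρ y hy y1 y2 y3
          rw [Pi.add_apply, y3, zero_add] at y2
          exact hU ρ hρ y hy y1 y3 y2)
        (by
          intro p h' hp hk'
          rcases An_conv4 A1 p h' hp hk' with h | h | h | h
          · exact Or.inl h
          · exact Or.inr (Or.inr (Or.inl h))
          · right; right; right
            intro y hy
            rw [h y hy, Pi.add_apply]
            have aux : ∀ a b : ZMod 2, b = a + b + a := by decide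
            exact aux _ _
          · right; left
            intro y hy
            rw [h y hy, Pi.add_apply])
        (An_conv2 A23) (y₁ := u2) hu2 (by rw [Pi.add_apply, hu22, hu23, add_zero])
        (x₀ := x) hx x1 (by rw [Pi.add_apply, x2, x3]; exact zdbl 1)
      have hne : ¬ (a = 0 ∧ b = 0) := by
        rintro ⟨rfl, rfl⟩
        obtain ⟨k, hk, hφ⟩ := hab 1 (Ph (S : Subgroup G)).one_mem
          (by rw [Pi.add_apply, one1, one2, add_zero]) one1
        have := hφ l₁ h1.2
        rw [mul_one, mul_inv_cancel, h1.2.one, x1] at this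
        exact zero_ne_one this
      have fin : ∀ j, (∀ z, Z j z → k12 z + k13 z = a ∧ k12 z = b) →
          ∀ z, Z j z → ∃ z', Z 3 z' ∧ orderOf z' < orderOf z := by
        intro j hj z hz
        obtain ⟨z1, z2⟩ := hj z hz
        obtain ⟨k, hmem, hφ⟩ := hab z hz.1 (by rw [Pi.add_apply, z1]) z2
        have e1 : l₁ (k * z * k⁻¹) = 1 := by rw [hφ l₁ h1.2, x1]
        have e2 : l₂ (k * z * k⁻¹) = 1 := by rw [hφ l₂ h2.2, x2]
        have e3 : l₃ (k * z * k⁻¹) = 1 := by rw [hφ l₃ h3.2, x3]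
        obtain ⟨s1, s2⟩ := sq_step (S := S) hmem (ne_one_of h1.2 e1)
        exact ⟨_, ⟨s1, by rw [sqt _ hmem, e1, e2, e3]; simp [ht]⟩, s2⟩
      rcases zmod2_cases a with rfl | rfl <;> rcases zmod2_cases b with rfl | rfl
      · exact absurd ⟨rfl, rfl⟩ hne
      · exact ⟨3, fin 3 (fun z hz => by
          have := hz.2; simp [ht] at this; rw [this.1, this.2.1]; decide)⟩
      · exact ⟨1, fin 1 (fun z hz => by
          have := hz.2; simp [ht] at this; rw [this.1, this.2.1]; decide)⟩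
      · exact ⟨2, fin 2 (fun z hz => by
          have := hz.2; simp [ht] at this; rw [this.1, this.2.1]; decide)⟩

/-- the star case -/
theorem no_star [Finite G] (hO : PropertyO G) {S : Sylow 2 G} {l m n : G → ZMod 2}
    (hd : Hm (S : Subgroup G) ≤ oct l m n) (hl : l ∈ Hm (S : Subgroup G))
    (hl0 : l ≠ 0) (hm0 : m ≠ 0) (hml : m ≠ l) (hn0 : n ∉ quad l m)
    (hlm : m ∈ An (S : Subgroup G) l) (hln : n ∈ An (S : Subgroup G) l)
    (A1 : ∀ p ∈ An (S : Subgroup G) l, p = 0 ∨ p = m ∨ p = n ∨ p = m + n)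
    (B1 : ∀ p ∈ An (S : Subgroup G) m, p = 0 ∨ p = l)
    (B2 : ∀ p ∈ An (S : Subgroup G) n, p = 0 ∨ p = l)
    (B3 : ∀ p ∈ An (S : Subgroup G) (m + n), p = 0 ∨ p = l) : False := by
  obtain ⟨hm, h₁, hk₁⟩ := hlm
  obtain ⟨hn, h₂, hk₂⟩ := hln
  have hU := oct_conv hd
  have val := exists_val hl hm hn hl0 hm0 hml hn0
  obtain ⟨u2, hu2, _, hu22, hu23⟩ := val 0 1 0
  obtain ⟨u3, hu3, _, hu32, hu33⟩ := val 0 0 1
  set t : Fin 3 → ZMod 2 × ZMod 2 := ![(0, 1), (1, 0), (1, 1)] with ht
  set Z : Fin 3 → G → Prop := fun i z => z ∈ Ph (S : Subgroup G) ∧ (h₁ z, h₂ z) = t i with hZ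
  have sqt : ∀ x ∈ (S : Subgroup G), (h₁ (x * x), h₂ (x * x)) = (l x * m x, l x * n x) := by
    intro x hx
    rw [hk₁.sq hx, hk₂.sq hx]
  have one1 : h₁ 1 = 0 := hk₁.one hl.2
  have one2 : h₂ 1 = 0 := hk₂.one hl.2
  -- general final step
  have fin : ∀ (i : Fin 3) (x k z : G), l x = 1 → (l x * m x, l x * n x) = t i →
      k * z * k⁻¹ ∈ (S : Subgroup G) →
      (∀ ρ, AddOn (S : Subgroup G) ρ → ρ (k * z * k⁻¹) = ρ x) →
      ∃ z', Z i z' ∧ orderOf z' < orderOf z := by
    intro i x k z hx hi hmem hφ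
    have e1 : l (k * z * k⁻¹) = 1 := by rw [hφ l hl.2, hx]
    obtain ⟨s1, s2⟩ := sq_step (S := S) hmem (ne_one_of hl.2 e1)
    exact ⟨_, ⟨s1, by rw [sqt _ hmem, hφ l hl.2, hφ m hm.2, hφ n hn.2, hi]⟩, s2⟩
  refine descent Z ?_ ?_
  · intro i
    fin_cases i
    · obtain ⟨x, hx, x1, x2, x3⟩ := val 1 0 1
      exact ⟨x * x, sq_mem_Ph hx, by rw [sqt x hx, x1, x2, x3]; simp [ht]⟩
    · obtain ⟨x, hx, x1, x2, x3⟩ := val 1 1 0
      exact ⟨x * x, sq_mem_Ph hx, by rw [sqt x hx, x1, x2, x3]; simp [ht]⟩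
    · obtain ⟨x, hx, x1, x2, x3⟩ := val 1 1 1
      exact ⟨x * x, sq_mem_Ph hx, by rw [sqt x hx, x1, x2, x3]; simp [ht]⟩
  · intro i
    fin_cases i
    · obtain ⟨x, hx, x1, x2, x3⟩ := val 1 0 1
      obtain ⟨a, b, hab⟩ := arrow1 hO hl.2 hm.2 hk₁ hk₂ hU (An_conv4 A1) (An_conv2 B1)
        (y₁ := u2) hu2 hu22 (x₀ := x) hx x1 x2
      have hne : ¬ (a = 0 ∧ b = 0) := by
        rintro ⟨rfl, rfl⟩
        obtain ⟨k, hk, hφ⟩ := hab 1 (Ph (S : Subgroup G)).one_mem one1 one2
        have := hφ l hl.2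
        rw [mul_one, mul_inv_cancel, hl.2.one, x1] at this
        exact zero_ne_one this
      have F : ∀ j, (∀ z, Z j z → h₁ z = a ∧ h₂ z = b) →
          ∀ z, Z j z → ∃ z', Z 0 z' ∧ orderOf z' < orderOf z := by
        intro j hj z hz
        obtain ⟨z1, z2⟩ := hj z hz
        obtain ⟨k, hmem, hφ⟩ := hab z hz.1 z1 z2
        exact fin 0 x k z x1 (by rw [x1, x2, x3]; simp [ht]) hmem hφ
      rcases zmod2_cases a with rfl | rfl <;> rcases zmod2_cases b with rfl | rfl
      · exact absurd ⟨rfl, rfl⟩ hne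
      · exact ⟨0, F 0 (fun z hz => by have := hz.2; simp [ht] at this; exact this)⟩
      · exact ⟨1, F 1 (fun z hz => by have := hz.2; simp [ht] at this; exact this)⟩
      · exact ⟨2, F 2 (fun z hz => by have := hz.2; simp [ht] at this; exact this)⟩
    · obtain ⟨x, hx, x1, x2, x3⟩ := val 1 1 0
      obtain ⟨a, b, hab⟩ := arrow1 hO hl.2 hn.2 hk₂ hk₁
        (oct_conv (hd.trans (oct_swap _ _ _)))
        (by
          intro p h' hp hk'
          rcases An_conv4 A1 p h' hp hk' with h | h | h | h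
          · exact Or.inl h
          · exact Or.inr (Or.inr (Or.inl h))
          · exact Or.inr (Or.inl h)
          · right; right; right
            intro y hy
            rw [h y hy, add_comm]) (An_conv2 B2)
        (y₁ := u3) hu3 hu33 (x₀ := x) hx x1 x3
      have hne : ¬ (a = 0 ∧ b = 0) := by
        rintro ⟨rfl, rfl⟩
        obtain ⟨k, hk, hφ⟩ := hab 1 (Ph (S : Subgroup G)).one_mem one2 one1
        have := hφ l hl.2
        rw [mul_one, mul_inv_cancel, hl.2.one, x1] at this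
        exact zero_ne_one this
      have F : ∀ j, (∀ z, Z j z → h₂ z = a ∧ h₁ z = b) →
          ∀ z, Z j z → ∃ z', Z 1 z' ∧ orderOf z' < orderOf z := by
        intro j hj z hz
        obtain ⟨z1, z2⟩ := hj z hz
        obtain ⟨k, hmem, hφ⟩ := hab z hz.1 z1 z2
        exact fin 1 x k z x1 (by rw [x1, x2, x3]; simp [ht]) hmem hφ
      rcases zmod2_cases a with rfl | rfl <;> rcases zmod2_cases b with rfl | rfl
      · exact absurd ⟨rfl, rfl⟩ hne
      · exact ⟨1, F 1 (fun z hz => by have := hz.2; simp [ht] at this; exact this.symm)⟩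
      · exact ⟨0, F 0 (fun z hz => by have := hz.2; simp [ht] at this; exact this.symm)⟩
      · exact ⟨2, F 2 (fun z hz => by have := hz.2; simp [ht] at this; exact this.symm)⟩
    · obtain ⟨x, hx, x1, x2, x3⟩ := val 1 1 1
      obtain ⟨a, b, hab⟩ := arrow1 hO hl.2 ((Hm (S : Subgroup G)).add_mem hm hn).2
        (hk₁.add_right hk₂) hk₁
        (by
          intro ρ hρ y hy y1 y2 y3
          rw [Pi.add_apply, y3, zero_add] at y2
          exact hU ρ hρ y hy y1 y3 y2)
        (by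
          intro p h' hp hk'
          rcases An_conv4 A1 p h' hp hk' with h | h | h | h
          · exact Or.inl h
          · exact Or.inr (Or.inr (Or.inl h))
          · right; right; right
            intro y hy
            rw [h y hy, Pi.add_apply]
            have aux : ∀ a b : ZMod 2, b = a + b + a := by decide
            exact aux _ _
          · right; left
            intro y hy
            rw [h y hy, Pi.add_apply])
        (An_conv2 B3) (y₁ := u2) hu2 (by rw [Pi.add_apply, hu22, hu23, add_zero])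
        (x₀ := x) hx x1 (by rw [Pi.add_apply, x2, x3]; exact zdbl 1)
      have hne : ¬ (a = 0 ∧ b = 0) := by
        rintro ⟨rfl, rfl⟩
        obtain ⟨k, hk, hφ⟩ := hab 1 (Ph (S : Subgroup G)).one_mem
          (by rw [Pi.add_apply, one1, one2, add_zero]) one1
        have := hφ l hl.2
        rw [mul_one, mul_inv_cancel, hl.2.one, x1] at this
        exact zero_ne_one this
      have F : ∀ j, (∀ z, Z j z → h₁ z + h₂ z = a ∧ h₁ z = b) →
          ∀ z, Z j z → ∃ z', Z 2 z' ∧ orderOf z' < orderOf z := by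
        intro j hj z hz
        obtain ⟨z1, z2⟩ := hj z hz
        obtain ⟨k, hmem, hφ⟩ := hab z hz.1 (by rw [Pi.add_apply, z1]) z2
        exact fin 2 x k z x1 (by rw [x1, x2, x3]; simp [ht]) hmem hφ
      rcases zmod2_cases a with rfl | rfl <;> rcases zmod2_cases b with rfl | rfl
      · exact absurd ⟨rfl, rfl⟩ hne
      · exact ⟨2, F 2 (fun z hz => by
          have := hz.2; simp [ht] at this; rw [this.1, this.2]; decide)⟩
      · exact ⟨0, F 0 (fun z hz => by
          have := hz.2; simp [ht] at this; rw [this.1, this.2]; decide)⟩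
      · exact ⟨1, F 1 (fun z hz => by
          have := hz.2; simp [ht] at this; rw [this.1, this.2]; decide)⟩

/-- In rank three every `An S l` is `{0, m}`. -/
theorem an_two [Finite G] (hO : PropertyO G) {S : Sylow 2 G}
    (hd : finrank (ZMod 2) (Hm (S : Subgroup G)) = 3) {l m : G → ZMod 2}
    (h : IM (S : Subgroup G) l m) : ∀ p ∈ An (S : Subgroup G) l, p = 0 ∨ p = m := by
  by_contra hcon
  push Not at hcon
  obtain ⟨n, hn, hn0, hnm⟩ := hcon
  -- a general statement about `An`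
  have self : ∀ l m, IM (S : Subgroup G) l m → l ∉ An (S : Subgroup G) l := fun l m h =>
    no_self3 hO h hd
  have notq : ∀ l m, IM (S : Subgroup G) l m → ∀ n ∈ An (S : Subgroup G) l, n ≠ 0 → n ≠ m →
      n ∉ quad l m := by
    intro l m h n hn hn0 hnm
    rintro (h1 | h1 | h1 | h1)
    · exact hn0 h1
    · exact self l m h (h1 ▸ hn)
    · exact hnm h1
    · apply self l m h
      have h2 := (An (S : Subgroup G) l).add_mem hn h.2.2.1
      have e : n + m = l := by rw [h1]; (apply c2_of; (try abel_nf); (try simp (disch := norm_num) only [smeven, add_zero, zero_add]))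
      rwa [e] at h2
  have span : ∀ l m n, l ∈ Hm (S : Subgroup G) → m ∈ Hm (S : Subgroup G) →
      n ∈ Hm (S : Subgroup G) → l ≠ 0 → m ≠ 0 → m ≠ l → n ∉ quad l m →
      Hm (S : Subgroup G) ≤ oct l m n := by
    intro l m n hl hm hn hl0 hm0 hml hnq d hdS
    by_contra hd'
    have := four_le_finrank hl hm hn hdS hl0 hm0 hml hnq hd'
    omega
  have four : ∀ l m, IM (S : Subgroup G) l m → ∀ n ∈ An (S : Subgroup G) l, n ≠ 0 → n ≠ m →
      ∀ p ∈ An (S : Subgroup G) l, p = 0 ∨ p = m ∨ p = n ∨ p = m + n := by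
    intro l m h n hn hn0 hnm p hp
    have h1 := span l m n h.1 h.2.2.1.1 hn.1 h.2.1 h.2.2.2.1 h.2.2.2.2 (notq l m h n hn hn0 hnm)
      hp.1
    have h2 : ∀ q ∈ An (S : Subgroup G) l, q ∈ quad l m → q = 0 ∨ q = m := by
      intro q hq hqq
      by_contra hc
      push Not at hc
      exact notq l m h q hq hc.1 hc.2 hqq
    rcases h1 with h1 | h1
    · rcases h2 p hp h1 with h3 | h3
      · exact Or.inl h3
      · exact Or.inr (Or.inl h3)
    · rcases h2 _ ((An (S : Subgroup G) l).add_mem hp hn) h1 with h3 | h3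
      · exact Or.inr (Or.inr (Or.inl (c2_of h3)))
      · right; right; right
        rw [← h3]; (apply c2_of; (try abel_nf); (try simp (disch := norm_num) only [smeven, add_zero, zero_add]))
  -- the triangle case
  have tri : ∀ l m n, IM (S : Subgroup G) l m → n ∈ An (S : Subgroup G) l → n ≠ 0 → n ≠ m →
      (∀ p ∈ An (S : Subgroup G) m, p = 0 ∨ p = l) := by
    intro l m n h hn hn0 hnm
    by_contra hc
    push Not at hc
    obtain ⟨a, ha, ha0, hal⟩ := hc
    have hq := notq l m h n hn hn0 hnm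
    have haq : a ∉ quad l m := by
      rw [quad_comm]
      exact notq m l h.symm a ha ha0 hal
    -- a common element
    have hc : ∃ c, c ∈ An (S : Subgroup G) l ∧ c ∈ An (S : Subgroup G) m ∧ c ∉ quad l m := by
      have h1 := span l m n h.1 h.2.2.1.1 hn.1 h.2.1 h.2.2.2.1 h.2.2.2.2 hq ha.1
      have hl' : l ∈ An (S : Subgroup G) m := h.symm.2.2.1
      have hal' : a + l ∉ quad l m := by
        intro h2
        apply haq
        have := (quad l m).add_mem h2 (left_mem_quad l m)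
        have e : a + l + l = a := by (apply c2_of; (try abel_nf); (try simp (disch := norm_num) only [smeven, add_zero, zero_add]))
        rwa [e] at this
      rcases h1 with h1 | h1
      · exact absurd h1 haq
      · rcases h1 with h2 | h2 | h2 | h2
        · exact ⟨a, by rw [c2_of h2]; exact hn, ha, haq⟩
        · refine ⟨a + l, ?_, (An (S : Subgroup G) m).add_mem ha hl', hal'⟩
          have e : a + l = n := by rw [← h2]; (apply c2_of; (try abel_nf); (try simp (disch := norm_num) only [smeven, add_zero, zero_add]))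
          rw [e]; exact hn
        · refine ⟨a, ?_, ha, haq⟩
          have e : a = n + m := by rw [← h2]; (apply c2_of; (try abel_nf); (try simp (disch := norm_num) only [smeven, add_zero, zero_add]))
          rw [e]; exact (An (S : Subgroup G) l).add_mem hn h.2.2.1
        · refine ⟨a + l, ?_, (An (S : Subgroup G) m).add_mem ha hl', hal'⟩
          have e0 : a = (a + n) + n := by (apply c2_of; (try abel_nf); (try simp (disch := norm_num) only [smeven, add_zero, zero_add]))
          have e : a + l = n + m := by rw [e0, h2]; (apply c2_of; (try abel_nf); (try simp (disch := norm_num) only [smeven, add_zero, zero_add]))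
          rw [e]; exact (An (S : Subgroup G) l).add_mem hn h.2.2.1
    obtain ⟨c, hcl, hcm, hcq⟩ := hc
    have hc0 : c ≠ 0 := fun h => hcq (by rw [h]; exact zero_mem_quad _ _)
    have hcl' : c ≠ l := fun h => hcq (by rw [h]; exact left_mem_quad _ _)
    have hcm' : c ≠ m := fun h => hcq (by rw [h]; exact right_mem_quad _ _)
    have hIc : IM (S : Subgroup G) c l :=
      ⟨hcl.1, hc0, An_symm h.1 hcl, h.2.1, hcl'.symm⟩
    have hmc : m ∈ An (S : Subgroup G) c := An_symm h.2.2.1.1 hcm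
    have hmcne : m + c ≠ 0 := fun h => hcm' (c2_of h).symm
    have hmcl : m + c ≠ l := by
      intro h2
      apply hcq
      have : c = l + m := by rw [← h2]; (apply c2_of; (try abel_nf); (try simp (disch := norm_num) only [smeven, add_zero, zero_add]))
      rw [this]; exact add_mem_quad _ _
    have hImc : IM (S : Subgroup G) (m + c) l := by
      refine ⟨(Hm (S : Subgroup G)).add_mem h.2.2.1.1 hcl.1, hmcne,
        An_symm h.1 ((An (S : Subgroup G) l).add_mem h.2.2.1 hcl), h.2.1, hmcl.symm⟩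
    refine no_triangle hO (span l m c h.1 h.2.2.1.1 hcl.1 h.2.1 h.2.2.2.1 h.2.2.2.2 hcq)
      h.1 h.2.2.1.1 hcl.1 h.2.1 h.2.2.2.1 h.2.2.2.2 hcq h.2.2.1 hcl hcm
      (four l m h c hcl hc0 hcm') (four m l h.symm c hcm hc0 hcl')
      (four c l hIc m hmc h.2.2.2.1 h.2.2.2.2) ?_
    by_contra hcc
    push Not at hcc
    obtain ⟨q, hq, hq0, hql⟩ := hcc
    -- `q ∈ An (m + c)`
    have hqS := hq.1
    have hnq := notq _ _ hImc q hq hq0 hql
    have h3 := four _ _ hImc q hq hq0 hql
    have h4 := span l m c h.1 h.2.2.1.1 hcl.1 h.2.1 h.2.2.2.1 h.2.2.2.2 hcq hqS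
    -- reduce to `m ∈ An (m + c)`, `c ∈ An (m + c)` or `m + c ∈ An (m + c)`
    have hlmc : l ∈ An (S : Subgroup G) (m + c) := hImc.2.2.1
    have hno : m + c ∉ An (S : Subgroup G) (m + c) := self _ _ hImc
    have hmno : m ∉ An (S : Subgroup G) (m + c) := by
      intro h5
      have h6 : m + c ∈ An (S : Subgroup G) m := An_symm ((Hm (S : Subgroup G)).add_mem
        h.2.2.1.1 hcl.1) h5
      have h7 := (An (S : Subgroup G) m).add_mem h6 hcm
      have e : m + c + c = m := by (apply c2_of; (try abel_nf); (try simp (disch := norm_num) only [smeven, add_zero, zero_add]))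
      rw [e] at h7
      exact self m l h.symm h7
    have hcno : c ∉ An (S : Subgroup G) (m + c) := by
      intro h5
      have h6 : m + c ∈ An (S : Subgroup G) c := An_symm ((Hm (S : Subgroup G)).add_mem
        h.2.2.1.1 hcl.1) h5
      have h7 := (An (S : Subgroup G) c).add_mem h6 hmc
      have e : m + c + m = c := by (apply c2_of; (try abel_nf); (try simp (disch := norm_num) only [smeven, add_zero, zero_add]))
      rw [e] at h7
      exact self c l hIc h7
    have addl : ∀ y, y + l ∈ An (S : Subgroup G) (m + c) → y ∈ An (S : Subgroup G) (m + c) := by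
      intro y hy
      have := (An (S : Subgroup G) (m + c)).add_mem hy hlmc
      have e : y + l + l = y := by (apply c2_of; (try abel_nf); (try simp (disch := norm_num) only [smeven, add_zero, zero_add]))
      rwa [e] at this
    rcases h4 with (h4 | h4 | h4 | h4) | (h4 | h4 | h4 | h4)
    · exact hq0 h4
    · exact hql h4
    · exact hmno (h4 ▸ hq)
    · apply hmno
      apply addl
      have e : m + l = q := by rw [h4]; (apply c2_of; (try abel_nf); (try simp (disch := norm_num) only [smeven, add_zero, zero_add]))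
      rw [e]; exact hq
    · apply hcno
      rw [c2_of h4] at hq
      exact hq
    · apply hcno
      apply addl
      have e : c + l = q := by rw [← h4]; (apply c2_of; (try abel_nf); (try simp (disch := norm_num) only [smeven, add_zero, zero_add]))
      rw [e]; exact hq
    · apply hno
      have e : m + c = q := by rw [← h4]; (apply c2_of; (try abel_nf); (try simp (disch := norm_num) only [smeven, add_zero, zero_add]))
      have h5 := hq
      rw [← e] at h5
      exact h5
    · apply hno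
      apply addl
      have e0 : q = (q + c) + c := by (apply c2_of; (try abel_nf); (try simp (disch := norm_num) only [smeven, add_zero, zero_add]))
      have e : m + c + l = q := by rw [e0, h4]; (apply c2_of; (try abel_nf); (try simp (disch := norm_num) only [smeven, add_zero, zero_add]))
      rw [e]; exact hq
  have hq := notq l m h n hn hn0 hnm
  have hIn : IM (S : Subgroup G) l n := ⟨h.1, h.2.1, hn, hn0, fun h0 =>
    hq (by rw [h0]; exact left_mem_quad _ _)⟩
  have hmn0 : m + n ≠ 0 := fun h0 => hnm (c2_of h0).symm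
  have hmnl : m + n ≠ l := by
    intro h0
    apply hq
    have : n = l + m := by rw [← h0]; (apply c2_of; (try abel_nf); (try simp (disch := norm_num) only [smeven, add_zero, zero_add]))
    rw [this]; exact add_mem_quad _ _
  have hImn : IM (S : Subgroup G) l (m + n) := ⟨h.1, h.2.1,
    (An (S : Subgroup G) l).add_mem h.2.2.1 hn, hmn0, hmnl⟩
  refine no_star hO (span l m n h.1 h.2.2.1.1 hn.1 h.2.1 h.2.2.2.1 h.2.2.2.2 hq) h.1 h.2.1
    h.2.2.2.1 h.2.2.2.2 hq h.2.2.1 hn (four l m h n hn hn0 hnm) (tri l m n h hn hn0 hnm)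
    (tri l n m hIn h.2.2.1 h.2.2.2.1 hnm.symm) (tri l (m + n) m hImn h.2.2.1 h.2.2.2.1 ?_)
  intro h0
  apply hn0
  have : n = m + (m + n) := by (apply c2_of; (try abel_nf); (try simp (disch := norm_num) only [smeven, add_zero, zero_add]))
  rw [this, ← h0, dbl]

end Pool.Agent.Work.MP_cd0fff_al
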