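import Pool.Agent.Work.MP_cd0fff_al.Trace

/-!
Rank three: there is only one linked pair.
-/

universe u

namespace Pool.Agent.Work.MP_cd0fff_al

open Subgroup Module

variable {G : Type u} [Group G]

theorem side [Finite G] (hO : PropertyO G) {S : Sylow 2 G}
    (hd : finrank (ZMod 2) (Hm (S : Subgroup G)) = 3) {l m n : G → ZMod 2}
    (h : IM (S : Subgroup G) l m) (hA : ∀ p ∈ An (S : Subgroup G) l, p = 0 ∨ p = m)
    (hn : n ∈ Hm (S : Subgroup G)) (hnq : n ∉ quad l m) {b : G} (hb : b ∈ (S : Subgroup G))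
    (hlb : l b = 1) (hmb : m b = 0) :
    ∃ k f : G, ∃ η ∈ Hm (S : Subgroup G), f ∈ kr (S : Subgroup G) l h.1.2 ∧ m f = 0 ∧ n f = 1 ∧
      η f = 1 ∧ f * b * f⁻¹ * b⁻¹ ∈ Ph (kr (S : Subgroup G) l h.1.2) ∧
      ∀ r, Invt (S : Subgroup G) (Ph (kr (S : Subgroup G) l h.1.2)) r →
        (∀ c ∈ Ph (S : Subgroup G), r (c * c) = 0) →
        Invt (S : Subgroup G) (Ph (kr (S : Subgroup G) l h.1.2)) (tr k r) ∧
        (∀ x ∈ kr (S : Subgroup G) l h.1.2, tr k r (x * x) = η x * r (f * f)) ∧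
        r (f * b * f⁻¹ * b⁻¹) = tr k r (f * b * f⁻¹ * b⁻¹) := by
  obtain ⟨hl, hl0, ⟨hm, g₀, hg₀⟩, hm0, hml⟩ := id h
  set M := kr (S : Subgroup G) l hl.2 with hMdef
  have hH : Half M S := half_kr hb hlb
  have hMp : IsPGroup 2 M := S.isPGroup'.to_le hH.le
  have hbM : b ∉ M := (not_mem_kr hb).2 hlb
  obtain ⟨e₀, he₀, hle₀, hme₀⟩ := exists_01 hl hm hm0 hml
  have he₀M : e₀ ∈ M := ⟨he₀, hle₀⟩
  obtain ⟨V, _, _, _, q, hq, _⟩ := exists_quo (Ph_le M)
    ((Subgroup.le_normalizer).trans (normalizer_le_Ph M)) (fun a ha => sq_mem_Ph ha)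
  have hconv := An_conv2 hA
  have hspan : ∀ m' h', AddOn (S : Subgroup G) m' → Lk (S : Subgroup G) l m' h' →
      (∀ e ∈ M, m' e = 0) ∨ (∀ e ∈ M, m' e = m e) := by
    intro m' h' hm' hk'
    rcases hconv m' h' hm' hk' with h1 | h1
    · exact Or.inl fun e he => h1 e he.1
    · exact Or.inr fun e he => h1 e he.1
  obtain ⟨hc, h0, h1⟩ := u1_transv hl.2 hb hlb hg₀ hspan he₀M hme₀ hq
  set c := q (b * e₀ * b⁻¹) + q e₀ with hcdef
  obtain ⟨s, t, z, hz, hs, ht, w, f, sc, tw, hsv, htv, sw, tc, sf, tf, _, hdec⟩ :=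
    group_A hO hH hq hb hbM hc (by
      intro e he
      rcases zmod2_cases (m e) with h | h
      · exact Or.inl (h0 e he h)
      · exact Or.inr (h1 e he h)) ⟨e₀, he₀M, by
      intro h
      rw [h1 e₀ he₀M hme₀] at h
      apply hc
      exact add_eq_left.1 h⟩
  have hzM := hz.mem_normalizer hH
  have hbN := hH.le_normalizer hb
  -- the odd element
  obtain ⟨n₀, hn₀, hbz⟩ := (out_self hb hbM).odd hH hz
  obtain ⟨r₀, N₀, hN₀, hrN, e, he, hre⟩ := exists_odd_rep hMp hn₀ hbz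
  set k := (b * z) ^ r₀ with hk
  have hkM : k ∈ normalizer (M : Set G) := pow_mem (mul_mem hbN hzM) _
  have hw0 : w ≠ 0 := by
    rintro rfl
    apply hc
    simpa using sw.symm
  set g : Module.End (ZMod 2) V := s * t with hgdef
  have hg : ∀ x ∈ M, q (k * x * k⁻¹) = g (q x) := by
    intro x hx
    rw [hre]
    have e1 : b * z * e * x * (b * z * e)⁻¹ = b * (z * (e * x * e⁻¹) * z⁻¹) * b⁻¹ := by group
    have h2 := (hq.triv he hx)
    rw [e1, ← hs _ (norm_conj hzM h2.1), ← ht _ h2.1, h2.2]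
    rfl
  have gc : g c = w := by
    change s (t c) = w
    rw [tc, map_add, sc, sw]; (apply c2_of; (try abel_nf); (try simp (disch := norm_num) only [smeven, add_zero, zero_add]))
  have gw : g w = c + w := by
    change s (t w) = c + w
    rw [tw, sw, add_comm]
  have gf : g f = f := by
    change s (t f) = f
    rw [tf, sf]
  have ggg : ∀ v, g (g (g v)) = v := by
    intro v
    obtain ⟨x, hx, hv⟩ := hdec v
    have gx : g x = x := by
      rcases hx with rfl | rfl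
      · exact map_zero _
      · exact gf
    rcases hv with rfl | rfl | rfl | rfl
    · rw [gx, gx, gx]
    · simp only [map_add, gc, gw, gx]; (apply c2_of; (try abel_nf); (try simp (disch := norm_num) only [smeven, add_zero, zero_add]))
    · simp only [map_add, gc, gw, gx]; (apply c2_of; (try abel_nf); (try simp (disch := norm_num) only [smeven, add_zero, zero_add]))
    · simp only [map_add, gc, gw, gx]; (apply c2_of; (try abel_nf); (try simp (disch := norm_num) only [smeven, add_zero, zero_add]))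
  have h3 : ∀ x ∈ M, k * (k * (k * x * k⁻¹) * k⁻¹) * k⁻¹ = x := by
    have hk3 : k ^ 3 ∈ normalizer (M : Set G) := pow_mem hkM 3
    have hk3N : (k ^ 3) ^ N₀ = 1 := by rw [← pow_mul, mul_comm, pow_mul, hrN, one_pow]
    have := centralizes_of_odd hMp hk3 hN₀ hk3N (by
      intro x hx φ hφ
      apply hq.apply (norm_conj hk3 hx) hx ?_ hφ
      have e1 : k ^ 3 * x * (k ^ 3)⁻¹ = k * (k * (k * x * k⁻¹) * k⁻¹) * k⁻¹ := by
        rw [pow_succ, pow_two]; group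
      rw [e1, hg _ (norm_conj hkM (norm_conj hkM hx)), hg _ (norm_conj hkM hx), hg x hx, ggg])
    intro x hx
    have e1 : k ^ 3 * x * (k ^ 3)⁻¹ = k * (k * (k * x * k⁻¹) * k⁻¹) * k⁻¹ := by
      rw [pow_succ, pow_two]; group
    rw [← e1]
    exact this x hx
  have hbk : b * k * b⁻¹ * k ∈ M := by
    rw [hre]
    have e1 : b * (b * z * e) * b⁻¹ * (b * z * e) = (b * b) * (z * z) * (z⁻¹ * e * z) * e := by
      group
    rw [e1]
    exact M.mul_mem (M.mul_mem (M.mul_mem (hH.sq_mem hb) (hz.sq_mem hH)) (norm_conj' hzM he)) he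
  -- representatives
  obtain ⟨f', hf', qf⟩ := hq.surj f
  obtain ⟨w', hw', qw⟩ := hq.surj w
  set c' := b * e₀ * b⁻¹ * e₀⁻¹ with hc'
  have hc'M : c' ∈ M := M.mul_mem (hH.conj_mem hb he₀M) (M.inv_mem he₀M)
  have qc : q c' = c := by
    rw [hc', hq.add _ (hH.conj_mem hb he₀M) _ (M.inv_mem he₀M), hq.inv he₀M]
  have hc'S : c' ∈ Ph (S : Subgroup G) := by
    refine ⟨hc'M.1, fun ρ hρ => ?_⟩
    rw [hc', hρ _ (S.mul_mem (S.mul_mem hb he₀) (S.inv_mem hb)) _ (S.inv_mem he₀),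
      hρ.conj hb he₀, hρ.inv he₀, zdbl]
  -- values of `m`
  have hmf : m f' = 0 := by
    by_contra hcon
    have h4 := h1 f' hf' (zne hcon)
    rw [← hs f' hf', qf, sf] at h4
    exact hc (add_eq_left.1 h4.symm)
  have hmw : m w' = 1 := by
    apply zne
    intro h4
    have h5 := h0 w' hw' h4
    rw [← hs w' hw', qw, sw] at h5
    exact hc (add_eq_left.1 h5)
  -- `f ≠ 0`
  have hf0 : f ≠ 0 := by
    rintro rfl
    have htop : (⊤ : Submodule (ZMod 2) V) ≤ quad c w := by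
      intro v _
      obtain ⟨x, hx, hv⟩ := hdec v
      have hx0 : x = 0 := by tauto
      subst hx0
      rw [mem_quad]
      simpa using hv
    have h4 := Submodule.finrank_mono htop
    rw [finrank_top, finrank_quo hq] at h4
    have h5 := finrank_quad_le c w
    have h6 := dimf hl hl0
    have h7 := one_le_finrank h.2.2.1 hm0
    have h8 : finrank (ZMod 2) (Hm (kr (S : Subgroup G) l hl.2)) =
      finrank (ZMod 2) (Hm M) := rfl
    omega
  have hU := oct_conv (S := (S : Subgroup G)) (l := l) (m := m) (n := n) (by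
    intro d hdS
    by_contra hd'
    have := four_le_finrank hl hm hn hdS hl0 hm0 hml hnq hd'
    omega)
  have hagree : ∀ x ∈ M, ∀ y ∈ M, m x = m y → n x = n y → g₀ x = g₀ y → q x = q y := by
    intro x hx y hy hxy1 hxy2 hxy3
    have hxS := kr_le hx
    have hyS := kr_le hy
    apply hq.ext hx hy
    apply agree hl.2 hb hlb hx hy
    · intro ρ hρ
      have h5 := hU ρ hρ (x * y⁻¹) (S.mul_mem hxS (S.inv_mem hyS))
        (by rw [hl.2 _ hxS _ (S.inv_mem hyS), hl.2.inv hyS, hx.2, hy.2, add_zero])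
        (by rw [hm.2 _ hxS _ (S.inv_mem hyS), hm.2.inv hyS, hxy1, zdbl])
        (by rw [hn.2 _ hxS _ (S.inv_mem hyS), hn.2.inv hyS, hxy2, zdbl])
      rw [hρ _ hxS _ (S.inv_mem hyS), hρ.inv hyS] at h5
      have aux : ∀ a b : ZMod 2, a + b = 0 → a = b := by decide
      exact aux _ _ h5
    · intro p h' hp hk'
      rcases hconv p h' hp hk' with h5 | h5
      · refine ⟨0, ?_, rfl⟩
        intro x _ y hy
        rw [h5 y hy]; simp
      · exact ⟨g₀, hg₀.congr (fun _ _ => rfl) (fun x hx => (h5 x hx).symm) (fun _ _ => rfl), hxy3⟩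
  have hgc : g₀ c' = 1 := by
    rw [hc', hg₀.comm hl.2 hm.2 hb he₀, hlb, hme₀, hle₀]
    simp
  have hnf : n f' = 1 := by
    apply zne
    intro h4
    rcases zmod2_cases (g₀ f') with h5 | h5
    · apply hf0
      rw [← qf, ← hq.one]
      exact hagree f' hf' 1 M.one_mem (by rw [hmf, hm.2.one]) (by rw [h4, hn.2.one])
        (by rw [h5, hg₀.one hl.2])
    · have h6 : f = c := by
        rw [← qf, ← qc]
        exact hagree f' hf' c' hc'M (by rw [hmf, hc'S.2 m hm.2]) (by rw [h4, hc'S.2 n hn.2])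
          (by rw [h5, hgc])
      rw [h6, tc] at tf
      exact hw0 (add_eq_left.1 tf)
  -- the function `η`
  have hη : n + n w' • m ∈ Hm (S : Subgroup G) :=
    (Hm (S : Subgroup G)).add_mem hn ((Hm (S : Subgroup G)).smul_mem _ hm)
  have hηapp : ∀ x, (n + n w' • m) x = n x + n w' * m x := fun x => rfl
  obtain ⟨ψ, hψ⟩ := hq.lift (n + n w' • m) (hη.2.mono kr_le)
    (fun x _ hx => hx.2 _ (hη.2.mono kr_le))
  have hψc : ψ c = 0 := by
    rw [← qc, hψ _ hc'M, hηapp, hc'S.2 m hm.2, hc'S.2 n hn.2]; simp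
  have hψw : ψ w = 0 := by
    rw [← qw, hψ _ hw', hηapp, hmw, mul_one, zdbl]
  have hψf : ψ f = 1 := by
    rw [← qf, hψ _ hf', hηapp, hmf, hnf]; simp
  -- `b ^ 2 ∈ Ph M`
  have hbb : b * b ∈ Ph M := by
    refine ⟨hH.sq_mem hb, ?_⟩
    have h5 := agree hl.2 hb hlb (hH.sq_mem hb) M.one_mem (by
      intro ρ hρ
      rw [hρ.sq hb, hρ.one]) (by
      intro p h' hp hk'
      refine ⟨h', hk', ?_⟩
      rw [hk'.sq hb, hlb, one_mul, hk'.one hl.2]
      rcases hconv p h' hp hk' with h5 | h5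
      · exact h5 b hb
      · rw [h5 b hb, hmb])
    intro φ hφ
    rw [h5 φ hφ, hφ.one]
  have hfb : f' * b * f'⁻¹ * b⁻¹ ∈ Ph M := by
    have h5 : q (b * f' * b⁻¹) = q f' := by rw [← hs f' hf', qf, sf]
    rw [hq.eq_iff (hH.conj_mem hb hf') hf'] at h5
    have e1 : f' * b * f'⁻¹ * b⁻¹ = (b * f' * b⁻¹ * f'⁻¹)⁻¹ := by group
    rw [e1]
    exact (Ph M).inv_mem h5
  refine ⟨k, f', n + n w' • m, hη, hf', hmf, hnf, ?_, hfb, ?_⟩
  · rw [hηapp, hmf, hnf]; simp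
  · intro r hr hrc
    refine ⟨tr_inv hH hb hbM hkM h3 hbk hr, ?_, tr_comm hH hb hkM h3 hbk hbb hr hf' hfb⟩
    intro x hx
    rw [tr_sq hq hH hb hkM hr hg (fun x hx => (hs x hx).symm) gc gw gf sw hdec hψc hψw hψf
      hc'M qc (hrc c' hc'S) hf' qf x hx, hψ x hx]

theorem Invt.mono {S M N : Subgroup G} {r : G → ZMod 2} (h : Invt S N r) (hM : M ≤ S) :
    Invt M N r := ⟨h.1, fun x hx n hn => h.2 x (hM hx) n hn⟩

theorem Invt.add {S N : Subgroup G} {r r' : G → ZMod 2} (h : Invt S N r) (h' : Invt S N r') :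
    Invt S N (r + r') := by
  refine ⟨h.1.add h'.1, fun x hx n hn => ?_⟩
  simp only [Pi.add_apply]
  rw [h.2 x hx n hn, h'.2 x hx n hn]

/-- the interplay of the two sides -/
theorem cross [Finite G] {S M E : Subgroup G} (hMS : M ≤ S) (hES : E ≤ S) (hP : Ph E = Ph M)
    (hSM : Ph S ≤ M) {kM kE fM fE y : G} {ηM ηE π : G → ZMod 2} (hηM : AddOn S ηM)
    (HM : ∀ r, Invt S (Ph M) r → (∀ c ∈ Ph S, r (c * c) = 0) → Invt S (Ph M) (tr kM r) ∧
      (∀ x ∈ M, tr kM r (x * x) = ηM x * r (fM * fM)))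
    (HE : ∀ r, Invt S (Ph E) r → (∀ c ∈ Ph S, r (c * c) = 0) → Invt S (Ph E) (tr kE r) ∧
      (∀ x ∈ E, tr kE r (x * x) = ηE x * r (fE * fE)) ∧
      r (fE * y * fE⁻¹ * y⁻¹) = tr kE r (fE * y * fE⁻¹ * y⁻¹))
    (hπ : Invt S (Ph M) π) (hπc : ∀ c ∈ Ph S, π (c * c) = 0) (h1 : π (fM * fM) = 1)
    (h2 : π (fE * fE) = 1) (h3 : ηM fE = 1) (hfE : fE ∈ M) (hy : y ∈ M)
    (hfy : fE * y * fE⁻¹ * y⁻¹ ∈ Ph E) : π (fE * y * fE⁻¹ * y⁻¹) = 0 := by
  obtain ⟨m1, m2⟩ := HM π hπ hπc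
  rw [h1] at m2
  simp only [mul_one] at m2
  have hπE : Invt S (Ph E) π := by rw [hP]; exact hπ
  have m1E : Invt S (Ph E) (tr kM π) := by rw [hP]; exact m1
  obtain ⟨e1, e2, e3⟩ := HE π hπE hπc
  rw [h2] at e2
  simp only [mul_one] at e2
  obtain ⟨f1, f2, f3⟩ := HE (tr kM π) m1E (by
    intro c hc
    rw [m2 c (hSM hc)]
    exact hc.2 ηM hηM)
  rw [m2 fE hfE, h3] at f2
  simp only [mul_one] at f2
  have hD := vanish_of_sq (f1.add e1 |>.mono hES) (by
    intro x hx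
    rw [Pi.add_apply, f2 x hx, e2 x hx, zdbl])
  have h4 := hD _ hfy
  rw [Pi.add_apply, ← f3, ← e3] at h4
  -- the trace on the commutator
  have h5 : tr kM π (fE * y * fE⁻¹ * y⁻¹) = 0 := by
    have e4 : (fE * y) * (fE * y) =
        (fE * y * fE⁻¹ * y⁻¹) * (y * (fE * fE) * y⁻¹) * (y * y) := by group
    have h6 := m2 _ (M.mul_mem hfE hy)
    have hfy' : fE * y * fE⁻¹ * y⁻¹ ∈ Ph M := by rw [← hP]; exact hfy
    have hyn : y * (fE * fE) * y⁻¹ ∈ Ph M :=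
      norm_conj (Ph_norm (Subgroup.le_normalizer hy)) (sq_mem_Ph hfE)
    rw [e4, m1.1 _ ((Ph M).mul_mem hfy' hyn) _ (sq_mem_Ph hy), m1.1 _ hfy' _ hyn,
      m1.2 y (hMS hy) _ (sq_mem_Ph hfE), m2 y hy, m2 fE hfE,
      hηM _ (hMS hfE) _ (hMS hy)] at h6
    have aux : ∀ a b c : ZMod 2, a + b + c = b + c → a = 0 := by decide
    exact aux _ _ _ h6
  rw [h5, zero_add] at h4
  exact h4

theorem Ph_eq [Finite G] {S : Sylow 2 G} {l m g : G → ZMod 2} (h : IM (S : Subgroup G) l m)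
    (hA : ∀ p ∈ An (S : Subgroup G) l, p = 0 ∨ p = m) (hg : Lk (S : Subgroup G) l m g) (x : G) :
    x ∈ Ph (kr (S : Subgroup G) l h.1.2) ↔ x ∈ Ph (S : Subgroup G) ∧ g x = 0 := by
  obtain ⟨b, hb, hlb⟩ := exists_one h.1 h.2.1
  constructor
  · intro hx
    exact ⟨⟨(Ph_le _ hx).1, fun ρ hρ => hx.2 ρ (hρ.mono kr_le)⟩,
      hx.2 g (hg.addOn _ kr_le (fun e he => he.2))⟩
  · rintro ⟨hx, hgx⟩
    have hxE : x ∈ kr (S : Subgroup G) l h.1.2 := ⟨hx.1, hx.2 l h.1.2⟩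
    refine ⟨hxE, ?_⟩
    have h5 := agree h.1.2 hb hlb hxE (kr (S : Subgroup G) l h.1.2).one_mem (by
      intro ρ hρ
      rw [hx.2 ρ hρ, hρ.one]) (by
      intro p h' hp hk'
      rcases An_conv2 hA p h' hp hk' with h5 | h5
      · refine ⟨0, ?_, rfl⟩
        intro x _ y hy
        rw [h5 y hy]; simp
      · exact ⟨g, hg.congr (fun _ _ => rfl) (fun x hx => (h5 x hx).symm) (fun _ _ => rfl),
          by rw [hgx, hg.one h.1.2]⟩)
    intro φ hφ
    rw [h5 φ hφ, hφ.one]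

/-- In rank three there is a unique linked pair. -/
theorem unique_pair [Finite G] (hO : PropertyO G) {S : Sylow 2 G}
    (hd : finrank (ZMod 2) (Hm (S : Subgroup G)) = 3) {l m l₂ m₂ : G → ZMod 2}
    (h : IM (S : Subgroup G) l m) (h₂ : IM (S : Subgroup G) l₂ m₂) : l₂ = l ∨ l₂ = m := by
  by_contra hcon
  push Not at hcon
  obtain ⟨hne1, hne2⟩ := hcon
  have hA := an_two hO hd h
  have hA' := an_two hO hd h.symm
  obtain ⟨hl, hl0, ⟨hm, g, hg⟩, hm0, hml⟩ := id h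
  obtain ⟨hl₂, hl₂0, ⟨hm₂, π, hπ⟩, hm₂0, hml₂⟩ := id h₂
  have hm₂l : m₂ ≠ l := by
    rintro rfl
    rcases hA l₂ h₂.symm.2.2.1 with h3 | h3
    · exact hl₂0 h3
    · exact hne2 h3
  have hm₂m : m₂ ≠ m := by
    rintro rfl
    rcases hA' l₂ h₂.symm.2.2.1 with h3 | h3
    · exact hl₂0 h3
    · exact hne1 h3
  obtain ⟨n, hn, hnq⟩ := exists_not_mem_quad (A := Hm (S : Subgroup G)) (by omega) l m
  have hn' : n ∉ quad m l := by rw [quad_comm]; exact hnq
  obtain ⟨b, hb, hlb, hmb⟩ := exists_01 hl hm hm0 hml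
  obtain ⟨y, hy, hmy, hly⟩ := exists_01 hm hl hl0 hml.symm
  obtain ⟨kM, fM, ηM, hηM, hfM, hlfM, hnfM, hηfM, hfbM, HM⟩ :=
    side hO hd h.symm hA' hn hn' hb hmb hlb
  obtain ⟨kE, fE, ηE, hηE, hfE, hmfE, hnfE, hηfE, hfyE, HE⟩ :=
    side hO hd h hA hn hnq hy hly hmy
  set M := kr (S : Subgroup G) m hm.2 with hMdef
  set E := kr (S : Subgroup G) l hl.2 with hEdef
  have hoct : Hm (S : Subgroup G) ≤ oct l m n := by
    intro d hdS
    by_contra hd'
    have := four_le_finrank hl hm hn hdS hl0 hm0 hml hnq hd'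
    omega
  have hU := oct_conv hoct
  have hMS : M ≤ (S : Subgroup G) := kr_le
  have hES : E ≤ (S : Subgroup G) := kr_le
  have hmfM : m fM = 0 := hfM.2
  have hlfE : l fE = 0 := hfE.2
  have hP : Ph E = Ph M := by
    ext x
    rw [Ph_eq h hA hg, Ph_eq h.symm hA' (hg.symm hl.2 hm.2)]
    constructor
    · rintro ⟨h1, h2⟩
      exact ⟨h1, by rw [h2, h1.2 l hl.2]; simp⟩
    · rintro ⟨h1, h2⟩
      refine ⟨h1, ?_⟩
      rw [h1.2 l hl.2, zero_mul, add_zero] at h2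
      exact h2
  have hPS : Ph M ≤ Ph (S : Subgroup G) := Ph_mono hMS
  have hSM : Ph (S : Subgroup G) ≤ M := fun x hx => ⟨hx.1, hx.2 m hm.2⟩
  have hSE : Ph (S : Subgroup G) ≤ E := fun x hx => ⟨hx.1, hx.2 l hl.2⟩
  -- `π` on `Ph M`
  have hπI : Invt (S : Subgroup G) (Ph M) π := by
    refine ⟨hπ.addOn _ ((Ph_le M).trans hMS) (fun e he => (hPS he).2 l₂ hl₂.2), ?_⟩
    intro x hx n hn
    rw [hπ.conj hl₂.2 hx (hPS hn).1, (hPS hn).2 l₂ hl₂.2, (hPS hn).2 m₂ hm₂.2]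
    simp
  have hπc : ∀ c ∈ Ph (S : Subgroup G), π (c * c) = 0 := by
    intro c hc
    rw [hπ.sq hc.1, hc.2 l₂ hl₂.2, zero_mul]
  have feq : ∀ ρ ∈ Hm (S : Subgroup G), ρ fE = ρ fM := by
    intro ρ hρ
    have h5 := hU ρ hρ.2 (fE * fM⁻¹) (S.mul_mem hfE.1 (S.inv_mem hfM.1))
      (by rw [hl.2 _ hfE.1 _ (S.inv_mem hfM.1), hl.2.inv hfM.1, hlfE, hlfM, add_zero])
      (by rw [hm.2 _ hfE.1 _ (S.inv_mem hfM.1), hm.2.inv hfM.1, hmfE, hmfM, add_zero])
      (by rw [hn.2 _ hfE.1 _ (S.inv_mem hfM.1), hn.2.inv hfM.1, hnfE, hnfM]; decide)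
    rw [hρ.2 _ hfE.1 _ (S.inv_mem hfM.1), hρ.2.inv hfM.1] at h5
    have aux : ∀ a b : ZMod 2, a + b = 0 → a = b := by decide
    exact aux _ _ h5
  have pM : π (fM * fM) = l₂ fM * m₂ fM := hπ.sq hfM.1
  have pE : π (fE * fE) = l₂ fM * m₂ fM := by
    rw [hπ.sq hfE.1, feq l₂ hl₂, feq m₂ hm₂]
  have cM : π (fM * b * fM⁻¹ * b⁻¹) = l₂ fM * m₂ b + l₂ b * m₂ fM :=
    hπ.comm hl₂.2 hm₂.2 hfM.1 hb
  have cE : π (fE * y * fE⁻¹ * y⁻¹) = l₂ fM * m₂ y + l₂ y * m₂ fM := by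
    rw [hπ.comm hl₂.2 hm₂.2 hfE.1 hy, feq l₂ hl₂, feq m₂ hm₂]
  -- elements of `Hm S` vanishing at `f`
  have hvan : ∀ p ∈ Hm (S : Subgroup G), p fM = 0 → p ∈ quad l m := by
    intro p hp hpf
    rcases hoct hp with h5 | h5
    · exact h5
    · exfalso
      have h6 : ∀ σ ∈ quad l m, σ fM = 0 := by
        rintro σ (h7 | h7 | h7 | h7) <;> rw [h7] <;> simp [hlfM, hmfM]
      have h7 := h6 _ h5
      rw [Pi.add_apply, hpf, hnfM, zero_add] at h7
      exact one_ne_zero h7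
  have hvanb : ∀ p ∈ Hm (S : Subgroup G), p fM = 0 → p b = 0 → p y = 0 → p = 0 := by
    intro p hp hpf hpb hpy
    rcases hvan p hp hpf with h5 | h5 | h5 | h5
    · exact h5
    · rw [h5, hly] at hpy; exact absurd hpy one_ne_zero
    · rw [h5, hmb] at hpb; exact absurd hpb one_ne_zero
    · rw [h5, Pi.add_apply, hlb, hmb, zero_add] at hpb; exact absurd hpb one_ne_zero
  have hlm₂ : ∀ p, p ≠ 0 → p ≠ l → p ≠ m → p ∈ quad l m → p b = 1 := by
    intro p h1 h2 h3 h4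
    rcases h4 with h5 | h5 | h5 | h5
    · exact absurd h5 h1
    · exact absurd h5 h2
    · exact absurd h5 h3
    · rw [h5, Pi.add_apply, hlb, hmb, zero_add]
  rcases zmod2_cases (l₂ fM) with ha | ha <;> rcases zmod2_cases (m₂ fM) with ha' | ha'
  · -- both vanish at `f`
    have h5 := hvan l₂ hl₂ ha
    have h6 := hvan m₂ hm₂ ha'
    have h7 : l₂ = l + m := by
      rcases h5 with h5 | h5 | h5 | h5
      · exact absurd h5 hl₂0
      · exact absurd h5 hne1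
      · exact absurd h5 hne2
      · exact h5
    have h8 : m₂ = l + m := by
      rcases h6 with h5 | h5 | h5 | h5
      · exact absurd h5 hm₂0
      · exact absurd h5 hm₂l
      · exact absurd h5 hm₂m
      · exact h5
    exact hml₂ (h8.trans h7.symm)
  · obtain ⟨m1, m2, m3⟩ := HM π hπI hπc
    have h5 := vanish_of_sq (m1.mono hMS) (by
      intro x hx
      rw [m2 x hx, pM, ha]; simp) _ hfbM
    rw [← m3, cM, ha, ha'] at h5
    have h6 := hlm₂ l₂ hl₂0 hne1 hne2 (hvan l₂ hl₂ ha)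
    rw [h6] at h5
    revert h5; simp
  · obtain ⟨m1, m2, m3⟩ := HM π hπI hπc
    have h5 := vanish_of_sq (m1.mono hMS) (by
      intro x hx
      rw [m2 x hx, pM, ha']; simp) _ hfbM
    rw [← m3, cM, ha, ha'] at h5
    have h6 := hlm₂ m₂ hm₂0 hm₂l hm₂m (hvan m₂ hm₂ ha')
    rw [h6] at h5
    revert h5; simp
  · -- both are one at `f`
    rw [ha, ha'] at pM pE cM cE
    rw [mul_one] at pM pE
    have hπE : Invt (S : Subgroup G) (Ph E) π := by rw [hP]; exact hπI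
    have k1 := cross hMS hES hP hSM hηM.2 (fun r hr hrc => ⟨(HM r hr hrc).1, (HM r hr hrc).2.1⟩)
      HE hπI hπc pM pE (by rw [feq ηM hηM]; exact hηfM) ⟨hfE.1, hmfE⟩ ⟨hy, hmy⟩ hfyE
    have k2 := cross hES hMS hP.symm hSE hηE.2
      (fun r hr hrc => ⟨(HE r hr hrc).1, (HE r hr hrc).2.1⟩)
      HM hπE hπc pE pM (by rw [← feq ηE hηE]; exact hηfE) ⟨hfM.1, hlfM⟩ ⟨hb, hlb⟩ hfbM
    rw [cE] at k1
    rw [cM] at k2
    apply hml₂
    have h5 := hvanb (m₂ + l₂) ((Hm (S : Subgroup G)).add_mem hm₂ hl₂)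
      (by rw [Pi.add_apply, ha, ha']; decide)
      (by rw [Pi.add_apply]; simpa using k2) (by rw [Pi.add_apply]; simpa using k1)
    exact c2_of h5

end Pool.Agent.Work.MP_cd0fff_al
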