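import Pool.Agent.Work.MP_cd0fff_al.Span

/-!
The rank `dim Hm S` is at most three.
-/

universe u

namespace Pool.Agent.Work.MP_cd0fff_al

open Subgroup Module

variable {G : Type u} [Group G]

theorem dimf [Finite G] {S : Subgroup G} {l : G → ZMod 2} (hl : l ∈ Hm S) (hl0 : l ≠ 0) :
    finrank (ZMod 2) (Hm (kr S l hl.2)) + 1 =
      finrank (ZMod 2) (An S l) + finrank (ZMod 2) (Hm S) := by
  obtain ⟨x₀, hx₀, hx₁⟩ := exists_one hl hl0
  exact dim_formula hl hx₀ hx₁

theorem hspan_of {S : Subgroup G} {l m : G → ZMod 2} (hl : l ∈ Hm S)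
    (hA : An S l ≤ quad l m) : ∀ m' h', AddOn S m' → Lk S l m' h' →
      (∀ e ∈ kr S l hl.2, m' e = 0) ∨ (∀ e ∈ kr S l hl.2, m' e = m e) := by
  intro m' h' hm' hk'
  have h1 : cut S m' ∈ An S l :=
    ⟨hm'.cut, h', hk'.congr (fun _ _ => rfl) (fun x hx => (cut_mem hx).symm) (fun _ _ => rfl)⟩
  have h2 : ∀ e ∈ kr S l hl.2, m' e = cut S m' e := fun e he => (cut_mem he.1).symm
  rcases hA h1 with h | h | h | h
  · left; intro e he; rw [h2 e he, h]; rfl
  · left; intro e he; rw [h2 e he, h, he.2]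
  · right; intro e he; rw [h2 e he, h]
  · right; intro e he; rw [h2 e he, h, Pi.add_apply, he.2, zero_add]

/-- Lemma A in terms of `An`. -/
theorem an_u1 [Finite G] (hO : PropertyO G) {S : Sylow 2 G} {l m : G → ZMod 2}
    (h : IM (S : Subgroup G) l m) (hA : An (S : Subgroup G) l ≤ quad l m) :
    finrank (ZMod 2) (Hm (kr (S : Subgroup G) l h.1.2)) ≤ 3 := by
  obtain ⟨hl, hl0, ⟨hm, g, hg⟩, hm0, hml⟩ := h
  obtain ⟨x₀, hx₀, hx₁⟩ := exists_one hl hl0
  obtain ⟨e, he, hle, hme⟩ := exists_01 hl hm hm0 hml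
  exact (u1_main hO hl.2 hx₀ hx₁ hg (hspan_of hl hA) ⟨he, hle⟩ hme).1

theorem an_case_i [Finite G] (hO : PropertyO G) {S : Sylow 2 G} {l m : G → ZMod 2}
    (h : IM (S : Subgroup G) l m) (hmm : m ∈ An (S : Subgroup G) m) :
    An (S : Subgroup G) l ≤ quad l m ∨
      finrank (ZMod 2) (Hm (kr (S : Subgroup G) l h.1.2)) = 3 := by
  obtain ⟨hl, hl0, ⟨hm, _, _⟩, hm0, hml⟩ := h
  obtain ⟨_, g, hg⟩ := hmm
  obtain ⟨x₀, hx₀, hx₁⟩ := exists_one hl hl0
  obtain ⟨e, he, hle, hme⟩ := exists_01 hl hm hm0 hml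
  rcases case_i hO hl.2 hm.2 hx₀ hx₁ hg ⟨he, hle⟩ hme with h1 | h1
  · left
    rintro p ⟨hp, h', hk'⟩
    exact mem_quad_of_vanish hl hm hp (fun x hx hlx hmx => h1 p h' hp.2 hk' x ⟨hx, hlx⟩ hmx)
  · exact Or.inr h1

theorem an_case_ii [Finite G] (hO : PropertyO G) {S : Sylow 2 G} {l m n : G → ZMod 2}
    (hl : l ∈ Hm (S : Subgroup G)) (hl0 : l ≠ 0) (hm : m ∈ Hm (S : Subgroup G)) (hm0 : m ≠ 0)
    (hml : m ≠ l) (hn : n ∈ An (S : Subgroup G) m) (hn0 : n ∉ quad l m) :
    An (S : Subgroup G) l ≤ oct l m n ∨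
      finrank (ZMod 2) (Hm (kr (S : Subgroup G) l hl.2)) = 4 := by
  obtain ⟨hnS, g, hg⟩ := hn
  obtain ⟨x₀, hx₀, hx₁⟩ := exists_one hl hl0
  obtain ⟨e₂, he₂, hle₂, hme₂, hne₂⟩ := exists_001 hl hm hnS hn0
  have hm' : m ∉ quad l n := by
    rintro (h | h | h | h)
    · exact hm0 h
    · exact hml h
    · exact hn0 (by rw [h]; exact right_mem_quad _ _)
    · apply hn0
      have : n = l + m := by rw [h]; (apply c2_of; (try abel_nf); (try simp (disch := norm_num) only [smeven, add_zero, zero_add]))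
      rw [this]; exact add_mem_quad _ _
  obtain ⟨e₁, he₁, hle₁, hne₁, hme₁⟩ := exists_001 hl hnS hm hm'
  rcases case_ii hO hl.2 hm.2 hnS.2 hx₀ hx₁ hg ⟨he₁, hle₁⟩ hme₁ hne₁ ⟨he₂, hle₂⟩ hme₂ hne₂
    with h1 | h1
  · left
    rintro p ⟨hp, h', hk'⟩
    exact mem_oct_of_vanish hl hm hnS hp
      (fun x hx hlx hmx hnx => h1 p h' hp.2 hk' x ⟨hx, hlx⟩ hmx hnx)
  · exact Or.inr h1

/-- rank at least four is impossible -/
theorem rank_le_three [Finite G] (hO : PropertyO G) {S : Sylow 2 G} {l₀ m₀ : G → ZMod 2}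
    (h₀ : IM (S : Subgroup G) l₀ m₀) : finrank (ZMod 2) (Hm (S : Subgroup G)) ≤ 3 := by
  by_contra hcon
  push Not at hcon
  -- (P1)
  have P1 : ∀ l m, IM (S : Subgroup G) l m → ∃ m' ∈ An (S : Subgroup G) l, m' ∉ quad l m := by
    intro l m h
    by_contra hc
    push Not at hc
    have h1 := an_u1 hO h hc
    have h2 := dimf h.1 h.2.1
    have h3 := one_le_finrank h.2.2.1 h.2.2.2.1
    omega
  have P1' : ∀ l m (h : IM (S : Subgroup G) l m),
      5 ≤ finrank (ZMod 2) (Hm (kr (S : Subgroup G) l h.1.2)) := by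
    intro l m h
    obtain ⟨m', hm', hm'2⟩ := P1 l m h
    have h2 := dimf h.1 h.2.1
    have h3 := two_le_finrank h.2.2.1 hm' h.2.2.2.1
      (fun h0 => hm'2 (by rw [h0]; exact zero_mem_quad _ _))
      (fun h0 => hm'2 (by rw [h0]; exact right_mem_quad _ _))
    omega
  -- (P2)
  have P2 : ∀ l m, IM (S : Subgroup G) l m → l ∉ An (S : Subgroup G) l := by
    intro l m h hll
    have h' := h.symm
    rcases an_case_i hO h' hll with h1 | h1
    · obtain ⟨p, hp, hp2⟩ := P1 m l h'
      exact hp2 (h1 hp)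
    · have := P1' m l h'
      omega
  -- (P3)
  have P3 : ∀ l m, IM (S : Subgroup G) l m → ∃ ρ ∈ An (S : Subgroup G) l,
      ρ ∈ An (S : Subgroup G) m ∧ ρ ∉ quad l m ∧ An (S : Subgroup G) l ≤ oct l m ρ := by
    intro l m h
    obtain ⟨n, hn, hn2⟩ := P1 m l h.symm
    rw [quad_comm] at hn2
    rcases an_case_ii hO h.1 h.2.1 h.2.2.1.1 h.2.2.2.1 h.2.2.2.2 hn hn2 with h1 | h1
    · obtain ⟨ρ, hρ, hρ2⟩ := P1 l m h
      have hlm : l ∈ An (S : Subgroup G) m := h.symm.2.2.1
      have key : ∀ σ ∈ An (S : Subgroup G) l, (σ = n ∨ σ = n + l) → σ ∉ quad l m →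
          ∃ ρ ∈ An (S : Subgroup G) l,
            ρ ∈ An (S : Subgroup G) m ∧ ρ ∉ quad l m ∧ An (S : Subgroup G) l ≤ oct l m ρ := by
        intro σ hσ hσn hσq
        refine ⟨σ, hσ, ?_, hσq, ?_⟩
        · rcases hσn with rfl | rfl
          · exact hn
          · exact (An (S : Subgroup G) m).add_mem hn hlm
        · refine h1.trans ?_
          have : n ∈ oct l m σ := by
            rcases hσn with rfl | rfl
            · right; rw [dbl]; exact zero_mem_quad _ _
            · right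
              have : n + (n + l) = l := by (apply c2_of; (try abel_nf); (try simp (disch := norm_num) only [smeven, add_zero, zero_add]))
              rw [this]; exact left_mem_quad _ _
          exact oct_le (Or.inl (left_mem_quad _ _)) (Or.inl (right_mem_quad _ _)) this
      rcases h1 hρ with h2 | h2
      · exact absurd h2 hρ2
      · have hqm : ∀ x, x ∉ quad l m → x + m ∉ quad l m := by
          intro x hx hx'
          apply hx
          have := (quad l m).add_mem hx' (right_mem_quad l m)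
          have e : x + m + m = x := by (apply c2_of; (try abel_nf); (try simp (disch := norm_num) only [smeven, add_zero, zero_add]))
          rwa [e] at this
        rcases h2 with h2 | h2 | h2 | h2
        · exact key ρ hρ (Or.inl (c2_of h2)) hρ2
        · refine key ρ hρ (Or.inr ?_) hρ2
          rw [← h2]; (apply c2_of; (try abel_nf); (try simp (disch := norm_num) only [smeven, add_zero, zero_add]))
        · refine key (ρ + m) ((An (S : Subgroup G) l).add_mem hρ h.2.2.1) (Or.inl ?_) (hqm ρ hρ2)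
          rw [← h2]; (apply c2_of; (try abel_nf); (try simp (disch := norm_num) only [smeven, add_zero, zero_add]))
        · refine key (ρ + m) ((An (S : Subgroup G) l).add_mem hρ h.2.2.1) (Or.inr ?_) (hqm ρ hρ2)
          have : l = ρ + n + m := by rw [h2]; (apply c2_of; (try abel_nf); (try simp (disch := norm_num) only [smeven, add_zero, zero_add]))
          rw [this]; (apply c2_of; (try abel_nf); (try simp (disch := norm_num) only [smeven, add_zero, zero_add]))
    · have := P1' l m h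
      omega
  -- the contradiction
  have hll := P2 l₀ m₀ h₀
  obtain ⟨ρ, hρl, hρm, hρq, _⟩ := P3 l₀ m₀ h₀
  have hρ0 : ρ ≠ 0 := fun h => hρq (by rw [h]; exact zero_mem_quad _ _)
  have hρl' : ρ ≠ l₀ := fun h => hρq (by rw [h]; exact left_mem_quad _ _)
  have hρm' : ρ ≠ m₀ := fun h => hρq (by rw [h]; exact right_mem_quad _ _)
  have hs : IM (S : Subgroup G) l₀ (m₀ + ρ) := by
    refine ⟨h₀.1, h₀.2.1, (An (S : Subgroup G) l₀).add_mem h₀.2.2.1 hρl, ?_, ?_⟩
    · intro h; exact hρm' (c2_of h).symm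
    · intro h
      apply hρq
      have : ρ = l₀ + m₀ := by rw [← h]; (apply c2_of; (try abel_nf); (try simp (disch := norm_num) only [smeven, add_zero, zero_add]))
      rw [this]; exact add_mem_quad _ _
  obtain ⟨σ, hσl, hσs, hσq, _⟩ := P3 _ _ hs
  -- `An l₀ = {0, m₀, ρ, m₀ + ρ}`
  obtain ⟨_, _, _, _, hoct⟩ := P3 _ _ h₀
  have hρS := hρl.1
  have hσ : σ = m₀ ∨ σ = ρ := by
    have hAq : ∀ τ ∈ An (S : Subgroup G) l₀, τ ∈ quad l₀ m₀ → τ = 0 ∨ τ = m₀ := by
      rintro τ hτ (h | h | h | h)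
      · exact Or.inl h
      · exact absurd (h ▸ hτ) hll
      · exact Or.inr h
      · exfalso
        apply hll
        have e : τ + m₀ = l₀ := by rw [h]; (apply c2_of; (try abel_nf); (try simp (disch := norm_num) only [smeven, add_zero, zero_add]))
        have h5 := (An (S : Subgroup G) l₀).add_mem hτ h₀.2.2.1
        rwa [e] at h5
    -- use the octet of `l₀, m₀, ρ`
    obtain ⟨ρ', hρ'l, hρ'm, hρ'q, hoct'⟩ := P3 _ _ h₀
    have h1 := hoct' hσl
    have h2 := hoct' hρl
    have h3 : σ + ρ ∈ quad l₀ m₀ ∨ σ ∈ quad l₀ m₀ := by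
      rcases h1 with h1 | h1
      · exact Or.inr h1
      · rcases h2 with h2 | h2
        · exact absurd h2 hρq
        · left
          have := (quad l₀ m₀).add_mem h1 h2
          have e : σ + ρ' + (ρ + ρ') = σ + ρ := by (apply c2_of; (try abel_nf); (try simp (disch := norm_num) only [smeven, add_zero, zero_add]))
          rwa [e] at this
    rcases h3 with h3 | h3
    · rcases hAq _ ((An (S : Subgroup G) l₀).add_mem hσl hρl) h3 with h4 | h4
      · exact Or.inr (c2_of h4)
      · exfalso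
        apply hσq
        have : σ = m₀ + ρ := by rw [← h4]; (apply c2_of; (try abel_nf); (try simp (disch := norm_num) only [smeven, add_zero, zero_add]))
        rw [this]; exact right_mem_quad _ _
    · rcases hAq _ hσl h3 with h4 | h4
      · exfalso; apply hσq; rw [h4]; exact zero_mem_quad _ _
      · exact Or.inl h4
  have hmρ : m₀ ∈ An (S : Subgroup G) ρ := An_symm h₀.2.2.1.1 hρm
  rcases hσ with rfl | rfl
  · -- `m₀ ∈ An (m₀ + ρ)`
    have h1 : σ + ρ ∈ An (S : Subgroup G) σ := An_symm hs.2.2.1.1 hσs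
    have h2 := (An (S : Subgroup G) σ).add_mem h1 hρm
    have e : σ + ρ + ρ = σ := by (apply c2_of; (try abel_nf); (try simp (disch := norm_num) only [smeven, add_zero, zero_add]))
    rw [e] at h2
    exact P2 _ _ h₀.symm h2
  · have h1 : m₀ + σ ∈ An (S : Subgroup G) σ := An_symm hs.2.2.1.1 hσs
    have h2 := (An (S : Subgroup G) σ).add_mem h1 hmρ
    have e : m₀ + σ + m₀ = σ := by (apply c2_of; (try abel_nf); (try simp (disch := norm_num) only [smeven, add_zero, zero_add]))
    rw [e] at h2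
    exact P2 σ l₀ ⟨hρS, hρ0, An_symm h₀.1 hρl, h₀.2.1, hρl'.symm⟩ h2

end Pool.Agent.Work.MP_cd0fff_al
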