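import Pool.Agent.Work.MP_cd0fff_al.Constrained

/-!
`2`-constrained groups, solvable groups, and the final equivalence.
-/

namespace Pool.Agent.Work.MP_cd0fff_al

open Subgroup
open scoped commutatorElement

/-- The join of all normal `2`-subgroups. -/
noncomputable def core2 (G : Type*) [Group G] : Subgroup G :=
  sSup {H : Subgroup G | H.Normal ∧ IsPGroup 2 H}

theorem core2_isPGroup (G : Type*) [Group G] : IsPGroup 2 (core2 G) :=
  Sylow.sSup_of_normal _ (fun _ h => h.2) (fun _ h => h.1)

theorem le_core2 {G : Type*} [Group G] {H : Subgroup G} (h1 : H.Normal) (h2 : IsPGroup 2 H) :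
    H ≤ core2 G := le_sSup ⟨h1, h2⟩

theorem core2_normal (G : Type*) [Group G] : (core2 G).Normal := by
  refine ⟨fun n hn g => ?_⟩
  have h : core2 G ≤ (core2 G).comap (MulAut.conj g).toMonoidHom := by
    refine sSup_le ?_
    rintro H ⟨h1, h2⟩ x hx
    exact le_core2 h1 h2 (h1.conj_mem x hx g)
  exact h hn

/-- In a finite solvable group without nontrivial normal subgroups of odd order, the largest
normal `2`-subgroup contains its centraliser. -/
theorem centralizer_core2_le {G : Type*} [Group G] [Finite G] [Group.IsSolvable G]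
    (hodd : ∀ N : Subgroup G, N.Normal → Odd (Nat.card N) → N = ⊥) :
    centralizer (core2 G : Set G) ≤ core2 G := by
  classical
  have hQn := core2_normal G
  set Q := core2 G with hQ
  set C := centralizer (Q : Set G) with hC
  have hCn : C.Normal := by
    rw [hC]
    infer_instance
  by_contra hnot
  set Z := C ⊓ Q with hZ
  have hZn : Z.Normal := by rw [hZ]; infer_instance
  have hZC : Z < C := by
    refine lt_of_le_of_ne inf_le_left ?_
    intro h
    apply hnot
    rw [← h]
    exact inf_le_right
  have hfin : ({A : Subgroup G | A.Normal ∧ Z < A ∧ A ≤ C}).Finite := Set.toFinite _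
  obtain ⟨A, ⟨⟨hAn, hZA, hAC⟩, hmin⟩⟩ := hfin.exists_minimal ⟨C, hCn, hZC, le_refl C⟩
  -- `Z` is central in `A`
  have hcent : ∀ z ∈ Z, ∀ a ∈ A, a * z = z * a := by
    intro z hz a ha
    have h1 := hAC ha
    rw [hC, mem_centralizer_iff] at h1
    exact (h1 z hz.2).symm
  set B := ⁅A, A⁆ with hB
  have hBn : B.Normal := by rw [hB]; infer_instance
  have hBA : B ≤ A := Subgroup.commutator_le_left A A
  have hBZn : (B ⊔ Z).Normal := by infer_instance
  have hBZ : B ≤ Z := by
    by_contra hBZ
    have h1 : A ≤ B ⊔ Z := by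
      apply hmin ⟨hBZn, ?_, sup_le (hBA.trans hAC) (hZA.le.trans hAC)⟩
      · exact sup_le hBA hZA.le
      · refine lt_of_le_of_ne le_sup_right ?_
        intro h
        apply hBZ
        rw [h]
        exact le_sup_left
    have h2 : B ≤ ⁅B, B⁆ := by
      conv_lhs => rw [hB]
      rw [Subgroup.commutator_le]
      intro a ha a' ha'
      obtain ⟨b, hb, z, hz, rfl⟩ := (mem_sup_of_normal_left).1 (h1 ha)
      obtain ⟨b', hb', z', hz', rfl⟩ := (mem_sup_of_normal_left).1 (h1 ha')
      have hzb := hcent z hz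
      have hzb' := hcent z' hz'
      have e : ⁅b * z, b' * z'⁆ = ⁅b, b'⁆ := by
        rw [commutatorElement_def, commutatorElement_def]
        have e1 : b * z * (b' * z') = z * z' * (b * b') := by
          rw [hzb b (hBA hb), mul_assoc z b, ← mul_assoc b b' z', hzb' (b * b')
            (A.mul_mem (hBA hb) (hBA hb')), mul_assoc]
        have e2 : (b * z)⁻¹ * (b' * z')⁻¹ = (b⁻¹ * b'⁻¹) * (z * z')⁻¹ := by
          rw [← mul_inv_rev, ← mul_inv_rev]
          have e3 : b' * z' * (b * z) = (z * z') * (b' * b) := by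
            rw [hzb b (hBA hb), hzb' b' (hBA hb')]
            have e4 : z' * b' * (z * b) = z' * (b' * z) * b := by group
            rw [e4, hzb b' (hBA hb')]
            have e5 : z' * z = z * z' := (hcent z hz z' (hZA.le hz'))
            calc z' * (z * b') * b = (z' * z) * (b' * b) := by group
              _ = _ := by rw [e5]
          rw [e3, mul_inv_rev, mul_inv_rev]
        have e6 : z * z' ∈ Z := Z.mul_mem hz hz'
        rw [mul_assoc (b * z * (b' * z')), e2, e1]
        have e7 := hcent _ e6 (b * b') (A.mul_mem (hBA hb) (hBA hb'))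
        rw [← e7]
        have e8 := hcent _ (Z.inv_mem e6) (b⁻¹ * b'⁻¹)
          (A.mul_mem (A.inv_mem (hBA hb)) (A.inv_mem (hBA hb')))
        rw [e8]
        group
      rw [e]
      exact Subgroup.commutator_mem_commutator hb hb'
    have h3 : B = ⊥ := by
      by_contra hne
      have h4 := Group.IsSolvable.commutator_lt_of_ne_bot hne
      exact absurd h2 (not_le_of_gt h4)
    exact hBZ (h3 ▸ bot_le)
  -- so `A` is nilpotent
  have hAnil : Group.IsNilpotent A := by
    apply Subgroup.isNilpotent_of_ker_le_center (Abelianization.of (G := A))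
    · rw [Abelianization.ker_of]
      intro x hx
      have h1 : (x : G) ∈ B := by
        have h2 : (commutator A).map A.subtype ≤ ⁅A, A⁆ := by
          rw [_root_.commutator_def, Subgroup.map_commutator]
          apply Subgroup.commutator_mono <;>
          · rw [← MonoidHom.range_eq_map, range_subtype]
        exact h2 ⟨x, hx, rfl⟩
      rw [mem_center_iff]
      intro a
      ext
      exact hcent _ (hBZ h1) a a.2
  have hAp : IsPGroup 2 A := by
    have hcard : Nat.card A = 2 ^ (Nat.card A).primeFactorsList.length := by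
      apply Nat.eq_prime_pow_of_unique_prime_dvd Nat.card_pos.ne'
      intro d hd hdvd
      by_contra hd2
      have := Fact.mk hd
      have P : Sylow d A := default
      have hPn : (P : Subgroup A).Normal := inferInstance
      have hPc : (P : Subgroup A).Characteristic := P.characteristic_of_normal hPn
      have hPG : ((P : Subgroup A).map A.subtype).Normal :=
        ConjAct.normal_of_characteristic_of_normal
      have hPcard : Odd (Nat.card ((P : Subgroup A).map A.subtype)) := by
        rw [Subgroup.card_map_of_injective A.subtype_injective]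
        obtain ⟨n, hn⟩ := IsPGroup.iff_card.1 P.isPGroup'
        rw [hn]
        exact (hd.odd_of_ne_two hd2).pow
      have h1 := hodd _ hPG hPcard
      have h2 : (P : Subgroup A) = ⊥ := by
        rw [Subgroup.map_eq_bot_iff_of_injective _ A.subtype_injective] at h1
        exact h1
      exact P.ne_bot_of_dvd_card hdvd h2
    exact IsPGroup.of_card hcard
  have hAQ : A ≤ Q := le_core2 hAn hAp
  have : A ≤ Z := le_inf hAC hAQ
  exact absurd this (not_le_of_gt hZA)

theorem twoConstrained_of_solvable (G : Type*) [Group G] [Finite G] [Group.IsSolvable G] :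
    TwoConstrained G := by
  classical
  -- a normal subgroup of odd order of largest order
  have hfin : ({N : Subgroup G | N.Normal ∧ Odd (Nat.card N)}).Finite := Set.toFinite _
  obtain ⟨N, ⟨⟨hNn, hNodd⟩, hmax⟩⟩ := hfin.exists_maximal ⟨⊥, inferInstance, by simp⟩
  refine ⟨N, hNn, hNodd, core2 (G ⧸ N), core2_normal _, core2_isPGroup _, ?_⟩
  apply centralizer_core2_le
  intro M hM hModd
  have h1 : Odd (Nat.card (M.comap (QuotientGroup.mk' N))) := by
    have h2 : Nat.card (M.comap (QuotientGroup.mk' N)) = Nat.card N * Nat.card M := by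
      have h3 := Subgroup.card_mul_index (M.comap (QuotientGroup.mk' N))
      have h4 : (M.comap (QuotientGroup.mk' N)).index = M.index :=
        Subgroup.index_comap_of_surjective M (QuotientGroup.mk'_surjective N)
      have h5 := Subgroup.card_mul_index M
      have h6 := Subgroup.card_eq_card_quotient_mul_card_subgroup N
      rw [h4] at h3
      have h7 : 0 < M.index := Nat.pos_of_ne_zero (Subgroup.index_ne_zero_of_finite)
      have h8 : Nat.card (M.comap (QuotientGroup.mk' N)) * M.index =
          (Nat.card N * Nat.card M) * M.index := by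
        rw [h3, h6, ← h5]; ring
      exact Nat.eq_of_mul_eq_mul_right h7 h8
    rw [h2]
    exact hNodd.mul hModd
  have h9 : N ≤ M.comap (QuotientGroup.mk' N) := by
    intro x hx
    rw [mem_comap, QuotientGroup.mk'_apply, (QuotientGroup.eq_one_iff x).2 hx]
    exact M.one_mem
  have h10 : M.comap (QuotientGroup.mk' N) ≤ N := hmax ⟨inferInstance, h1⟩ h9
  rw [eq_bot_iff]
  intro x hx
  obtain ⟨y, rfl⟩ := QuotientGroup.mk'_surjective N x
  have : y ∈ N := h10 hx
  rw [mem_bot, QuotientGroup.mk'_apply]
  exact (QuotientGroup.eq_one_iff y).2 this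

/-- (O) in a `2`-constrained group gives a normal Dedekind Sylow `2`-subgroup modulo an odd
normal subgroup. -/
theorem structure_of_constrained {G : Type*} [Group G] [Finite G] (hO : PropertyO G)
    (hG : TwoConstrained G) :
    ∃ (N : Subgroup G) (_ : N.Normal), Odd (Nat.card N) ∧
      ∃ Q : Subgroup (G ⧸ N), Q.Normal ∧ IsPGroup 2 Q ∧ Odd Q.index ∧
        IsDedekindSubgroup Q := by
  classical
  obtain ⟨N, hN, hodd, Q0, hQ0n, hQ0p, hQ0c⟩ := hG
  have hO' : PropertyO (G ⧸ N) := hO.quotient N
  have hQn := core2_normal (G ⧸ N)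
  have hle : Q0 ≤ core2 (G ⧸ N) := le_core2 hQ0n hQ0p
  have hc : centralizer (core2 (G ⧸ N) : Set (G ⧸ N)) ≤ core2 (G ⧸ N) :=
    (centralizer_le hle).trans (hQ0c.trans hle)
  have hall := mem_of_constrained hO' (core2_isPGroup _) hc (fun N h1 h2 => le_core2 h1 h2)
  have hS : ∀ T : Sylow 2 (G ⧸ N), (T : Subgroup (G ⧸ N)) = core2 (G ⧸ N) := by
    intro T
    apply le_antisymm
    · intro x hx
      apply hall
      obtain ⟨n, hn⟩ := IsPGroup.exists_pow T.isPGroup' ⟨x, hx⟩
      refine ⟨n, ?_⟩
      have := congrArg Subtype.val hn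
      simpa using this
    · exact (core2_isPGroup (G ⧸ N)).le_sylow_of_normal T
  refine ⟨N, hN, hodd, core2 (G ⧸ N), hQn, core2_isPGroup _, ?_, ?_⟩
  · have T : Sylow 2 (G ⧸ N) := default
    exact odd_index_of_sylow_le T (hS T).le
  · intro H hH
    obtain ⟨T, _, hT⟩ := (propertyO_iff.1 hO') H ((core2_isPGroup _).to_le hH)
    rw [← hS T]
    exact hT

/-- The converse direction: such a group has Dedekind Sylow `2`-subgroups. -/
theorem dedekind_of_structure {G : Type*} [Group G] [Finite G] (N : Subgroup G) [hN : N.Normal]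
    (hodd : Odd (Nat.card N)) (Q : Subgroup (G ⧸ N)) (hQn : Q.Normal) (hQp : IsPGroup 2 Q)
    (hidx : Odd Q.index) (hded : IsDedekindSubgroup Q) (S : Sylow 2 G) :
    IsDedekindSubgroup (S : Subgroup G) := by
  classical
  have hQS : ∀ T : Sylow 2 (G ⧸ N), (T : Subgroup (G ⧸ N)) = Q := by
    intro T
    have h1 : ¬ 2 ∣ Q.index := by
      rw [← even_iff_two_dvd, Nat.not_even_iff_odd]; exact hidx
    have h2 : Q ≤ T := hQp.le_sylow_of_normal T
    have h3 := (hQp.toSylow h1).is_maximal' T.isPGroup' (by
      change Q ≤ T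
      exact h2)
    rw [h3]
    rfl
  intro H hH s hs
  have hSN : ∀ x ∈ (S : Subgroup G), x ∈ N → x = 1 := by
    intro x hx hxN
    obtain ⟨n, hn⟩ := IsPGroup.exists_pow S.isPGroup' ⟨x, hx⟩
    have hn' : x ^ 2 ^ n = 1 := by
      have := congrArg Subtype.val hn
      simpa using this
    have h1 : orderOf x ∣ 2 ^ n := orderOf_dvd_of_pow_eq_one hn'
    have h2 : orderOf x ∣ Nat.card N := by
      have := orderOf_dvd_natCard (⟨x, hxN⟩ : N)
      simpa using this
    have h3 : Nat.Coprime (2 ^ n) (Nat.card N) := by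
      apply Nat.Coprime.pow_left
      rw [Nat.coprime_two_left]
      exact hodd
    have h4 : orderOf x ∣ 1 := by
      rw [← h3]
      exact Nat.dvd_gcd h1 h2
    rw [Nat.dvd_one, orderOf_eq_one_iff] at h4
    exact h4
  set S' : Sylow 2 (G ⧸ N) := S.mapSurjective (QuotientGroup.mk'_surjective N) with hS'
  have hS'Q : (S : Subgroup G).map (QuotientGroup.mk' N) = Q := by
    rw [← hQS S', hS', Sylow.coe_mapSurjective]
  have hHQ : H.map (QuotientGroup.mk' N) ≤ Q := by
    rw [← hS'Q]
    exact Subgroup.map_mono hH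
  have hsQ : QuotientGroup.mk' N s ∈ Q := by
    rw [← hS'Q]
    exact ⟨s, hs, rfl⟩
  have hn := mem_normalizer_iff.1 (hded _ hHQ hsQ)
  have hn' := mem_normalizer_iff.1 (hded _ hHQ (Q.inv_mem hsQ))
  have aux : ∀ r ∈ (S : Subgroup G), (∀ z, z ∈ H.map (QuotientGroup.mk' N) ↔
      QuotientGroup.mk' N r * z * (QuotientGroup.mk' N r)⁻¹ ∈ H.map (QuotientGroup.mk' N)) →
      ∀ h ∈ H, r * h * r⁻¹ ∈ H := by
    intro r hr hrn h hh
    have h1 := (hrn (QuotientGroup.mk' N h)).1 ⟨h, hh, rfl⟩
    obtain ⟨h', hh', he⟩ := h1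
    rw [← map_inv, ← map_mul, ← map_mul] at he
    have h2 : h'⁻¹ * (r * h * r⁻¹) ∈ N := QuotientGroup.eq.1 he
    have h3 : h'⁻¹ * (r * h * r⁻¹) ∈ (S : Subgroup G) :=
      S.mul_mem (S.inv_mem (hH hh')) (S.mul_mem (S.mul_mem hr (hH hh)) (S.inv_mem hr))
    have h4 := hSN _ h3 h2
    have h5 : r * h * r⁻¹ = h' := by
      rw [inv_mul_eq_one] at h4
      exact h4.symm
    rw [h5]
    exact hh'
  rw [mem_normalizer_iff]
  intro h
  constructor
  · exact aux s hs hn h
  · intro hh
    have h1 := aux s⁻¹ (S.inv_mem hs) (by simpa using hn') _ hh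
    simpa [mul_assoc] using h1

end Pool.Agent.Work.MP_cd0fff_al
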