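import Pool.Agent.Work.MP_cd0fff_al.U1Group

/-!
Small subspaces over the field with two elements; the class `MM` in terms of `An`.
-/

universe u

namespace Pool.Agent.Work.MP_cd0fff_al

open Subgroup Module

section

variable {V : Type*} [AddCommGroup V] [Module (ZMod 2) V]

theorem zero_mem_quad (a b : V) : (0 : V) ∈ quad a b := Or.inl rfl
theorem left_mem_quad (a b : V) : a ∈ quad a b := Or.inr (Or.inl rfl)
theorem right_mem_quad (a b : V) : b ∈ quad a b := Or.inr (Or.inr (Or.inl rfl))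
theorem add_mem_quad (a b : V) : a + b ∈ quad a b := Or.inr (Or.inr (Or.inr rfl))

theorem quad_comm (a b : V) : quad a b = quad b a := by
  ext x
  rw [mem_quad, mem_quad, add_comm a b]
  tauto

/-- the subspace spanned by three vectors -/
def oct (a b c : V) : Submodule (ZMod 2) V where
  carrier := {u | u ∈ quad a b ∨ u + c ∈ quad a b}
  zero_mem' := Or.inl (zero_mem_quad a b)
  add_mem' := by
    rintro u v (hu | hu) (hv | hv)
    · exact Or.inl ((quad a b).add_mem hu hv)
    · right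
      rw [add_assoc]
      exact (quad a b).add_mem hu hv
    · right
      have : u + v + c = (u + c) + v := by abel
      rw [this]
      exact (quad a b).add_mem hu hv
    · left
      have : u + v = (u + c) + (v + c) := by (apply c2_of; (try abel_nf); (try simp (disch := norm_num) only [smeven, add_zero, zero_add]))
      rw [this]
      exact (quad a b).add_mem hu hv
  smul_mem' := by
    intro r x hx
    rcases zmod2_cases r with rfl | rfl
    · left; rw [zero_smul]; exact zero_mem_quad a b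
    · rw [one_smul]; exact hx

theorem mem_oct {a b c u : V} : u ∈ oct a b c ↔ u ∈ quad a b ∨ u + c ∈ quad a b := Iff.rfl

theorem quad_le {A : Submodule (ZMod 2) V} {a b : V} (ha : a ∈ A) (hb : b ∈ A) :
    quad a b ≤ A := by
  rintro x (rfl | rfl | rfl | rfl)
  · exact A.zero_mem
  · exact ha
  · exact hb
  · exact A.add_mem ha hb

theorem oct_le {A : Submodule (ZMod 2) V} {a b c : V} (ha : a ∈ A) (hb : b ∈ A) (hc : c ∈ A) :
    oct a b c ≤ A := by
  rintro x (hx | hx)
  · exact quad_le ha hb hx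
  · have h1 := A.add_mem (quad_le ha hb hx) hc
    have : x + c + c = x := by (apply c2_of; (try abel_nf); (try simp (disch := norm_num) only [smeven, add_zero, zero_add]))
    rwa [this] at h1

variable [Finite V]

theorem one_le_finrank {A : Submodule (ZMod 2) V} {a : V} (ha : a ∈ A) (ha0 : a ≠ 0) :
    1 ≤ finrank (ZMod 2) A := by
  by_contra hcon
  have h0 : finrank (ZMod 2) A = 0 := by omega
  rw [Submodule.finrank_eq_zero] at h0
  rw [h0] at ha
  exact ha0 ((Submodule.mem_bot _).1 ha)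

theorem two_le_finrank {A : Submodule (ZMod 2) V} {a b : V} (ha : a ∈ A) (hb : b ∈ A)
    (ha0 : a ≠ 0) (hb0 : b ≠ 0) (hab : b ≠ a) : 2 ≤ finrank (ZMod 2) A := by
  have h1 : Submodule.span (ZMod 2) {a} < A := by
    refine lt_of_le_of_ne ?_ ?_
    · rw [Submodule.span_singleton_le_iff_mem]; exact ha
    · intro h
      rw [← h, Submodule.mem_span_singleton] at hb
      obtain ⟨r, hr⟩ := hb
      rcases zmod2_cases r with rfl | rfl
      · exact hb0 (by rw [← hr, zero_smul])
      · exact hab (by rw [← hr, one_smul])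
  have h2 := Submodule.finrank_lt_finrank_of_lt h1
  rw [finrank_span_singleton ha0] at h2
  omega

theorem three_le_finrank {A : Submodule (ZMod 2) V} {a b c : V} (ha : a ∈ A) (hb : b ∈ A)
    (hc : c ∈ A) (ha0 : a ≠ 0) (hb0 : b ≠ 0) (hab : b ≠ a) (hc0 : c ∉ quad a b) :
    3 ≤ finrank (ZMod 2) A := by
  have h1 : quad a b < A := by
    refine lt_of_le_of_ne (quad_le ha hb) ?_
    intro h
    rw [← h] at hc
    exact hc0 hc
  have h2 := Submodule.finrank_lt_finrank_of_lt h1
  have h3 := two_le_finrank (left_mem_quad a b) (right_mem_quad a b) ha0 hb0 hab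
  omega

theorem four_le_finrank {A : Submodule (ZMod 2) V} {a b c d : V} (ha : a ∈ A) (hb : b ∈ A)
    (hc : c ∈ A) (hd : d ∈ A) (ha0 : a ≠ 0) (hb0 : b ≠ 0) (hab : b ≠ a) (hc0 : c ∉ quad a b)
    (hd0 : d ∉ oct a b c) : 4 ≤ finrank (ZMod 2) A := by
  have h1 : oct a b c < A := by
    refine lt_of_le_of_ne (oct_le ha hb hc) ?_
    intro h
    rw [← h] at hd
    exact hd0 hd
  have h2 := Submodule.finrank_lt_finrank_of_lt h1
  have h3 : 3 ≤ finrank (ZMod 2) (oct a b c) :=
    three_le_finrank (a := a) (b := b) (c := c) (Or.inl (left_mem_quad a b))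
      (Or.inl (right_mem_quad a b)) (Or.inr (by rw [dbl]; exact zero_mem_quad a b)) ha0 hb0 hab hc0
  omega

theorem finrank_quad_le (a b : V) : finrank (ZMod 2) (quad a b) ≤ 2 := by
  classical
  have h1 : quad a b ≤ Submodule.span (ZMod 2) (({a, b} : Finset V) : Set V) := by
    apply quad_le <;> apply Submodule.subset_span <;> simp
  refine (Submodule.finrank_mono h1).trans ?_
  exact (finrank_span_finset_le_card _).trans Finset.card_le_two

theorem exists_not_mem_quad {A : Submodule (ZMod 2) V} (hA : 3 ≤ finrank (ZMod 2) A) (a b : V) :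
    ∃ c ∈ A, c ∉ quad a b := by
  by_contra hcon
  push Not at hcon
  have h1 : A ≤ quad a b := hcon
  have h2 := Submodule.finrank_mono h1
  have h3 := finrank_quad_le a b
  omega

end

variable {G : Type u} [Group G]

theorem one_step {S : Subgroup G} {l m : G → ZMod 2} (hl : AddOn S l) (hm : AddOn S m)
    (h : ∀ x ∈ S, l x = 0 → m x = 0) : (∀ x ∈ S, m x = 0) ∨ (∀ x ∈ S, m x = l x) := by
  by_cases h0 : ∀ x ∈ S, m x = 0
  · exact Or.inl h0
  right
  push Not at h0
  obtain ⟨a, ha, hma⟩ := h0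
  have hma' := zne hma
  have hla : l a = 1 := zne (fun h1 => hma (h a ha h1))
  intro x hx
  rcases zmod2_cases (l x) with h1 | h1
  · rw [h1, h x hx h1]
  · have h2 := h (x * a) (S.mul_mem hx ha) (by rw [hl x hx a ha, h1, hla]; decide)
    rw [hm x hx a ha, hma'] at h2
    rw [h1]
    have aux : ∀ a : ZMod 2, a + 1 = 0 → a = 1 := by decide
    exact aux _ h2

theorem mem_pair_of_vanish {S : Subgroup G} {l m : G → ZMod 2} (hl : l ∈ Hm S) (hm : m ∈ Hm S)
    (h : ∀ x ∈ S, l x = 0 → m x = 0) : m = 0 ∨ m = l := by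
  rcases one_step hl.2 hm.2 h with h1 | h1
  · left
    exact Hm_ext hm (Hm S).zero_mem h1
  · right
    exact Hm_ext hm hl h1

theorem mem_quad_of_vanish {S : Subgroup G} {l m p : G → ZMod 2} (hl : l ∈ Hm S) (hm : m ∈ Hm S)
    (hp : p ∈ Hm S) (h : ∀ x ∈ S, l x = 0 → m x = 0 → p x = 0) : p ∈ quad l m := by
  rcases one_step (hm.2.mono (kr_le (h := hl.2))) (hp.2.mono kr_le)
    (fun x hx hmx => h x hx.1 hx.2 hmx) with h1 | h1
  · rcases mem_pair_of_vanish hl hp (fun x hx hlx => h1 x ⟨hx, hlx⟩) with rfl | rfl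
    · exact zero_mem_quad _ _
    · exact left_mem_quad _ _
  · have h2 : p + m = 0 ∨ p + m = l := by
      apply mem_pair_of_vanish hl ((Hm S).add_mem hp hm)
      intro x hx hlx
      rw [Pi.add_apply, h1 x ⟨hx, hlx⟩, zdbl]
    rcases h2 with h2 | h2
    · rw [c2_of h2]; exact right_mem_quad _ _
    · have : p = l + m := by rw [← h2]; (apply c2_of; (try abel_nf); (try simp (disch := norm_num) only [smeven, add_zero, zero_add]))
      rw [this]; exact add_mem_quad _ _

theorem mem_oct_of_vanish {S : Subgroup G} {l m n p : G → ZMod 2} (hl : l ∈ Hm S) (hm : m ∈ Hm S)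
    (hn : n ∈ Hm S) (hp : p ∈ Hm S)
    (h : ∀ x ∈ S, l x = 0 → m x = 0 → n x = 0 → p x = 0) : p ∈ oct l m n := by
  have hm' : AddOn (kr S l hl.2) m := hm.2.mono kr_le
  rcases one_step (S := kr (kr S l hl.2) m hm') (hn.2.mono (kr_le.trans kr_le))
    (hp.2.mono (kr_le.trans kr_le))
    (fun x hx hnx => h x hx.1.1 hx.1.2 hx.2 hnx) with h1 | h1
  · left
    exact mem_quad_of_vanish hl hm hp (fun x hx hlx hmx => h1 x ⟨⟨hx, hlx⟩, hmx⟩)
  · right
    apply mem_quad_of_vanish hl hm ((Hm S).add_mem hp hn)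
    intro x hx hlx hmx
    rw [Pi.add_apply, h1 x ⟨⟨hx, hlx⟩, hmx⟩, zdbl]

theorem exists_one {S : Subgroup G} {l : G → ZMod 2} (hl : l ∈ Hm S) (hl0 : l ≠ 0) :
    ∃ x ∈ S, l x = 1 := by
  by_contra hcon
  push Not at hcon
  apply hl0
  apply Hm_ext hl (Hm S).zero_mem
  intro x hx
  by_contra h
  exact hcon x hx (zne h)

theorem exists_01 {S : Subgroup G} {l m : G → ZMod 2} (hl : l ∈ Hm S) (hm : m ∈ Hm S)
    (hm0 : m ≠ 0) (hml : m ≠ l) : ∃ x ∈ S, l x = 0 ∧ m x = 1 := by
  by_contra hcon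
  push Not at hcon
  rcases mem_pair_of_vanish hl hm (fun x hx hlx => by
    by_contra h
    exact hcon x hx hlx (zne h)) with h | h
  · exact hm0 h
  · exact hml h

theorem exists_001 {S : Subgroup G} {l m p : G → ZMod 2} (hl : l ∈ Hm S) (hm : m ∈ Hm S)
    (hp : p ∈ Hm S) (hp0 : p ∉ quad l m) : ∃ x ∈ S, l x = 0 ∧ m x = 0 ∧ p x = 1 := by
  by_contra hcon
  push Not at hcon
  exact hp0 (mem_quad_of_vanish hl hm hp (fun x hx hlx hmx => by
    by_contra h
    exact hcon x hx hlx hmx (zne h)))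

/-- `l` has a nontrivial partner -/
def IM (S : Subgroup G) (l m : G → ZMod 2) : Prop :=
  l ∈ Hm S ∧ l ≠ 0 ∧ m ∈ An S l ∧ m ≠ 0 ∧ m ≠ l

theorem IM.symm {S : Subgroup G} {l m : G → ZMod 2} (h : IM S l m) : IM S m l :=
  ⟨h.2.2.1.1, h.2.2.2.1, An_symm h.1 h.2.2.1, h.2.1, h.2.2.2.2.symm⟩

theorem IM.MM {S : Subgroup G} {l m : G → ZMod 2} (h : IM S l m) : MM S (kr S l h.1.2) := by
  obtain ⟨hl, hl0, ⟨hm, g, hg⟩, hm0, hml⟩ := h
  obtain ⟨x₀, hx₀, hx₁⟩ := exists_one hl hl0
  obtain ⟨e, he, hle, hme⟩ := exists_01 hl hm hm0 hml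
  exact MM_of_link hg hl.2 hx₀ hx₁ he hle hme

theorem exists_IM [Finite G] (hO : PropertyO G) {S : Sylow 2 G} {l : G → ZMod 2}
    (hl : l ∈ Hm (S : Subgroup G)) (hM : MM (S : Subgroup G) (kr (S : Subgroup G) l hl.2)) :
    ∃ m, IM (S : Subgroup G) l m := by
  obtain ⟨m, h, hm, hk, e, he, hme⟩ := exists_link hO hl.2 hM
  refine ⟨cut S m, hl, ?_, ⟨hm.cut, h, ?_⟩, ?_, ?_⟩
  · rintro rfl
    obtain ⟨x, hx, hxE⟩ := hM.1.exists_not_mem
    exact hxE ⟨hx, rfl⟩
  · exact hk.congr (fun _ _ => rfl) (fun x hx => (cut_mem hx).symm) (fun _ _ => rfl)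
  · intro h0
    have h1 := congrFun h0 e
    rw [cut_mem he.1, hme] at h1
    exact one_ne_zero h1
  · intro h0
    have h1 := congrFun h0 e
    rw [cut_mem he.1, hme, he.2] at h1
    exact one_ne_zero h1

end Pool.Agent.Work.MP_cd0fff_al
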