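import Pool.Agent.Work.MP_cd0fff_al.TheoremX

/-!
An element `x` of `S` outside all members of `MM`.
-/

universe u

namespace Pool.Agent.Work.MP_cd0fff_al

open Subgroup Module

variable {G : Type u} [Group G]

/-- `x` lies outside all members of `MM` -/
def Outside (S : Subgroup G) (x : G) : Prop := x ∈ S ∧ ∀ E, MM S E → x ∉ E

theorem Outside.norm [Finite G] {S : Sylow 2 G} {x : G} (hx : Outside (S : Subgroup G) x)
    {Y : Subgroup G} (hY : Y ≤ S) (hxY : x ∈ normalizer (Y : Set G)) :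
    (S : Subgroup G) ≤ normalizer (Y : Set G) := by
  by_contra hcon
  obtain ⟨E, hE, hle⟩ := lemma_F S.isPGroup' hY hcon
  exact hx.2 E hE (hle ⟨hx.1, hxY⟩)

theorem Outside.conj_zpow [Finite G] {S : Sylow 2 G} {x : G} (hx : Outside (S : Subgroup G) x)
    {s : G} (hs : s ∈ (S : Subgroup G)) : ∃ i : ℤ, s * x * s⁻¹ = x ^ i := by
  have h1 : (S : Subgroup G) ≤ normalizer (zpowers x : Set G) :=
    hx.norm (by rw [zpowers_le]; exact hx.1) (Subgroup.le_normalizer (mem_zpowers x))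
  have h2 := norm_conj (h1 hs) (mem_zpowers x)
  obtain ⟨i, hi⟩ := mem_zpowers_iff.1 h2
  exact ⟨i, hi.symm⟩

theorem Outside.comm_E [Finite G] {S : Sylow 2 G} {x : G} (hx : Outside (S : Subgroup G) x)
    {E : Subgroup G} (hE : MM (S : Subgroup G) E) {e : G} (he : e ∈ E) :
    ∃ i : ℤ, x * e * x⁻¹ = (x * x) ^ i * e := by
  obtain ⟨i, hi⟩ := hx.conj_zpow (hE.1.le he)
  have h1 : x * e * x⁻¹ = x ^ (1 - i) * e := by
    rw [zpow_sub, zpow_one, ← hi]; group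
  have h2 : x ^ (1 - i) ∈ E := by
    have h3 := hE.1.conj_mem hx.1 he
    rw [h1] at h3
    exact (E.mul_mem_cancel_right he).1 h3
  rcases Int.even_or_odd' (1 - i) with ⟨j, hj | hj⟩
  · refine ⟨j, ?_⟩
    rw [h1, hj, zpow_mul, zpow_ofNat, pow_two]
  · exfalso
    rw [hj, zpow_add, zpow_one, zpow_mul, zpow_ofNat, pow_two] at h2
    exact hx.2 E hE ((E.mul_mem_cancel_left (E.zpow_mem (hE.1.sq_mem hx.1) j)).1 h2)

/-- `x ^ 2 ∉ Ph E` -/
theorem Outside.sq_not_mem [Finite G] (hO : PropertyO G) {S : Sylow 2 G} {x : G}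
    (hx : Outside (S : Subgroup G) x) {E : Subgroup G} (hE : MM (S : Subgroup G) E) :
    x * x ∉ Ph E := by
  intro ha
  obtain ⟨x', hx', hx'E, e, he, φ, hφ, hne⟩ := nontrivial_action hO hE
  apply hne
  rcases hE.1.cover hx.1 (hx.2 E hE) hx' with h | ⟨e', he', rfl⟩
  · exact absurd h hx'E
  · have h1 := E.mul_mem (E.mul_mem he' he) (E.inv_mem he')
    obtain ⟨i, hi⟩ := hx.comm_E hE h1
    have e1 : x * e' * e * (x * e')⁻¹ = x * (e' * e * e'⁻¹) * x⁻¹ := by group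
    rw [e1, hi, hφ _ (E.zpow_mem (Ph_le E ha) i) _ h1, ((Ph E).zpow_mem ha i).2 φ hφ, zero_add,
      hφ.conj he' he]

theorem quo_zpow {V : Type u} [AddCommGroup V] [Module (ZMod 2) V] {E : Subgroup G} {q : G → V}
    (hq : Quo E (Ph E) q) {a : G} (ha : a ∈ E) (i : ℤ) :
    (Even i ∧ q (a ^ i) = 0) ∨ (Odd i ∧ q (a ^ i) = q a) := by
  rcases Int.even_or_odd' i with ⟨j, rfl | rfl⟩
  · left
    refine ⟨even_two_mul j, ?_⟩
    rw [zpow_mul, zpow_ofNat, pow_two, hq.ker _ (E.zpow_mem (E.mul_mem ha ha) j)]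
    exact (Ph E).zpow_mem (sq_mem_Ph ha) j
  · right
    refine ⟨odd_two_mul_add_one j, ?_⟩
    rw [zpow_add, zpow_one, zpow_mul, zpow_ofNat, pow_two,
      hq.add _ (E.zpow_mem (E.mul_mem ha ha) j) _ ha,
      (hq.ker _ (E.zpow_mem (E.mul_mem ha ha) j)).2 ((Ph E).zpow_mem (sq_mem_Ph ha) j), zero_add]

theorem Quo.conj_congr {V : Type u} [AddCommGroup V] [Module (ZMod 2) V] {E : Subgroup G}
    {q : G → V} (hq : Quo E (Ph E) q) {k : G} (hk : k ∈ normalizer (E : Set G)) {a b : G}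
    (ha : a ∈ E) (hb : b ∈ E) (h : q a = q b) : q (k * a * k⁻¹) = q (k * b * k⁻¹) := by
  apply hq.ext (norm_conj hk ha) (norm_conj hk hb)
  intro φ hφ
  exact hq.apply ha hb h (hφ.comp_conj hk)

theorem Outside.data [Finite G] (hO : PropertyO G) {S : Sylow 2 G} {x : G}
    (hx : Outside (S : Subgroup G) x) {E : Subgroup G} (hE : MM (S : Subgroup G) E) :
    Nat.card E ≤ 8 * Nat.card (Ph E) ∧
    ∃ k ∈ normalizer (E : Set G), ∃ j j' : ℤ, Odd j ∧ Odd j' ∧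
      x * (k * (x * x) * k⁻¹) * x⁻¹ = (x * x) ^ j * (k * (x * x) * k⁻¹) ∧
      (k * x * k⁻¹) * (x * x) * (k * x * k⁻¹)⁻¹ = (k * (x * x) * k⁻¹) ^ j' * (x * x) := by
  obtain ⟨V, _, _, _, q, hq, hcard⟩ := exists_quo (Ph_le E)
    ((Subgroup.le_normalizer).trans (normalizer_le_Ph E)) (fun a ha => sq_mem_Ph ha)
  have hxS := hx.1
  have hxE := hx.2 E hE
  have haE : x * x ∈ E := hE.1.sq_mem hxS
  set a := x * x with ha
  have haP : a ∉ Ph E := hx.sq_not_mem hO hE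
  have hc : q a ≠ 0 := fun h => haP ((hq.ker a haE).1 h)
  have hs : ∀ e ∈ E, q (x * e * x⁻¹) = q e ∨ q (x * e * x⁻¹) = q e + q a := by
    intro e he
    obtain ⟨i, hi⟩ := hx.comm_E hE he
    rw [hi, hq.add _ (E.zpow_mem haE i) _ he]
    rcases quo_zpow hq haE i with ⟨_, h⟩ | ⟨_, h⟩
    · left; rw [h, zero_add]
    · right; rw [h, add_comm]
  have hne : ∃ e ∈ E, q (x * e * x⁻¹) ≠ q e := by
    obtain ⟨x', hx', hx'E, e, he, φ, hφ, hne⟩ := nontrivial_action hO hE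
    rcases hE.1.cover hxS hxE hx' with h | ⟨e', he', rfl⟩
    · exact absurd h hx'E
    · have h1 := E.mul_mem (E.mul_mem he' he) (E.inv_mem he')
      refine ⟨e' * e * e'⁻¹, h1, ?_⟩
      intro h
      apply hne
      have e1 : x * e' * e * (x * e')⁻¹ = x * (e' * e * e'⁻¹) * x⁻¹ := by group
      rw [e1, hq.apply (hE.1.conj_mem hxS h1) h1 h hφ, hφ.conj he' he]
  obtain ⟨s, t, z, hz, hs', ht', w, f, sc, tw, hsv, htv, sw, tc, sf, tf, _, hdec⟩ :=
    group_A hO hE.1 hq hxS hxE hc hs hne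
  refine ⟨?_, ?_⟩
  · rw [← hcard]
    exact Nat.mul_le_mul_right _ (card_le_of_model hdec)
  obtain ⟨k, hk, x', hx', hx'E, rfl⟩ := hz
  obtain ⟨e', he', rfl⟩ := (hE.1.cover hxS hxE hx').resolve_left hx'E
  have hbE : k * a * k⁻¹ ∈ E := norm_conj hk haE
  have hw0 : w ≠ 0 := by
    rintro rfl
    apply hc
    simpa using sw.symm
  -- the action of `k x k⁻¹`
  have hx2 : k * x * k⁻¹ ∈ normalizer (E : Set G) :=
    mul_mem (mul_mem hk (hE.1.le_normalizer hxS)) (inv_mem hk)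
  have act : ∀ e ∈ E, ∃ i : ℤ, (k * x * k⁻¹) * e * (k * x * k⁻¹)⁻¹ = (k * a * k⁻¹) ^ i * e := by
    intro e he
    obtain ⟨i, hi⟩ := hx.comm_E hE (norm_conj' hk he)
    refine ⟨i, ?_⟩
    have e1 : k * x * k⁻¹ * e * (k * x * k⁻¹)⁻¹ = k * (x * (k⁻¹ * e * k) * x⁻¹) * k⁻¹ := by group
    rw [e1, hi, ← ha, _root_.conj_zpow]
    group
  have ht2 : ∀ e ∈ E, t (q e) = q ((k * x * k⁻¹) * e * (k * x * k⁻¹)⁻¹) := by
    intro e he
    rw [ht' e he]
    have h2 := hq.triv (norm_conj hk he') he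
    have e1 : k * (x * e') * k⁻¹ * e * (k * (x * e') * k⁻¹)⁻¹ =
      (k * x * k⁻¹) * ((k * e' * k⁻¹) * e * (k * e' * k⁻¹)⁻¹) * (k * x * k⁻¹)⁻¹ := by group
    rw [e1]
    exact hq.conj_congr hx2 h2.1 he h2.2
  obtain ⟨j, hj⟩ := hx.comm_E hE hbE
  obtain ⟨j', hj'⟩ := act a haE
  have h1 := ht2 a haE
  rw [hj', hq.add _ (E.zpow_mem hbE j') _ haE, tc, add_comm] at h1
  have h2 : q ((k * a * k⁻¹) ^ j') = w := (add_right_cancel h1).symm
  have hj'odd : Odd j' ∧ q (k * a * k⁻¹) = w := by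
    rcases quo_zpow hq hbE j' with ⟨_, h⟩ | ⟨h3, h⟩
    · rw [h2] at h; exact absurd h hw0
    · exact ⟨h3, by rw [← h, h2]⟩
  have h3 := hs' _ hbE
  rw [hj'odd.2, hj, hq.add _ (E.zpow_mem haE j) _ hbE, hj'odd.2, sw, add_comm w] at h3
  have h4 : q (a ^ j) = q a := (add_right_cancel h3).symm
  have hjodd : Odd j := by
    rcases quo_zpow hq haE j with ⟨_, h⟩ | ⟨h5, _⟩
    · rw [h4] at h; exact absurd h hc
    · exact h5
  exact ⟨k, hk, j, j', hjodd, hj'odd.1, hj, hj'⟩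

end Pool.Agent.Work.MP_cd0fff_al
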