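import Pool.Agent.Work.MP_cd0fff_al.FrameApi

/-!
A group whose Sylow `2`-subgroup has a frame with the two fusion conditions has property (O).
-/

set_option linter.unusedSimpArgs false
set_option linter.unusedSectionVars false

universe u

namespace Pool.Agent.Work.MP_cd0fff_al

open Subgroup Module

variable {G : Type u} [Group G]

theorem sylow_conj_back [Finite G] {T₁ T₂ : Sylow 2 G} {g : G}
    (h : ∀ x ∈ (T₁ : Subgroup G), g * x * g⁻¹ ∈ (T₂ : Subgroup G)) :
    ∀ y ∈ (T₂ : Subgroup G), g⁻¹ * y * g ∈ (T₁ : Subgroup G) := by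
  obtain ⟨T', hT'⟩ := exists_sylow_conj T₁ g
  have hle : (T' : Subgroup G) ≤ T₂ := by
    intro y hy
    have h1 := h _ ((hT' y).1 hy)
    have e : g * (g⁻¹ * y * g) * g⁻¹ = y := by group
    rwa [e] at h1
  have h2 : (T₂ : Subgroup G) = T' := T'.is_maximal' T₂.isPGroup' hle
  intro y hy
  exact (hT' y).1 (h2 ▸ hy)

theorem zpow_invol {z : G} (hz : z * z = 1) (i : ℤ) : z ^ i = 1 ∨ z ^ i = z := by
  rcases Int.even_or_odd' i with ⟨s, hs | hs⟩
  · left; rw [hs, zpow_mul, zpow_ofNat, pow_two, hz, one_zpow]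
  · right; rw [hs, zpow_add, zpow_mul, zpow_ofNat, pow_two, hz, one_zpow, one_mul, zpow_one]

theorem mem_zpowers_invol {z : G} (hz : z * z = 1) {t : G} : t ∈ zpowers z ↔ t = 1 ∨ t = z := by
  constructor
  · intro ht
    obtain ⟨i, rfl⟩ := mem_zpowers_iff.1 ht
    exact zpow_invol hz i
  · rintro (h | h) <;> rw [h]
    · exact one_mem _
    · exact mem_zpowers z

theorem mem_zpowers_four {z b : G} (hz : z * z = 1) (hb : b * b = z) {t : G}
    (ht : t ∈ zpowers b) : t = 1 ∨ t = z ∨ t = b ∨ t = z * b := by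
  obtain ⟨i, rfl⟩ := mem_zpowers_iff.1 ht
  rcases Int.even_or_odd' i with ⟨s, hs | hs⟩
  · have h1 : b ^ i = z ^ s := by rw [hs, zpow_mul, zpow_ofNat, pow_two, hb]
    rw [h1]
    rcases zpow_invol hz s with h | h
    · exact Or.inl h
    · exact Or.inr (Or.inl h)
  · have h1 : b ^ i = z ^ s * b := by
      rw [hs, zpow_add, zpow_mul, zpow_ofNat, pow_two, hb, zpow_one]
    rw [h1]
    rcases zpow_invol hz s with h | h <;> rw [h]
    · right; right; left; rw [one_mul]
    · right; right; right; rfl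

namespace Frame

variable {S : Subgroup G} {x a b c z : G}

theorem a_act (F : Frame S x a b c z) {s : G} (hs : s ∈ S) : s * a = a * s ∨ s * a = z * (a * s) := by
  obtain ⟨u, p, v, w, hu, hp, hv, hw, rfl⟩ := F.gen s hs
  have h1 : u * a = a * u := (F.u_cen hu F.aS).symm
  have h2 : v * a = a * v := (F.v_cen hv F.aS).symm
  have h3 : w * a = a * w := by
    rcases hw with h | h <;> rw [h]
    · group
    · exact F.ax
  have h4 : u * z = z * u := (F.u_cen hu F.zS).symm
  rcases hp with h | h | h | h <;> rw [h]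
  · left
    simp only [mul_assoc, h1, asc h1, h2, asc h2, h3, asc h3, one_mul]
  · left
    simp only [mul_assoc, h1, asc h1, h2, asc h2, h3, asc h3, one_mul]
  · right
    simp only [mul_assoc, h1, asc h1, h2, asc h2, h3, asc h3, one_mul, asc F.ba, asc h4]
  · right
    simp only [mul_assoc, h1, asc h1, h2, asc h2, h3, asc h3, one_mul, asc F.ba, asc h4, asc F.za]

theorem b_actE (F : Frame S x a b c z) {s : G} (hs : s ∈ F.E) :
    s * b = b * s ∨ s * b = z * (b * s) := by
  obtain ⟨u, p, v, hu, hp, hv, rfl⟩ := hs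
  have h1 : u * b = b * u := (F.u_cen hu F.bS).symm
  have h2 : v * b = b * v := (F.v_cen hv F.bS).symm
  have h4 : u * z = z * u := (F.u_cen hu F.zS).symm
  have hab : a * b = z * (b * a) := by rw [F.ba, ← mul_assoc, F.zz, one_mul]
  rcases hp with h | h | h | h <;> rw [h]
  · left
    simp only [mul_assoc, h1, asc h1, h2, asc h2, one_mul]
  · right
    simp only [mul_assoc, h1, asc h1, h2, asc h2, one_mul, hab, asc hab, asc h4, h4]
  · left
    simp only [mul_assoc, h1, asc h1, h2, asc h2, one_mul]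
  · right
    simp only [mul_assoc, h1, asc h1, h2, asc h2, one_mul, hab, asc hab, asc h4, h4, asc F.za,
      asc F.zb, asc F.zz]

theorem exists_t [Finite G] {S : Sylow 2 G} (F : Frame (S : Subgroup G) x a b c z)
    (hf : Fus a b z) : ∃ (T : Sylow 2 G) (t : G), F.E ≤ T ∧ t ∈ (T : Subgroup G) ∧ t ∉ F.E ∧
      ∀ e ∈ F.E, t * e * t⁻¹ = e ∨ t * e * t⁻¹ = b * e ∨ t * e * t⁻¹ = z * (b * e) := by
  obtain ⟨k, hk⟩ := hf
  obtain ⟨T₀, hT₀⟩ := exists_sylow_conj S k
  have hkz : k * z * k⁻¹ = z := by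
    have e1 : k * z * k⁻¹ = (k * a * k⁻¹) * (k * a * k⁻¹) := by rw [← F.aa]; group
    rw [e1]
    rcases hk with h | h <;> rw [h]
    · exact F.bb
    · simp only [mul_assoc, asc F.zb, F.bb, asc F.zz, one_mul]
  have hbN : ∀ y, (y * b * y⁻¹ = b ∨ y * b * y⁻¹ = z * b) → y ∈ normalizer (zpowers b : Set G) := by
    intro y hy
    apply mem_normalizer_fin
    intro w hw
    obtain ⟨i, rfl⟩ := mem_zpowers_iff.1 hw
    rw [← _root_.conj_zpow]
    apply zpow_mem
    rcases hy with h | h <;> rw [h]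
    · exact mem_zpowers b
    · rw [← F.bb]
      exact mul_mem (mul_mem (mem_zpowers b) (mem_zpowers b)) (mem_zpowers b)
  have h₀ : (T₀ : Subgroup G) ≤ normalizer (zpowers b : Set G) := by
    intro y hy
    apply hbN
    have hs := (hT₀ y).1 hy
    set s := k⁻¹ * y * k with hsdef
    have hy' : y = k * s * k⁻¹ := by rw [hsdef]; group
    have hyz : y * z * y⁻¹ = z := by
      have e1 : y * z * y⁻¹ = k * (s * (k⁻¹ * z * k) * s⁻¹) * k⁻¹ := by rw [hy']; group
      have e2 : k⁻¹ * z * k = z := by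
        calc k⁻¹ * z * k = k⁻¹ * (k * z * k⁻¹) * k := by rw [hkz]
          _ = z := by group
      rw [e1, e2]
      have e3 : s * z * s⁻¹ = z := by rw [F.z_cen hs]; group
      rw [e3, hkz]
    have hya : y * (k * a * k⁻¹) * y⁻¹ = k * a * k⁻¹ ∨ y * (k * a * k⁻¹) * y⁻¹ = z * (k * a * k⁻¹) := by
      have e1 : y * (k * a * k⁻¹) * y⁻¹ = k * (s * a * s⁻¹) * k⁻¹ := by rw [hy']; group
      rw [e1]
      rcases F.a_act hs with h | h
      · left
        have : s * a * s⁻¹ = a := by rw [h]; group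
        rw [this]
      · right
        have : s * a * s⁻¹ = z * a := by rw [h]; group
        rw [this]
        calc k * (z * a) * k⁻¹ = (k * z * k⁻¹) * (k * a * k⁻¹) := by group
          _ = z * (k * a * k⁻¹) := by rw [hkz]
    rcases hk with h | h
    · rw [h] at hya; exact hya
    · rw [h] at hya
      have e1 : y * (z * b) * y⁻¹ = z * (y * b * y⁻¹) := by
        calc y * (z * b) * y⁻¹ = (y * z * y⁻¹) * (y * b * y⁻¹) := by group
          _ = _ := by rw [hyz]
      rw [e1] at hya
      rcases hya with h' | h'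
      · left; exact mul_left_cancel h'
      · right; exact mul_left_cancel h'
  have hEN : F.E ≤ normalizer (zpowers b : Set G) := by
    intro e he
    apply hbN
    rcases F.b_actE he with h | h
    · left; rw [h]; group
    · right; rw [h]; group
  have hEp : IsPGroup 2 F.E := S.isPGroup'.to_le F.E_le
  obtain ⟨T, hET, hTN⟩ := exists_sylow_between h₀ hEp hEN
  obtain ⟨n, hn, hnT⟩ := sylow_conj_in h₀ hTN
  have hgS : ∀ s ∈ (S : Subgroup G), (n * k) * s * (n * k)⁻¹ ∈ (T : Subgroup G) := by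
    intro s hs
    have h1 := hnT (k * s * k⁻¹) ((hT₀ _).2 (by
      have : k⁻¹ * (k * s * k⁻¹) * k = s := by group
      rw [this]; exact hs))
    have e : (n * k) * s * (n * k)⁻¹ = n * (k * s * k⁻¹) * n⁻¹ := by group
    rwa [e]
  have hgT := sylow_conj_back hgS
  set g := n * k with hg
  have hga : g * a * g⁻¹ = b ∨ g * a * g⁻¹ = z * b := by
    have hkb : k * a * k⁻¹ ∈ zpowers b := by
      rcases hk with h | h <;> rw [h]
      · exact mem_zpowers b
      · rw [← F.bb]
        exact mul_mem (mul_mem (mem_zpowers b) (mem_zpowers b)) (mem_zpowers b)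
    have h1 : g * a * g⁻¹ ∈ zpowers b := by
      have e : g * a * g⁻¹ = n * (k * a * k⁻¹) * n⁻¹ := by rw [hg]; group
      rw [e]
      exact norm_conj hn hkb
    rcases mem_zpowers_four F.zz F.bb h1 with h | h | h | h
    · exfalso
      apply F.a1
      calc a = g⁻¹ * (g * a * g⁻¹) * g := by group
        _ = 1 := by rw [h]; group
    · exfalso
      have h2 : g * z * g⁻¹ = 1 := by
        have e : g * z * g⁻¹ = (g * a * g⁻¹) * (g * a * g⁻¹) := by rw [← F.aa]; group
        rw [e, h, F.zz]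
      have h3 : z = 1 := by
        calc z = g⁻¹ * (g * z * g⁻¹) * g := by group
          _ = 1 := by rw [h2]; group
      apply F.a1
      calc a = g⁻¹ * (g * a * g⁻¹) * g := by group
        _ = 1 := by rw [h, h3]; group
    · exact Or.inl h
    · exact Or.inr h
  refine ⟨T, g * x * g⁻¹, hET, hgS x F.xS, ?_, ?_⟩
  · intro h
    have h1 : (g * x * g⁻¹) * (g * x * g⁻¹) = g * a * g⁻¹ := by rw [← F.xa]; group
    rcases F.E_sq h with h2 | h2 <;> rw [h1] at h2 <;> rcases hga with h3 | h3 <;> rw [h2] at h3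
    · exact F.b1 h3.symm
    · apply F.bz
      have := eq_inv_of_mul_eq_one_right h3.symm
      rw [F.zinv] at this
      exact this
    · exact F.bz h3.symm
    · exact F.b1 (mul_eq_left.1 h3.symm)
  · intro e he
    have hs := hgT e (hET he)
    have hgza : g * (z * a) * g⁻¹ = z * (g * a * g⁻¹) := by
      have h2 : g * z * g⁻¹ = z := by
        have e1 : g * z * g⁻¹ = (g * a * g⁻¹) * (g * a * g⁻¹) := by rw [← F.aa]; group
        rw [e1]
        rcases hga with h | h <;> rw [h]
        · exact F.bb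
        · simp only [mul_assoc, asc F.zb, F.bb, asc F.zz, one_mul]
      calc g * (z * a) * g⁻¹ = (g * z * g⁻¹) * (g * a * g⁻¹) := by group
        _ = z * (g * a * g⁻¹) := by rw [h2]
    rcases F.x_act hs with h | h
    · left
      calc g * x * g⁻¹ * e * (g * x * g⁻¹)⁻¹ = g * (x * (g⁻¹ * e * g)) * x⁻¹ * g⁻¹ := by group
        _ = e := by rw [h]; group
    · right
      have h1 : g * x * g⁻¹ * e * (g * x * g⁻¹)⁻¹ = (g * a * g⁻¹) * e := by
        calc g * x * g⁻¹ * e * (g * x * g⁻¹)⁻¹ = g * (x * (g⁻¹ * e * g)) * x⁻¹ * g⁻¹ := by group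
          _ = (g * a * g⁻¹) * e := by rw [h]; group
      rw [h1]
      rcases hga with h2 | h2 <;> rw [h2]
      · left; rfl
      · right; rw [mul_assoc]

end Frame

end Pool.Agent.Work.MP_cd0fff_al
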