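import Pool.Agent.Work.MP_cd0fff_al.Suff

/-!
A group whose Sylow `2`-subgroup has a frame with the two fusion conditions has property (O),
conclusion.
-/

set_option linter.unusedSimpArgs false
set_option linter.unusedSectionVars false
set_option linter.unusedTactic false

universe u

namespace Pool.Agent.Work.MP_cd0fff_al

open Subgroup Module

variable {G : Type u} [Group G]

/-- a criterion for `T ≤ N(Y)` -/
theorem le_norm_of_half [Finite G] {E T Y : Subgroup G} (hE : Half E T)
    (hEY : E ≤ normalizer (Y : Set G)) {t : G} (ht : t ∈ T) (htE : t ∉ E)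
    (htY : ∀ y ∈ Y, t * y * t⁻¹ ∈ Y) : T ≤ normalizer (Y : Set G) := by
  intro s hs
  rcases hE.cover ht htE hs with h | ⟨e, he, rfl⟩
  · exact hEY h
  · exact mul_mem (mem_normalizer_fin htY) (hEY he)

namespace Frame

variable {S : Subgroup G} {x a b c z : G}

theorem norm_E [Finite G] {S : Sylow 2 G} (F : Frame (S : Subgroup G) x a b c z)
    (hf : Fus a b z) {Y : Subgroup G} (hY : Y ≤ F.E) :
    ∃ T : Sylow 2 G, (T : Subgroup G) ≤ normalizer (Y : Set G) := by
  by_cases hzY : z ∈ Y
  swap
  · -- `Y` is central in `S`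
    refine ⟨S, ?_⟩
    have hz1 : z ≠ 1 := by
      rintro rfl
      exact hzY Y.one_mem
    apply le_normalizer_of
    intro s hs y hy
    have h1 : y * y = 1 := by
      rcases F.E_sq (hY hy) with h | h
      · exact h
      · exfalso
        apply hzY
        rw [← h]
        exact mul_mem hy hy
    obtain ⟨u, p, v, hu, hp, hv, huv⟩ := hY hy
    have hyS := F.E_le (hY hy)
    have h2 := F.u_cen hu (F.vS hv)
    have h3 := F.u_cen hu (F.pS hp)
    have h4 := F.v_cen hv (F.pS hp)
    have huu : u * u = 1 := by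
      rcases hu with h | h <;> rw [h]
      · group
      · exact F.zz
    have hvv : v * v = 1 := by
      rcases hv with h | h <;> rw [h]
      · group
      · exact F.cc
    have e1 : y * y = p * p := by
      rw [huv]
      calc u * (p * v) * (u * (p * v)) = u * p * (v * u) * p * v := by group
        _ = u * (p * u) * (v * p) * v := by rw [h2]; group
        _ = (u * u) * p * p * (v * v) := by rw [h3, ← h4]; group
        _ = p * p := by rw [huu, hvv, one_mul, mul_one]
    have hp1 : p = 1 := by
      rw [e1] at h1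
      rcases hp with h | h | h | h
      · exact h
      · rw [h, F.aa] at h1; exact absurd h1 hz1
      · rw [h, F.bb] at h1; exact absurd h1 hz1
      · rw [h] at h1
        simp only [mul_assoc, F.ba, asc F.ba, F.bb, F.za, asc F.zz, one_mul, asc F.za, asc F.aa,
          F.aa, mul_one, F.zz] at h1
        exact absurd h1 hz1
    have hcen : s * y = y * s := by
      rw [huv, hp1, one_mul]
      have h5 := F.u_cen hu hs
      have h6 := F.v_cen hv hs
      calc s * (u * v) = (s * u) * v := by group
        _ = u * (s * v) := by rw [h5]; group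
        _ = u * v * s := by rw [h6]; group
    have : s * y * s⁻¹ = y := by rw [hcen]; group
    rw [this]
    exact hy
  -- now `z ∈ Y`
  obtain ⟨T, t, hET, htT, htE, htact⟩ := F.exists_t hf
  have hES := F.halfE
  have hET' : Half F.E T := hES.sylow hET
  have hxE := F.x_not_mem
  set E := F.E with hEdef
  have hKE : zpowers z ≤ E := by rw [zpowers_le]; exact F.zE
  have hK : ∀ y, y ∈ zpowers z ↔ y = 1 ∨ y = z := fun y => mem_zpowers_invol F.zz
  have hKY : zpowers z ≤ Y := by rw [zpowers_le]; exact hzY
  have hEK : E ≤ normalizer (zpowers z : Set G) := by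
    apply le_normalizer_of
    intro e he y hy
    rcases (hK y).1 hy with h | h <;> rw [h]
    · have : e * 1 * e⁻¹ = 1 := by group
      rw [this]; exact one_mem _
    · have : e * z * e⁻¹ = z := by rw [F.z_cen (F.E_le he)]; group
      rw [this]; exact mem_zpowers z
  obtain ⟨V, _, _, _, q, hq, _⟩ := exists_quo hKE hEK (fun e he => by
    rcases F.E_sq he with h | h <;> rw [h]
    · exact one_mem _
    · exact mem_zpowers z)
  have htriv : ∀ e ∈ E, ∀ y ∈ E, e * y * e⁻¹ ∈ E ∧ q (e * y * e⁻¹) = q y := by
    intro e he y hy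
    refine ⟨E.mul_mem (E.mul_mem he hy) (E.inv_mem he), ?_⟩
    rw [hq.add _ (E.mul_mem he hy) _ (E.inv_mem he), hq.add e he y hy, hq.inv he]
    (apply c2_of; (try abel_nf); (try simp (disch := norm_num) only [smeven, add_zero, zero_add]))
  have hT := TT_inv (S := S) hES hq htriv
  have hqz : q z = 0 := (hq.ker z F.zE).2 (mem_zpowers z)
  -- membership in `Y`
  have hmemY : ∀ e ∈ E, ∀ y ∈ Y, q e = q y → e ∈ Y := by
    intro e he y hy h
    have h1 : q (e * y⁻¹) = 0 := by
      rw [hq.add e he _ (E.inv_mem (hY hy)), hq.inv (hY hy), h, dbl]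
    have h2 := hKY ((hq.ker _ (E.mul_mem he (E.inv_mem (hY hy)))).1 h1)
    exact (Y.mul_mem_cancel_right (Y.inv_mem hy)).1 h2
  have hEY : E ≤ normalizer (Y : Set G) := by
    apply le_normalizer_of
    intro e he y hy
    obtain ⟨h1, h2⟩ := htriv e he y (hY hy)
    exact hmemY _ h1 y hy h2
  -- the two maps
  have hxN : x ∈ normalizer (E : Set G) := hES.le_normalizer F.xS
  have htN : t ∈ normalizer (E : Set G) := hET'.le_normalizer htT
  have hxK : x ∈ normalizer (zpowers z : Set G) := by
    apply mem_normalizer_fin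
    intro y hy
    rcases (hK y).1 hy with h | h <;> rw [h]
    · have : x * 1 * x⁻¹ = 1 := by group
      rw [this]; exact one_mem _
    · have : x * z * x⁻¹ = z := by rw [F.zx]; group
      rw [this]; exact mem_zpowers z
  have hbK : b ∈ zpowers z → False := by
    intro h
    rcases (hK b).1 h with h | h
    · exact F.b1 h
    · exact F.bz h
  have haK : a ∈ zpowers z → False := by
    intro h
    rcases (hK a).1 h with h | h
    · exact F.a1 h
    · exact F.az h
  have htz : t * z * t⁻¹ = z := by
    rcases htact b F.bE with h | h | h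
    · rw [← F.bb]
      calc t * (b * b) * t⁻¹ = (t * b * t⁻¹) * (t * b * t⁻¹) := by group
        _ = b * b := by rw [h]
    · exfalso
      apply hbK
      have h1 : t * b * t⁻¹ = z := by rw [h, F.bb]
      have h2 : t * z * t⁻¹ = 1 := by
        calc t * z * t⁻¹ = t * (b * b) * t⁻¹ := by rw [F.bb]
          _ = (t * b * t⁻¹) * (t * b * t⁻¹) := by group
          _ = 1 := by rw [h1, F.zz]
      have h3 : z = 1 := by
        calc z = t⁻¹ * (t * z * t⁻¹) * t := by group
          _ = 1 := by rw [h2]; group
      have h4 : b = 1 := by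
        calc b = t⁻¹ * (t * b * t⁻¹) * t := by group
          _ = 1 := by rw [h1, h3]; group
      rw [h4]; exact one_mem _
    · exfalso
      apply hbK
      have h1 : t * b * t⁻¹ = 1 := by rw [h, F.bb, F.zz]
      have h4 : b = 1 := by
        calc b = t⁻¹ * (t * b * t⁻¹) * t := by group
          _ = 1 := by rw [h1]; group
      rw [h4]; exact one_mem _
  have htK : t ∈ normalizer (zpowers z : Set G) := by
    apply mem_normalizer_fin
    intro y hy
    rcases (hK y).1 hy with h | h <;> rw [h]
    · have : t * 1 * t⁻¹ = 1 := by group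
      rw [this]; exact one_mem _
    · rw [htz]; exact mem_zpowers z
  obtain ⟨κ, hκ⟩ := hq.induced hxN hxK
  obtain ⟨τ, hτ⟩ := hq.induced htN htK
  have hκT : κ ∈ TT (S : Subgroup G) E E (zpowers z) q :=
    ⟨x, out_self F.xS hxE, hxN, hxK, hκ⟩
  have htO : Out (S : Subgroup G) E t := by
    obtain ⟨k, hk, hk2⟩ := sylow_conj_in hES.le_normalizer hET'.le_normalizer
    have hk3 := sylow_conj_back hk2 t htT
    refine ⟨k, hk, k⁻¹ * t * k, hk3, ?_, by group⟩
    intro h
    apply htE
    have := norm_conj hk h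
    have e : k * (k⁻¹ * t * k) * k⁻¹ = t := by group
    rwa [e] at this
  have hτT : τ ∈ TT (S : Subgroup G) E E (zpowers z) q := ⟨t, htO, htN, htK, hτ⟩
  obtain ⟨n, hn, hgn⟩ := hT.odd κ hκT τ hτT
  have hκv : ∀ v, κ v = v ∨ κ v = v + q a := by
    intro v
    obtain ⟨e, he, rfl⟩ := hq.surj v
    rw [hκ e he]
    rcases F.x_act (F.E_le he) with h | h
    · left
      have : x * e * x⁻¹ = e := by rw [h]; group
      rw [this]
    · right
      have : x * e * x⁻¹ = a * e := by rw [h]; group
      rw [this, hq.add a F.aE e he, add_comm]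
  have hτv : ∀ v, τ v = v ∨ τ v = v + q b := by
    intro v
    obtain ⟨e, he, rfl⟩ := hq.surj v
    rw [hτ e he]
    rcases htact e he with h | h | h <;> rw [h]
    · left; rfl
    · right; rw [hq.add b F.bE e he, add_comm]
    · right
      rw [hq.add z F.zE _ (E.mul_mem F.bE he), hqz, zero_add, hq.add b F.bE e he, add_comm]
  have hqa : q a ≠ 0 := fun h => haK ((hq.ker a F.aE).1 h)
  have hqb : q b ≠ 0 := fun h => hbK ((hq.ker b F.bE).1 h)
  have hκa : κ (q a) = q a := by
    rw [hκ a F.aE]
    have : x * a * x⁻¹ = a := by rw [F.ax]; group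
    rw [this]
  have hκb : κ (q b) = q b + q a := by
    rw [hκ b F.bE]
    have : x * b * x⁻¹ = a * b := by rw [F.xb]; group
    rw [this, hq.add a F.aE b F.bE, add_comm]
  have hτb : τ (q b) = q b := by
    rcases hτv (q b) with h | h
    · exact h
    · exfalso
      rw [dbl] at h
      apply hqb
      have := hT.sq τ hτT (q b)
      rw [h, map_zero] at this
      exact this.symm
  have hne : κ (q b) ≠ τ (q b) := by
    rw [hκb, hτb]
    intro h
    exact hqa (add_eq_left.1 h)
  obtain ⟨-, hτa⟩ := pair_lemma (hT.sq κ hκT) (hT.sq τ hτT) hn hgn ⊤ (c := q a) (w := q b)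
    trivial trivial (fun v _ => hκv v) (fun v _ => hτv v) (y := q b) trivial hne
  have hκc : κ (q c) = q c := by
    rw [hκ c F.cE]
    have : x * c * x⁻¹ = c := by rw [← F.cx]; group
    rw [this]
  -- the fixed vector
  obtain ⟨f, hκf, hτf, hdec⟩ : ∃ f : V, κ f = f ∧ τ f = f ∧ ∀ e ∈ E, ∃ u d, (u = 0 ∨ u = q a ∨
      u = q b ∨ u = q a + q b) ∧ (d = 0 ∨ d = f) ∧ q e = u + d := by
    have hE' : ∀ e ∈ E, ∃ u d, (u = 0 ∨ u = q a ∨
      u = q b ∨ u = q a + q b) ∧ (d = 0 ∨ d = q c) ∧ q e = u + d := by
      rintro e ⟨u, p, v, hu, hp, hv, rfl⟩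
      have huE : u ∈ E := by
        rcases hu with h | h <;> rw [h]
        · exact E.one_mem
        · exact F.zE
      have hpE : p ∈ E := by
        rcases hp with h | h | h | h <;> rw [h]
        · exact E.one_mem
        · exact F.aE
        · exact F.bE
        · exact E.mul_mem F.aE F.bE
      have hvE : v ∈ E := by
        rcases hv with h | h <;> rw [h]
        · exact E.one_mem
        · exact F.cE
      have hqu : q u = 0 := by
        rcases hu with h | h <;> rw [h]
        · exact hq.one
        · exact hqz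
      refine ⟨q p, q v, ?_, ?_, ?_⟩
      · rcases hp with h | h | h | h <;> rw [h]
        · left; exact hq.one
        · right; left; rfl
        · right; right; left; rfl
        · right; right; right; exact hq.add a F.aE b F.bE
      · rcases hv with h | h <;> rw [h]
        · left; exact hq.one
        · right; rfl
      · rw [hq.add u huE _ (E.mul_mem hpE hvE), hqu, zero_add, hq.add p hpE v hvE]
    rcases hτv (q c) with h | h
    · exact ⟨q c, hκc, h, hE'⟩
    · refine ⟨q a + q c, by rw [map_add, hκa, hκc], by rw [map_add, hτa, h]; (apply c2_of; (try abel_nf); (try simp (disch := norm_num) only [smeven, add_zero, zero_add])), ?_⟩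
      intro e he
      obtain ⟨u, d, hu, hd, hud⟩ := hE' e he
      rcases hd with hd | hd
      · exact ⟨u, 0, hu, Or.inl rfl, by rw [hud, hd]⟩
      · refine ⟨u + q a, q a + q c, ?_, Or.inr rfl, by rw [hud, hd]; (apply c2_of; (try abel_nf); (try simp (disch := norm_num) only [smeven, add_zero, zero_add]))⟩
        rcases hu with h' | h' | h' | h' <;> rw [h']
        · right; left; rw [zero_add]
        · left; rw [dbl]
        · right; right; right; rw [add_comm]
        · right; right; left; (apply c2_of; (try abel_nf); (try simp (disch := norm_num) only [smeven, add_zero, zero_add]))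
  -- normalisation by a conjugate
  have key : ∀ (T' : Sylow 2 G) (t' : G), Half E T' → t' ∈ (T' : Subgroup G) → t' ∉ E →
      (∀ y ∈ Y, ∃ y' ∈ Y, q (t' * y * t'⁻¹) = q y') →
      (T' : Subgroup G) ≤ normalizer (Y : Set G) := by
    intro T' t' hT' ht' ht'E h
    apply le_norm_of_half hT' hEY ht' ht'E
    intro y hy
    obtain ⟨y', hy', h'⟩ := h y hy
    exact hmemY _ (hT'.conj_mem ht' (hY hy)) y' hy' h'
  -- the third one
  obtain ⟨T₃, hT₃⟩ := exists_sylow_conj T x
  have hET₃ : Half E T₃ := by
    apply hES.sylow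
    intro e he
    rw [hT₃]
    exact hET (hES.conj_mem' F.xS he)
  have ht₃ : x * t * x⁻¹ ∈ (T₃ : Subgroup G) := by
    rw [hT₃]
    have : x⁻¹ * (x * t * x⁻¹) * x = t := by group
    rw [this]; exact htT
  have ht₃E : x * t * x⁻¹ ∉ E := by
    intro h
    apply htE
    have h1 := hES.conj_mem' F.xS h
    have : x⁻¹ * (x * t * x⁻¹) * x = t := by group
    rwa [this] at h1
  have hρ : ∀ e ∈ E, q (x * t * x⁻¹ * e * (x * t * x⁻¹)⁻¹) = κ (τ (κ (q e))) := by
    intro e he
    have h1 : κ (q e) = q (x⁻¹ * e * x) := by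
      have h2 : κ (q (x⁻¹ * e * x)) = q e := by
        rw [hκ _ (hES.conj_mem' F.xS he)]
        congr 1; group
      rw [← h2, hT.sq κ hκT]
    rw [h1, hτ _ (hES.conj_mem' F.xS he), hκ _ (hET'.conj_mem htT (hES.conj_mem' F.xS he))]
    congr 1; group
  have hρv : ∀ v, κ (τ (κ v)) = v ∨ κ (τ (κ v)) = v + (q a + q b) := by
    intro v
    rcases hκv v with h1 | h1 <;> rcases hτv v with h2 | h2
    · left; rw [h1, h2, h1]
    · right; rw [h1, h2, map_add, h1, hκb]; (apply c2_of; (try abel_nf); (try simp (disch := norm_num) only [smeven, add_zero, zero_add]))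
    · right; rw [h1, map_add, h2, hτa, map_add, map_add, h1, hκa, hκb]; (apply c2_of; (try abel_nf); (try simp (disch := norm_num) only [smeven, add_zero, zero_add]))
    · left; rw [h1, map_add, h2, hτa, map_add, map_add, map_add, h1, hκa, hκb]; (apply c2_of; (try abel_nf); (try simp (disch := norm_num) only [smeven, add_zero, zero_add]))
  have hP_x : (∃ y ∈ Y, q y = q a) → ∃ T : Sylow 2 G, (T : Subgroup G) ≤ normalizer (Y : Set G) := by
    rintro ⟨y₀, hy₀, hqy₀⟩
    refine ⟨S, key S x hES F.xS hxE fun y hy => ?_⟩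
    rw [← hκ y (hY hy)]
    rcases hκv (q y) with h | h
    · exact ⟨y, hy, h⟩
    · exact ⟨y * y₀, mul_mem hy hy₀, by rw [h, hq.add y (hY hy) y₀ (hY hy₀), hqy₀]⟩
  have hP_t : (∃ y ∈ Y, q y = q b) → ∃ T : Sylow 2 G, (T : Subgroup G) ≤ normalizer (Y : Set G) := by
    rintro ⟨y₀, hy₀, hqy₀⟩
    refine ⟨T, key T t hET' htT htE fun y hy => ?_⟩
    rw [← hτ y (hY hy)]
    rcases hτv (q y) with h | h
    · exact ⟨y, hy, h⟩
    · exact ⟨y * y₀, mul_mem hy hy₀, by rw [h, hq.add y (hY hy) y₀ (hY hy₀), hqy₀]⟩
  have hP_r : (∃ y ∈ Y, q y = q a + q b) →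
      ∃ T : Sylow 2 G, (T : Subgroup G) ≤ normalizer (Y : Set G) := by
    rintro ⟨y₀, hy₀, hqy₀⟩
    refine ⟨T₃, key T₃ _ hET₃ ht₃ ht₃E fun y hy => ?_⟩
    rw [hρ y (hY hy)]
    rcases hρv (q y) with h | h
    · exact ⟨y, hy, h⟩
    · exact ⟨y * y₀, mul_mem hy hy₀, by rw [h, hq.add y (hY hy) y₀ (hY hy₀), hqy₀]⟩
  by_contra hcon
  have hna : ∀ y ∈ Y, q y ≠ q a := fun y hy h => hcon (hP_x ⟨y, hy, h⟩)
  have hnb : ∀ y ∈ Y, q y ≠ q b := fun y hy h => hcon (hP_t ⟨y, hy, h⟩)
  have hnab : ∀ y ∈ Y, q y ≠ q a + q b := fun y hy h => hcon (hP_r ⟨y, hy, h⟩)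
  have hU : ∀ y ∈ Y, ∀ u, (u = 0 ∨ u = q a ∨ u = q b ∨ u = q a + q b) → q y = u → q y = 0 := by
    intro y hy u hu h
    rcases hu with h' | h' | h' | h' <;> rw [h'] at h
    · exact h
    · exact absurd h (hna y hy)
    · exact absurd h (hnb y hy)
    · exact absurd h (hnab y hy)
  by_cases hall : ∀ y ∈ Y, q y = 0
  · apply hcon
    refine ⟨S, key S x hES F.xS hxE fun y hy => ⟨y, hy, ?_⟩⟩
    rw [← hκ y (hY hy), hall y hy, map_zero]
  · push Not at hall
    obtain ⟨y₁, hy₁, hqy₁⟩ := hall
    obtain ⟨u, d, hu, hd, hud⟩ := hdec y₁ (hY hy₁)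
    have hd' : d = f := by
      rcases hd with h | h
      · exfalso
        rw [h, add_zero] at hud
        exact hqy₁ (hU y₁ hy₁ u hu hud)
      · exact h
    rw [hd'] at hud
    have huniq : ∀ y ∈ Y, q y = 0 ∨ q y = q y₁ := by
      intro y hy
      obtain ⟨u', d', hu', hd', hud'⟩ := hdec y (hY hy)
      rcases hd' with h | h
      · left
        rw [h, add_zero] at hud'
        exact hU y hy u' hu' hud'
      · right
        have h1 : q (y * y₁) = u' + u := by
          rw [hq.add y (hY hy) y₁ (hY hy₁), hud', hud, h]; (apply c2_of; (try abel_nf); (try simp (disch := norm_num) only [smeven, add_zero, zero_add]))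
        have h2 : u' + u = 0 ∨ u' + u = q a ∨ u' + u = q b ∨ u' + u = q a + q b := by
          rcases hu with h3 | h3 | h3 | h3 <;> rcases hu' with h4 | h4 | h4 | h4 <;>
            rw [h3, h4] <;> first
            | (left; (apply c2_of; (try abel_nf); (try simp (disch := norm_num) only [smeven, add_zero, zero_add])); done)
            | (right; left; (apply c2_of; (try abel_nf); (try simp (disch := norm_num) only [smeven, add_zero, zero_add])); done)
            | (right; right; left; (apply c2_of; (try abel_nf); (try simp (disch := norm_num) only [smeven, add_zero, zero_add])); done)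
            | (right; right; right; (apply c2_of; (try abel_nf); (try simp (disch := norm_num) only [smeven, add_zero, zero_add])); done)
        have h3 := hU (y * y₁) (mul_mem hy hy₁) _ h2 h1
        rw [hq.add y (hY hy) y₁ (hY hy₁)] at h3
        exact c2_of h3
    have hfix : ∀ σ : Module.End (ZMod 2) V, σ (q y₁) = q y₁ → ∀ y ∈ Y, σ (q y) = q y := by
      intro σ hσ y hy
      rcases huniq y hy with h | h <;> rw [h]
      · exact map_zero σ
      · exact hσ
    apply hcon
    rcases hu with h | h | h | h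
    · refine ⟨S, key S x hES F.xS hxE fun y hy => ⟨y, hy, ?_⟩⟩
      rw [← hκ y (hY hy)]
      apply hfix κ _ y hy
      rw [hud, h, zero_add, hκf]
    · refine ⟨S, key S x hES F.xS hxE fun y hy => ⟨y, hy, ?_⟩⟩
      rw [← hκ y (hY hy)]
      apply hfix κ _ y hy
      rw [hud, h, map_add, hκf, hκa]
    · refine ⟨T, key T t hET' htT htE fun y hy => ⟨y, hy, ?_⟩⟩
      rw [← hτ y (hY hy)]
      apply hfix τ _ y hy
      rw [hud, h, map_add, hτf, hτb]
    · refine ⟨T₃, key T₃ _ hET₃ ht₃ ht₃E fun y hy => ⟨y, hy, ?_⟩⟩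
      rw [hρ y (hY hy)]
      have := hfix (κ * τ * κ) (by
        simp only [Module.End.mul_apply]
        rw [hud, h]
        simp only [map_add, hκf, hκa, hκb, hτf, hτa, hτb]
        (apply c2_of; (try abel_nf); (try simp (disch := norm_num) only [smeven, add_zero, zero_add]))) y hy
      simpa only [Module.End.mul_apply] using this

end Frame

end Pool.Agent.Work.MP_cd0fff_al
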