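import Pool.Agent.Work.MP_cd0fff_al.Suff2

/-!
The criterion: property (O) in terms of frames.
-/

set_option linter.unusedSimpArgs false
set_option linter.unusedSectionVars false

universe u

namespace Pool.Agent.Work.MP_cd0fff_al

open Subgroup Module

variable {G : Type u} [Group G]

theorem propertyO_of_sub [Finite G] (S : Sylow 2 G)
    (h : ∀ Y ≤ (S : Subgroup G), ∃ T : Sylow 2 G, (T : Subgroup G) ≤ normalizer (Y : Set G)) :
    PropertyO G := by
  rw [propertyO_iff]
  intro P hP
  obtain ⟨T, hT⟩ := hP.exists_le_sylow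
  obtain ⟨g, _, hg⟩ := sylow_conj_in (N := ⊤) (T₁ := T) (T₂ := S) le_top le_top
  -- the conjugate of `P`
  set Y : Subgroup G := P.map (MulAut.conj g).toMonoidHom with hYdef
  have hmem : ∀ y, y ∈ Y ↔ g⁻¹ * y * g ∈ P := by
    intro y
    rw [hYdef, mem_map]
    constructor
    · rintro ⟨p, hp, rfl⟩
      have : g⁻¹ * ((MulAut.conj g).toMonoidHom p) * g = p := by
        simp only [MulEquiv.toMonoidHom_eq_coe, MonoidHom.coe_coe, MulAut.conj_apply]
        group
      rw [this]; exact hp
    · intro hy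
      refine ⟨_, hy, ?_⟩
      simp only [MulEquiv.toMonoidHom_eq_coe, MonoidHom.coe_coe, MulAut.conj_apply]
      group
  have hYS : Y ≤ S := by
    intro y hy
    have h1 := hg _ (hT ((hmem y).1 hy))
    have e : g * (g⁻¹ * y * g) * g⁻¹ = y := by group
    rwa [e] at h1
  obtain ⟨R, hR⟩ := h Y hYS
  obtain ⟨R', hR'⟩ := exists_sylow_conj R g⁻¹
  have hR'n : (R' : Subgroup G) ≤ normalizer (P : Set G) := by
    intro r hr
    have h1 : g * r * g⁻¹ ∈ (R : Subgroup G) := by
      have := (hR' r).1 hr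
      rwa [inv_inv] at this
    have h2 := hR h1
    apply mem_normalizer_of
    · intro p hp
      have h3 : g * p * g⁻¹ ∈ Y := by
        rw [hmem]
        have : g⁻¹ * (g * p * g⁻¹) * g = p := by group
        rw [this]; exact hp
      have h4 := (hmem _).1 (norm_conj h2 h3)
      have e : g⁻¹ * (g * r * g⁻¹ * (g * p * g⁻¹) * (g * r * g⁻¹)⁻¹) * g = r * p * r⁻¹ := by group
      rwa [e] at h4
    · intro p hp
      have h3 : g * p * g⁻¹ ∈ Y := by
        rw [hmem]
        have : g⁻¹ * (g * p * g⁻¹) * g = p := by group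
        rw [this]; exact hp
      have h4 := (hmem _).1 (norm_conj' h2 h3)
      have e : g⁻¹ * ((g * r * g⁻¹)⁻¹ * (g * p * g⁻¹) * (g * r * g⁻¹)) * g = r⁻¹ * p * r := by
        group
      rwa [e] at h4
  exact ⟨R', le_sylow_of_le_normalizer hP R' hR'n, hR'n⟩

namespace Frame

variable {S : Subgroup G} {x a b c z : G}

theorem norm_of_a [Finite G] (F : Frame S x a b c z) {Y : Subgroup G}
    (hY : Y ≤ S) (ha : a ∈ Y) : S ≤ normalizer (Y : Set G) := by
  have hcen : ∀ s, (∀ y ∈ Y, s * y = y * s) → s ∈ normalizer (Y : Set G) := by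
    intro s hs
    apply mem_normalizer_fin
    intro y hy
    have : s * y * s⁻¹ = y := by rw [hs y hy]; group
    rw [this]; exact hy
  intro s hs
  obtain ⟨u, p, v, w, hu, hp, hv, hw, rfl⟩ := F.gen s hs
  have hx : x ∈ normalizer (Y : Set G) := by
    apply mem_normalizer_fin
    intro y hy
    rcases F.x_act (hY hy) with h | h
    · have : x * y * x⁻¹ = y := by rw [h]; group
      rw [this]; exact hy
    · have : x * y * x⁻¹ = a * y := by rw [h]; group
      rw [this]; exact mul_mem ha hy
  have hb : b ∈ normalizer (Y : Set G) := by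
    apply mem_normalizer_fin
    intro y hy
    obtain ⟨r, hr, h⟩ := F.b_act (hY hy)
    have : b * y * b⁻¹ = r * y := by rw [h]; group
    rw [this]
    exact mul_mem ((zpowers_le.2 ha) hr) hy
  have ha' : a ∈ normalizer (Y : Set G) := Subgroup.le_normalizer ha
  refine mul_mem ?_ (mul_mem ?_ (mul_mem ?_ ?_))
  · exact hcen u fun y hy => (F.u_cen hu (hY hy)).symm
  · rcases hp with h | h | h | h <;> rw [h]
    · exact one_mem _
    · exact ha'
    · exact hb
    · exact mul_mem ha' hb
  · exact hcen v fun y hy => (F.v_cen hv (hY hy)).symm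
  · rcases hw with h | h <;> rw [h]
    · exact one_mem _
    · exact hx

/-- elements outside the two subgroups -/
theorem sq_of_not_mem (F : Frame S x a b c z) {y : G} (hy : y ∈ S) (h1 : y ∉ F.E)
    (h2 : y ∉ F.symm.E) : y * y = a ∨ y * y = z * a := by
  obtain ⟨u, p, v, w, hu, hp, hv, hw, rfl⟩ := F.gen y hy
  have hw' : w = x := by
    rcases hw with h | h
    · exfalso
      apply h1
      exact ⟨u, p, v, hu, hp, hv, by rw [h, mul_one]⟩
    · exact h
  have hvx : x * v = v * x := F.v_cen hv F.xS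
  have hp' : p = 1 ∨ p = a := by
    rcases hp with h | h | h | h
    · exact Or.inl h
    · exact Or.inr h
    · exfalso
      apply h2
      refine ⟨z * u, a * (x * b), v, F.zz' (Or.inr rfl) hu, Or.inr (Or.inr (Or.inr rfl)), hv, ?_⟩
      rw [h, hw']
      calc u * (b * (v * x)) = u * (b * (x * v)) := by rw [hvx]
        _ = u * (b * x) * v := by group
        _ = (u * z) * (a * (x * b)) * v := by rw [F.bx]; group
        _ = z * u * (a * (x * b) * v) := by rw [F.z_cen (F.uS hu)]; group
    · exfalso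
      apply h2
      refine ⟨u, x * b, v, hu, Or.inr (Or.inr (Or.inl rfl)), hv, ?_⟩
      rw [h, hw']
      calc u * (a * b * (v * x)) = u * (a * b * (x * v)) := by rw [hvx]
        _ = u * (a * (b * x)) * v := by group
        _ = u * (a * z) * (a * (x * b)) * v := by rw [F.bx]; group
        _ = u * z * (a * a) * (x * b) * v := by rw [F.za]; group
        _ = u * (z * z) * (x * b) * v := by rw [F.aa]; group
        _ = u * (x * b * v) := by rw [F.zz]; group
  have huu : u * u = 1 := by
    rcases hu with h | h <;> rw [h]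
    · group
    · exact F.zz
  have hvv : v * v = 1 := by
    rcases hv with h | h <;> rw [h]
    · group
    · exact F.cc
  have hxp : x * p = p * x := by
    rcases hp' with h | h <;> rw [h]
    · group
    · exact F.ax
  have hux : x * u = u * x := F.u_cen hu F.xS
  have huv : v * u = u * v := F.u_cen hu (F.vS hv)
  have hup : p * u = u * p := F.u_cen hu (F.pS hp)
  have hvp : p * v = v * p := F.v_cen hv (F.pS hp)
  have e1 : u * (p * (v * w)) * (u * (p * (v * w))) = (p * p) * a := by
    rw [hw']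
    calc u * (p * (v * x)) * (u * (p * (v * x))) = u * p * v * (x * u) * p * v * x := by group
      _ = u * p * (v * u) * (x * p) * v * x := by rw [hux]; group
      _ = u * (p * u) * v * p * (x * v) * x := by rw [huv, hxp]; group
      _ = (u * u) * p * (v * p) * v * (x * x) := by rw [hup, hvx]; group
      _ = p * p * (v * v) * a := by rw [huu, ← hvp, F.xa]; group
      _ = p * p * a := by rw [hvv, mul_one]
  rw [e1]
  rcases hp' with h | h <;> rw [h]
  · left; group
  · right; rw [F.aa]

theorem norm_any [Finite G] {S : Sylow 2 G} (F : Frame (S : Subgroup G) x a b c z)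
    (hf₁ : Fus a b z) (hf₂ : Fus a (x * b) z) {Y : Subgroup G} (hY : Y ≤ S) :
    ∃ T : Sylow 2 G, (T : Subgroup G) ≤ normalizer (Y : Set G) := by
  by_cases h1 : Y ≤ F.E
  · exact F.norm_E hf₁ h1
  by_cases h2 : Y ≤ F.symm.E
  · exact F.symm.norm_E hf₂ h2
  refine ⟨S, ?_⟩
  obtain ⟨y₁, hy₁, hy₁'⟩ := SetLike.not_le_iff_exists.1 h1
  obtain ⟨y₂, hy₂, hy₂'⟩ := SetLike.not_le_iff_exists.1 h2
  obtain ⟨y, hy, hyE, hyE'⟩ : ∃ y ∈ Y, y ∉ F.E ∧ y ∉ F.symm.E := by
    by_cases h3 : y₁ ∈ F.symm.E
    · by_cases h4 : y₂ ∈ F.E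
      · refine ⟨y₁ * y₂, mul_mem hy₁ hy₂, ?_, ?_⟩
        · intro h; exact hy₁' ((F.E.mul_mem_cancel_right h4).1 h)
        · intro h; exact hy₂' ((F.symm.E.mul_mem_cancel_left h3).1 h)
      · exact ⟨y₂, hy₂, h4, hy₂'⟩
    · exact ⟨y₁, hy₁, hy₁', h3⟩
  apply F.norm_of_a hY
  rcases F.sq_of_not_mem (hY hy) hyE hyE' with h | h
  · rw [← h]; exact mul_mem hy hy
  · have h5 : z * a ∈ Y := by rw [← h]; exact mul_mem hy hy
    have h6 : z * a * (z * a) = z := by
      simp only [mul_assoc, asc F.za, F.aa, asc F.zz, one_mul]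
    have h7 : z ∈ Y := by rw [← h6]; exact mul_mem h5 h5
    exact (Y.mul_mem_cancel_left h7).1 h5

theorem propertyO [Finite G] {S : Sylow 2 G} (F : Frame (S : Subgroup G) x a b c z)
    (hf₁ : Fus a b z) (hf₂ : Fus a (x * b) z) : PropertyO G :=
  propertyO_of_sub S fun _ hY => F.norm_any hf₁ hf₂ hY

end Frame

/-- Property (O) in terms of frames. -/
theorem propertyO_iff_frame [Finite G] (S : Sylow 2 G) :
    PropertyO G ↔ IsDedekindSubgroup (S : Subgroup G) ∨
      ∃ x a b c z, Frame (S : Subgroup G) x a b c z ∧ Fus a b z ∧ Fus a (x * b) z := by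
  constructor
  · intro hO
    by_cases h : IsDedekindSubgroup (S : Subgroup G)
    · exact Or.inl h
    · exact Or.inr (frame_of_O hO h)
  · rintro (h | ⟨x, a, b, c, z, F, h1, h2⟩)
    · exact propertyO_of_sub S fun Y hY => ⟨S, h Y hY⟩
    · exact F.propertyO h1 h2

end Pool.Agent.Work.MP_cd0fff_al
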