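import Pool.Agent.Work.MP_cd0fff_al.AddOn
import Pool.Agent.Work.MP_cd0fff_al.LemmaF

/-!
Sylow arguments: subgroups of index two in Sylow `2`-subgroups of a group with property (O).
-/

namespace Pool.Agent.Work.MP_cd0fff_al

open Subgroup
open scoped Pointwise

variable {G : Type*} [Group G]

theorem sylow_conj_in [Finite G] {N : Subgroup G} {T₁ T₂ : Sylow 2 G}
    (h₁ : (T₁ : Subgroup G) ≤ N) (h₂ : (T₂ : Subgroup G) ≤ N) :
    ∃ k ∈ N, ∀ x ∈ (T₁ : Subgroup G), k * x * k⁻¹ ∈ (T₂ : Subgroup G) := by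
  obtain ⟨n, hn⟩ := MulAction.exists_smul_eq N (T₁.subtype h₁) (T₂.subtype h₂)
  refine ⟨n, n.2, fun x hx => ?_⟩
  have h3 : (⟨x, h₁ hx⟩ : N) ∈ (T₁.subtype h₁ : Subgroup N) := by
    rw [Sylow.coe_subtype, mem_subgroupOf]; exact hx
  have h4 : n * ⟨x, h₁ hx⟩ * n⁻¹ ∈ (T₂.subtype h₂ : Subgroup N) := by
    rw [← hn]
    rw [Sylow.smul_def, Sylow.pointwise_smul_def, Subgroup.mem_pointwise_smul_iff_inv_smul_mem]
    have : (MulAut.conj n)⁻¹ • (n * ⟨x, h₁ hx⟩ * n⁻¹) = (⟨x, h₁ hx⟩ : N) := by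
      rw [← map_inv, MulAut.smul_def, MulAut.conj_apply]
      group
    rw [this]
    exact h3
  rw [Sylow.coe_subtype, mem_subgroupOf] at h4
  exact h4

/-- the Sylow subgroup conjugate by `k` -/
theorem exists_sylow_conj [Finite G] (T : Sylow 2 G) (k : G) :
    ∃ T' : Sylow 2 G, ∀ x, x ∈ (T' : Subgroup G) ↔ k⁻¹ * x * k ∈ (T : Subgroup G) := by
  refine ⟨k • T, fun x => ?_⟩
  rw [Sylow.smul_def, Sylow.pointwise_smul_def, Subgroup.mem_pointwise_smul_iff_inv_smul_mem,
    ← map_inv, MulAut.smul_def, MulAut.conj_apply, inv_inv]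

theorem exists_sylow_between [Finite G] {N E : Subgroup G} {T₀ : Sylow 2 G}
    (h₀ : (T₀ : Subgroup G) ≤ N) (hE : IsPGroup 2 E) (hEN : E ≤ N) :
    ∃ T : Sylow 2 G, E ≤ T ∧ (T : Subgroup G) ≤ N := by
  have hE' : IsPGroup 2 (E.subgroupOf N) :=
    hE.of_equiv (Subgroup.subgroupOfEquivOfLe hEN).symm
  obtain ⟨Q, hQ⟩ := hE'.exists_le_sylow
  obtain ⟨n, hn⟩ := MulAction.exists_smul_eq N (T₀.subtype h₀) Q
  obtain ⟨T, hT⟩ := exists_sylow_conj T₀ (n : G)
  have key : ∀ x : N, x ∈ (Q : Subgroup N) ↔ (n : G)⁻¹ * x * n ∈ (T₀ : Subgroup G) := by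
    intro x
    rw [← hn, Sylow.smul_def, Sylow.pointwise_smul_def,
      Subgroup.mem_pointwise_smul_iff_inv_smul_mem, ← map_inv, MulAut.smul_def,
      MulAut.conj_apply, inv_inv, Sylow.coe_subtype, mem_subgroupOf]
    rfl
  refine ⟨T, ?_, ?_⟩
  · intro e he
    rw [hT]
    exact (key ⟨e, hEN he⟩).1 (hQ (by rw [mem_subgroupOf]; exact he))
  · intro x hx
    rw [hT] at hx
    have h1 := h₀ hx
    have h2 := N.mul_mem (N.mul_mem n.2 h1) (N.inv_mem n.2)
    have e : (n : G) * ((n : G)⁻¹ * x * n) * (n : G)⁻¹ = x := by group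
    rwa [e] at h2

theorem Half.sylow [Finite G] {E : Subgroup G} {S T : Sylow 2 G} (h : Half E S)
    (hT : E ≤ T) : Half E T := by
  refine half_of_card hT ?_
  rw [← h.card]
  exact (T.card_eq_multiplicity).trans (S.card_eq_multiplicity).symm

/-- (H) -/
theorem exists_conj_norm [Finite G] (hO : PropertyO G) {S : Sylow 2 G} {E : Subgroup G}
    (hE : Half E S) {Y : Subgroup G} (hYE : Y ≤ E) (hEY : E ≤ normalizer (Y : Set G)) :
    ∃ k ∈ normalizer (E : Set G), ∀ x ∈ (S : Subgroup G), k * x * k⁻¹ ∈ normalizer (Y : Set G) := by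
  have hEp : IsPGroup 2 E := S.isPGroup'.to_le hE.le
  obtain ⟨T₀, _, hT₀⟩ := (propertyO_iff.1 hO) Y (hEp.to_le hYE)
  obtain ⟨T, hET, hTY⟩ := exists_sylow_between hT₀ hEp hEY
  have hET' : Half E T := hE.sylow hET
  obtain ⟨k, hk, hk2⟩ := sylow_conj_in hE.le_normalizer hET'.le_normalizer
  exact ⟨k, hk, fun x hx => hTY (hk2 x hx)⟩

theorem no_four {Q : Type*} [Group Q] [Finite Q] (h4 : ¬ 4 ∣ Nat.card Q) {a b : Q}
    (ha : a * a = 1) (hb : b * b = 1) (ha1 : a ≠ 1) (hb1 : b ≠ 1) (hab : a * b = b * a) :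
    a = b := by
  have oa : orderOf a = 2 := by
    rw [orderOf_eq_prime_iff]
    exact ⟨by rw [pow_two, ha], ha1⟩
  have ob : orderOf b = 2 := by
    rw [orderOf_eq_prime_iff]
    exact ⟨by rw [pow_two, hb], hb1⟩
  have hpa : IsPGroup 2 (zpowers a) := IsPGroup.of_card (n := 1) (by
    rw [Nat.card_zpowers, oa, pow_one])
  have hpb : IsPGroup 2 (zpowers b) := IsPGroup.of_card (n := 1) (by
    rw [Nat.card_zpowers, ob, pow_one])
  have hn : zpowers b ≤ normalizer (zpowers a : Set Q) := by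
    rw [zpowers_le]
    have hc : ∀ y ∈ zpowers a, b * y * b⁻¹ = y := by
      intro y hy
      obtain ⟨k, rfl⟩ := mem_zpowers_iff.1 hy
      rw [← conj_zpow, ← hab, mul_assoc, mul_inv_cancel, mul_one]
    exact mem_normalizer_fin (fun y hy => by rw [hc y hy]; exact hy)
  have hP : IsPGroup 2 (zpowers b ⊔ zpowers a : Subgroup Q) := hpb.to_sup_of_normal_right' hpa hn
  obtain ⟨n, hcard⟩ := IsPGroup.iff_card.1 hP
  have hdvd := Subgroup.card_subgroup_dvd_card (zpowers b ⊔ zpowers a : Subgroup Q)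
  rw [hcard] at hdvd
  have hn1 : n ≤ 1 := by
    by_contra hcon
    apply h4
    refine dvd_trans ?_ hdvd
    rw [show 4 = 2 ^ 2 from rfl]
    exact pow_dvd_pow 2 (by omega)
  have hle : Nat.card (zpowers b ⊔ zpowers a : Subgroup Q) ≤ Nat.card (zpowers a) := by
    rw [hcard, Nat.card_zpowers, oa]
    calc 2 ^ n ≤ 2 ^ 1 := Nat.pow_le_pow_right (by norm_num) hn1
      _ = 2 := by norm_num
  have heq := Subgroup.eq_of_le_of_card_ge (le_sup_right : zpowers a ≤ zpowers b ⊔ zpowers a) hle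
  have hbm : b ∈ zpowers a := by
    rw [heq]
    exact (le_sup_left : zpowers b ≤ zpowers b ⊔ zpowers a) (mem_zpowers b)
  rw [mem_zpowers_iff] at hbm
  obtain ⟨k, hk⟩ := hbm
  rcases Int.even_or_odd' k with ⟨j, rfl | rfl⟩
  · exfalso
    apply hb1
    rw [← hk, zpow_mul, zpow_ofNat, pow_two, ha, one_zpow]
  · rw [zpow_add, zpow_mul, zpow_ofNat, pow_two, ha, one_zpow, one_mul, zpow_one] at hk
    exact hk

theorem odd_orderOf_mul {Q : Type*} [Group Q] [Finite Q] (h4 : ¬ 4 ∣ Nat.card Q) {a b : Q}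
    (ha : a * a = 1) (hb : b * b = 1) (ha1 : a ≠ 1) (hb1 : b ≠ 1) : Odd (orderOf (a * b)) := by
  by_contra hcon
  rw [Nat.not_odd_iff_even] at hcon
  obtain ⟨j, hj⟩ := hcon
  have ha' : a⁻¹ = a := inv_eq_of_mul_eq_one_left ha
  have hb' : b⁻¹ = b := inv_eq_of_mul_eq_one_left hb
  have hinv : a * (a * b) * a⁻¹ = (a * b)⁻¹ := by
    rw [mul_inv_rev, ha', hb', ← mul_assoc, ha, one_mul]
  set w := (a * b) ^ j with hw
  have hpos : 0 < orderOf (a * b) := orderOf_pos _
  have hw1 : w ≠ 1 := by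
    intro h
    have := orderOf_dvd_of_pow_eq_one h
    have := Nat.le_of_dvd (by omega) this
    omega
  have hw2 : w * w = 1 := by
    rw [hw, ← pow_add, ← hj, pow_orderOf_eq_one]
  have hwinv : w⁻¹ = w := inv_eq_of_mul_eq_one_left hw2
  have hwa : a * w = w * a := by
    have : a * w * a⁻¹ = w := by
      rw [hw, ← conj_pow, hinv, inv_pow, ← hw, hwinv]
    exact mul_inv_eq_iff_eq_mul.1 this
  have h1 := no_four h4 ha hw2 ha1 hw1 hwa
  have h2 : a * b = b * a := by
    have h3 : a * (a * b) = (a * b) * a := by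
      have : w * (a * b) = (a * b) * w := by
        rw [hw, ← pow_succ, ← pow_succ']
      rwa [← h1] at this
    rw [← mul_assoc, ha, one_mul] at h3
    have h4 : b = a * (b * a) := by rw [← mul_assoc]; exact h3
    have : a * b = a * (a * (b * a)) := by rw [← h4]
    rw [this, ← mul_assoc, ha, one_mul]
  have h3 := no_four h4 ha hb ha1 hb1 h2
  rw [h3, hb, orderOf_one] at hj
  omega

theorem odd_product [Finite G] {E : Subgroup G} {T₁ T₂ : Sylow 2 G} (h₁ : Half E T₁)
    (h₂ : Half E T₂) {x y : G} (hx : x ∈ (T₁ : Subgroup G)) (hy : y ∈ (T₂ : Subgroup G))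
    (hxE : x ∉ E) (hyE : y ∉ E) : ∃ n, Odd n ∧ (x * y) ^ n ∈ E := by
  set N := normalizer (E : Set G) with hN
  have hEN : (E.subgroupOf N).Normal := by rw [hN]; infer_instance
  have hxN : x ∈ N := h₁.le_normalizer hx
  have hyN : y ∈ N := h₂.le_normalizer hy
  have hEle : E ≤ N := Subgroup.le_normalizer
  have h4 : ¬ 4 ∣ Nat.card (N ⧸ E.subgroupOf N) := by
    intro h
    have c1 : Nat.card (N ⧸ E.subgroupOf N) * Nat.card (E.subgroupOf N) = Nat.card N :=
      (Subgroup.card_eq_card_quotient_mul_card_subgroup _).symm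
    have c2 : Nat.card (E.subgroupOf N) = Nat.card E :=
      Nat.card_congr (Subgroup.subgroupOfEquivOfLe hEle).toEquiv
    have c3 := Subgroup.card_subgroup_dvd_card N
    have c4 := T₁.card_mul_index
    have c5 := h₁.card
    have c6 := T₁.not_dvd_index
    obtain ⟨m, hm⟩ := h
    obtain ⟨r, hr⟩ := c3
    rw [← c1, c2, hm] at hr
    rw [hr] at c4
    apply c6
    have c7 : 0 < Nat.card E := Nat.card_pos
    have c8 : Nat.card (T₁ : Subgroup G) = 2 * Nat.card E := c5
    have c4' : Nat.card (T₁ : Subgroup G) * (T₁ : Subgroup G).index =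
      4 * m * Nat.card E * r := c4
    rw [c8] at c4'
    refine ⟨m * r, ?_⟩
    have c9 : (2 * Nat.card E) * (T₁ : Subgroup G).index = (2 * Nat.card E) * (2 * (m * r)) := by
      rw [c4']; ring
    exact Nat.eq_of_mul_eq_mul_left (by omega) c9
  have e1 : ∀ z (hz : z ∈ N), (QuotientGroup.mk ⟨z, hz⟩ : N ⧸ E.subgroupOf N) = 1 ↔ z ∈ E := by
    intro z hz
    rw [QuotientGroup.eq_one_iff, mem_subgroupOf]
  have key := odd_orderOf_mul h4 (a := (QuotientGroup.mk ⟨x, hxN⟩ : N ⧸ E.subgroupOf N))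
    (b := (QuotientGroup.mk ⟨y, hyN⟩ : N ⧸ E.subgroupOf N)) ?_ ?_ ?_ ?_
  · refine ⟨_, key, ?_⟩
    have h5 := pow_orderOf_eq_one ((QuotientGroup.mk ⟨x, hxN⟩ : N ⧸ E.subgroupOf N) *
      (QuotientGroup.mk ⟨y, hyN⟩ : N ⧸ E.subgroupOf N))
    rw [← QuotientGroup.mk_mul, ← QuotientGroup.mk_pow, QuotientGroup.eq_one_iff,
      mem_subgroupOf] at h5
    exact h5
  · rw [← QuotientGroup.mk_mul, QuotientGroup.eq_one_iff, mem_subgroupOf]
    exact h₁.sq_mem hx
  · rw [← QuotientGroup.mk_mul, QuotientGroup.eq_one_iff, mem_subgroupOf]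
    exact h₂.sq_mem hy
  · rw [Ne, e1]; exact hxE
  · rw [Ne, e1]; exact hyE

/-- conjugates by elements of `N_G(E)` of the elements of `S \ E` -/
def Out (S E : Subgroup G) (z : G) : Prop :=
  ∃ k ∈ normalizer (E : Set G), ∃ x ∈ S, x ∉ E ∧ z = k * x * k⁻¹

theorem Out.mem_normalizer {S E : Subgroup G} (hE : Half E S) {z : G} (hz : Out S E z) :
    z ∈ normalizer (E : Set G) := by
  obtain ⟨k, hk, x, hx, _, rfl⟩ := hz
  exact mul_mem (mul_mem hk (hE.le_normalizer hx)) (inv_mem hk)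

theorem Out.sq_mem {S E : Subgroup G} (hE : Half E S) {z : G} (hz : Out S E z) :
    z * z ∈ E := by
  obtain ⟨k, hk, x, hx, _, rfl⟩ := hz
  have : k * x * k⁻¹ * (k * x * k⁻¹) = k * (x * x) * k⁻¹ := by group
  rw [this]
  exact norm_conj hk (hE.sq_mem hx)

theorem Out.not_mem {S E : Subgroup G} {z : G} (hz : Out S E z) : z ∉ E := by
  obtain ⟨k, hk, x, hx, hxE, rfl⟩ := hz
  intro h
  apply hxE
  have := norm_conj' hk h
  have e : k⁻¹ * (k * x * k⁻¹) * k = x := by group
  rwa [e] at this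

theorem out_self {S E : Subgroup G} {x : G} (hx : x ∈ S) (hxE : x ∉ E) : Out S E x :=
  ⟨1, one_mem _, x, hx, hxE, by group⟩

theorem Out.conj {S E : Subgroup G} {z k : G} (hz : Out S E z)
    (hk : k ∈ normalizer (E : Set G)) : Out S E (k * z * k⁻¹) := by
  obtain ⟨k', hk', x, hx, hxE, rfl⟩ := hz
  exact ⟨k * k', mul_mem hk hk', x, hx, hxE, by group⟩

theorem Out.sylow [Finite G] {S : Sylow 2 G} {E : Subgroup G} (hE : Half E S) {z : G}
    (hz : Out S E z) : ∃ T : Sylow 2 G, Half E T ∧ z ∈ (T : Subgroup G) := by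
  obtain ⟨k, hk, x, hx, _, rfl⟩ := hz
  obtain ⟨T, hT⟩ := exists_sylow_conj S k
  refine ⟨T, hE.sylow ?_, ?_⟩
  · intro e he
    rw [hT]
    exact hE.le (norm_conj' hk he)
  · rw [hT]
    have : k⁻¹ * (k * x * k⁻¹) * k = x := by group
    rw [this]
    exact hx

theorem Out.odd [Finite G] {S : Sylow 2 G} {E : Subgroup G} (hE : Half E S) {z w : G}
    (hz : Out S E z) (hw : Out S E w) : ∃ n, Odd n ∧ (z * w) ^ n ∈ E := by
  obtain ⟨T₁, h₁, hz1⟩ := hz.sylow hE
  obtain ⟨T₂, h₂, hw1⟩ := hw.sylow hE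
  exact odd_product h₁ h₂ hz1 hw1 hz.not_mem hw.not_mem

theorem mem_frattini_of {L : Type*} [Group L] [Finite L] (hL : IsPGroup 2 L) (x : L)
    (h : ∀ φ : L → ZMod 2, (∀ a b, φ (a * b) = φ a + φ b) → φ x = 0) : x ∈ frattini L := by
  classical
  have : Group.IsNilpotent L := hL.isNilpotent
  have hnc : NormalizerCondition L := Group.normalizerCondition_of_isNilpotent
  rw [frattini, Order.radical]
  simp only [mem_iInf]
  intro M hM
  have hMn : M.Normal := NormalizerCondition.normal_of_coatom M hnc hM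
  by_contra hx
  have hsq : ∀ y : L, y ^ 2 ∈ M := by
    intro y
    have := sq_mem_frattini hL y
    rw [frattini, Order.radical] at this
    simp only [mem_iInf] at this
    exact this M hM
  have hcov : ∀ y : L, y ∈ M ∨ y * x⁻¹ ∈ M := by
    intro y
    have h1 : M ⊔ zpowers x = ⊤ := by
      apply hM.2
      refine lt_of_le_of_ne le_sup_left ?_
      intro h
      apply hx
      rw [h]
      exact (le_sup_right : zpowers x ≤ M ⊔ zpowers x) (mem_zpowers _)
    have h2 : y ∈ M ⊔ zpowers x := by rw [h1]; trivial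
    rw [mem_sup_of_normal_left] at h2
    obtain ⟨m, hm, z, hz, rfl⟩ := h2
    obtain ⟨k, rfl⟩ := mem_zpowers_iff.1 hz
    rcases Int.even_or_odd' k with ⟨j, rfl | rfl⟩
    · left
      rw [zpow_mul, zpow_ofNat]
      exact M.mul_mem hm (M.zpow_mem (hsq x) j)
    · right
      rw [zpow_add, zpow_mul, zpow_one, zpow_ofNat, ← mul_assoc, mul_inv_cancel_right]
      exact M.mul_mem hm (M.zpow_mem (hsq x) j)
  have hadd : ∀ a b : L, (if a * b ∈ M then (0 : ZMod 2) else 1) =
      (if a ∈ M then 0 else 1) + (if b ∈ M then 0 else 1) := by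
    intro a b
    by_cases ha : a ∈ M <;> by_cases hb : b ∈ M
    · simp [ha, hb, M.mul_mem ha hb]
    · have : a * b ∉ M := fun h => hb ((M.mul_mem_cancel_left ha).1 h)
      simp [ha, hb, this]
    · have : a * b ∉ M := fun h => ha ((M.mul_mem_cancel_right hb).1 h)
      simp [ha, hb, this]
    · have h1 := (hcov a).resolve_left ha
      have h2 := (hcov b).resolve_left hb
      have : a * b = (a * x⁻¹) * (x * (b * x⁻¹) * x⁻¹) * x ^ 2 := by group
      have h3 : a * b ∈ M := by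
        rw [this]
        exact M.mul_mem (M.mul_mem h1 (hMn.conj_mem _ h2 x)) (hsq x)
      simp only [ha, hb, h3, if_true, if_false]
      decide
  have := h (fun a => if a ∈ M then (0 : ZMod 2) else 1) hadd
  simp [hx] at this

theorem mulAut_odd {L : Type*} [Group L] [Finite L] (hL : IsPGroup 2 L) :
    ∀ N : ℕ, Odd N → ∀ a : MulAut L, a ^ N = 1 → (∀ x, x⁻¹ * a x ∈ frattini L) → a = 1 := by
  intro N
  induction N using Nat.strong_induction_on with
  | _ N ih =>
    intro hN a ha h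
    by_cases h1 : N = 1
    · rw [h1, pow_one] at ha; exact ha
    · obtain ⟨p, hp, hpN⟩ := Nat.exists_prime_and_dvd h1
      have : Fact p.Prime := ⟨hp⟩
      obtain ⟨M, rfl⟩ := hpN
      have hodd := Nat.odd_mul.1 hN
      have hp2 : p ≠ 2 := by
        rintro rfl
        exact absurd hodd.1 (by decide)
      have hMpos : 0 < M := by
        rcases Nat.eq_zero_or_pos M with h0 | h0
        · rw [h0] at hodd; exact absurd hodd.2 (by decide)
        · exact h0
      have hk : ∀ k : ℕ, ∀ x, x⁻¹ * (a ^ k) x ∈ frattini L := by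
        intro k
        induction k with
        | zero => intro x; simp
        | succ k ihk =>
          intro x
          have : x⁻¹ * (a ^ (k + 1)) x = (x⁻¹ * (a ^ k) x) * (((a ^ k) x)⁻¹ * a ((a ^ k) x)) := by
            rw [pow_succ', MulAut.mul_apply]
            group
          rw [this]
          exact (frattini L).mul_mem (ihk x) (h _)
      have hb : (a ^ M) ^ p = 1 := by rw [← pow_mul, mul_comm, ha]
      have h2 := mulAut_eq_one_of_frattini hL hp2 (a ^ M) hb (hk M)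
      refine ih M ?_ hodd.2 a h2 h
      have := hp.one_lt
      nlinarith

theorem conj_pow_mem {E : Subgroup G} {g : G} (hg : g ∈ normalizer (E : Set G)) (k : ℕ) :
    g ^ k ∈ normalizer (E : Set G) := pow_mem hg k

/-- An element of odd order acting trivially on `E / Ph E` centralises `E`. -/
theorem centralizes_of_odd [Finite G] {E : Subgroup G} (hE : IsPGroup 2 E) {g : G}
    (hg : g ∈ normalizer (E : Set G)) {N : ℕ} (hN : Odd N) (hgN : g ^ N = 1)
    (h : ∀ e ∈ E, ∀ φ, AddOn E φ → φ (g * e * g⁻¹) = φ e) :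
    ∀ e ∈ E, g * e * g⁻¹ = e := by
  classical
  let a : MulAut E :=
    { toFun := fun e => ⟨g * e * g⁻¹, norm_conj hg e.2⟩
      invFun := fun e => ⟨g⁻¹ * e * g, norm_conj' hg e.2⟩
      left_inv := fun e => by ext; simp only; group
      right_inv := fun e => by ext; simp only; group
      map_mul' := fun e f => by ext; simp only [coe_mul]; group }
  have hak : ∀ k : ℕ, ∀ e : E, (((a ^ k) e : E) : G) = g ^ k * e * (g ^ k)⁻¹ := by
    intro k
    induction k with
    | zero => intro e; simp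
    | succ k ih =>
      intro e
      rw [pow_succ', MulAut.mul_apply]
      change g * ((a ^ k) e : G) * g⁻¹ = _
      rw [ih]
      group
  have ha : a ^ N = 1 := by
    ext e
    rw [hak, hgN]
    simp
  have h1 := mulAut_odd hE N hN a ha ?_
  · intro e he
    have := congrArg (fun f : MulAut E => ((f ⟨e, he⟩ : E) : G)) h1
    exact this
  · intro x
    apply mem_frattini_of hE
    intro φ hφ
    have h2 : φ (a x) = φ x := by
      have h3 := h x x.2 (fun y => if hy : y ∈ E then φ ⟨y, hy⟩ else 0) (by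
        intro u hu v hv
        simp only [hu, hv, E.mul_mem hu hv, dif_pos]
        exact hφ ⟨u, hu⟩ ⟨v, hv⟩)
      have hm : g * (x : G) * g⁻¹ ∈ E := norm_conj hg x.2
      simp only [hm, x.2, dif_pos] at h3
      exact h3
    have h4 : φ x⁻¹ = φ x := by
      have h5 := hφ x x⁻¹
      have h6 := hφ 1 1
      rw [mul_one] at h6
      rw [mul_inv_cancel] at h5
      have aux : ∀ u v w : ZMod 2, u = u + u → u = v + w → w = v := by decide
      exact aux _ _ _ h6 h5
    rw [hφ, h2, h4, zdbl]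

/-- An odd-order representative of a coset. -/
theorem exists_odd_rep [Finite G] {E : Subgroup G} (hE : IsPGroup 2 E) {g : G} {n : ℕ}
    (hn : Odd n) (hg : g ^ n ∈ E) : ∃ r : ℕ, ∃ N : ℕ, Odd N ∧ (g ^ r) ^ N = 1 ∧
      ∃ e ∈ E, g ^ r = g * e := by
  obtain ⟨m, hm⟩ := (isPGroup_iff_pow_pow_eq_one.1 hE) ⟨g ^ n, hg⟩
  have hm' : (g ^ n) ^ 2 ^ m = 1 := by
    have := congrArg Subtype.val hm
    simpa using this
  have hcop : Nat.Coprime n (2 ^ (m + 1)) := by
    apply Nat.Coprime.pow_right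
    rw [Nat.coprime_two_right]
    exact hn
  obtain ⟨r, hr1, hr2⟩ := Nat.chineseRemainder hcop 1 0
  have hr2' : 2 ^ (m + 1) ∣ r := (Nat.modEq_zero_iff_dvd).1 hr2
  obtain ⟨q, hq⟩ := hr2'
  by_cases hn1 : n = 1
  · subst hn1
    refine ⟨0, 1, by decide, by simp, g⁻¹, ?_, by simp⟩
    rw [pow_one] at hg
    exact E.inv_mem hg
  have hn3 : 1 < n := by
    rcases hn with ⟨k, rfl⟩
    omega
  have hrpos : 0 < r := by
    rcases Nat.eq_zero_or_pos r with h0 | h0
    · rw [h0] at hr1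
      have := (Nat.modEq_iff_dvd' (by norm_num : 0 ≤ 1)).1 hr1
      rw [Nat.sub_zero, Nat.dvd_one] at this
      omega
    · exact h0
  have h1 : n ∣ r - 1 := (Nat.modEq_iff_dvd' (by omega)).1 hr1.symm
  obtain ⟨j, hj⟩ := h1
  refine ⟨r, n, hn, ?_, g ^ (r - 1), ?_, ?_⟩
  · rw [← pow_mul, mul_comm, pow_mul, hq, pow_succ, mul_assoc, pow_mul, hm', one_pow]
  · rw [hj, pow_mul]
    exact E.pow_mem hg j
  · rw [← pow_succ', Nat.sub_add_cancel hrpos]

end Pool.Agent.Work.MP_cd0fff_al
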