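import Pool.Agent.Work.MP_cd0fff_al.Rank3c

/-!
There is an element of `S` outside all members of `MM`.
-/

universe u

namespace Pool.Agent.Work.MP_cd0fff_al

open Subgroup Module

variable {G : Type u} [Group G]

theorem exists_outside [Finite G] (hO : PropertyO G) {S : Sylow 2 G} {l₀ m₀ : G → ZMod 2}
    (h₀ : IM (S : Subgroup G) l₀ m₀) :
    ∃ x ∈ (S : Subgroup G), ∀ l m, IM (S : Subgroup G) l m → l x = 1 := by
  have h3 := rank_le_three hO h₀
  have h2 := two_le_finrank h₀.1 h₀.2.2.1.1 h₀.2.1 h₀.2.2.2.1 h₀.2.2.2.2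
  by_cases hd : finrank (ZMod 2) (Hm (S : Subgroup G)) = 3
  · -- rank three
    obtain ⟨n, hn, hnq⟩ := exists_not_mem_quad (A := Hm (S : Subgroup G)) (by omega) l₀ m₀
    obtain ⟨x, hx, h1, h2, _⟩ := exists_val h₀.1 h₀.2.2.1.1 hn h₀.2.1 h₀.2.2.2.1 h₀.2.2.2.2 hnq
      1 1 0
    refine ⟨x, hx, fun l m h => ?_⟩
    rcases unique_pair hO hd h₀ h with rfl | rfl
    · exact h1
    · exact h2
  · -- rank two
    have hd2 : finrank (ZMod 2) (Hm (S : Subgroup G)) = 2 := by omega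
    obtain ⟨p, hp, hp0, hpn⟩ := rank2_main hO hd2 h₀
    -- another function, independent of `p`
    have hq : ∃ r ∈ Hm (S : Subgroup G), r ≠ 0 ∧ r ≠ p := by
      by_cases hlp : l₀ = p
      · exact ⟨m₀, h₀.2.2.1.1, h₀.2.2.2.1, by rw [← hlp]; exact h₀.2.2.2.2⟩
      · exact ⟨l₀, h₀.1, h₀.2.1, hlp⟩
    obtain ⟨r, hr, hr0, hrp⟩ := hq
    obtain ⟨x, hx, h1, h2⟩ := exists_01 hp hr hr0 hrp
    refine ⟨x, hx, fun l m h => ?_⟩
    have hl : l ∈ quad p r := by
      by_contra hlq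
      have := three_le_finrank hp hr h.1 hp0 hr0 hrp hlq
      omega
    rcases hl with h3 | h3 | h3 | h3
    · exact absurd h3 h.2.1
    · exact absurd (h3 ▸ h) (hpn m)
    · rw [h3]; exact h2
    · rw [h3, Pi.add_apply, h1, h2, zero_add]

/-- A Sylow subgroup that is not Dedekind has an element `x` outside all members of `MM`, and
a member of `MM`. -/
theorem exists_outside_MM [Finite G] (hO : PropertyO G) {S : Sylow 2 G}
    (hD : ¬ IsDedekindSubgroup (S : Subgroup G)) :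
    (∃ E, MM (S : Subgroup G) E) ∧
      ∃ x ∈ (S : Subgroup G), ∀ E, MM (S : Subgroup G) E → x ∉ E := by
  have hE : ∃ E, MM (S : Subgroup G) E := by
    rw [IsDedekindSubgroup] at hD
    push Not at hD
    obtain ⟨H, hH, hHn⟩ := hD
    obtain ⟨E, hE, _⟩ := lemma_F S.isPGroup' hH hHn
    exact ⟨E, hE⟩
  refine ⟨hE, ?_⟩
  have key : ∀ E, MM (S : Subgroup G) E → ∃ l m, IM (S : Subgroup G) l m ∧
      ∀ x ∈ (S : Subgroup G), l x = 1 → x ∉ E := by
    intro E hE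
    have hl : ind E (S : Subgroup G) ∈ Hm (S : Subgroup G) :=
      ⟨fun x hx => ind_zero hE.1.le hx, hE.1.addOn_ind⟩
    have hMM : MM (S : Subgroup G) (kr (S : Subgroup G) (ind E S) hl.2) := by
      have : kr (S : Subgroup G) (ind E S) hl.2 = E := hE.1.kr_ind
      rw [this]; exact hE
    obtain ⟨m, hm⟩ := exists_IM hO hl hMM
    refine ⟨_, m, hm, fun x _ h1 h2 => ?_⟩
    rw [ind_mem h2] at h1
    exact zero_ne_one h1
  obtain ⟨E₀, hE₀⟩ := hE
  obtain ⟨l₀, m₀, h₀, _⟩ := key E₀ hE₀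
  obtain ⟨x, hx, hall⟩ := exists_outside hO h₀
  refine ⟨x, hx, fun E hE => ?_⟩
  obtain ⟨l, m, hlm, h2⟩ := key E hE
  exact h2 x hx (hall l m hlm)

end Pool.Agent.Work.MP_cd0fff_al
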