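import Pool.Agent.Work.MP_cd0fff_al.Iso

/-!
Subgroups of index two in groups with property (O).
-/

set_option linter.unusedSimpArgs false
set_option linter.unusedSectionVars false

universe u v

namespace Pool.Agent.Work.MP_cd0fff_al

open Subgroup Module

variable {G : Type u} [Group G]

namespace Frame

variable {S : Subgroup G} {x a b c z : G}

theorem mem_of_fus {H : Subgroup G} (hH : H.Normal) {a y z : G} (ha : a ∈ H) (hz : z ∈ H)
    (hf : Fus a y z) : y ∈ H := by
  obtain ⟨k, hk⟩ := hf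
  have h1 := hH.conj_mem a ha k
  rcases hk with h | h <;> rw [h] at h1
  · exact h1
  · exact (H.mul_mem_cancel_left hz).1 h1

theorem mem_of_index_two (F : Frame S x a b c z) (hf₁ : Fus a b z) (hf₂ : Fus a (x * b) z)
    {H : Subgroup G} (hH : H.index = 2) : x ∈ H ∧ b ∈ H := by
  have hn := normal_of_index_eq_two hH
  have ha : a ∈ H := by rw [← F.xa]; exact mul_self_mem_of_index_two hH x
  have hz : z ∈ H := by rw [← F.bb]; exact mul_self_mem_of_index_two hH b
  have hb := mem_of_fus hn ha hz hf₁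
  have hxb := mem_of_fus hn ha hz hf₂
  exact ⟨(H.mul_mem_cancel_right hb).1 hxb, hb⟩

theorem D_le_of_mem (F : Frame S x a b c z) {H : Subgroup G} (hx : x ∈ H) (hb : b ∈ H) :
    F.D ≤ H := by
  have ha : a ∈ H := by rw [← F.xa]; exact mul_mem hx hx
  have hz : z ∈ H := by rw [← F.bb]; exact mul_mem hb hb
  rintro s ⟨u, p, w, hu, hp, hw, rfl⟩
  refine mul_mem ?_ (mul_mem ?_ ?_)
  · rcases hu with h | h <;> rw [h]
    · exact one_mem _
    · exact hz
  · rcases hp with h | h | h | h <;> rw [h]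
    · exact one_mem _
    · exact ha
    · exact hb
    · exact mul_mem ha hb
  · rcases hw with h | h <;> rw [h]
    · exact one_mem _
    · exact hx

theorem no_index_two [Finite G] {S : Sylow 2 G} (F : Frame (S : Subgroup G) x a b 1 z)
    (hf₁ : Fus a b z) (hf₂ : Fus a (x * b) z) : ¬ ∃ H : Subgroup G, H.index = 2 := by
  rintro ⟨H, hH⟩
  obtain ⟨hx, hb⟩ := F.mem_of_index_two hf₁ hf₂ hH
  have h1 : (S : Subgroup G) ≤ H := by
    rw [← F.D_eq]
    exact F.D_le_of_mem hx hb
  have h2 := odd_index_of_sylow_le S h1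
  rw [hH] at h2
  exact absurd h2 (by decide)

/-- commutators of elements of `S` -/
theorem comm_mem (F : Frame S x a b c z) {s t : G} (hs : s ∈ S) (ht : t ∈ S) :
    s * t * s⁻¹ * t⁻¹ ∈ zpowers a := by
  have ha := mem_zpowers a
  have hz : z ∈ zpowers a := by rw [← F.aa]; exact mul_mem ha ha
  -- `S` normalises `zpowers a`
  have hconj : ∀ s ∈ S, ∀ r ∈ zpowers a, s * r * s⁻¹ ∈ zpowers a := by
    intro s hs r hr
    obtain ⟨i, rfl⟩ := mem_zpowers_iff.1 hr
    rw [← _root_.conj_zpow]
    apply zpow_mem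
    rcases F.a_act hs with h | h
    · have : s * a * s⁻¹ = a := by rw [h]; group
      rw [this]; exact ha
    · have : s * a * s⁻¹ = z * a := by rw [h]; group
      rw [this]; exact mul_mem hz ha
  have hmul : ∀ s₁ ∈ S, ∀ s₂ ∈ S, s₁ * t * s₁⁻¹ * t⁻¹ ∈ zpowers a →
      s₂ * t * s₂⁻¹ * t⁻¹ ∈ zpowers a →
      (s₁ * s₂) * t * (s₁ * s₂)⁻¹ * t⁻¹ ∈ zpowers a := by
    intro s₁ hs₁ s₂ hs₂ h1 h2
    have e : (s₁ * s₂) * t * (s₁ * s₂)⁻¹ * t⁻¹ =
      (s₁ * (s₂ * t * s₂⁻¹ * t⁻¹) * s₁⁻¹) * (s₁ * t * s₁⁻¹ * t⁻¹) := by group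
    rw [e]
    exact mul_mem (hconj s₁ hs₁ _ h2) h1
  have hx : x * t * x⁻¹ * t⁻¹ ∈ zpowers a := by
    rcases F.x_act ht with h | h
    · have : x * t * x⁻¹ * t⁻¹ = 1 := by rw [h]; group
      rw [this]; exact one_mem _
    · have : x * t * x⁻¹ * t⁻¹ = a := by rw [h]; group
      rw [this]; exact ha
  have hb : b * t * b⁻¹ * t⁻¹ ∈ zpowers a := by
    obtain ⟨r, hr, h⟩ := F.b_act ht
    have : b * t * b⁻¹ * t⁻¹ = r := by rw [h]; group
    rw [this]; exact hr
  have hcen : ∀ u, t * u = u * t → u * t * u⁻¹ * t⁻¹ ∈ zpowers a := by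
    intro u hu
    have : u * t * u⁻¹ * t⁻¹ = 1 := by rw [← hu]; group
    rw [this]; exact one_mem _
  have ha' : a * t * a⁻¹ * t⁻¹ ∈ zpowers a := by
    rw [← F.xa]
    exact F.xa ▸ hmul x F.xS x F.xS hx hx
  obtain ⟨u, p, v, w, hu, hp, hv, hw, rfl⟩ := F.gen s hs
  have hwS : w ∈ S := by
    rcases hw with h | h <;> rw [h]
    · exact one_mem _
    · exact F.xS
  refine hmul _ (F.uS hu) _ (mul_mem (F.pS hp) (mul_mem (F.vS hv) hwS)) (hcen u (F.u_cen hu ht))
    (hmul _ (F.pS hp) _ (mul_mem (F.vS hv) hwS) ?_ (hmul _ (F.vS hv) _ hwS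
      (hcen v (F.v_cen hv ht)) ?_))
  · rcases hp with h | h | h | h <;> rw [h]
    · exact hcen 1 (by group)
    · exact ha'
    · exact hb
    · exact hmul a F.aS b F.bS ha' hb
  · rcases hw with h | h <;> rw [h]
    · exact hcen 1 (by group)
    · exact hx

/-- involutions of `D` are conjugate to `a` or `z` -/
theorem invol_D (F : Frame S x a b c z) (hf₁ : Fus a b z) (hf₂ : Fus a (x * b) z) {s : G}
    (hs : s ∈ F.D) (hss : s * s = 1) (hs1 : s ≠ 1) : ∃ h, h * s * h⁻¹ = a ∨ h * s * h⁻¹ = z := by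
  obtain ⟨u, p, w, hu, hp, hw, rfl⟩ := hs
  have hxbx : x * b * x = b := by
    calc x * b * x = x * (b * x) := by group
      _ = (x * z) * a * x * b := by rw [F.bx]; group
      _ = z * (x * a) * x * b := by rw [F.zx]; group
      _ = z * a * (x * x) * b := by rw [F.ax]; group
      _ = z * (a * a) * b := by rw [F.xa]; group
      _ = b := by rw [F.aa, F.zz, one_mul]
  have huu : u * u = 1 := by
    rcases hu with h | h <;> rw [h]
    · group
    · exact F.zz
  have hcu : ∀ t ∈ S, t * u = u * t := fun t ht => F.u_cen hu ht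
  by_cases hz : z = 1
  · -- the dihedral case
    have hu1 : u = 1 := by
      rcases hu with h | h
      · exact h
      · rw [h, hz]
    have haa : a * a = 1 := by rw [F.aa, hz]
    have hbx : b * x = a * (x * b) := by rw [F.bx, hz, one_mul]
    have hab : ∃ h, h * b * h⁻¹ = a := by
      obtain ⟨k, hk⟩ := hf₁
      rw [hz, one_mul, or_self] at hk
      exact ⟨k⁻¹, by rw [← hk]; group⟩
    have haxb : ∃ h, h * (x * b) * h⁻¹ = a := by
      obtain ⟨k, hk⟩ := hf₂
      rw [hz, one_mul, or_self] at hk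
      exact ⟨k⁻¹, by rw [← hk]; group⟩
    have hconj : ∀ s t y : G, s = y * t * y⁻¹ → (∃ h, h * t * h⁻¹ = a) → ∃ h, h * s * h⁻¹ = a := by
      rintro s t y rfl ⟨h, hh⟩
      exact ⟨h * y⁻¹, by rw [← hh]; group⟩
    rw [hu1, one_mul]
    rcases hp with h | h | h | h <;> rcases hw with h' | h' <;> rw [h, h']
    · exfalso; apply hs1; rw [hu1, h, h']; group
    · exfalso
      rw [hu1, h, h'] at hss
      apply F.a1
      rw [← F.xa, ← hss]; group
    · exact ⟨1, Or.inl (by group)⟩
    · exfalso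
      rw [hu1, h, h'] at hss
      apply F.a1
      have e : 1 * (a * x) * (1 * (a * x)) = a := by
        calc 1 * (a * x) * (1 * (a * x)) = a * (x * a) * x := by group
          _ = (a * a) * (x * x) := by rw [F.ax]; group
          _ = a := by rw [haa, F.xa, one_mul]
      rw [← e, hss]
    · obtain ⟨k, hk⟩ := hab
      exact ⟨k, Or.inl (by rw [← hk]; group)⟩
    · obtain ⟨k, hk⟩ := hconj (b * x) (x * b) x (by
        rw [hbx, ← F.xa]
        calc x * x * (x * b) = x * x * x * b * x * x⁻¹ := by group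
          _ = x * (x * (x * b * x)) * x⁻¹ := by group
          _ = x * (x * b) * x⁻¹ := by rw [hxbx]) haxb
      exact ⟨k, Or.inl hk⟩
    · obtain ⟨k, hk⟩ := hconj (a * b) b x (by rw [F.xb]; group) hab
      exact ⟨k, Or.inl (by rw [mul_one]; exact hk)⟩
    · obtain ⟨k, hk⟩ := haxb
      have e : a * b * x = x * b := by
        calc a * b * x = a * (b * x) := by group
          _ = (a * a) * (x * b) := by rw [hbx]; group
          _ = x * b := by rw [haa, one_mul]
      exact ⟨k, Or.inl (by rw [e]; exact hk)⟩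
  · -- the quaternion case
    have hpS := F.pS hp
    have hwx : w = 1 ∨ w = x := hw
    have hwS : w ∈ S := by
      rcases hw with h | h <;> rw [h]
      · exact one_mem _
      · exact F.xS
    have e : u * (p * w) * (u * (p * w)) = (p * w) * (p * w) := by
      calc u * (p * w) * (u * (p * w)) = u * ((p * w) * u) * (p * w) := by group
        _ = (u * u) * ((p * w) * (p * w)) := by rw [hcu _ (mul_mem hpS hwS)]; group
        _ = (p * w) * (p * w) := by rw [huu, one_mul]
    rw [e] at hss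
    have hza : z * a ≠ 1 := by
      intro h
      have := eq_inv_of_mul_eq_one_right h
      rw [F.zinv] at this
      exact F.az this
    rcases hp with h | h | h | h <;> rcases hw with h' | h' <;> rw [h, h'] at hss
    · refine ⟨1, Or.inr ?_⟩
      rcases hu with h'' | h''
      · exfalso; apply hs1; rw [h'', h, h']; group
      · rw [h'', h, h']; group
    · exfalso; apply F.a1; rw [← F.xa, ← hss]; group
    · exfalso; apply hz; rw [← F.aa, ← hss]; group
    · exfalso; apply hza
      rw [← hss]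
      simp only [mul_assoc, asc F.ax, F.xa, F.ax, asc F.aa]
    · exfalso; apply hz; rw [← F.bb, ← hss]; group
    · exfalso; apply hz
      calc z = b * b := F.bb.symm
        _ = b * (x * b * x) := by rw [hxbx]
        _ = 1 := by rw [← hss]; group
    · exfalso; apply hz
      have e2 : a * b * 1 * (a * b * 1) = z := by
        simp only [mul_assoc, mul_one, F.ba, asc F.ba, F.bb, F.za, asc F.za, asc F.aa, asc F.zz,
          one_mul, F.zz, F.aa]
      rw [← e2, hss]
    · exfalso; apply hz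
      have e2 : a * b * x * (a * b * x) = z := by
        have e3 : b * x * a = a * (z * (b * x)) := by
          calc b * x * a = b * (x * a) := by group
            _ = (b * a) * x := by rw [F.ax]; group
            _ = z * a * b * x := by rw [F.ba]; group
            _ = a * (z * (b * x)) := by rw [← F.za]; group
        have e4 : b * x * (b * x) = z := by
          calc b * x * (b * x) = b * (x * b * x) := by group
            _ = z := by rw [hxbx, F.bb]
        calc a * b * x * (a * b * x) = a * (b * x * a) * (b * x) := by group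
          _ = (a * a) * z * ((b * x) * (b * x)) := by rw [e3]; group
          _ = z := by rw [F.aa, F.zz, one_mul, e4]
      rw [← e2, hss]

theorem exists_index_two [Finite G] {S : Sylow 2 G} (F : Frame (S : Subgroup G) x a b c z)
    (hf₁ : Fus a b z) (hf₂ : Fus a (x * b) z) (hc : c ≠ 1) :
    ∃ H : Subgroup G, H.index = 2 ∧ c ∉ H := by
  refine index_two_of_transfer (F.halfD hc) F.cS ?_ ?_
  · intro g hgS hgD
    obtain ⟨h1, h2, h3, h4⟩ := F.hc.resolve_left hc
    have hs1 : g⁻¹ * c * g ≠ 1 := by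
      intro h
      apply hc
      calc c = g * (g⁻¹ * c * g) * g⁻¹ := by group
        _ = 1 := by rw [h]; group
    have hss : g⁻¹ * c * g * (g⁻¹ * c * g) = 1 := by
      have : g⁻¹ * c * g * (g⁻¹ * c * g) = g⁻¹ * (c * c) * g := by group
      rw [this, F.cc]; group
    obtain ⟨h, hh⟩ := F.invol_D hf₁ hf₂ hgD hss hs1
    set r := h * (g⁻¹ * c * g) * h⁻¹ with hr
    have ha := mem_zpowers a
    have hrz : r ∈ zpowers a := by
      rcases hh with h' | h' <;> rw [h']
      · exact ha
      · rw [← F.aa]; exact mul_mem ha ha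
    have hss' : r * r = 1 := by
      have : r * r = h * (g⁻¹ * c * g * (g⁻¹ * c * g)) * h⁻¹ := by rw [hr]; group
      rw [this, hss]; group
    have hrcen : ∀ s ∈ (S : Subgroup G), r * s = s * r := by
      intro s hs
      rcases hh with h' | h'
      · rw [h']
        rw [h', F.aa] at hss'
        rcases F.a_act hs with h'' | h''
        · exact h''.symm
        · rw [h'', hss', one_mul]
      · rw [h']; exact (F.z_cen hs).symm
    have e : (h * g⁻¹)⁻¹ * r * (h * g⁻¹) = c := by rw [hr]; group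
    obtain ⟨n, hn, hn2⟩ := S.conj_eq_normalizer_conj_of_mem_centralizer r (h * g⁻¹)
      (by rw [mem_centralizer_iff]; intro s hs; exact (hrcen s hs).symm)
      (by rw [e, mem_centralizer_iff]; intro s hs; exact F.c_cen hs)
    rw [e] at hn2
    -- `n⁻¹ a n ∈ zpowers a`
    have hna : n⁻¹ * a * n ∈ zpowers a := by
      have e1 : a = x * b * x⁻¹ * b⁻¹ := by rw [F.xb]; group
      have e2 : n⁻¹ * a * n = (n⁻¹ * x * n) * (n⁻¹ * b * n) * (n⁻¹ * x * n)⁻¹ *
          (n⁻¹ * b * n)⁻¹ := by
        calc n⁻¹ * a * n = n⁻¹ * (x * b * x⁻¹ * b⁻¹) * n := by rw [← e1]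
          _ = _ := by group
      rw [e2]
      exact F.comm_mem (norm_conj' hn F.xS) (norm_conj' hn F.bS)
    have hnr : n⁻¹ * r * n ∈ zpowers a := by
      obtain ⟨i, hi⟩ := mem_zpowers_iff.1 hrz
      have : n⁻¹ * r * n = (n⁻¹ * a * n) ^ i := by
        rw [← hi]
        have := _root_.conj_zpow (i := i) (a := n⁻¹) (b := a)
        rw [inv_inv] at this
        exact this.symm
      rw [this]
      exact zpow_mem hna i
    rw [← hn2] at hnr
    rcases mem_zpowers_four F.zz F.aa hnr with h' | h' | h' | h'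
    · exact h1 h'
    · exact h2 h'
    · exact h3 h'
    · exact h4 h'
  · intro g k _
    rw [F.cc, one_pow]
    have : g⁻¹ * 1 * g = 1 := by group
    rw [this]
    exact one_mem _

/-- the subgroup of index two has `D` as a Sylow subgroup and has no subgroup of index two -/
theorem index_two_props [Finite G] {S : Sylow 2 G} (F : Frame (S : Subgroup G) x a b c z)
    (hf₁ : Fus a b z) (hf₂ : Fus a (x * b) z) (hc : c ≠ 1) {H : Subgroup G} (hH : H.index = 2)
    (hcH : c ∉ H) : (¬ ∃ L : Subgroup H, L.index = 2) ∧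
      ∀ T : Sylow 2 H, Nonempty (T ≃* F.D) := by
  obtain ⟨hx, hb⟩ := F.mem_of_index_two hf₁ hf₂ hH
  have hDH := F.D_le_of_mem hx hb
  have hSodd : Odd (S : Subgroup G).index := odd_index_of_sylow_le S le_rfl
  have hDidx : F.D.index = 2 * (S : Subgroup G).index := by
    rw [← Subgroup.relIndex_mul_index F.D_le, (F.halfD hc).2]
  have hDH' : (F.D.subgroupOf H).index = (S : Subgroup G).index := by
    have h1 := Subgroup.relIndex_mul_index hDH
    rw [hH, hDidx] at h1
    have h2 : F.D.relIndex H = (S : Subgroup G).index := by omega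
    exact h2
  have hodd : Odd (F.D.subgroupOf H).index := by rw [hDH']; exact hSodd
  constructor
  · rintro ⟨L, hL⟩
    have hLn := normal_of_index_eq_two hL
    have haH : a ∈ H := hDH F.aD
    have hzH : z ∈ H := hDH F.zD
    have haL : (⟨a, haH⟩ : H) ∈ L := by
      have := mul_self_mem_of_index_two hL (⟨x, hx⟩ : H)
      have e : (⟨x, hx⟩ : H) * ⟨x, hx⟩ = ⟨a, haH⟩ := Subtype.ext F.xa
      rwa [e] at this
    have hzL : (⟨z, hzH⟩ : H) ∈ L := by
      have := mul_self_mem_of_index_two hL (⟨b, hb⟩ : H)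
      have e : (⟨b, hb⟩ : H) * ⟨b, hb⟩ = ⟨z, hzH⟩ := Subtype.ext F.bb
      rwa [e] at this
    have hfus : ∀ y (hy : y ∈ H), Fus a y z → (⟨y, hy⟩ : H) ∈ L := by
      rintro y hy ⟨k, hk⟩
      -- replace `k` by an element of `H`
      obtain ⟨k', hk', hk''⟩ : ∃ k' ∈ H, k' * a * k'⁻¹ = y ∨ k' * a * k'⁻¹ = z * y := by
        by_cases hkH : k ∈ H
        · exact ⟨k, hkH, hk⟩
        · refine ⟨k * c, ?_, ?_⟩
          · rw [mul_mem_iff_of_index_two hH]; tauto
          · have e : k * c * a * (k * c)⁻¹ = k * a * k⁻¹ := by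
              calc k * c * a * (k * c)⁻¹ = k * (c * a) * c⁻¹ * k⁻¹ := by group
                _ = k * a * k⁻¹ := by rw [F.ca]; group
            rw [e]; exact hk
      apply mem_of_fus (G := H) hLn haL hzL
      refine ⟨⟨k', hk'⟩, ?_⟩
      rcases hk'' with h | h
      · left; exact Subtype.ext h
      · right; exact Subtype.ext h
    have hbL := hfus b hb hf₁
    have hxbL := hfus (x * b) (mul_mem hx hb) hf₂
    have hxL : (⟨x, hx⟩ : H) ∈ L := by
      have e : (⟨x * b, mul_mem hx hb⟩ : H) = ⟨x, hx⟩ * ⟨b, hb⟩ := rfl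
      rw [e] at hxbL
      exact (L.mul_mem_cancel_right hbL).1 hxbL
    have hDL : F.D.subgroupOf H ≤ L := by
      rintro ⟨s, hs⟩ hsD
      rw [mem_subgroupOf] at hsD
      have h1 : F.D ≤ L.map H.subtype :=
        F.D_le_of_mem ⟨⟨x, hx⟩, hxL, rfl⟩ ⟨⟨b, hb⟩, hbL, rfl⟩
      obtain ⟨t, ht, hts⟩ := h1 hsD
      have : t = ⟨s, hs⟩ := Subtype.ext hts
      rwa [this] at ht
    have h1 := index_dvd_of_le hDL
    rw [hL] at h1
    exact (Nat.not_even_iff_odd.2 hodd) (even_iff_two_dvd.2 h1)
  · intro T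
    have hp : IsPGroup 2 (F.D.subgroupOf H) :=
      (S.isPGroup'.to_le F.D_le).of_equiv (Subgroup.subgroupOfEquivOfLe hDH).symm
    have hnd : ¬ 2 ∣ (F.D.subgroupOf H).index := by
      rw [← even_iff_two_dvd, Nat.not_even_iff_odd]
      exact hodd
    have e1 : T ≃* (hp.toSylow hnd : Subgroup H) := Sylow.equiv T (hp.toSylow hnd)
    rw [IsPGroup.toSylow_coe] at e1
    exact ⟨e1.trans (Subgroup.subgroupOfEquivOfLe hDH)⟩

end Frame

end Pool.Agent.Work.MP_cd0fff_al
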