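import Pool.Agent.Work.MP_cd0fff_al.Top

/-!
From the subgroups of index two to property (O).
-/

set_option linter.unusedSimpArgs false
set_option linter.unusedSectionVars false

universe u v

namespace Pool.Agent.Work.MP_cd0fff_al

open Subgroup Module

theorem Fus.map {G : Type u} [Group G] {H : Type v} [Group H] (f : H →* G) {a b z : H}
    (h : Fus a b z) : Fus (f a) (f b) (f z) := by
  obtain ⟨k, hk⟩ := h
  refine ⟨f k, ?_⟩
  rcases hk with h | h
  · left; rw [← map_inv, ← map_mul, ← map_mul, h]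
  · right; rw [← map_inv, ← map_mul, ← map_mul, h, map_mul]

namespace Frame

theorem map {G : Type u} [Group G] {H : Type v} [Group H] (f : H →* G)
    (hf : Function.Injective f) {T : Subgroup H} {x a b c z : H} (F : Frame T x a b c z) :
    Frame (T.map f) (f x) (f a) (f b) (f c) (f z) := by
  have hne : ∀ s t : H, s ≠ t → f s ≠ f t := fun s t h h' => h (hf h')
  have hne1 : ∀ s : H, s ≠ 1 → f s ≠ 1 := fun s h h' => h (hf (by rw [h', map_one]))
  refine ⟨⟨x, F.xS, rfl⟩, ⟨b, F.bS, rfl⟩, ⟨c, F.cS, rfl⟩, ?_, ?_, ?_, ?_, ?_, ?_, ?_, ?_,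
    hne1 _ F.a1, hne _ _ F.az, ?_, ?_⟩
  · rw [← map_mul, F.xa]
  · rw [← map_mul, F.aa]
  · rw [← map_mul, F.zz, map_one]
  · rw [← map_mul, F.bb]
  · rw [← map_mul, ← map_mul, ← map_mul, F.xb]
  · rw [← map_mul, F.cc, map_one]
  · rw [← map_mul, ← map_mul, F.cx]
  · rw [← map_mul, ← map_mul, F.cb]
  · rintro _ ⟨s, hs, rfl⟩
    obtain ⟨u, p, v, w, hu, hp, hv, hw, rfl⟩ := F.gen s hs
    refine ⟨f u, f p, f v, f w, ?_, ?_, ?_, ?_, by simp only [map_mul]⟩
    · rcases hu with h | h <;> rw [h]
      · left; exact map_one f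
      · right; rfl
    · rcases hp with h | h | h | h <;> rw [h]
      · left; exact map_one f
      · right; left; rfl
      · right; right; left; rfl
      · right; right; right; exact map_mul f a b
    · rcases hv with h | h <;> rw [h]
      · left; exact map_one f
      · right; rfl
    · rcases hw with h | h <;> rw [h]
      · left; exact map_one f
      · right; rfl
  · rcases F.hc with h | ⟨h1, h2, h3, h4⟩
    · left; rw [h, map_one]
    · right
      exact ⟨hne1 _ h1, hne _ _ h2, hne _ _ h3, by rw [← map_mul]; exact hne _ _ h4⟩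

theorem dihedral : Frame (⊤ : Subgroup (DihedralGroup 4)) (.r 1) (.r 2) (.sr 0) 1 1 := by
  refine ⟨mem_top _, mem_top _, mem_top _, by decide, by decide, by decide, by decide, by decide,
    by decide, by decide, by decide, by decide, by decide, ?_, Or.inl rfl⟩
  have key : ∀ s : DihedralGroup 4, ∃ β γ δ : Bool, s = (1 : DihedralGroup 4) *
      (((if β then .r 2 else 1) * (if γ then .sr 0 else 1)) * (1 * (if δ then .r 1 else 1))) := by
    decide
  intro s _
  obtain ⟨β, γ, δ, h⟩ := key s
  refine ⟨1, (if β then .r 2 else 1) * (if γ then .sr 0 else 1), 1, (if δ then .r 1 else 1),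
    Or.inl rfl, ?_, Or.inl rfl, ?_, h⟩
  · cases β <;> cases γ <;> simp
  · cases δ <;> simp

theorem quaternion : Frame (⊤ : Subgroup (QuaternionGroup 4)) (.a 1) (.a 2) (.xa 0) 1 (.a 4) := by
  refine ⟨mem_top _, mem_top _, mem_top _, by decide, by decide, by decide, by decide, by decide,
    by decide, by decide, by decide, by decide, by decide, ?_, Or.inl rfl⟩
  have key : ∀ s : QuaternionGroup 4, ∃ α β γ δ : Bool, s = (if α then .a 4 else 1) *
      (((if β then .a 2 else 1) * (if γ then .xa 0 else 1)) * (1 * (if δ then .a 1 else 1))) := by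
    decide
  intro s _
  obtain ⟨α, β, γ, δ, h⟩ := key s
  refine ⟨(if α then .a 4 else 1), (if β then .a 2 else 1) * (if γ then .xa 0 else 1), 1,
    (if δ then .a 1 else 1), ?_, ?_, Or.inl rfl, ?_, h⟩
  · cases α <;> simp
  · cases β <;> cases γ <;> simp
  · cases δ <;> simp

theorem of_equiv {G : Type u} [Group G] {S : Subgroup G} {P : Type v} [Group P] (e : S ≃* P)
    {x a b c z : P} (F : Frame (⊤ : Subgroup P) x a b c z) :
    ∃ f : P →* G, Function.Injective f ∧ Frame S (f x) (f a) (f b) (f c) (f z) := by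
  have hf : Function.Injective (S.subtype.comp e.symm.toMonoidHom) := by
    intro s t h
    have h1 : ((e.symm s : S) : G) = ((e.symm t : S) : G) := h
    exact e.symm.injective (Subtype.ext h1)
  refine ⟨S.subtype.comp e.symm.toMonoidHom, hf, ?_⟩
  have h := F.map _ hf
  have h2 : (⊤ : Subgroup P).map (S.subtype.comp e.symm.toMonoidHom) = S := by
    ext s
    constructor
    · rintro ⟨p, _, rfl⟩
      exact (e.symm p).2
    · intro hs
      refine ⟨e ⟨s, hs⟩, mem_top _, ?_⟩
      show ((e.symm (e ⟨s, hs⟩) : S) : G) = s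
      rw [MulEquiv.symm_apply_apply]
  rwa [h2] at h

variable {G : Type u} [Group G] {S : Subgroup G} {x a b c z : G}

theorem invol_Q (F : Frame S x a b c z) (hz : z ≠ 1) {s : G} (hs : s ∈ F.D) (hss : s * s = 1) :
    s = 1 ∨ s = z := by
  obtain ⟨u, p, w, hu, hp, hw, rfl⟩ := hs
  have hxbx : x * b * x = b := by
    calc x * b * x = x * (b * x) := by group
      _ = (x * z) * a * x * b := by rw [F.bx]; group
      _ = z * (x * a) * x * b := by rw [F.zx]; group
      _ = z * a * (x * x) * b := by rw [F.ax]; group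
      _ = z * (a * a) * b := by rw [F.xa]; group
      _ = b := by rw [F.aa, F.zz, one_mul]
  have huu : u * u = 1 := by
    rcases hu with h | h <;> rw [h]
    · group
    · exact F.zz
  have hcu : ∀ t ∈ S, t * u = u * t := fun t ht => F.u_cen hu ht
  have hpS := F.pS hp
  have hwS : w ∈ S := by
    rcases hw with h | h <;> rw [h]
    · exact one_mem _
    · exact F.xS
  have e : u * (p * w) * (u * (p * w)) = (p * w) * (p * w) := by
    calc u * (p * w) * (u * (p * w)) = u * ((p * w) * u) * (p * w) := by group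
      _ = (u * u) * ((p * w) * (p * w)) := by rw [hcu _ (mul_mem hpS hwS)]; group
      _ = (p * w) * (p * w) := by rw [huu, one_mul]
  rw [e] at hss
  have hza : z * a ≠ 1 := by
    intro h
    have := eq_inv_of_mul_eq_one_right h
    rw [F.zinv] at this
    exact F.az this
  rcases hp with h | h | h | h <;> rcases hw with h' | h' <;> rw [h, h'] at hss
  · rcases hu with h'' | h''
    · left; rw [h'', h, h']; group
    · right; rw [h'', h, h']; group
  · exfalso; apply F.a1; rw [← F.xa, ← hss]; group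
  · exfalso; apply hz; rw [← F.aa, ← hss]; group
  · exfalso; apply hza
    rw [← hss]
    simp only [mul_assoc, asc F.ax, F.xa, F.ax, asc F.aa]
  · exfalso; apply hz; rw [← F.bb, ← hss]; group
  · exfalso; apply hz
    calc z = b * b := F.bb.symm
      _ = b * (x * b * x) := by rw [hxbx]
      _ = 1 := by rw [← hss]; group
  · exfalso; apply hz
    have e2 : a * b * 1 * (a * b * 1) = z := by
      simp only [mul_assoc, mul_one, F.ba, asc F.ba, F.bb, F.za, asc F.za, asc F.aa, asc F.zz,
        one_mul, F.zz, F.aa]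
    rw [← e2, hss]
  · exfalso; apply hz
    have e2 : a * b * x * (a * b * x) = z := by
      have e3 : b * x * a = a * (z * (b * x)) := by
        calc b * x * a = b * (x * a) := by group
          _ = (b * a) * x := by rw [F.ax]; group
          _ = z * a * b * x := by rw [F.ba]; group
          _ = a * (z * (b * x)) := by rw [← F.za]; group
      have e4 : b * x * (b * x) = z := by
        calc b * x * (b * x) = b * (x * b * x) := by group
          _ = z := by rw [hxbx, F.bb]
      calc a * b * x * (a * b * x) = a * (b * x * a) * (b * x) := by group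
        _ = (a * a) * z * ((b * x) * (b * x)) := by rw [e3]; group
        _ = z := by rw [F.aa, F.zz, one_mul, e4]
    rw [← e2, hss]

/-- elements of `⟨x⟩` -/
theorem mem_zpowers_x (F : Frame S x a b c z) {s : G} (hs : s ∈ zpowers x) :
    (s = 1 ∨ s = z ∨ s = a ∨ s = z * a) ∨ (s * s = a ∨ s * s = z * a) := by
  obtain ⟨i, rfl⟩ := mem_zpowers_iff.1 hs
  rcases Int.even_or_odd' i with ⟨j, hj | hj⟩
  · left
    apply mem_zpowers_four F.zz F.aa
    rw [hj, zpow_mul, zpow_ofNat, pow_two, F.xa]
    exact zpow_mem (mem_zpowers a) j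
  · right
    have e : x ^ i * x ^ i = z ^ j * a := by
      rw [← zpow_add, show i + i = 2 * i by ring, zpow_mul, zpow_ofNat, pow_two, F.xa, hj,
        zpow_add, zpow_mul, zpow_ofNat, pow_two, F.aa, zpow_one]
    rw [e]
    rcases zpow_invol F.zz j with h | h <;> rw [h]
    · left; rw [one_mul]
    · right; rfl

theorem half_x (F : Frame S x a b 1 z) : Half (zpowers x) S := by
  have hx := mem_zpowers x
  have ha : a ∈ zpowers x := by rw [← F.xa]; exact mul_mem hx hx
  have hz : z ∈ zpowers x := by rw [← F.aa]; exact mul_mem ha ha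
  refine half_of_mul (by rw [zpowers_le]; exact F.xS) F.bS ?_ ?_
  · intro h
    obtain ⟨i, hi⟩ := mem_zpowers_iff.1 h
    apply F.x_ne_b
    rw [← hi]; group
  · intro s hs hsx
    obtain ⟨u, p, v, w, hu, hp, hv, hw, rfl⟩ := F.gen s hs
    rw [or_self] at hv
    have hu' : u ∈ zpowers x := by
      rcases hu with h | h <;> rw [h]
      · exact one_mem _
      · exact hz
    have hw' : w ∈ zpowers x := by
      rcases hw with h | h <;> rw [h]
      · exact one_mem _
      · exact hx
    have hbwb : b * w * b ∈ zpowers x := by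
      rcases hw with h | h <;> rw [h]
      · rw [mul_one, F.bb]; exact hz
      · have : b * x * b = z * (a * (x * z)) := by
          calc b * x * b = z * (a * (x * b)) * b := by rw [F.bx]
            _ = z * (a * (x * (b * b))) := by group
            _ = z * (a * (x * z)) := by rw [F.bb]
        rw [this]
        exact mul_mem hz (mul_mem ha (mul_mem hx hz))
    rw [hv, one_mul] at hsx ⊢
    rcases hp with h | h | h | h
    · exfalso; apply hsx
      rw [h]; exact mul_mem hu' (mul_mem (one_mem _) hw')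
    · exfalso; apply hsx
      rw [h]; exact mul_mem hu' (mul_mem ha hw')
    · rw [h]
      have : u * (b * w) * b = u * (b * w * b) := by group
      rw [this]
      exact mul_mem hu' hbwb
    · rw [h]
      have : u * (a * b * w) * b = u * (a * (b * w * b)) := by group
      rw [this]
      exact mul_mem hu' (mul_mem ha hbwb)

theorem fus_of_no_index_two [Finite G] {S : Sylow 2 G} (F : Frame (S : Subgroup G) x a b 1 z)
    (h : ¬ ∃ H : Subgroup G, H.index = 2) : Fus a b z := by
  by_contra hf
  apply h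
  obtain ⟨H, hH, _⟩ := index_two_of_transfer (y := b) F.half_x F.bS (by
    intro g _ hg
    set y := g⁻¹ * b * g with hy
    have hb : b = g * y * g⁻¹ := by rw [hy]; group
    have hyy : y * y = g⁻¹ * z * g := by
      have : y * y = g⁻¹ * (b * b) * g := by rw [hy]; group
      rw [this, F.bb]
    have h4 : (y * y) * (y * y) = 1 := by
      rw [hyy]
      have : g⁻¹ * z * g * (g⁻¹ * z * g) = g⁻¹ * (z * z) * g := by group
      rw [this, F.zz]; group
    rcases F.mem_zpowers_x hg with (h1 | h1 | h1 | h1) | h1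
    · apply F.b1
      rw [hb, h1]; group
    · have h2 : g⁻¹ * z * g = 1 := by rw [← hyy, h1, F.zz]
      have h3 : z = 1 := by
        calc z = g * (g⁻¹ * z * g) * g⁻¹ := by group
          _ = 1 := by rw [h2]; group
      apply F.b1
      rw [hb, h1, h3]; group
    · exact hf ⟨g, Or.inl (by rw [← h1]; exact hb.symm)⟩
    · have h2 : g⁻¹ * z * g = z := by
        rw [← hyy, h1]
        simp only [mul_assoc, asc F.za, F.aa, asc F.zz, one_mul]
      have h3 : g * z * g⁻¹ = z := by
        calc g * z * g⁻¹ = g * (g⁻¹ * z * g) * g⁻¹ := by rw [h2]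
          _ = z := by group
      apply hf
      refine ⟨g, Or.inr ?_⟩
      have h5 : z * (g * a * g⁻¹) = b := by
        calc z * (g * a * g⁻¹) = (g * z * g⁻¹) * (g * a * g⁻¹) := by rw [h3]
          _ = g * (z * a) * g⁻¹ := by group
          _ = b := by rw [← h1]; exact hb.symm
      rw [← h5, ← mul_assoc, F.zz, one_mul]
    · have hz1 : z = 1 := by
        rcases h1 with h' | h' <;> rw [h'] at h4
        · rw [← F.aa]; exact h4
        · rw [← h4]
          simp only [mul_assoc, asc F.za, F.aa, asc F.zz, one_mul]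
      have h5 : y * y = 1 := by rw [hyy, hz1]; group
      rw [h5, hz1, one_mul] at h1
      rcases h1 with h' | h' <;> exact F.a1 h'.symm) (by
    intro g k hgS
    have hx := mem_zpowers x
    have ha : a ∈ zpowers x := by rw [← F.xa]; exact mul_mem hx hx
    have hz : z ∈ zpowers x := by rw [← F.aa]; exact mul_mem ha ha
    rw [F.bb] at hgS ⊢
    have hk : z ^ k = 1 ∨ z ^ k = z := by
      have := zpow_invol F.zz k
      simpa using this
    rcases hk with h1 | h1
    · rw [h1]
      have : g⁻¹ * 1 * g = 1 := by group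
      rw [this]; exact one_mem _
    · rw [h1] at hgS ⊢
      by_cases hz1 : z = 1
      · rw [hz1]
        have : g⁻¹ * 1 * g = 1 := by group
        rw [this]; exact one_mem _
      · rw [← F.D_eq] at hgS
        rcases F.invol_Q hz1 hgS (by
          have : g⁻¹ * z * g * (g⁻¹ * z * g) = g⁻¹ * (z * z) * g := by group
          rw [this, F.zz]; group) with h2 | h2 <;> rw [h2]
        · exact one_mem _
        · exact hz)
  exact ⟨H, hH⟩

/-- The case of a direct factor of order two. -/
theorem of_index_two [Finite G] {S : Sylow 2 G} {P : Type v} [Group P]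
    (e : S ≃* P × Multiplicative (ZMod 2)) {H : Subgroup G} (T : Sylow 2 H) {x a b z : H}
    (F : Frame (T : Subgroup H) x a b 1 z) (hf₁ : Fus a b z) (hf₂ : Fus a (x * b) z)
    (hcard : Nat.card S = 2 * Nat.card T) : PropertyO G := by
  classical
  have hinj : Function.Injective H.subtype := Subtype.val_injective
  have F' := F.map H.subtype hinj
  have hf₁' := hf₁.map H.subtype
  have hf₂' := hf₂.map H.subtype
  rw [map_mul] at hf₂'
  rw [map_one] at F'
  set T' : Subgroup G := (T : Subgroup H).map H.subtype with hT'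
  have hT'p : IsPGroup 2 T' := T.isPGroup'.map _
  obtain ⟨S₁, hS₁⟩ := hT'p.exists_le_sylow
  have e₁ : S₁ ≃* P × Multiplicative (ZMod 2) := (Sylow.equiv S₁ S).trans e
  have hcardT : Nat.card T' = Nat.card T :=
    Nat.card_congr ((T : Subgroup H).equivMapOfInjective _ hinj).toEquiv.symm
  have hcardS : Nat.card S₁ = 2 * Nat.card T' := by
    rw [hcardT, ← hcard]
    exact Nat.card_congr (Sylow.equiv S₁ S).toEquiv
  have hhalf : Half T' S₁ := half_of_card hS₁ hcardS
  -- the central involution
  set c : S₁ := e₁.symm (1, Multiplicative.ofAdd 1) with hc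
  have hec : e₁ c = (1, Multiplicative.ofAdd 1) := by rw [hc, MulEquiv.apply_symm_apply]
  have hcc : (c : G) * c = 1 := by
    have h1 : c * c = 1 := by
      apply e₁.injective
      rw [e₁.map_mul, hec, e₁.map_one]
      refine Prod.ext (one_mul 1) ?_
      show Multiplicative.ofAdd (1 : ZMod 2) * Multiplicative.ofAdd (1 : ZMod 2) = 1
      decide
    exact congrArg Subtype.val h1
  have hcs : ∀ s ∈ (S₁ : Subgroup G), (c : G) * s = s * c := by
    intro s hs
    have h1 : c * ⟨s, hs⟩ = ⟨s, hs⟩ * c := by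
      apply e₁.injective
      rw [map_mul, map_mul, hec]
      refine Prod.ext ?_ ?_
      · show 1 * (e₁ ⟨s, hs⟩).1 = (e₁ ⟨s, hs⟩).1 * 1
        rw [one_mul, mul_one]
      · exact mul_comm _ _
    exact congrArg Subtype.val h1
  -- the second projection
  have hπ : ∀ s (hs : s ∈ (S₁ : Subgroup G)), (∃ r t, ∃ (hr : r ∈ (S₁ : Subgroup G))
      (ht : t ∈ (S₁ : Subgroup G)), s = r * t * r⁻¹ * t⁻¹) → (e₁ ⟨s, hs⟩).2 = 1 := by
    rintro s hs ⟨r, t, hr, ht, rfl⟩
    have h1 : (⟨r * t * r⁻¹ * t⁻¹, hs⟩ : S₁) = ⟨r, hr⟩ * ⟨t, ht⟩ * ⟨r, hr⟩⁻¹ * ⟨t, ht⟩⁻¹ := rfl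
    rw [h1, map_mul, map_mul, map_mul, map_inv, map_inv]
    show (e₁ ⟨r, hr⟩).2 * (e₁ ⟨t, ht⟩).2 * (e₁ ⟨r, hr⟩).2⁻¹ * (e₁ ⟨t, ht⟩).2⁻¹ = 1
    rw [mul_comm (e₁ ⟨r, hr⟩).2 (e₁ ⟨t, ht⟩).2]
    group
  have hxS := hS₁ F'.xS
  have hbS := hS₁ F'.bS
  have haS : (H.subtype a) ∈ (S₁ : Subgroup G) := hS₁ F'.aS
  have hzS : (H.subtype z) ∈ (S₁ : Subgroup G) := hS₁ F'.zS
  have hπa : (e₁ ⟨H.subtype a, haS⟩).2 = 1 :=
    hπ _ haS ⟨_, _, hxS, hbS, by rw [F'.xb]; group⟩
  have hπz : (e₁ ⟨H.subtype z, hzS⟩).2 = 1 := by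
    have h1 : (⟨H.subtype z, hzS⟩ : S₁) = ⟨H.subtype a, haS⟩ * ⟨H.subtype a, haS⟩ :=
      Subtype.ext F'.aa.symm
    rw [h1, map_mul]
    show (e₁ ⟨H.subtype a, haS⟩).2 * (e₁ ⟨H.subtype a, haS⟩).2 = 1
    rw [hπa, one_mul]
  have hπc : (e₁ c).2 ≠ 1 := by
    rw [hec]
    show Multiplicative.ofAdd (1 : ZMod 2) ≠ 1
    decide
  have hne : ∀ s (hs : s ∈ (S₁ : Subgroup G)), (e₁ ⟨s, hs⟩).2 = 1 → (c : G) ≠ s := by
    intro s hs h1 h2
    apply hπc
    have h3 : c = ⟨s, hs⟩ := Subtype.ext h2
    rw [h3, h1]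
  have hc1 : (c : G) ≠ 1 := hne 1 (one_mem _) (by
    have : (⟨1, one_mem _⟩ : S₁) = 1 := rfl
    rw [this, map_one]; rfl)
  have hcz : (c : G) ≠ H.subtype z := hne _ hzS hπz
  have hca : (c : G) ≠ H.subtype a := hne _ haS hπa
  have hcza : (c : G) ≠ H.subtype z * H.subtype a := hne _ (mul_mem hzS haS) (by
    have h1 : (⟨H.subtype z * H.subtype a, mul_mem hzS haS⟩ : S₁) =
      ⟨H.subtype z, hzS⟩ * ⟨H.subtype a, haS⟩ := rfl
    rw [h1, map_mul]
    show (e₁ ⟨H.subtype z, hzS⟩).2 * (e₁ ⟨H.subtype a, haS⟩).2 = 1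
    rw [hπa, hπz, one_mul])
  have hcT : (c : G) ∉ T' := by
    intro h
    rw [← F'.D_eq] at h
    rcases F'.mem_of_central h (hcs _ hxS) (hcs _ hbS) hcc with h' | h' | h' | h'
    · exact hc1 h'
    · exact hcz h'
    · exact hca h'
    · exact hcza h'
  have F'' : Frame (S₁ : Subgroup G) (H.subtype x) (H.subtype a) (H.subtype b) (c : G)
      (H.subtype z) := by
    refine ⟨hxS, hbS, c.2, F'.xa, F'.aa, F'.zz, F'.bb, F'.xb, hcc, hcs _ hxS, hcs _ hbS, F'.a1,
      F'.az, ?_, Or.inr ⟨hc1, hcz, hca, hcza⟩⟩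
    intro s hs
    by_cases hsT : s ∈ T'
    · obtain ⟨u, p, v, w, hu, hp, hv, hw, h⟩ := F'.gen s hsT
      rw [or_self] at hv
      exact ⟨u, p, v, w, hu, hp, Or.inl hv, hw, h⟩
    · have h1 : s * c ∈ T' := hhalf.mul_mem hs c.2 hsT hcT
      obtain ⟨u, p, v, w, hu, hp, hv, hw, h⟩ := F'.gen _ h1
      rw [or_self] at hv
      refine ⟨u, p, c, w, hu, hp, Or.inr rfl, hw, ?_⟩
      have hwS : w ∈ (S₁ : Subgroup G) := by
        rcases hw with h' | h' <;> rw [h']
        · exact one_mem _
        · exact hxS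
      calc s = (s * c) * c := by rw [mul_assoc, hcc, mul_one]
        _ = u * (p * (w * c)) := by rw [h, hv]; group
        _ = u * (p * (c * w)) := by rw [hcs w hwS]
  exact F''.propertyO hf₁' hf₂'

end Frame

end Pool.Agent.Work.MP_cd0fff_al
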