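import Pool.Agent.Work.MP_cd0fff_al.Rank2

/-!
The trace of an invariant additive function on `Ph M` over a rotation of order three.
-/

universe u

namespace Pool.Agent.Work.MP_cd0fff_al

open Subgroup Module

variable {G : Type u} [Group G]

/-- additive on `N` and invariant under `S` -/
def Invt (S N : Subgroup G) (r : G → ZMod 2) : Prop :=
  AddOn N r ∧ ∀ x ∈ S, ∀ n ∈ N, r (x * n * x⁻¹) = r n

/-- the trace over the powers of `k` -/
def tr (k : G) (r : G → ZMod 2) : G → ZMod 2 :=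
  fun n => r n + r (k * n * k⁻¹) + r (k * (k * n * k⁻¹) * k⁻¹)

theorem vanish_of_sq [Finite G] {M : Subgroup G} {r : G → ZMod 2} (hr : Invt M (Ph M) r)
    (hsq : ∀ m ∈ M, r (m * m) = 0) : ∀ n ∈ Ph M, r n = 0 := by
  have hKP : kr (Ph M) r hr.1 ≤ M := kr_le.trans (Ph_le M)
  have hn : M ≤ normalizer (kr (Ph M) r hr.1 : Set G) := by
    apply le_normalizer_of
    intro x hx n hn
    exact ⟨norm_conj (Ph_norm (Subgroup.le_normalizer hx)) hn.1, by rw [hr.2 x hx n hn.1, hn.2]⟩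
  obtain ⟨V, _, _, _, q, hq, _⟩ := exists_quo hKP hn
    (fun a ha => ⟨sq_mem_Ph ha, hsq a ha⟩)
  intro n hn
  by_contra hcon
  have h1 : q n ≠ 0 := by
    intro h
    rw [hq.ker n (Ph_le M hn)] at h
    exact hcon h.2
  apply h1
  apply sep
  intro ψ
  exact hn.2 _ (hq.comp ψ)

section

variable {S M : Subgroup G} {b k : G} {r : G → ZMod 2}

theorem tr_A (hb : b ∈ S) (hMS : M ≤ S) (hkM : k ∈ normalizer (M : Set G))
    (h3 : ∀ m ∈ M, k * (k * (k * m * k⁻¹) * k⁻¹) * k⁻¹ = m)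
    (hbk : b * k * b⁻¹ * k ∈ M) (hbM : b ∈ normalizer (M : Set G)) (hr : Invt S (Ph M) r) :
    ∀ n ∈ Ph M, r (k * (k * n * k⁻¹) * k⁻¹) = r (k * (b * n * b⁻¹) * k⁻¹) := by
  intro n hn
  have hkP := Ph_norm hkM
  have hbP := Ph_norm hbM
  have hnM := Ph_le M hn
  have e1 : k * (k * n * k⁻¹) * k⁻¹ = k⁻¹ * n * k := by
    have := h3 n hnM
    calc k * (k * n * k⁻¹) * k⁻¹ = k⁻¹ * (k * (k * (k * n * k⁻¹) * k⁻¹) * k⁻¹) * k := by group
      _ = _ := by rw [this]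
  have h1 : k⁻¹ * n * k ∈ Ph M := norm_conj' hkP hn
  rw [e1, ← hr.2 b hb _ h1]
  set u := k * (b * k * b⁻¹ * k)⁻¹ * k⁻¹ with hu
  have huM : u ∈ M := norm_conj hkM (M.inv_mem hbk)
  have e2 : b * (k⁻¹ * n * k) * b⁻¹ = u * (k * (b * n * b⁻¹) * k⁻¹) * u⁻¹ := by
    rw [hu]; group
  rw [e2, hr.2 u (hMS huM) _ (norm_conj hkP (norm_conj hbP hn))]

theorem tr_add (hkM : k ∈ normalizer (M : Set G)) (hr : Invt S (Ph M) r) :
    AddOn (Ph M) (tr k r) := by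
  have hkP := Ph_norm hkM
  intro x hx y hy
  have e1 : k * (x * y) * k⁻¹ = (k * x * k⁻¹) * (k * y * k⁻¹) := by group
  have e2 : k * ((k * x * k⁻¹) * (k * y * k⁻¹)) * k⁻¹ =
      (k * (k * x * k⁻¹) * k⁻¹) * (k * (k * y * k⁻¹) * k⁻¹) := by group
  simp only [tr]
  rw [e1, e2, hr.1 x hx y hy, hr.1 _ (norm_conj hkP hx) _ (norm_conj hkP hy),
    hr.1 _ (norm_conj hkP (norm_conj hkP hx)) _ (norm_conj hkP (norm_conj hkP hy))]
  ring

theorem tr_inv (hM : Half M S) (hb : b ∈ S) (hbM : b ∉ M) (hkM : k ∈ normalizer (M : Set G))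
    (h3 : ∀ m ∈ M, k * (k * (k * m * k⁻¹) * k⁻¹) * k⁻¹ = m)
    (hbk : b * k * b⁻¹ * k ∈ M) (hr : Invt S (Ph M) r) :
    Invt S (Ph M) (tr k r) := by
  refine ⟨tr_add hkM hr, ?_⟩
  have hkP := Ph_norm hkM
  have hMS := hM.le
  have hbN := hM.le_normalizer hb
  have hA := tr_A hb hMS hkM h3 hbk hbN hr
  have hbP := Ph_norm hbN
  -- elements of `M`
  have h1 : ∀ x ∈ M, ∀ n ∈ Ph M, tr k r (x * n * x⁻¹) = tr k r n := by
    intro x hx n hn
    simp only [tr]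
    have e1 : k * (x * n * x⁻¹) * k⁻¹ = (k * x * k⁻¹) * (k * n * k⁻¹) * (k * x * k⁻¹)⁻¹ := by group
    have e2 : k * ((k * x * k⁻¹) * (k * n * k⁻¹) * (k * x * k⁻¹)⁻¹) * k⁻¹ =
      (k * (k * x * k⁻¹) * k⁻¹) * (k * (k * n * k⁻¹) * k⁻¹) * (k * (k * x * k⁻¹) * k⁻¹)⁻¹ := by
      group
    rw [e1, e2, hr.2 x (hMS hx) n hn, hr.2 _ (hMS (norm_conj hkM hx)) _ (norm_conj hkP hn),
      hr.2 _ (hMS (norm_conj hkM (norm_conj hkM hx))) _ (norm_conj hkP (norm_conj hkP hn))]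
  have h2 : ∀ n ∈ Ph M, tr k r (b * n * b⁻¹) = tr k r n := by
    intro n hn
    simp only [tr]
    have hn' := norm_conj hbP hn
    have e1 := hA n hn
    have e2 := hA _ hn'
    have e3 : k * (b * (b * n * b⁻¹) * b⁻¹) * k⁻¹ =
        (k * (b * b) * k⁻¹) * (k * n * k⁻¹) * (k * (b * b) * k⁻¹)⁻¹ := by group
    rw [e3, hr.2 _ (hMS (norm_conj hkM (hM.sq_mem hb))) _ (norm_conj hkP hn)] at e2
    rw [hr.2 b hb n hn, ← e1, e2]
    ring
  intro x hx n hn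
  rcases hM.cover hb hbM hx with h | ⟨e, he, rfl⟩
  · exact h1 x h n hn
  · have e1 : b * e * n * (b * e)⁻¹ = b * (e * n * e⁻¹) * b⁻¹ := by group
    rw [e1, h2 _ (norm_conj (Ph_norm (Subgroup.le_normalizer he)) hn), h1 e he n hn]

theorem tr_comm (hM : Half M S) (hb : b ∈ S) (hkM : k ∈ normalizer (M : Set G))
    (h3 : ∀ m ∈ M, k * (k * (k * m * k⁻¹) * k⁻¹) * k⁻¹ = m)
    (hbk : b * k * b⁻¹ * k ∈ M) (hbb : b * b ∈ Ph M) (hr : Invt S (Ph M) r)
    {f : G} (hf : f ∈ M) (hfb : f * b * f⁻¹ * b⁻¹ ∈ Ph M) :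
    r (f * b * f⁻¹ * b⁻¹) = tr k r (f * b * f⁻¹ * b⁻¹) := by
  have hkP := Ph_norm hkM
  have hMS := hM.le
  have hbN := hM.le_normalizer hb
  have hbP := Ph_norm hbN
  have hA := tr_A hb hMS hkM h3 hbk hbN hr _ hfb
  simp only [tr]
  rw [hA]
  set n := f * b * f⁻¹ * b⁻¹ with hn
  have hn' := norm_conj hbP hfb
  have e1 : r (k * n * k⁻¹) + r (k * (b * n * b⁻¹) * k⁻¹) = 0 := by
    rw [← hr.1 _ (norm_conj hkP hfb) _ (norm_conj hkP hn')]
    have e2 : k * n * k⁻¹ * (k * (b * n * b⁻¹) * k⁻¹) =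
        (k * f * k⁻¹) * (k * (b * b) * k⁻¹) * (k * f * k⁻¹)⁻¹ * (k * (b * b) * k⁻¹)⁻¹ := by
      rw [hn]; group
    have h4 := norm_conj hkP hbb
    have h5 : (k * f * k⁻¹) * (k * (b * b) * k⁻¹) * (k * f * k⁻¹)⁻¹ ∈ Ph M :=
      norm_conj (Ph_norm (Subgroup.le_normalizer (norm_conj hkM hf))) h4
    rw [e2, hr.1 _ h5 _ ((Ph M).inv_mem h4), hr.2 _ (hMS (norm_conj hkM hf)) _ h4, hr.1.inv h4,
      zdbl]
  rw [add_assoc, e1, add_zero]

/-- the values of the trace on squares -/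
theorem tr_sq {V : Type u} [AddCommGroup V] [Module (ZMod 2) V] {q : G → V}
    (hq : Quo M (Ph M) q) (hM : Half M S) (hb : b ∈ S) (hkM : k ∈ normalizer (M : Set G))
    (hr : Invt S (Ph M) r) {g s : Module.End (ZMod 2) V} (hg : ∀ m ∈ M, q (k * m * k⁻¹) = g (q m))
    (hs : ∀ m ∈ M, q (b * m * b⁻¹) = s (q m)) {c w f : V} (gc : g c = w) (gw : g w = c + w)
    (gf : g f = f) (sw : s w = w + c)
    (hdec : ∀ v : V, ∃ x, (x = 0 ∨ x = f) ∧ (v = x ∨ v = c + x ∨ v = w + x ∨ v = c + w + x))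
    {η : V →ₗ[ZMod 2] ZMod 2} (ηc : η c = 0) (ηw : η w = 0) (ηf : η f = 1)
    {c' f' : G} (hc' : c' ∈ M) (qc : q c' = c) (rc : r (c' * c') = 0) (hf' : f' ∈ M)
    (qf : q f' = f) :
    ∀ m ∈ M, tr k r (m * m) = η (q m) * r (f' * f') := by
  have hkP := Ph_norm hkM
  have hMP : ∀ x ∈ M, x ∈ normalizer (Ph M : Set G) := fun x hx =>
    Ph_norm (Subgroup.le_normalizer hx)
  have hcomm : ∀ x ∈ M, ∀ y ∈ M, x⁻¹ * y * x * y⁻¹ ∈ Ph M := by
    intro x hx y hy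
    refine ⟨M.mul_mem (M.mul_mem (M.mul_mem (M.inv_mem hx) hy) hx) (M.inv_mem hy), ?_⟩
    intro φ hφ
    rw [hφ _ (M.mul_mem (M.mul_mem (M.inv_mem hx) hy) hx) _ (M.inv_mem hy),
      hφ _ (M.mul_mem (M.inv_mem hx) hy) _ hx, hφ _ (M.inv_mem hx) _ hy, hφ.inv hx, hφ.inv hy]
    generalize φ x = A
    generalize φ y = B
    revert A B; decide
  -- squares depend only on the class
  have F1 : ∀ m ∈ M, ∀ m' ∈ M, q m = q m' → r (m * m) = r (m' * m') := by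
    intro m hm m' hm' h
    rw [hq.eq_iff hm hm'] at h
    set n := m * m'⁻¹ with hn
    have e1 : m * m = n * (m' * n * m'⁻¹) * (m' * m') := by rw [hn]; group
    have h2 : m' * n * m'⁻¹ ∈ Ph M := norm_conj (hMP m' hm') h
    rw [e1, hr.1 _ ((Ph M).mul_mem h h2) _ (sq_mem_Ph hm'), hr.1 _ h _ h2,
      hr.2 m' (hM.le hm') n h, zdbl, zero_add]
  -- the polar form with `f'`
  obtain ⟨Bf, hBf⟩ := hq.lift (fun m => r (m⁻¹ * f' * m * f'⁻¹)) (by
    intro x hx y hy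
    have e1 : (x * y)⁻¹ * f' * (x * y) * f'⁻¹ =
        (y⁻¹ * (x⁻¹ * f' * x * f'⁻¹) * y⁻¹⁻¹) * (y⁻¹ * f' * y * f'⁻¹) := by group
    have h1 := hcomm x hx f' hf'
    rw [e1, hr.1 _ (norm_conj (hMP _ (M.inv_mem hy)) h1) _ (hcomm y hy f' hf'),
      hr.2 _ (hM.le (M.inv_mem hy)) _ h1]) (by
    intro x hx hxP
    have e1 : x⁻¹ * f' * x * f'⁻¹ = x⁻¹ * (f' * x * f'⁻¹) := by group
    rw [e1, hr.1 _ ((Ph M).inv_mem hxP) _ (norm_conj (hMP f' hf') hxP),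
      hr.2 f' (hM.le hf') x hxP, hr.1.inv hxP, zdbl])
  have F2 : ∀ m ∈ M, r ((m * f') * (m * f')) = r (m * m) + r (f' * f') + Bf (q m) := by
    intro m hm
    rw [hBf m hm]
    have e1 : (m * f') * (m * f') = (m * m) * (m⁻¹ * f' * m * f'⁻¹) * (f' * f') := by group
    have h1 := hcomm m hm f' hf'
    rw [e1, hr.1 _ ((Ph M).mul_mem (sq_mem_Ph hm) h1) _ (sq_mem_Ph hf'),
      hr.1 _ (sq_mem_Ph hm) _ h1]
    ring
  have hkm : ∀ m ∈ M, k * m * k⁻¹ ∈ M := fun m hm => norm_conj hkM hm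
  have trm : ∀ m ∈ M, tr k r (m * m) = r (m * m) + r ((k * m * k⁻¹) * (k * m * k⁻¹)) +
      r ((k * (k * m * k⁻¹) * k⁻¹) * (k * (k * m * k⁻¹) * k⁻¹)) := by
    intro m _
    simp only [tr]
    have e1 : k * (m * m) * k⁻¹ = (k * m * k⁻¹) * (k * m * k⁻¹) := by group
    have e2 : k * ((k * m * k⁻¹) * (k * m * k⁻¹)) * k⁻¹ =
      (k * (k * m * k⁻¹) * k⁻¹) * (k * (k * m * k⁻¹) * k⁻¹) := by group
    rw [e1, e2]
  -- representatives
  obtain ⟨w', hw', qw⟩ := hq.surj w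
  have qcw : q (c' * w') = c + w := by rw [hq.add _ hc' _ hw', qc, qw]
  have hcw' := M.mul_mem hc' hw'
  have r1 : r (1 * 1 : G) = 0 := by rw [mul_one, hr.1.one]
  have rw' : r ((c' * w') * (c' * w')) = r (w' * w') := by
    have h1 : r ((b * w' * b⁻¹) * (b * w' * b⁻¹)) = r (w' * w') := by
      have e1 : (b * w' * b⁻¹) * (b * w' * b⁻¹) = b * (w' * w') * b⁻¹ := by group
      rw [e1, hr.2 b hb _ (sq_mem_Ph hw')]
    rw [← h1]
    apply F1 _ hcw' _ (hM.conj_mem hb hw')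
    rw [qcw, hs w' hw', qw, sw, add_comm]
  -- on the four-group
  have S4 : ∀ a, (a = 0 ∨ a = c ∨ a = w ∨ a = c + w) → ∀ m ∈ M, q m = a →
      r (m * m) + r ((k * m * k⁻¹) * (k * m * k⁻¹)) +
      r ((k * (k * m * k⁻¹) * k⁻¹) * (k * (k * m * k⁻¹) * k⁻¹)) = 0 ∧
      q m + q (k * m * k⁻¹) + q (k * (k * m * k⁻¹) * k⁻¹) = 0 ∧ η (q m) = 0 := by
    intro a ha m hm hqm
    have h1 := hkm m hm
    have h2 := hkm _ h1
    have q1 : q (k * m * k⁻¹) = g a := by rw [hg m hm, hqm]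
    have q2 : q (k * (k * m * k⁻¹) * k⁻¹) = g (g a) := by rw [hg _ h1, q1]
    rcases ha with rfl | rfl | rfl | rfl
    · rw [map_zero] at q1 q2
      rw [map_zero] at q2
      rw [F1 m hm 1 M.one_mem (by rw [hqm, hq.one]), F1 _ h1 1 M.one_mem (by rw [q1, hq.one]),
        F1 _ h2 1 M.one_mem (by rw [q2, hq.one]), hqm, q1, q2, r1]
      simp
    · rw [gc] at q1 q2
      rw [gw] at q2
      rw [F1 m hm c' hc' (by rw [hqm, qc]), F1 _ h1 w' hw' (by rw [q1, qw]),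
        F1 _ h2 _ hcw' (by rw [q2, qcw]), hqm, q1, q2, rw', rc, zero_add]
      exact ⟨zdbl _, by (apply c2_of; (try abel_nf); (try simp (disch := norm_num) only [smeven, add_zero, zero_add])), ηc⟩
    · rw [gw] at q1 q2
      rw [map_add, gc, gw] at q2
      have q2' : q (k * (k * m * k⁻¹) * k⁻¹) = c := by rw [q2]; (apply c2_of; (try abel_nf); (try simp (disch := norm_num) only [smeven, add_zero, zero_add]))
      rw [F1 m hm w' hw' (by rw [hqm, qw]), F1 _ h1 _ hcw' (by rw [q1, qcw]),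
        F1 _ h2 c' hc' (by rw [q2', qc]), hqm, q1, q2', rw', rc, add_zero]
      exact ⟨zdbl _, by (apply c2_of; (try abel_nf); (try simp (disch := norm_num) only [smeven, add_zero, zero_add])), ηw⟩
    · rw [map_add, gc, gw] at q1 q2
      have q1' : q (k * m * k⁻¹) = c := by rw [q1]; (apply c2_of; (try abel_nf); (try simp (disch := norm_num) only [smeven, add_zero, zero_add]))
      have q2' : q (k * (k * m * k⁻¹) * k⁻¹) = w := by rw [hg _ h1, q1', gc]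
      rw [F1 m hm _ hcw' (by rw [hqm, qcw]), F1 _ h1 c' hc' (by rw [q1', qc]),
        F1 _ h2 w' hw' (by rw [q2', qw]), hqm, q1', q2', rw', rc, add_zero]
      exact ⟨zdbl _, by (apply c2_of; (try abel_nf); (try simp (disch := norm_num) only [smeven, add_zero, zero_add])), by rw [map_add, ηc, ηw, add_zero]⟩
  intro m hm
  rw [trm m hm]
  obtain ⟨x, hx, hv⟩ := hdec (q m)
  rcases hx with rfl | rfl
  · have ha : q m = 0 ∨ q m = c ∨ q m = w ∨ q m = c + w := by simpa using hv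
    obtain ⟨h1, _, h3⟩ := S4 _ ha m hm rfl
    rw [h1, h3, zero_mul]
  · -- `m = m₀ f'` with `q m₀` in the four-group
    obtain ⟨m₀, hm₀, qm₀⟩ := hq.surj (q m + x)
    have ha : q m + x = 0 ∨ q m + x = c ∨ q m + x = w ∨ q m + x = c + w := by
      rcases hv with h | h | h | h
      · left; rw [h, dbl]
      · right; left; rw [h]; (apply c2_of; (try abel_nf); (try simp (disch := norm_num) only [smeven, add_zero, zero_add]))
      · right; right; left; rw [h]; (apply c2_of; (try abel_nf); (try simp (disch := norm_num) only [smeven, add_zero, zero_add]))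
      · right; right; right; rw [h]; (apply c2_of; (try abel_nf); (try simp (disch := norm_num) only [smeven, add_zero, zero_add]))
    obtain ⟨h1, h2, h3⟩ := S4 _ ha m₀ hm₀ qm₀
    have e1 : q m = q (m₀ * f') := by
      rw [hq.add _ hm₀ _ hf', qm₀, qf]; (apply c2_of; (try abel_nf); (try simp (disch := norm_num) only [smeven, add_zero, zero_add]))
    have e2 : q (k * m * k⁻¹) = q (k * m₀ * k⁻¹ * f') := by
      rw [hq.add _ (hkm _ hm₀) _ hf', hg m hm, hg m₀ hm₀, e1, hq.add _ hm₀ _ hf', map_add, qf, gf]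
    have e3 : q (k * (k * m * k⁻¹) * k⁻¹) = q (k * (k * m₀ * k⁻¹) * k⁻¹ * f') := by
      rw [hq.add _ (hkm _ (hkm _ hm₀)) _ hf', hg _ (hkm m hm), hg _ (hkm _ hm₀), e2,
        hq.add _ (hkm _ hm₀) _ hf', map_add, qf, gf]
    rw [F1 m hm _ (M.mul_mem hm₀ hf') e1, F1 _ (hkm m hm) _ (M.mul_mem (hkm _ hm₀) hf') e2,
      F1 _ (hkm _ (hkm m hm)) _ (M.mul_mem (hkm _ (hkm _ hm₀)) hf') e3, F2 _ hm₀,
      F2 _ (hkm _ hm₀), F2 _ (hkm _ (hkm _ hm₀))]
    have h4 := congrArg Bf h2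
    rw [map_add, map_add, map_zero] at h4
    have h5 : η (q m) = 1 := by
      rw [e1, hq.add _ hm₀ _ hf', map_add, h3, qf, ηf, zero_add]
    rw [h5, one_mul]
    generalize r (m₀ * m₀) = A1 at *
    generalize r (k * m₀ * k⁻¹ * (k * m₀ * k⁻¹)) = A2 at *
    generalize r (k * (k * m₀ * k⁻¹) * k⁻¹ * (k * (k * m₀ * k⁻¹) * k⁻¹)) = A3 at *
    generalize Bf (q m₀) = B1 at *
    generalize Bf (q (k * m₀ * k⁻¹)) = B2 at *
    generalize Bf (q (k * (k * m₀ * k⁻¹) * k⁻¹)) = B3 at *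
    generalize r (f' * f') = K at *
    have aux : ∀ A1 A2 A3 B1 B2 B3 K : ZMod 2, A1 + A2 + A3 = 0 → B1 + B2 + B3 = 0 →
      A1 + K + B1 + (A2 + K + B2) + (A3 + K + B3) = K := by decide
    exact aux _ _ _ _ _ _ _ h1 h4

end

end Pool.Agent.Work.MP_cd0fff_al
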