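import Pool.Agent.Work.MP_cd0fff_al.Suff3

/-!
A transfer argument giving subgroups of index two.
-/

set_option linter.unusedSectionVars false

universe u

namespace Pool.Agent.Work.MP_cd0fff_al

open Subgroup Module MulAction

variable {G : Type u} [Group G]

theorem transfer_term {S : Subgroup G}
    (ϕ : S →* Multiplicative (ZMod 2)) {y : G} {n : ℕ}
    (h1 : ∀ g (h : g⁻¹ * y * g ∈ S), ϕ ⟨_, h⟩ = Multiplicative.ofAdd 1)
    (h2 : ∀ g (k : ℕ) (h : g⁻¹ * (y * y) ^ k * g ∈ S), ϕ ⟨_, h⟩ = 1) {N : ℕ} (hdvd : N ∣ 2 ^ n)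
    (g : G) (h : g⁻¹ * y ^ N * g ∈ S) :
    ϕ ⟨_, h⟩ = Multiplicative.ofAdd ((N : ℕ) : ZMod 2) := by
  obtain ⟨m, _, rfl⟩ := (Nat.dvd_prime_pow Nat.prime_two).1 hdvd
  rcases Nat.eq_zero_or_pos m with h0 | h0
  · subst h0
    have := h1 g (by rw [pow_zero, pow_one] at h; exact h)
    simp only [pow_zero, pow_one, Nat.cast_one]
    exact this
  · obtain ⟨j, rfl⟩ := Nat.exists_eq_succ_of_ne_zero h0.ne'
    have hN2 : 2 ^ j.succ = 2 * 2 ^ j := by rw [Nat.succ_eq_add_one, pow_succ']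
    have e1 : y ^ 2 ^ j.succ = (y * y) ^ (2 ^ j) := by rw [hN2, pow_mul, pow_two]
    have h3 := h2 g (2 ^ j) (by rw [← e1]; exact h)
    have h4 : ((2 ^ j.succ : ℕ) : ZMod 2) = 0 := by
      rw [hN2]
      push_cast
      have : (2 : ZMod 2) = 0 := by decide
      rw [this, zero_mul]
    rw [h4, ofAdd_zero, ← h3]
    congr 2
    rw [e1]

theorem transfer_two [Finite G] {S : Subgroup G} (hodd : Odd S.index)
    (ϕ : S →* Multiplicative (ZMod 2)) {y : G} {n : ℕ} (hy : y ^ 2 ^ n = 1)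
    (h1 : ∀ g (h : g⁻¹ * y * g ∈ S), ϕ ⟨_, h⟩ = Multiplicative.ofAdd 1)
    (h2 : ∀ g (k : ℕ) (h : g⁻¹ * (y * y) ^ k * g ∈ S), ϕ ⟨_, h⟩ = 1) :
    MonoidHom.transfer ϕ y = Multiplicative.ofAdd 1 := by
  classical
  have : Fintype (Quotient (orbitRel (zpowers y) (G ⧸ S))) := Fintype.ofFinite _
  rw [MonoidHom.transfer_eq_prod_quotient_orbitRel_zpowers_quot]
  have key : ∀ q : Quotient (orbitRel (zpowers y) (G ⧸ S)),
      ϕ ⟨q.out.out⁻¹ * y ^ Function.minimalPeriod (y • ·) q.out * q.out.out,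
            QuotientGroup.out_conj_pow_minimalPeriod_mem S y q.out⟩ =
        Multiplicative.ofAdd ((Function.minimalPeriod (y • ·) q.out : ℕ) : ZMod 2) := by
    intro q
    apply transfer_term ϕ (n := n) h1 h2
    apply Function.IsPeriodicPt.minimalPeriod_dvd
    rw [Function.IsPeriodicPt, Function.IsFixedPt, smul_iterate_apply, hy, one_smul]
  rw [Finset.prod_congr rfl (fun q _ => key q), ← ofAdd_sum]
  congr 1
  rw [← Nat.cast_sum, ← Subgroup.index_eq_sum_minimalPeriod]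
  obtain ⟨m, hm⟩ := hodd
  rw [hm]
  push_cast
  have : (2 : ZMod 2) = 0 := by decide
  rw [this, zero_mul, zero_add]

/-- the homomorphism with kernel a subgroup of index two -/
noncomputable def halfHom {M S : Subgroup G} (h : Half M S) : S →* Multiplicative (ZMod 2) where
  toFun s := Multiplicative.ofAdd (ind M S s)
  map_one' := by
    show Multiplicative.ofAdd (ind M S 1) = 1
    rw [ind_mem M.one_mem, ofAdd_zero]
  map_mul' := by
    intro s t
    show Multiplicative.ofAdd (ind M S (s * t)) = _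
    rw [h.addOn_ind s s.2 t t.2, ofAdd_add]

theorem index_two_of_transfer [Finite G] {S : Sylow 2 G} {M : Subgroup G} (hM : Half M S) {y : G}
    (hy : y ∈ (S : Subgroup G)) (h1 : ∀ g, g⁻¹ * y * g ∈ (S : Subgroup G) → g⁻¹ * y * g ∉ M)
    (h2 : ∀ g (k : ℕ), g⁻¹ * (y * y) ^ k * g ∈ (S : Subgroup G) → g⁻¹ * (y * y) ^ k * g ∈ M) :
    ∃ H : Subgroup G, H.index = 2 ∧ y ∉ H := by
  obtain ⟨n, hn⟩ := two_elt hy
  have hodd : Odd (S : Subgroup G).index := odd_index_of_sylow_le S le_rfl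
  have h3 := transfer_two hodd (halfHom hM) hn (fun g h => by
      show Multiplicative.ofAdd (ind M S (g⁻¹ * y * g)) = _
      rw [ind_not_mem h (h1 g h)]) (fun g k h => by
      show Multiplicative.ofAdd (ind M S (g⁻¹ * (y * y) ^ k * g)) = _
      rw [ind_mem (h2 g k h), ofAdd_zero])
  set τ := MonoidHom.transfer (halfHom hM) with hτ
  have hτy : τ y ≠ 1 := by
    rw [h3]
    decide
  refine ⟨τ.ker, ?_, fun h => hτy h⟩
  have hsurj : Function.Surjective τ := by
    intro w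
    by_cases hw : w = 1
    · exact ⟨1, by rw [map_one, hw]⟩
    · refine ⟨y, ?_⟩
      rw [h3]
      revert w
      decide
  rw [Subgroup.index_ker, MonoidHom.range_eq_top.2 hsurj]
  simp

end Pool.Agent.Work.MP_cd0fff_al
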