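import Pool.Agent.Work.MP_cd0fff_al.Bridge

/-!
Lemma U1 applied to a section of `E` defined by a second link.
-/

universe u

namespace Pool.Agent.Work.MP_cd0fff_al

open Subgroup Module

variable {G : Type u} [Group G]

theorem half_of_add [Finite G] {E : Subgroup G} {φ : G → ZMod 2} (hφ : AddOn E φ) {a : G}
    (ha : a ∈ E) (ha' : φ a = 1) : Nat.card E = 2 * Nat.card (kr E φ hφ) :=
  (half_kr ha ha').card

theorem U1_group [Finite G] (hO : PropertyO G) {S : Sylow 2 G} {l m l' g : G → ZMod 2}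
    (hl : AddOn (S : Subgroup G) l) (hm : AddOn (S : Subgroup G) m)
    (hl' : AddOn (S : Subgroup G) l') {x₀ : G} (hx₀ : x₀ ∈ (S : Subgroup G)) (hx₁ : l x₀ = 1)
    (hg : Lk (S : Subgroup G) m l' g)
    (hchar : ∀ e ∈ kr (S : Subgroup G) l hl,
      (∀ e' ∈ kr (S : Subgroup G) l hl, m e' * l' e + m e * l' e' = 0) → m e * l' e = 0 →
      m e = 0 ∧ l' e = 0)
    {e₁ : G} (he₁ : e₁ ∈ kr (S : Subgroup G) l hl) (hme₁ : m e₁ = 1) (hle₁ : l' e₁ = 1)
    (R : Subgroup G) (hR : ∀ x, x ∈ R ↔ x ∈ kr (S : Subgroup G) l hl ∧ m x = 0 ∧ l' x = 0) :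
    (∀ m' h', AddOn (S : Subgroup G) m' → Lk (S : Subgroup G) l m' h' → ∀ r ∈ R, m' r = 0) ∨
    Nat.card R = 4 * Nat.card (Ph (kr (S : Subgroup G) l hl)) := by
  classical
  set E := kr (S : Subgroup G) l hl with hEdef
  have hH : Half E S := half_kr hx₀ hx₁
  have hmE : AddOn E m := hm.mono kr_le
  have hlE : AddOn E l' := hl'.mono kr_le
  have hRE : R ≤ E := fun x hx => ((hR x).1 hx).1
  have hPm : ∀ p ∈ Ph E, m p = 0 := fun p hp => hp.2 m hmE
  have hPl : ∀ p ∈ Ph E, l' p = 0 := fun p hp => hp.2 l' hlE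
  have hPS : Ph E ≤ (S : Subgroup G) := (Ph_le E).trans kr_le
  have hgP : AddOn (Ph E) g := hg.addOn (Ph E) hPS hPm
  set K := kr (Ph E) g hgP with hK
  have hKP : K ≤ Ph E := kr_le
  have hKR : K ≤ R := by
    intro x hx
    rw [hR]
    exact ⟨Ph_le E (hKP hx), hPm x (hKP hx), hPl x (hKP hx)⟩
  have hPn : ∀ z ∈ normalizer (E : Set G), z ∈ normalizer (Ph E : Set G) := fun z hz => Ph_norm hz
  -- `S` normalises `K`
  have hSK : ∀ x ∈ (S : Subgroup G), ∀ p ∈ K, x * p * x⁻¹ ∈ K := by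
    intro x hx p hp
    refine ⟨norm_conj (hPn x (hH.le_normalizer hx)) (hKP hp), ?_⟩
    rw [hg.conj hm hx (hPS (hKP hp)), hPm p (hKP hp), hPl p (hKP hp), hp.2]
    ring
  have hSK' : (S : Subgroup G) ≤ normalizer (K : Set G) := le_normalizer_of hSK
  -- commutators and squares
  have hcommPh : ∀ e ∈ E, ∀ r ∈ E, e * r * e⁻¹ * r⁻¹ ∈ Ph E := by
    intro e he r hr
    refine ⟨E.mul_mem (E.mul_mem (E.mul_mem he hr) (E.inv_mem he)) (E.inv_mem hr), ?_⟩
    intro φ hφ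
    rw [hφ _ (E.mul_mem (E.mul_mem he hr) (E.inv_mem he)) _ (E.inv_mem hr), hφ.conj he hr,
      hφ.inv hr, zdbl]
  have hcomm : ∀ e ∈ E, ∀ r ∈ R, e * r * e⁻¹ * r⁻¹ ∈ K := by
    intro e he r hr
    obtain ⟨hrE, hrm, hrl⟩ := (hR r).1 hr
    refine ⟨hcommPh e he r hrE, ?_⟩
    rw [hg.comm hm hl' (kr_le he) (kr_le hrE), hrm, hrl]
    ring
  have hsq : ∀ r ∈ R, r * r ∈ K := by
    intro r hr
    obtain ⟨hrE, hrm, hrl⟩ := (hR r).1 hr
    refine ⟨sq_mem_Ph hrE, ?_⟩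
    rw [hg.sq (kr_le hrE), hrm]
    ring
  have hRn : R ≤ normalizer (K : Set G) := fun x hx => hSK' (kr_le (hRE hx))
  obtain ⟨V, _, _, _, q, hq, hcard⟩ := exists_quo hKR hRn hsq
  -- `E` acts trivially on `R / K`
  have hEA : ∀ e ∈ E, ∀ a ∈ R, e * a * e⁻¹ ∈ R ∧ q (e * a * e⁻¹) = q a := by
    intro e he a ha
    have h1 := hcomm e he a ha
    have h2 : e * a * e⁻¹ ∈ R := by
      have := R.mul_mem (hKR h1) ha
      rwa [inv_mul_cancel_right] at this
    exact ⟨h2, (hq.eq_iff h2 ha).2 h1⟩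
  -- elements normalising `E` and `K` normalise `R`
  have hchar2 : ∀ e ∈ E, (∀ e' ∈ E, e' * e * e'⁻¹ * e⁻¹ ∈ K) → e * e ∈ K → e ∈ R := by
    intro e he h1 h2
    rw [hR]
    refine ⟨he, hchar e he ?_ ?_⟩
    · intro e' he'
      have h3 := (h1 e' he').2
      rw [hg.comm hm hl' (kr_le he') (kr_le he)] at h3
      exact h3
    · have h3 := h2.2
      rwa [hg.sq (kr_le he)] at h3
  have hRnorm : ∀ z ∈ normalizer (E : Set G), z ∈ normalizer (K : Set G) →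
      z ∈ normalizer (R : Set G) := by
    intro z hz hzK
    apply mem_normalizer_fin
    intro y hy
    apply hchar2 _ (norm_conj hz (hRE hy))
    · intro e' he'
      have h1 := hcomm _ (norm_conj' hz he') y hy
      have h2 := norm_conj hzK h1
      have e1 : z * (z⁻¹ * e' * z * y * (z⁻¹ * e' * z)⁻¹ * y⁻¹) * z⁻¹ =
          e' * (z * y * z⁻¹) * e'⁻¹ * (z * y * z⁻¹)⁻¹ := by group
      rwa [e1] at h2
    · have h2 := norm_conj hzK (hsq y hy)
      have e1 : z * (y * y) * z⁻¹ = z * y * z⁻¹ * (z * y * z⁻¹) := by group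
      rwa [e1] at h2
  -- the distinguished vector
  have hf1 : e₁ * e₁ ∈ Ph E := sq_mem_Ph he₁
  have hgf : g (e₁ * e₁) = 1 := by rw [hg.sq (kr_le he₁), hme₁, hle₁, mul_one]
  have hPR : Ph E ≤ R := fun p hp => (hR p).2 ⟨Ph_le E hp, hPm p hp, hPl p hp⟩
  set f := q (e₁ * e₁) with hf
  have hqP : ∀ p ∈ Ph E, (g p = 0 → q p = 0) ∧ (g p = 1 → q p = f) := by
    intro p hp
    constructor
    · intro h
      exact (hq.ker p (hPR hp)).2 ⟨hp, h⟩
    · intro h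
      rw [hf, hq.eq_iff (hPR hp) (hPR hf1)]
      refine ⟨(Ph E).mul_mem hp ((Ph E).inv_mem hf1), ?_⟩
      rw [hgP p hp _ ((Ph E).inv_mem hf1), hgP.inv hf1, hgf, h]
      decide
  have hf0 : f ≠ 0 := by
    intro h
    rw [hf, hq.ker _ (hPR hf1)] at h
    have h2 := h.2
    rw [hgf] at h2
    exact one_ne_zero h2
  have hT := TT_inv (S := S) hH hq hEA
  have hTf : ∀ t ∈ TT (S : Subgroup G) E R K q, t f = f := by
    rintro t ⟨z, hz, hzR, hzK, ht⟩
    rw [hf, ht _ (hPR hf1)]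
    have hzE := hz.mem_normalizer hH
    have h1 : z * (e₁ * e₁) * z⁻¹ ∈ Ph E := norm_conj (hPn z hzE) hf1
    refine (hqP _ h1).2 ?_
    by_contra hcon
    have h2 : g (z * (e₁ * e₁) * z⁻¹) = 0 := by
      rcases zmod2_cases (g (z * (e₁ * e₁) * z⁻¹)) with h | h
      · exact h
      · exact absurd h hcon
    have h3 : z * (e₁ * e₁) * z⁻¹ ∈ K := ⟨h1, h2⟩
    have h4 := norm_conj' hzK h3
    have e1 : z⁻¹ * (z * (e₁ * e₁) * z⁻¹) * z = e₁ * e₁ := by group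
    rw [e1] at h4
    have h5 := h4.2
    rw [hgf] at h5
    exact one_ne_zero h5
  have hY : ∀ Y : Submodule (ZMod 2) V, f ∉ Y →
      ∃ t ∈ TT (S : Subgroup G) E R K q, ∀ y ∈ Y, t y ∈ Y := by
    intro Y hfY
    have hYE : pre hq Y ≤ E := fun a ha => hRE ha.1
    obtain ⟨k, hk, hkS⟩ := exists_conj_norm hO hH (Y := pre hq Y) hYE
      (le_normalizer_of (by
        rintro e he a ⟨ha, ha'⟩
        obtain ⟨h1, h2⟩ := hEA e he a ha
        exact ⟨h1, by rw [h2]; exact ha'⟩))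
    have hz : Out (S : Subgroup G) E (k * x₀ * k⁻¹) :=
      (out_self hx₀ ((not_mem_kr hx₀).2 hx₁)).conj hk
    have hzE := hz.mem_normalizer hH
    have hzY := hkS x₀ hx₀
    set z := k * x₀ * k⁻¹ with hzdef
    have hzK : z ∈ normalizer (K : Set G) := by
      apply mem_normalizer_fin
      intro p hp
      have h1 : p ∈ pre hq Y := ⟨hKR hp, by
        rw [(hq.ker p (hKR hp)).2 hp]; exact Y.zero_mem⟩
      have h2 := (norm_conj hzY h1).2
      have h3 : z * p * z⁻¹ ∈ Ph E := norm_conj (hPn z hzE) (hKP hp)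
      refine ⟨h3, ?_⟩
      rcases zmod2_cases (g (z * p * z⁻¹)) with h | h
      · exact h
      · exfalso
        apply hfY
        rw [← (hqP _ h3).2 h]
        exact h2
    have hzR := hRnorm z hzE hzK
    obtain ⟨κ, hκ⟩ := hq.induced hzR hzK
    refine ⟨κ, ⟨z, hz, hzR, hzK, hκ⟩, ?_⟩
    intro y hy
    obtain ⟨a, ha, rfl⟩ := hq.surj y
    rw [hκ a ha]
    exact (norm_conj hzY (show a ∈ pre hq Y from ⟨ha, hy⟩)).2
  rcases lemma_U1 hT hf0 hTf hY with htriv | hcard8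
  · left
    intro m' h' hm' hk' r hr
    have hx₀K : x₀ ∈ normalizer (K : Set G) := hSK' hx₀
    have hx₀R := hRnorm x₀ (hH.le_normalizer hx₀) hx₀K
    obtain ⟨κ, hκ⟩ := hq.induced hx₀R hx₀K
    have h1 := htriv κ ⟨x₀, out_self hx₀ ((not_mem_kr hx₀).2 hx₁), hx₀R, hx₀K, hκ⟩ (q r)
    rw [hκ r hr, hq.eq_iff (norm_conj hx₀R hr) hr] at h1
    have h2 := (hKP h1).2 h' (hk'.addOn E kr_le (fun e he => he.2))
    rw [hk'.comm hl hm' hx₀ (kr_le (hRE hr)), hx₁, (hRE hr).2] at h2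
    have aux : ∀ a b : ZMod 2, 1 * a + 0 * b = 0 → a = 0 := by decide
    exact aux _ _ h2
  · right
    rw [hcard8] at hcard
    have h1 : Nat.card (Ph E) = 2 * Nat.card K := half_of_add hgP hf1 hgf
    rw [h1, ← hcard]
    ring

/-- Case (i): the second link is `L(m, m)`. -/
theorem case_i [Finite G] (hO : PropertyO G) {S : Sylow 2 G} {l m g : G → ZMod 2}
    (hl : AddOn (S : Subgroup G) l) (hm : AddOn (S : Subgroup G) m)
    {x₀ : G} (hx₀ : x₀ ∈ (S : Subgroup G)) (hx₁ : l x₀ = 1)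
    (hg : Lk (S : Subgroup G) m m g)
    {e₁ : G} (he₁ : e₁ ∈ kr (S : Subgroup G) l hl) (hme₁ : m e₁ = 1) :
    (∀ m' h', AddOn (S : Subgroup G) m' → Lk (S : Subgroup G) l m' h' →
      ∀ r ∈ kr (S : Subgroup G) l hl, m r = 0 → m' r = 0) ∨
    finrank (ZMod 2) (Hm (kr (S : Subgroup G) l hl)) = 3 := by
  set E := kr (S : Subgroup G) l hl with hEdef
  have hmE : AddOn E m := hm.mono kr_le
  rcases U1_group hO hl hm hm hx₀ hx₁ hg (by
    intro e _ _ h
    have aux : ∀ a : ZMod 2, a * a = 0 → a = 0 := by decide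
    exact ⟨aux _ h, aux _ h⟩) he₁ hme₁ hme₁ (kr E m hmE) (by
    intro x
    rw [mem_kr]
    tauto) with h | h
  · left
    intro m' h' hm' hk' r hr hmr
    exact h m' h' hm' hk' r ⟨hr, hmr⟩
  · right
    obtain ⟨V, _, _, _, q, hq, hcard⟩ := exists_quo (Ph_le E)
      ((Subgroup.le_normalizer).trans (normalizer_le_Ph E)) (fun a ha => sq_mem_Ph ha)
    have h1 : Nat.card E = 2 * Nat.card (kr E m hmE) := half_of_add hmE he₁ hme₁
    rw [h1, h, card_quo hq] at hcard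
    have h2 : 0 < Nat.card (Ph E) := Nat.card_pos
    have h3 : 2 ^ finrank (ZMod 2) (Hm E) = 2 ^ 3 := by
      apply Nat.eq_of_mul_eq_mul_right h2
      rw [hcard]; ring
    exact Nat.pow_right_injective (le_refl 2) h3

/-- Case (ii): the second link is `L(m, l')` with `l, m, l'` independent. -/
theorem case_ii [Finite G] (hO : PropertyO G) {S : Sylow 2 G} {l m l' g : G → ZMod 2}
    (hl : AddOn (S : Subgroup G) l) (hm : AddOn (S : Subgroup G) m)
    (hl' : AddOn (S : Subgroup G) l')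
    {x₀ : G} (hx₀ : x₀ ∈ (S : Subgroup G)) (hx₁ : l x₀ = 1)
    (hg : Lk (S : Subgroup G) m l' g)
    {e₁ e₂ : G} (he₁ : e₁ ∈ kr (S : Subgroup G) l hl) (hme₁ : m e₁ = 1) (hle₁ : l' e₁ = 0)
    (he₂ : e₂ ∈ kr (S : Subgroup G) l hl) (hme₂ : m e₂ = 0) (hle₂ : l' e₂ = 1) :
    (∀ m' h', AddOn (S : Subgroup G) m' → Lk (S : Subgroup G) l m' h' →
      ∀ r ∈ kr (S : Subgroup G) l hl, m r = 0 → l' r = 0 → m' r = 0) ∨
    finrank (ZMod 2) (Hm (kr (S : Subgroup G) l hl)) = 4 := by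
  set E := kr (S : Subgroup G) l hl with hEdef
  have hmE : AddOn E m := hm.mono kr_le
  have hlE : AddOn (kr E m hmE) l' := hl'.mono (kr_le.trans kr_le)
  rcases U1_group hO hl hm hl' hx₀ hx₁ hg (by
    intro e _ h _
    have h1 := h e₁ he₁
    have h2 := h e₂ he₂
    rw [hme₁, hle₁] at h1
    rw [hme₂, hle₂] at h2
    have aux : ∀ a b : ZMod 2, 1 * a + b * 0 = 0 → 0 * a + b * 1 = 0 → b = 0 ∧ a = 0 := by decide
    exact aux _ _ h1 h2) (E.mul_mem he₁ he₂) (by rw [hmE _ he₁ _ he₂, hme₁, hme₂, add_zero])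
    (by rw [hl' _ (kr_le he₁) _ (kr_le he₂), hle₁, hle₂, zero_add]) (kr (kr E m hmE) l' hlE) (by
    intro x
    rw [mem_kr, mem_kr]
    tauto) with h | h
  · left
    intro m' h' hm' hk' r hr hmr hlr
    exact h m' h' hm' hk' r ⟨⟨hr, hmr⟩, hlr⟩
  · right
    obtain ⟨V, _, _, _, q, hq, hcard⟩ := exists_quo (Ph_le E)
      ((Subgroup.le_normalizer).trans (normalizer_le_Ph E)) (fun a ha => sq_mem_Ph ha)
    have h1 : Nat.card E = 2 * Nat.card (kr E m hmE) := half_of_add hmE he₁ hme₁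
    have h1' : Nat.card (kr E m hmE) = 2 * Nat.card (kr (kr E m hmE) l' hlE) :=
      half_of_add hlE (a := e₂) ⟨he₂, hme₂⟩ hle₂
    rw [h1, h1', h, card_quo hq] at hcard
    have h2 : 0 < Nat.card (Ph E) := Nat.card_pos
    have h3 : 2 ^ finrank (ZMod 2) (Hm E) = 2 ^ 4 := by
      apply Nat.eq_of_mul_eq_mul_right h2
      rw [hcard]; ring
    exact Nat.pow_right_injective (le_refl 2) h3

end Pool.Agent.Work.MP_cd0fff_al
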